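import Pool.Agent.H43.SL.Moment
import Pool.Agent.H43.G.R_pool_sql_team_seeded_620a6dc7.helper24_UT_.Stm4
import Pool.Agent.H43.G.R_pool_sql_team_seeded_f72693b1.W81.R1.GFun

/-!
The input: primes in progressions in almost all short intervals.
-/

set_option autoImplicit false

namespace Pool.Agent.H43.SL

open Finset Filter
open Pool.Agent.helper24_UT (NN Ed S_SI2)
open Pool.Agent.H442R2.EHI (evt_log_pow evt_log_ge)
open Pool.Agent.H373R2.T7 (lamI lamzI lamz)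
open Pool.Agent.W81.R1 (gt gI theta_lam)

/-- primes minus sieve model in progressions in almost all short intervals of length at least `X ^ θ` -/
def SIe (θ : ℝ) : Prop := ∀ A B : ℕ, ∃ E₀ : ℕ, ∀ E₁ : ℕ, ∃ X₀ : ℕ, ∀ X : ℕ, X₀ ≤ X → ∀ z : ℕ,
  (Real.log X) ^ E₀ ≤ z → (z : ℝ) ≤ (Real.log X) ^ E₁ → ∀ q : ℕ, 1 ≤ q → (q : ℝ) ≤ (Real.log X) ^ B →
  ∀ W : ℕ, (X : ℝ) ^ θ ≤ W → W ≤ X →
  ∑ u ∈ range X, NN (Ed z) (u : ℤ) W q ≤ X * (W : ℝ) ^ 2 / (Real.log X) ^ A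

/-- the same with `log` on the primes -/
def SIg (θ : ℝ) : Prop := ∀ A B : ℕ, ∃ E₀ : ℕ, ∀ E₁ : ℕ, ∃ X₀ : ℕ, ∀ X : ℕ, X₀ ≤ X → ∀ z : ℕ,
  (Real.log X) ^ E₀ ≤ z → (z : ℝ) ≤ (Real.log X) ^ E₁ → ∀ q : ℕ, 1 ≤ q → (q : ℝ) ≤ (Real.log X) ^ B →
  ∀ W : ℕ, (X : ℝ) ^ θ ≤ W → W ≤ X →
  ∑ u ∈ range X, NN (gI z) (u : ℤ) W q ≤ X * (W : ℝ) ^ 2 / (Real.log X) ^ A

/-- the known case -/
theorem sie_half (hS : S_SI2) (θ : ℝ) (hθ : 1 / 2 < θ) : SIe θ := by
  intro A B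
  obtain ⟨C, E₀, h⟩ := hS A B
  refine ⟨E₀, fun E₁ => ?_⟩
  obtain ⟨X₀, h1⟩ := h E₁
  obtain ⟨X₁, hX₁⟩ := eventually_atTop.mp (evt_log_pow C (θ - 1 / 2) (by linarith))
  refine ⟨max (max X₀ X₁) 1, fun X hX z hz1 hz2 q hq hqB W hW hWX => ?_⟩
  have hXX₀ : X₀ ≤ X := (le_max_left _ _).trans ((le_max_left _ _).trans hX)
  have hXX₁ : X₁ ≤ X := (le_max_right _ _).trans ((le_max_left _ _).trans hX)
  have hX1 : (0 : ℝ) < X := by exact_mod_cast (le_max_right _ _).trans hX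
  refine h1 X hXX₀ z hz1 hz2 q hq hqB W ?_ hWX
  refine le_trans ?_ hW
  have h2 := hX₁ X hXX₁
  calc (X : ℝ) ^ (1 / 2 : ℝ) * Real.log X ^ C ≤ (X : ℝ) ^ (1 / 2 : ℝ) * (X : ℝ) ^ (θ - 1 / 2) := by gcongr
    _ = (X : ℝ) ^ θ := by rw [← Real.rpow_add hX1]; ring_nf

/-- prime powers -/
noncomputable def dI (m : ℤ) : ℝ := if 1 ≤ m then ArithmeticFunction.vonMangoldt m.toNat -
  (if m.toNat.Prime then Real.log m.toNat else 0) else 0

lemma dI_nonneg (m : ℤ) : 0 ≤ dI m := by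
  unfold dI
  split_ifs with h1 h2
  · rw [ArithmeticFunction.vonMangoldt_apply_prime h2, sub_self]
  · rw [sub_zero]; exact ArithmeticFunction.vonMangoldt_nonneg
  · exact le_rfl

lemma dI_le (m : ℤ) (N : ℕ) (hm : m ≤ N) : dI m ≤ Real.log N := by
  unfold dI
  split_ifs with h1 h2
  · rw [ArithmeticFunction.vonMangoldt_apply_prime h2, sub_self]; exact Real.log_natCast_nonneg N
  · rw [sub_zero]
    refine ArithmeticFunction.vonMangoldt_le_log.trans ?_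
    apply Real.log_le_log
    · have : 1 ≤ m.toNat := by omega
      exact_mod_cast this
    · have : m.toNat ≤ N := by omega
      exact_mod_cast this
  · exact Real.log_natCast_nonneg N

lemma gI_eq_Ed (z : ℕ) (m : ℤ) : gI z m = Ed z m - dI m := by
  unfold gI Ed dI lamI lamzI gt
  split_ifs <;> ring

lemma NN_sub_le (f g : ℤ → ℝ) (u : ℤ) (W q : ℕ) :
    NN (fun m => f m - g m) u W q ≤ 2 * NN f u W q + 2 * NN g u W q := by
  unfold NN
  rw [mul_sum, mul_sum, ← sum_add_distrib]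
  refine sum_le_sum fun r _ => ?_
  rw [sum_sub_distrib]
  set a := ∑ m ∈ (Ioc u (u + W)).filter (fun m => m % (q : ℤ) = (r : ℤ)), f m
  set b := ∑ m ∈ (Ioc u (u + W)).filter (fun m => m % (q : ℤ) = (r : ℤ)), g m
  nlinarith [sq_nonneg (a + b)]

/-- the trivial bound -/
lemma NN_triv (f : ℤ → ℝ) (u : ℤ) (W q : ℕ) (hq : 1 ≤ q) :
    NN f u W q ≤ (∑ m ∈ Ioc u (u + W), |f m|) ^ 2 := by
  have hq0 : (q : ℤ) ≠ 0 := by omega
  have h1 : ∑ m ∈ Ioc u (u + W), |f m| = ∑ r ∈ range q,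
      ∑ m ∈ (Ioc u (u + W)).filter (fun m => m % (q : ℤ) = (r : ℤ)), |f m| := by
    rw [← sum_fiberwise_of_maps_to (s := Ioc u (u + W)) (t := range q) (g := fun m => (m % (q : ℤ)).toNat)]
    · refine sum_congr rfl fun r hr => ?_
      congr 1
      ext m
      rw [mem_filter, mem_filter]
      have h0 := Int.emod_nonneg m hq0
      constructor
      · rintro ⟨h2, h3⟩; exact ⟨h2, by omega⟩
      · rintro ⟨h2, h3⟩; exact ⟨h2, by omega⟩
    · intro m _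
      rw [mem_range]
      have h0 := Int.emod_nonneg m hq0
      have h2 := Int.emod_lt_of_pos m (show (0 : ℤ) < q by omega)
      omega
  rw [h1]
  unfold NN
  calc ∑ r ∈ range q, (∑ m ∈ (Ioc u (u + W)).filter (fun m => m % (q : ℤ) = (r : ℤ)), f m) ^ 2 ≤
        ∑ r ∈ range q, (∑ m ∈ (Ioc u (u + W)).filter (fun m => m % (q : ℤ) = (r : ℤ)), |f m|) ^ 2 := by
        refine sum_le_sum fun r _ => ?_
        rw [← sq_abs]
        exact pow_le_pow_left₀ (abs_nonneg _) (abs_sum_le_sum_abs _ _) 2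
    _ ≤ _ := by
        apply sum_sq_le_sq_sum_of_nonneg
        intro r _
        exact sum_nonneg fun m _ => abs_nonneg _

lemma sum_shift' (g : ℤ → ℝ) (u : ℤ) (W : ℕ) : ∑ m ∈ Ioc u (u + W), g m = ∑ i ∈ Icc 1 W, g (u + (i : ℕ)) := by
  refine Finset.sum_nbij' (fun m : ℤ => (m - u).toNat) (fun i : ℕ => u + i) ?_ ?_ ?_ ?_ ?_
  · intro m hm; rw [mem_Ioc] at hm; rw [mem_Icc]; omega
  · intro i hi; rw [mem_Icc] at hi; rw [mem_Ioc]; omega
  · intro m hm; rw [mem_Ioc] at hm; show u + (((m - u).toNat : ℕ) : ℤ) = m; omega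
  · intro i _; show (u + (i : ℤ) - u).toNat = i; omega
  · intro m hm; rw [mem_Ioc] at hm; congr 1; omega

/-- the prime powers in all windows -/
lemma dI_windows (X W : ℕ) (hX : 1 ≤ X) (hWX : W ≤ X) :
    ∑ u ∈ range X, (∑ m ∈ Ioc (u : ℤ) (u + W), |dI m|) ^ 2 ≤
      (W * Real.log ((2 * X : ℕ) : ℝ)) * (W * (2 * Real.sqrt ((2 * X : ℕ) : ℝ) * Real.log ((2 * X : ℕ) : ℝ))) := by
  have hlog : 0 ≤ Real.log ((2 * X : ℕ) : ℝ) := Real.log_natCast_nonneg _
  have h1 : ∀ u ∈ range X, ∑ m ∈ Ioc (u : ℤ) (u + W), |dI m| ≤ W * Real.log ((2 * X : ℕ) : ℝ) := by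
    intro u hu
    rw [mem_range] at hu
    calc ∑ m ∈ Ioc (u : ℤ) (u + W), |dI m| ≤ ∑ m ∈ Ioc (u : ℤ) (u + W), Real.log ((2 * X : ℕ) : ℝ) := by
          refine sum_le_sum fun m hm => ?_
          rw [mem_Ioc] at hm
          rw [abs_of_nonneg (dI_nonneg m)]
          exact dI_le m _ (by push_cast; omega)
      _ = W * Real.log ((2 * X : ℕ) : ℝ) := by
          rw [sum_const, Int.card_Ioc, nsmul_eq_mul]
          congr 1
          have : ((u : ℤ) + W - u).toNat = W := by omega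
          rw [this]
  have h2 : ∑ u ∈ range X, ∑ m ∈ Ioc (u : ℤ) (u + W), |dI m| ≤
      W * (2 * Real.sqrt ((2 * X : ℕ) : ℝ) * Real.log ((2 * X : ℕ) : ℝ)) := by
    have h3 : ∀ u ∈ range X, ∑ m ∈ Ioc (u : ℤ) (u + W), |dI m| = ∑ i ∈ Icc 1 W, |dI ((u : ℤ) + (i : ℕ))| :=
      fun u _ => sum_shift' _ _ _
    rw [sum_congr rfl h3, sum_comm]
    calc ∑ i ∈ Icc 1 W, ∑ u ∈ range X, |dI ((u : ℤ) + (i : ℕ))| ≤
          ∑ i ∈ Icc 1 W, (2 * Real.sqrt ((2 * X : ℕ) : ℝ) * Real.log ((2 * X : ℕ) : ℝ)) := by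
          refine sum_le_sum fun i hi => ?_
          rw [mem_Icc] at hi
          refine le_trans ?_ (theta_lam (2 * X))
          have himg : ∑ u ∈ range X, |dI ((u : ℤ) + (i : ℕ))| = ∑ n ∈ (range X).image (fun u => u + i), |dI (n : ℤ)| := by
            rw [sum_image (fun a _ b _ hab => by simpa using hab)]
            refine sum_congr rfl fun u _ => ?_
            push_cast
            rfl
          rw [himg]
          have hterm : ∀ n ∈ Icc 1 (2 * X), |ArithmeticFunction.vonMangoldt n -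
              (if n.Prime then Real.log n else 0)| = |dI (n : ℤ)| := by
            intro n hn
            rw [mem_Icc] at hn
            have h1 : (1 : ℤ) ≤ (n : ℤ) := by exact_mod_cast hn.1
            simp only [dI, if_pos h1, Int.toNat_natCast]
          rw [sum_congr rfl hterm]
          refine sum_le_sum_of_subset_of_nonneg ?_ fun _ _ _ => abs_nonneg _
          intro n hn
          rw [mem_image] at hn
          obtain ⟨u, hu, rfl⟩ := hn
          rw [mem_range] at hu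
          rw [mem_Icc]
          omega
      _ = _ := by rw [sum_const, Nat.card_Icc, nsmul_eq_mul, Nat.add_sub_cancel]
  calc ∑ u ∈ range X, (∑ m ∈ Ioc (u : ℤ) (u + W), |dI m|) ^ 2 ≤
        ∑ u ∈ range X, (W * Real.log ((2 * X : ℕ) : ℝ)) * ∑ m ∈ Ioc (u : ℤ) (u + W), |dI m| := by
        refine sum_le_sum fun u hu => ?_
        rw [sq]
        exact mul_le_mul_of_nonneg_right (h1 u hu) (sum_nonneg fun _ _ => abs_nonneg _)
    _ = (W * Real.log ((2 * X : ℕ) : ℝ)) * ∑ u ∈ range X, ∑ m ∈ Ioc (u : ℤ) (u + W), |dI m| := by rw [mul_sum]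
    _ ≤ _ := by gcongr

theorem sig_of_sie (θ : ℝ) (h : SIe θ) : SIg θ := by
  intro A B
  obtain ⟨E₀, h1⟩ := h (A + 1) B
  refine ⟨E₀, fun E₁ => ?_⟩
  obtain ⟨X₀, h2⟩ := h1 E₁
  obtain ⟨X₁, hX₁⟩ := eventually_atTop.mp ((evt_log_pow (A + 4) (1 / 2) (by norm_num)).and
    ((evt_log_ge 16).and (eventually_ge_atTop 2)))
  refine ⟨max X₀ X₁, fun X hX z hz1 hz2 q hq hqB W hW hWX => ?_⟩
  have h3 := h2 X ((le_max_left _ _).trans hX) z hz1 hz2 q hq hqB W hW hWX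
  obtain ⟨hp, hL16, hX2⟩ := hX₁ X ((le_max_right _ _).trans hX)
  have hXr : (2 : ℝ) ≤ X := by exact_mod_cast hX2
  set L := Real.log X with hL
  have hL0 : 0 < L := by linarith
  have hX0 : (0 : ℝ) < X := by linarith
  have hlog2 : Real.log ((2 * X : ℕ) : ℝ) ≤ 2 * L := by
    push_cast
    rw [Real.log_mul (by norm_num) (by positivity)]
    have := Real.log_le_log (by norm_num) hXr
    linarith
  have hlog0 : 0 ≤ Real.log ((2 * X : ℕ) : ℝ) := Real.log_natCast_nonneg _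
  have hsq : Real.sqrt ((2 * X : ℕ) : ℝ) ≤ 2 * Real.sqrt X := by
    push_cast
    rw [Real.sqrt_mul (by norm_num)]
    have : Real.sqrt 2 ≤ 2 := by
      rw [Real.sqrt_le_left (by norm_num)]
      norm_num
    gcongr
  have hsx : Real.sqrt X * Real.sqrt X = X := Real.mul_self_sqrt hX0.le
  have hsr : Real.sqrt X = (X : ℝ) ^ (1 / 2 : ℝ) := Real.sqrt_eq_rpow _
  have h4 : ∑ u ∈ range X, NN (gI z) (u : ℤ) W q ≤
      2 * ∑ u ∈ range X, NN (Ed z) (u : ℤ) W q + 2 * ∑ u ∈ range X, (∑ m ∈ Ioc (u : ℤ) (u + W), |dI m|) ^ 2 := by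
    rw [mul_sum, mul_sum, ← sum_add_distrib]
    refine sum_le_sum fun u _ => ?_
    have e : gI z = fun m => Ed z m - dI m := funext fun m => gI_eq_Ed z m
    rw [e]
    refine (NN_sub_le _ _ _ _ _).trans ?_
    have := NN_triv dI (u : ℤ) W q hq
    linarith
  refine h4.trans ?_
  have h5 := dI_windows X W (by omega) hWX
  have h6 : (W * Real.log ((2 * X : ℕ) : ℝ)) * (W * (2 * Real.sqrt ((2 * X : ℕ) : ℝ) * Real.log ((2 * X : ℕ) : ℝ))) ≤
      X * (W : ℝ) ^ 2 / (4 * L ^ A) := by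
    rw [le_div_iff₀ (by positivity)]
    calc (W * Real.log ((2 * X : ℕ) : ℝ)) * (W * (2 * Real.sqrt ((2 * X : ℕ) : ℝ) * Real.log ((2 * X : ℕ) : ℝ))) * (4 * L ^ A)
        ≤ (W * (2 * L)) * (W * (2 * (2 * Real.sqrt X) * (2 * L))) * (4 * L ^ A) := by gcongr
      _ = (W : ℝ) ^ 2 * Real.sqrt X * (64 * L ^ (A + 2)) := by ring
      _ ≤ (W : ℝ) ^ 2 * Real.sqrt X * (L ^ 2 * L ^ (A + 2)) := by
          gcongr
          nlinarith
      _ = (W : ℝ) ^ 2 * Real.sqrt X * L ^ (A + 4) := by ring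
      _ ≤ (W : ℝ) ^ 2 * Real.sqrt X * Real.sqrt X := by
          gcongr
          rw [hsr]; exact hp
      _ = X * (W : ℝ) ^ 2 := by rw [mul_assoc, hsx]; ring
  have h7 : X * (W : ℝ) ^ 2 / L ^ (A + 1) ≤ X * (W : ℝ) ^ 2 / (4 * L ^ A) := by
    apply div_le_div_of_nonneg_left (by positivity) (by positivity)
    rw [pow_succ]
    have : 0 < L ^ A := by positivity
    nlinarith
  have h8 : X * (W : ℝ) ^ 2 / (4 * L ^ A) = X * (W : ℝ) ^ 2 / L ^ A / 4 := by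
    field_simp
  have h9 : 0 ≤ X * (W : ℝ) ^ 2 / L ^ A := by positivity
  linarith

end Pool.Agent.H43.SL
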