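import Pool.Agent.H43.G.R_pool_sql_team_seeded_620a6dc7.helper24_UT_.Zsx
import Pool.Agent.H43.G.R_pool_sql_team_seeded_620a6dc7.helper24_UT_.T1
import Pool.Agent.H43.G.R_pool_sql_team_seeded_620a6dc7.helper24_UT_.Rs
import Pool.Agent.H43.G.R_pool_sql_team_seeded_620a6dc7.helper24_UT_.Rz
import Pool.Agent.H43.G.R_pool_sql_team_seeded_620a6dc7.helper24_UT_.Fb
import Pool.Agent.H43.G.R_pool_sql_team_seeded_620a6dc7.helper24_UT_.T341
import Pool.Agent.H43.G.R_pool_sql_team_seeded_620a6dc7.helper24_UT_.Conv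
import Pool.Agent.H43.G.R_pool_sql_team_seeded_620a6dc7.helper24_UT_.Gb
import Pool.Agent.H43.G.R_pool_sql_team_seeded_620a6dc7.helper24_UT_.Riesz
import Pool.Agent.H43.G.R_pool_sql_team_seeded_620a6dc7.helper24_UT_.Pg
import Pool.Agent.H43.G.R_pool_sql_team_seeded_620a6dc7.helper24_UT_.P1
import Pool.Agent.H43.G.R_pool_sql_team_seeded_620a6dc7.helper24_UT_.M1
import Pool.Agent.H43.G.R_pool_sql_team_seeded_620a6dc7.helper24_UT_.Pap
import Pool.Agent.H43.G.R_pool_sql_team_seeded_620a6dc7.helper24_UT_.Win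
import Pool.Agent.H43.SL.Sie

/-!
# Primes in progressions in almost all intervals of length `X ^ θ`, `θ > 1 / 4`: assembly
-/

set_option autoImplicit false

namespace Pool.Agent.H43.SL

open Pool.Agent.helper24_UT

theorem c_T1 : S_T1 := T1.main Zsx.main
theorem c_GB : S_GB := Gb.main Rs.main Rz.main (Fb.main Rz.main) T341.main Conv.main
theorem c_PG : S_PG := Pg.main c_GB Riesz.main
theorem c_P1 : S_P1 := P1.main c_T1 c_PG
theorem c_M1 : S_M1 := M1.main c_P1
theorem c_MAP : S_MAP := (Pap.main c_P1 c_M1).2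

/-- primes in progressions in almost all intervals of length at least `X ^ θ` -/
theorem c_SIe {θ : ℝ} (hθ : 1 / 4 < θ) : SIe θ := sie hθ c_T1 c_MAP Win.main

theorem c_SIg {θ : ℝ} (hθ : 1 / 4 < θ) : SIg θ := sig_of_sie θ (c_SIe hθ)

end Pool.Agent.H43.SL
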