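import Pool.Agent.H43.SL.Wey
import Pool.Agent.H43.G.R_pool_sql_team_seeded_620a6dc7.helper24_UT_.TI2

/-!
# Sums of `n ^ (-i k)` over a residue class in an interval
-/

set_option autoImplicit false

namespace Pool.Agent.H43.SL.Smc

open Finset
open Pool.Agent.H376R2.MR (ch er DP FK)
open Pool.Agent.H469R2.NK (e norm_e e_add conj_e e_zero norm_sum_neg)

lemma ch_e (k : ℤ) (x : ℝ) : ch k x = e (-(k / (2 * Real.pi) * x)) := by
  unfold ch e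
  congr 1
  have hpi := Real.pi_ne_zero
  have : 2 * Real.pi * (-(k / (2 * Real.pi) * x)) = -(k * x) := by field_simp
  rw [this]
  push_cast
  ring

lemma norm_ch (k : ℤ) (x : ℝ) : ‖ch k x‖ = 1 := by rw [ch_e, norm_e]

lemma norm_sum_abs (k : ℤ) (x : ℕ → ℝ) (L : ℕ) :
    ‖∑ i ∈ range L, e (-(k / (2 * Real.pi) * x i))‖ = ‖∑ i ∈ range L, e (|(k : ℝ)| / (2 * Real.pi) * x i)‖ := by
  rcases le_total 0 (k : ℝ) with h | h
  · rw [abs_of_nonneg h]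
    exact norm_sum_neg (fun i => k / (2 * Real.pi) * x i) L
  · rw [abs_of_nonpos h]
    congr 1
    refine sum_congr rfl fun i _ => ?_
    congr 1
    ring

/-- the parameters of the class -/
theorem param (k : ℤ) {q s N₁ N₂ : ℕ} (hs : s < q) (hq : q ≤ N₁) (h12 : N₁ ≤ N₂) (h3 : N₂ ≤ 3 * N₁) :
    ∃ (u : ℝ) (L : ℕ), ‖∑ n ∈ (Ioc N₁ N₂).filter (fun n => n % q = s), ch k (Real.log n)‖ =
      ‖∑ i ∈ range L, e (|(k : ℝ)| / (2 * Real.pi) * Real.log (u + i))‖ ∧ (L : ℝ) ≤ 3 * u ∧ 1 ≤ u ∧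
      (N₁ : ℝ) / q ≤ u ∧ (L ≠ 0 → u ≤ N₂) := by
  have hq0 : 0 < q := by omega
  have hqR : (0 : ℝ) < q := by exact_mod_cast hq0
  have hqR1 : (1 : ℝ) ≤ q := by exact_mod_cast hq0
  set j₀ := (N₁ + q - s) / q with hj₀
  set j₁ := (N₂ + q - s) / q with hj₁
  have hj01 : j₀ ≤ j₁ := Nat.div_le_div_right (by omega)
  have h1 : N₁ < q * j₀ + s := by
    have := Nat.lt_mul_div_succ (N₁ + q - s) hq0
    rw [← hj₀, Nat.mul_add, mul_one] at this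
    omega
  have h2 : q * j₁ ≤ N₂ + q - s := Nat.mul_div_le _ _
  set u : ℝ := j₀ + (s : ℝ) / q with hu
  have hqu : (q : ℝ) * u = ((q * j₀ + s : ℕ) : ℝ) := by
    rw [hu]; push_cast; field_simp
  have hN1 : (N₁ : ℝ) < q * u := by rw [hqu]; exact_mod_cast h1
  have hu1 : (N₁ : ℝ) / q ≤ u := by
    rw [div_le_iff₀ hqR]; linarith
  have hqN : (q : ℝ) ≤ N₁ := by exact_mod_cast hq
  have hu2 : 1 ≤ u := by
    refine le_trans ?_ hu1
    rw [le_div_iff₀ hqR]; linarith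
  refine ⟨u, j₁ - j₀, ?_, ?_, hu2, hu1, ?_⟩
  · rw [Pool.Agent.helper24_UT.TI2.image_class hs, sum_image]
    · rw [← hj₀, ← hj₁, sum_Ico_eq_sum_range]
      have e1 : ∀ i ∈ range (j₁ - j₀), ch k (Real.log ((s + q * (j₀ + i) : ℕ) : ℝ)) =
          ch k (Real.log q) * e (-(k / (2 * Real.pi) * Real.log (u + i))) := by
        intro i _
        have hpos : 0 < u + i := by positivity
        have e2 : ((s + q * (j₀ + i) : ℕ) : ℝ) = q * (u + i) := by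
          have e3 : (q : ℝ) * (u + i) = q * u + q * i := by ring
          rw [e3, hqu]; push_cast; ring
        rw [e2, Real.log_mul hqR.ne' hpos.ne', ch_e, ch_e, ← e_add]
        congr 1
        ring
      rw [sum_congr rfl e1, ← mul_sum, norm_mul, norm_ch, one_mul, norm_sum_abs k (fun i => Real.log (u + i))]
    · intro a _ b _ hab
      simp only at hab
      have : q * a = q * b := by omega
      exact Nat.eq_of_mul_eq_mul_left hq0 this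
  · have h4 : q * (j₁ - j₀) ≤ N₂ + q - N₁ := by
      rw [Nat.mul_sub]
      omega
    have h5 : (q : ℝ) * ((j₁ - j₀ : ℕ) : ℝ) ≤ 2 * N₁ + q := by
      have h6 : q * (j₁ - j₀) ≤ 2 * N₁ + q := by omega
      exact_mod_cast h6
    have h6 : (q : ℝ) * ((j₁ - j₀ : ℕ) : ℝ) ≤ q * (3 * u) := by
      nlinarith
    exact le_of_mul_le_mul_left h6 hqR
  · intro hL
    have h7 : j₀ + 1 ≤ j₁ := by omega
    have h8 : q * (j₀ + 1) ≤ q * j₁ := Nat.mul_le_mul_left _ h7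
    have h9 : q * j₀ + s ≤ N₂ := by
      have : q * (j₀ + 1) = q * j₀ + q := by ring
      omega
    have h10 : (q : ℝ) * u ≤ N₂ := by rw [hqu]; exact_mod_cast h9
    have : u ≤ q * u := by nlinarith
    linarith

/-- Kusmin and Landau -/
theorem smc_kl {k : ℤ} (hk : k ≠ 0) {q s N₁ N₂ : ℕ} (hs : s < q) (hq : q ≤ N₁) (h12 : N₁ ≤ N₂)
    (h3 : N₂ ≤ 3 * N₁) (hkN : |(k : ℝ)| * q ≤ N₁) :
    ‖∑ n ∈ (Ioc N₁ N₂).filter (fun n => n % q = s), ch k (Real.log n)‖ ≤ 64 * N₂ / |(k : ℝ)| := by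
  obtain ⟨u, L, he, hL, hu, hNu, huN⟩ := param k hs hq h12 h3
  have hk0 : 0 < |(k : ℝ)| := abs_pos.2 (by exact_mod_cast hk)
  have hqR : (0 : ℝ) < q := by exact_mod_cast (by omega : 0 < q)
  rw [he]
  rcases Nat.eq_zero_or_pos L with h | h
  · rw [h]; simp; positivity
  refine (Wey.kl _ u L hk0 ?_ hu hL).trans ?_
  · refine le_trans ?_ hNu
    rw [le_div_iff₀ hqR]; exact hkN
  · have := huN (by omega)
    gcongr

/-- the third derivative test -/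
theorem smc_w {k : ℤ} (hk : k ≠ 0) {σ : ℝ} (hσ : 1 ≤ σ) (hσk : σ ^ 3 = |(k : ℝ)|) {q s N₁ N₂ : ℕ}
    (hs : s < q) (hq : q ≤ N₁) (h12 : N₁ ≤ N₂) (h3 : N₂ ≤ 3 * N₁) :
    ‖∑ n ∈ (Ioc N₁ N₂).filter (fun n => n % q = s), ch k (Real.log n)‖ ^ 2 ≤
      40000 * (N₂ * σ + (N₂ : ℝ) ^ 2 / σ) := by
  obtain ⟨u, L, he, hL, hu, hNu, huN⟩ := param k hs hq h12 h3
  have hk0 : 0 < |(k : ℝ)| := abs_pos.2 (by exact_mod_cast hk)
  have hσ0 : 0 < σ := by linarith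
  rw [he]
  rcases Nat.eq_zero_or_pos L with h | h
  · rw [h]; simp; positivity
  refine (Wey.w3 _ u σ L hσ hσk hu hL).trans ?_
  have := huN (by omega)
  gcongr

/-- Abel summation with the logarithm -/
lemma abel_log (f : ℕ → ℂ) (N₁ : ℕ) {B : ℝ} (hN1 : 1 ≤ N₁) : ∀ N₂ : ℕ, N₁ ≤ N₂ →
    (∀ m, N₁ ≤ m → m ≤ N₂ → ‖∑ n ∈ Ioc N₁ m, f n‖ ≤ B) →
    ‖∑ n ∈ Ioc N₁ N₂, (Real.log n : ℂ) * f n - (Real.log N₂ : ℂ) * ∑ n ∈ Ioc N₁ N₂, f n‖ ≤
      (Real.log N₂ - Real.log N₁) * B := by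
  intro N₂ hN
  induction N₂, hN using Nat.le_induction with
  | base => intro _; simp
  | succ n hn ih =>
    intro h
    have h1 := ih fun m hm hm2 => h m hm (by omega)
    have h2 := h n hn (by omega)
    have hn0 : (0 : ℝ) < n := by exact_mod_cast (by omega : 0 < n)
    have hlog : Real.log n ≤ Real.log ((n + 1 : ℕ) : ℝ) := Real.log_le_log hn0 (by push_cast; linarith)
    rw [sum_Ioc_succ_top (by omega), sum_Ioc_succ_top (by omega)]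
    have e1 : ∑ i ∈ Ioc N₁ n, (Real.log i : ℂ) * f i + (Real.log ((n + 1 : ℕ) : ℝ) : ℂ) * f (n + 1) -
        (Real.log ((n + 1 : ℕ) : ℝ) : ℂ) * (∑ i ∈ Ioc N₁ n, f i + f (n + 1)) =
        (∑ i ∈ Ioc N₁ n, (Real.log i : ℂ) * f i - (Real.log n : ℂ) * ∑ i ∈ Ioc N₁ n, f i) -
        ((Real.log ((n + 1 : ℕ) : ℝ) - Real.log n : ℝ) : ℂ) * ∑ i ∈ Ioc N₁ n, f i := by
      push_cast; ring
    rw [e1]
    refine (norm_sub_le _ _).trans ?_
    rw [norm_mul, Complex.norm_real, Real.norm_of_nonneg (by linarith)]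
    have h3 : (Real.log ((n + 1 : ℕ) : ℝ) - Real.log n) * ‖∑ i ∈ Ioc N₁ n, f i‖ ≤
        (Real.log ((n + 1 : ℕ) : ℝ) - Real.log n) * B := mul_le_mul_of_nonneg_left h2 (by linarith)
    linarith

lemma abel_log' (f : ℕ → ℂ) {N₁ N₂ : ℕ} {B : ℝ} (hN1 : 1 ≤ N₁) (hN : N₁ ≤ N₂)
    (h : ∀ m, N₁ ≤ m → m ≤ N₂ → ‖∑ n ∈ Ioc N₁ m, f n‖ ≤ B) :
    ‖∑ n ∈ Ioc N₁ N₂, (Real.log n : ℂ) * f n‖ ≤ 2 * Real.log N₂ * B := by
  have h1 := abel_log f N₁ hN1 N₂ hN h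
  have hB : 0 ≤ B := (norm_nonneg _).trans (h N₁ le_rfl hN)
  have h2 := h N₂ hN le_rfl
  have hl1 : 0 ≤ Real.log N₁ := Real.log_natCast_nonneg _
  have hl2 : 0 ≤ Real.log N₂ := Real.log_natCast_nonneg _
  have h3 : ‖∑ n ∈ Ioc N₁ N₂, (Real.log n : ℂ) * f n‖ ≤
      ‖∑ n ∈ Ioc N₁ N₂, (Real.log n : ℂ) * f n - (Real.log N₂ : ℂ) * ∑ n ∈ Ioc N₁ N₂, f n‖ +
      ‖(Real.log N₂ : ℂ) * ∑ n ∈ Ioc N₁ N₂, f n‖ := by
    have := norm_add_le (∑ n ∈ Ioc N₁ N₂, (Real.log n : ℂ) * f n - (Real.log N₂ : ℂ) * ∑ n ∈ Ioc N₁ N₂, f n)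
      ((Real.log N₂ : ℂ) * ∑ n ∈ Ioc N₁ N₂, f n)
    rwa [sub_add_cancel] at this
  rw [norm_mul, Complex.norm_real, Real.norm_of_nonneg hl2] at h3
  have h4 : Real.log N₂ * ‖∑ n ∈ Ioc N₁ N₂, f n‖ ≤ Real.log N₂ * B := mul_le_mul_of_nonneg_left h2 hl2
  have h5 : 0 ≤ Real.log N₁ * B := by positivity
  nlinarith

/-- the same for a class -/
lemma abel_class (q s : ℕ) (k : ℤ) (a : ℕ → ℂ) {N₁ N₂ : ℕ} {B : ℝ} (hN1 : 1 ≤ N₁) (hN : N₁ ≤ N₂)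
    (h : ∀ m, N₁ ≤ m → m ≤ N₂ → ‖DP ((Ioc N₁ m).filter (fun n => n % q = s)) a k‖ ≤ B) :
    ‖DP ((Ioc N₁ N₂).filter (fun n => n % q = s)) (fun n => a n * (Real.log n : ℂ)) k‖ ≤ 2 * Real.log N₂ * B := by
  have h1 := abel_log' (fun n => if n % q = s then a n * ch k (Real.log n) else 0) hN1 hN (B := B) (by
    intro m hm hm2
    have := h m hm hm2
    unfold DP at this
    rwa [sum_filter] at this)
  unfold DP
  rw [sum_filter]
  refine le_trans (le_of_eq ?_) h1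
  congr 1
  refine sum_congr rfl fun n _ => ?_
  split_ifs <;> ring

end Pool.Agent.H43.SL.Smc
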