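import Pool.Agent.H43.SL.Mom2

/-!
Almost all constant terms, all lengths up to `N`.
-/

set_option autoImplicit false

namespace Pool.Agent.H43.SL

open Finset Filter
open Pool.Agent.helper24_UT (NN Ed S_LSQ)
open Pool.Agent.H442R2.EHI (evt_log_pow evt_log_ge)
open Pool.Agent.W81.R1 (gt gI gt_abs)

lemma Icc_split (f : ℤ → ℝ) (a b : ℕ) (hab : a ≤ b) :
    ∑ n ∈ Icc (1 : ℤ) b, f n = ∑ n ∈ Icc (1 : ℤ) a, f n + ∑ n ∈ Ioc (a : ℤ) b, f n := by
  rw [← sum_union]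
  · congr 1
    ext n
    simp only [mem_union, mem_Icc, mem_Ioc]
    omega
  · rw [disjoint_left]
    intro n h1 h2
    rw [mem_Icc] at h1
    rw [mem_Ioc] at h2
    omega

/-- **almost all constant terms, all lengths** -/
theorem alm {θ : ℝ} (hθ0 : 0 < θ) (hθ1 : θ ≤ 1) (h : SIg θ) (hLSQ : S_LSQ) (C0 U V : ℕ) (ε : ℝ) (hε : 0 < ε) :
    ∃ E₀ : ℕ, ∀ E₁ : ℕ, ∀ᶠ X : ℕ in atTop, ∀ z : ℕ, Real.log X ^ E₀ ≤ z → (z : ℝ) ≤ Real.log X ^ E₁ →
    ∀ (α β : ℤ) (N : ℕ), α ≠ 0 → (α.natAbs : ℝ) ≤ Real.log X ^ C0 → (X : ℝ) ^ (θ / 2 + ε) ≤ N →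
    (N : ℝ) ^ 2 ≤ X → (∀ n ∈ Icc (1 : ℤ) N, |fq α β n| ≤ 2 * X) →
    ∃ Bad : Finset ℤ, (Bad.card : ℝ) ≤ X / Real.log X ^ U ∧ ∀ c ∈ Icc (-(X : ℤ)) X, c ∉ Bad → ∀ y : ℕ, y ≤ N →
      |∑ n ∈ Icc (1 : ℤ) y, gI z (c + fq α β n)| ≤ N / Real.log X ^ V := by
  classical
  obtain ⟨U', hU'⟩ : ∃ U', U' = U + 3 * V + 4 := ⟨_, rfl⟩
  obtain ⟨E₀, h1⟩ := mom2 hθ0 hθ1 h hLSQ C0 U' (ε / 2) (by linarith)
  refine ⟨E₀, fun E₁ => ?_⟩
  obtain ⟨N₀, hN₀⟩ := gt_abs E₁
  filter_upwards [h1 E₁, eventually_ge_atTop N₀, evt_log_ge 64, evt_log_pow (V + 5) (ε / 2) (by linarith),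
    eventually_ge_atTop 8] with X hmom hXN hL hpow hX8 z hz1 hz2 α β N hα hαL hN hNX hval
  set L := Real.log X with hLdef
  have hL0 : 0 < L := by linarith
  have hL1 : 1 ≤ L := by linarith
  have hp : ∀ n : ℕ, 0 < L ^ n := fun n => by positivity
  have hp1 : ∀ n : ℕ, 1 ≤ L ^ n := fun n => one_le_pow₀ hL1
  have hX8r : (8 : ℝ) ≤ X := by exact_mod_cast hX8
  have hXp : (0 : ℝ) < X := by linarith
  have hX1 : (1 : ℝ) ≤ X := by linarith
  have hNbig : L ^ (V + 5) * (X : ℝ) ^ (θ / 2 + ε / 2) ≤ N := by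
    refine le_trans ?_ hN
    calc L ^ (V + 5) * (X : ℝ) ^ (θ / 2 + ε / 2) ≤ (X : ℝ) ^ (ε / 2) * (X : ℝ) ^ (θ / 2 + ε / 2) := by gcongr
      _ = (X : ℝ) ^ (θ / 2 + ε) := by rw [← Real.rpow_add hXp]; ring_nf
  have hXθ : 1 ≤ (X : ℝ) ^ (θ / 2 + ε / 2) := Real.one_le_rpow hX1 (by positivity)
  have hNL : L ^ (V + 5) ≤ N := by
    refine le_trans ?_ hNbig
    nlinarith [hp (V + 5)]
  have hN0 : (0 : ℝ) < N := lt_of_lt_of_le (hp _) hNL
  have hN1 : 1 ≤ N := by exact_mod_cast (hp1 _).trans hNL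
  have hNXr : (N : ℝ) ≤ X := by
    have h2 : (1 : ℝ) ≤ N := by exact_mod_cast hN1
    nlinarith
  -- pointwise bound
  have hlogZ : Real.log ((3 * X : ℕ) : ℝ) ≤ 2 * L := by
    push_cast
    rw [Real.log_mul (by norm_num) (by positivity)]
    have h3 : Real.log 3 ≤ L := Real.log_le_log (by norm_num) (by linarith)
    linarith
  have hlogZ' : L ≤ Real.log ((3 * X : ℕ) : ℝ) := by
    apply Real.log_le_log hXp
    push_cast
    linarith
  have hz1' : 1 ≤ z := by exact_mod_cast (hp1 _).trans hz1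
  have hb : ∀ c ∈ Icc (-(X : ℤ)) X, ∀ n ∈ Icc (1 : ℤ) N, |gI z (c + fq α β n)| ≤ 2 * L := by
    intro c hc n hn
    rw [mem_Icc] at hc
    have h2 := hval n hn
    rw [abs_le] at h2
    unfold gI
    split_ifs with ha
    · refine le_trans (hN₀ (3 * X) (by omega) z hz1' (hz2.trans (pow_le_pow_left₀ hL0.le hlogZ' _)) _ (by omega)
        (by omega)) hlogZ
    · rw [abs_zero]; positivity
  -- the grid
  set G := ⌈L ^ (V + 3)⌉₊ with hG
  have hGge : L ^ (V + 3) ≤ G := Nat.le_ceil _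
  have hGle : (G : ℝ) ≤ 2 * L ^ (V + 3) := by
    have h3 : (G : ℝ) < L ^ (V + 3) + 1 := Nat.ceil_lt_add_one (hp _).le
    have := hp1 (V + 3)
    linarith
  have hG1 : 1 ≤ G := by exact_mod_cast (hp1 _).trans hGge
  have hG0 : (0 : ℝ) < G := by exact_mod_cast hG1
  set yy : ℕ → ℕ := fun i => i * N / G with hyy
  have hyyN : ∀ i ∈ Icc 1 G, yy i ≤ N := by
    intro i hi
    rw [mem_Icc] at hi
    simp only [hyy]
    calc i * N / G ≤ G * N / G := Nat.div_le_div_right (Nat.mul_le_mul_right _ hi.2)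
      _ = N := Nat.mul_div_cancel_left _ hG1
  have hyylow : ∀ i ∈ Icc 1 G, (X : ℝ) ^ (θ / 2 + ε / 2) ≤ yy i := by
    intro i hi
    rw [mem_Icc] at hi
    simp only [hyy]
    have h2 : N / G ≤ i * N / G := Nat.div_le_div_right (by nlinarith)
    have h3 : (N : ℝ) / G - 1 ≤ ((N / G : ℕ) : ℝ) := by
      have h4 : N < G * (N / G + 1) := Nat.lt_mul_div_succ N hG1
      have h5 : (N : ℝ) < G * (((N / G : ℕ) : ℝ) + 1) := by exact_mod_cast h4
      have h6 : (N : ℝ) / G < ((N / G : ℕ) : ℝ) + 1 := by rw [div_lt_iff₀ hG0]; linarith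
      linarith
    have h4 : ((N / G : ℕ) : ℝ) ≤ ((i * N / G : ℕ) : ℝ) := by exact_mod_cast h2
    have h5 : 2 * (X : ℝ) ^ (θ / 2 + ε / 2) ≤ (N : ℝ) / G := by
      rw [le_div_iff₀ hG0]
      calc 2 * (X : ℝ) ^ (θ / 2 + ε / 2) * G ≤ 2 * (X : ℝ) ^ (θ / 2 + ε / 2) * (2 * L ^ (V + 3)) := by gcongr
        _ = (4 * L ^ (V + 3)) * (X : ℝ) ^ (θ / 2 + ε / 2) := by ring
        _ ≤ (L ^ 2 * L ^ (V + 3)) * (X : ℝ) ^ (θ / 2 + ε / 2) := by
            gcongr
            nlinarith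
        _ = L ^ (V + 5) * (X : ℝ) ^ (θ / 2 + ε / 2) := by ring
        _ ≤ N := hNbig
    linarith
  set F : ℕ → ℤ → ℝ := fun y c => ∑ n ∈ Icc (1 : ℤ) y, gI z (c + fq α β n) with hF
  set Bd : ℕ → Finset ℤ := fun i => (Icc (-(X : ℤ)) X).filter (fun c => (N : ℝ) / (2 * L ^ V) < |F (yy i) c|) with hBd
  have hcard : ∀ i ∈ Icc 1 G, ((Bd i).card : ℝ) ≤ 4 * X * L ^ (2 * V) / L ^ U' := by
    intro i hi
    have h2 := hmom z hz1 hz2 α β (yy i) hα hαL (hyylow i hi) (by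
      have : ((yy i : ℕ) : ℝ) ≤ N := by exact_mod_cast hyyN i hi
      exact (pow_le_pow_left₀ (Nat.cast_nonneg _) this 2).trans hNX) (fun n hn => by
      apply hval n
      have := hyyN i hi
      rw [mem_Icc] at hn ⊢
      omega)
    have h3 : ((Bd i).card : ℝ) * (N / (2 * L ^ V)) ^ 2 ≤ X * (N : ℝ) ^ 2 / L ^ U' := by
      calc ((Bd i).card : ℝ) * (N / (2 * L ^ V)) ^ 2 = ∑ c ∈ Bd i, ((N : ℝ) / (2 * L ^ V)) ^ 2 := by
            rw [sum_const, nsmul_eq_mul]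
        _ ≤ ∑ c ∈ Bd i, (F (yy i) c) ^ 2 := by
            refine sum_le_sum fun c hc => ?_
            rw [hBd, mem_filter] at hc
            rw [← sq_abs (F (yy i) c)]
            exact pow_le_pow_left₀ (by positivity) hc.2.le 2
        _ ≤ ∑ c ∈ Icc (-(X : ℤ)) X, (F (yy i) c) ^ 2 :=
            sum_le_sum_of_subset_of_nonneg (filter_subset _ _) fun _ _ _ => sq_nonneg _
        _ ≤ X * ((yy i : ℕ) : ℝ) ^ 2 / L ^ U' := h2
        _ ≤ _ := by
            have : ((yy i : ℕ) : ℝ) ≤ N := by exact_mod_cast hyyN i hi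
            gcongr
    have h4 : 0 < ((N : ℝ) / (2 * L ^ V)) ^ 2 := by positivity
    rw [← le_div_iff₀ h4] at h3
    refine h3.trans (le_of_eq ?_)
    field_simp
    ring
  refine ⟨(Icc 1 G).biUnion Bd, ?_, ?_⟩
  · calc ((((Icc 1 G).biUnion Bd).card : ℕ) : ℝ) ≤ ∑ i ∈ Icc 1 G, ((Bd i).card : ℝ) := by
          exact_mod_cast card_biUnion_le
      _ ≤ ∑ i ∈ Icc 1 G, 4 * X * L ^ (2 * V) / L ^ U' := sum_le_sum hcard
      _ = G * (4 * X * L ^ (2 * V) / L ^ U') := by rw [sum_const, Nat.card_Icc, nsmul_eq_mul, Nat.add_sub_cancel]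
      _ ≤ (2 * L ^ (V + 3)) * (4 * X * L ^ (2 * V) / L ^ U') := by gcongr
      _ = X * (8 * L ^ (3 * V + 3)) / L ^ U' := by ring
      _ ≤ X * (L * L ^ (3 * V + 3)) / L ^ U' := by
          gcongr
          linarith
      _ = X / L ^ U := by
          rw [hU', show U + 3 * V + 4 = U + (3 * V + 4) by ring, pow_add L U, div_eq_div_iff (by positivity) (by positivity)]
          ring
  · intro c hc hcB y hyN
    set i := y * G / N with hi
    have hiG : i ≤ G := by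
      rw [hi]
      calc y * G / N ≤ N * G / N := Nat.div_le_div_right (Nat.mul_le_mul_right _ hyN)
        _ = G := Nat.mul_div_cancel_left _ hN1
    have hiy : yy i ≤ y := by
      simp only [hyy]
      have h2 : i * N ≤ y * G := Nat.div_mul_le_self _ _
      calc i * N / G ≤ y * G / G := Nat.div_le_div_right h2
        _ = y := Nat.mul_div_cancel _ hG1
    have hdiff : (y : ℝ) - yy i ≤ N / G + 1 := by
      have h2 : y * G < N * (i + 1) := Nat.lt_mul_div_succ _ hN1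
      have h3 : i * N < G * (yy i + 1) := Nat.lt_mul_div_succ _ hG1
      have h2' : (y : ℝ) * G < N * (i + 1) := by exact_mod_cast h2
      have h3' : (i : ℝ) * N < G * ((yy i : ℕ) + 1) := by exact_mod_cast h3
      have h4 : ((y : ℝ) - yy i) * G ≤ (N / G + 1) * G := by
        rw [add_mul, div_mul_cancel₀ _ hG0.ne']
        nlinarith
      exact le_of_mul_le_mul_right h4 hG0
    have hgrid : |F (yy i) c| ≤ N / (2 * L ^ V) := by
      rcases Nat.eq_zero_or_pos i with h0 | h0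
      · have : yy i = 0 := by simp only [hyy]; rw [h0]; simp
        rw [this]
        simp only [hF]
        simp
        positivity
      · by_contra hcon
        push Not at hcon
        apply hcB
        rw [mem_biUnion]
        exact ⟨i, mem_Icc.2 ⟨h0, hiG⟩, by rw [hBd, mem_filter]; exact ⟨hc, hcon⟩⟩
    have hrest : |∑ n ∈ Ioc ((yy i : ℕ) : ℤ) y, gI z (c + fq α β n)| ≤ N / (2 * L ^ V) := by
      calc |∑ n ∈ Ioc ((yy i : ℕ) : ℤ) y, gI z (c + fq α β n)| ≤ ∑ n ∈ Ioc ((yy i : ℕ) : ℤ) y, |gI z (c + fq α β n)| :=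
            abs_sum_le_sum_abs _ _
        _ ≤ ∑ n ∈ Ioc ((yy i : ℕ) : ℤ) y, (2 * L) := by
            refine sum_le_sum fun n hn => hb c hc n ?_
            rw [mem_Ioc] at hn
            rw [mem_Icc]
            omega
        _ = ((y : ℝ) - yy i) * (2 * L) := by
            rw [sum_const, Int.card_Ioc, nsmul_eq_mul]
            congr 1
            have h2 : ((y : ℤ) - (yy i : ℕ)).toNat = y - yy i := by omega
            rw [h2, Nat.cast_sub hiy]
        _ ≤ (N / G + 1) * (2 * L) := by gcongr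
        _ ≤ (N / L ^ (V + 3) + N / L ^ (V + 5)) * (2 * L) := by
            gcongr
            rw [le_div_iff₀ (hp _), one_mul]
            exact hNL
        _ ≤ (N / L ^ (V + 3) + N / L ^ (V + 3)) * (2 * L) := by
            have h7 : (N : ℝ) / L ^ (V + 5) ≤ N / L ^ (V + 3) :=
              div_le_div_of_nonneg_left hN0.le (hp _) (pow_le_pow_right₀ hL1 (by omega))
            gcongr
        _ = 4 * N * L / L ^ (V + 3) := by ring
        _ ≤ N / (2 * L ^ V) := by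
            rw [div_le_div_iff₀ (hp _) (by positivity)]
            calc 4 * N * L * (2 * L ^ V) = N * (8 * L ^ (V + 1)) := by ring
              _ ≤ N * (L ^ 2 * L ^ (V + 1)) := by
                  gcongr
                  nlinarith
              _ = N * L ^ (V + 3) := by ring
    rw [Icc_split _ _ _ hiy]
    refine (abs_add_le _ _).trans ((add_le_add hgrid hrest).trans (le_of_eq ?_))
    field_simp
    ring

end Pool.Agent.H43.SL
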