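import Mathlib

/-!
Arithmetic of the second moment bound.
-/

set_option autoImplicit false

namespace Pool.Agent.H43.SL

lemma arith (L X y W K D T E S1 C Z2 P A3 : ℝ) (C0 U A1 B1 B2 M V : ℕ)
    (hV : V = 2 * U + 6) (hA1 : A1 = C0 + 4 + V) (hM : M = C0 + A1 + 2 + V) (hB2 : B2 = U + 5)
    (hB1 : B2 + M ≤ B1) (hL : 2048 ≤ L) (hX : 0 < X) (hy : 0 < y) (hW : 0 < W) (hK1 : 1 ≤ K) (hD : 0 < D) (hT : 0 ≤ T)
    (hE0 : 0 ≤ E) (hE : E ≤ X * L ^ 3) (hK : K ≤ y / L ^ B2) (hK' : y / (2 * L ^ B2) ≤ K)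
    (hW' : W ≤ y ^ 2 / L ^ B1) (hDl : L ^ A1 ≤ D)
    (hTy : T ≤ 2 * L ^ C0 * y) (hTW : T ≤ W / L ^ A1)
    (hS1 : S1 ≤ W ^ 2 * X * L ^ (A1 + 1) / L ^ M)
    (hC0 : 0 ≤ C) (hC : C ≤ L) (hZ : Z2 ≤ 8 * X) (hP : P ^ 2 ≤ 4 * L ^ 2) (hA3 : A3 = 2 * K + 1) :
    A3 * y * E + Real.sqrt (E * (4 * y * (16 * y ^ 2 / W ^ 2 * (T * S1 + Z2 * (C * (T * W * P ^ 2 * (W / D + T)))) +
      8 * y * (W / K) ^ 2 * E))) ≤ X * y ^ 2 / L ^ U := by
  have hL0 : 0 < L := by linarith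
  have hL1 : 1 ≤ L := by linarith
  have hp : ∀ n : ℕ, 0 < L ^ n := fun n => by positivity
  have hK0 : 0 < K := by linarith
  -- the diagonal
  have t1 : A3 * y * E ≤ X * y ^ 2 / L ^ U / 2 := by
    have h1 : A3 ≤ 3 * K := by rw [hA3]; linarith
    calc A3 * y * E ≤ (3 * (y / L ^ B2)) * y * (X * L ^ 3) := by
          have h2 : A3 ≤ 3 * (y / L ^ B2) := h1.trans (by linarith)
          gcongr
      _ = 3 * (X * y ^ 2) * L ^ 3 / L ^ B2 := by ring
      _ = 3 * (X * y ^ 2) / (L ^ U * L ^ 2) := by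
          rw [hB2, show U + 5 = U + 2 + 3 by ring, pow_add L (U + 2) 3, pow_add]
          rw [mul_div_mul_right _ _ (hp 3).ne']
      _ ≤ X * y ^ 2 / L ^ U / 2 := by
          rw [div_div, div_le_div_iff₀ (by positivity) (by positivity)]
          have h3 : 0 < X * y ^ 2 * L ^ U := by positivity
          have h4 : 6 ≤ L ^ 2 := by nlinarith
          nlinarith
  -- the rest
  have hq : 0 < X * y ^ 3 / L ^ V := by positivity
  have i1 : 16 * y ^ 2 / W ^ 2 * (T * S1) ≤ X * y ^ 3 / L ^ V := by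
    have h1 : T * S1 ≤ (2 * L ^ C0 * y) * (W ^ 2 * X * L ^ (A1 + 1) / L ^ M) := by
      have h2 : 0 ≤ W ^ 2 * X * L ^ (A1 + 1) / L ^ M := by positivity
      calc T * S1 ≤ T * (W ^ 2 * X * L ^ (A1 + 1) / L ^ M) := by gcongr
        _ ≤ _ := by gcongr
    calc 16 * y ^ 2 / W ^ 2 * (T * S1) ≤ 16 * y ^ 2 / W ^ 2 * ((2 * L ^ C0 * y) * (W ^ 2 * X * L ^ (A1 + 1) / L ^ M)) := by
          gcongr
      _ = 32 * (X * y ^ 3) * (L ^ C0 * L ^ (A1 + 1)) / L ^ M := by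
          field_simp
          ring
      _ ≤ L * (X * y ^ 3) * (L ^ C0 * L ^ (A1 + 1)) / L ^ M := by
          gcongr
          linarith
      _ = X * y ^ 3 / L ^ V := by
          rw [hM, show C0 + A1 + 2 + V = V + (1 + C0 + (A1 + 1)) by ring, pow_add L V, pow_add L (1 + C0), pow_add L 1,
            pow_one, div_eq_div_iff (by positivity) (by positivity)]
          ring
  have i2 : 16 * y ^ 2 / W ^ 2 * (Z2 * (C * (T * W * P ^ 2 * (W / D + T)))) ≤ X * y ^ 3 / L ^ V := by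
    have h1 : W / D + T ≤ 2 * W / L ^ A1 := by
      have h2 : W / D ≤ W / L ^ A1 := div_le_div_of_nonneg_left hW.le (hp _) hDl
      calc W / D + T ≤ W / L ^ A1 + W / L ^ A1 := add_le_add h2 hTW
        _ = _ := by ring
    have h3 : 0 ≤ W / D + T := by positivity
    calc 16 * y ^ 2 / W ^ 2 * (Z2 * (C * (T * W * P ^ 2 * (W / D + T)))) ≤
          16 * y ^ 2 / W ^ 2 * ((8 * X) * (L * ((2 * L ^ C0 * y) * W * (4 * L ^ 2) * (2 * W / L ^ A1)))) := by gcongr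
      _ = 2048 * (X * y ^ 3) * (L ^ C0 * L ^ 3) / L ^ A1 := by
          field_simp
          ring
      _ ≤ L * (X * y ^ 3) * (L ^ C0 * L ^ 3) / L ^ A1 := by gcongr
      _ = X * y ^ 3 / L ^ V := by
          rw [hA1, show C0 + 4 + V = V + (1 + C0 + 3) by ring, pow_add L V, pow_add L (1 + C0), pow_add L 1,
            pow_one, div_eq_div_iff (by positivity) (by positivity)]
          ring
  have i3 : 8 * y * (W / K) ^ 2 * E ≤ X * y ^ 3 / L ^ V := by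
    have h1 : W / K ≤ 2 * y * L ^ B2 / L ^ B1 := by
      rw [div_le_iff₀ hK0]
      calc W ≤ y ^ 2 / L ^ B1 := hW'
        _ = 2 * y * L ^ B2 / L ^ B1 * (y / (2 * L ^ B2)) := by
            field_simp
        _ ≤ _ := by gcongr
    calc 8 * y * (W / K) ^ 2 * E ≤ 8 * y * (2 * y * L ^ B2 / L ^ B1) ^ 2 * (X * L ^ 3) := by gcongr
      _ = 32 * (X * y ^ 3) * (L ^ B2 * L ^ B2 * L ^ 3) / (L ^ B1 * L ^ B1) := by
          field_simp
          ring
      _ ≤ L * (X * y ^ 3) * (L ^ B2 * L ^ B2 * L ^ 3) / (L ^ B1 * L ^ B1) := by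
          gcongr
          linarith
      _ ≤ X * y ^ 3 / L ^ V := by
          rw [div_le_div_iff₀ (by positivity) (by positivity)]
          have h5 : L * (L ^ B2 * L ^ B2 * L ^ 3) * L ^ V ≤ L ^ B1 * L ^ B1 := by
            calc L * (L ^ B2 * L ^ B2 * L ^ 3) * L ^ V = L ^ (1 + B2 + B2 + 3 + V) := by ring
              _ ≤ L ^ (B1 + B1) := pow_le_pow_right₀ hL1 (by omega)
              _ = _ := by ring
          calc L * (X * y ^ 3) * (L ^ B2 * L ^ B2 * L ^ 3) * L ^ V =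
                (X * y ^ 3) * (L * (L ^ B2 * L ^ B2 * L ^ 3) * L ^ V) := by ring
            _ ≤ (X * y ^ 3) * (L ^ B1 * L ^ B1) := by gcongr
  have t2 : Real.sqrt (E * (4 * y * (16 * y ^ 2 / W ^ 2 * (T * S1 + Z2 * (C * (T * W * P ^ 2 * (W / D + T)))) +
      8 * y * (W / K) ^ 2 * E))) ≤ X * y ^ 2 / L ^ U / 2 := by
    rw [Real.sqrt_le_left (by positivity)]
    rw [mul_add (16 * y ^ 2 / W ^ 2)]
    calc E * (4 * y * (16 * y ^ 2 / W ^ 2 * (T * S1) + 16 * y ^ 2 / W ^ 2 * (Z2 * (C * (T * W * P ^ 2 * (W / D + T)))) +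
      8 * y * (W / K) ^ 2 * E)) ≤ (X * L ^ 3) * (4 * y * (3 * (X * y ^ 3 / L ^ V))) := by
          have h1 : 16 * y ^ 2 / W ^ 2 * (T * S1) + 16 * y ^ 2 / W ^ 2 * (Z2 * (C * (T * W * P ^ 2 * (W / D + T)))) +
            8 * y * (W / K) ^ 2 * E ≤ 3 * (X * y ^ 3 / L ^ V) := by linarith
          calc E * (4 * y * (16 * y ^ 2 / W ^ 2 * (T * S1) + 16 * y ^ 2 / W ^ 2 * (Z2 * (C * (T * W * P ^ 2 * (W / D + T)))) +
              8 * y * (W / K) ^ 2 * E)) ≤ E * (4 * y * (3 * (X * y ^ 3 / L ^ V))) := by gcongr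
            _ ≤ _ := by gcongr
      _ = 12 * (X * y ^ 2) ^ 2 * L ^ 3 / L ^ V := by ring
      _ ≤ (X * y ^ 2 / L ^ U / 2) ^ 2 := by
          rw [div_div, div_pow, div_le_div_iff₀ (by positivity) (by positivity)]
          have h2 : 12 * L ^ 3 * (L ^ U * 2) ^ 2 ≤ L ^ V := by
            calc 12 * L ^ 3 * (L ^ U * 2) ^ 2 = 48 * L ^ (2 * U + 3) := by ring
              _ ≤ L ^ 3 * L ^ (2 * U + 3) := by
                  gcongr
                  nlinarith [mul_pos hL0 hL0]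
              _ = L ^ V := by rw [hV]; ring
          calc 12 * (X * y ^ 2) ^ 2 * L ^ 3 * (L ^ U * 2) ^ 2 = (X * y ^ 2) ^ 2 * (12 * L ^ 3 * (L ^ U * 2) ^ 2) := by ring
            _ ≤ (X * y ^ 2) ^ 2 * L ^ V := by gcongr
  linarith

end Pool.Agent.H43.SL
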