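import Pool.Agent.H43.SL.Cst

/-!
The number of the prime values for almost all `a`, one dyadic length.
-/

set_option autoImplicit false

namespace Pool.Agent.H43.SL

open Finset Filter Polynomial
open Pool.Agent.helper24_UT (S_LSQ)
open Pool.Agent.H442R2.EHI (evt_log_pow evt_log_ge)
open Pool.Agent.H300R2.BH (rho SS pv lF)
open Pool.Agent.W80.EC
open Pool.Agent.W81.R1 (gI qf pv_close)
open Pool.Agent.W81.R1N (pv_close_neg)

lemma sum_conv (g : ℤ → ℝ) (y : ℕ) : ∑ n ∈ Ioc 0 y, g (n : ℤ) = ∑ n ∈ Icc (1 : ℤ) y, g n := by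
  refine Finset.sum_nbij' (fun n : ℕ => (n : ℤ)) (fun n : ℤ => n.toNat) ?_ ?_ ?_ ?_ ?_
  · intro n hn; rw [mem_Ioc] at hn; rw [mem_Icc]; omega
  · intro n hn; rw [mem_Icc] at hn; rw [mem_Ioc]; omega
  · intro n _; simp
  · intro n hn; rw [mem_Icc] at hn; exact Int.toNat_of_nonneg (by omega)
  · intro n _; rfl

/-- for large `X` all `N ≥ X ^ c` are large -/
lemma evt_all {P : ℕ → Prop} (h : ∀ᶠ N : ℕ in atTop, P N) (c : ℝ) (hc : 0 < c) :
    ∀ᶠ X : ℕ in atTop, ∀ N : ℕ, (X : ℝ) ^ c ≤ N → P N := by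
  obtain ⟨N0, hN0⟩ := eventually_atTop.mp h
  have h1 : Tendsto (fun X : ℕ => (X : ℝ) ^ c) atTop atTop :=
    (tendsto_rpow_atTop hc).comp tendsto_natCast_atTop_atTop
  filter_upwards [h1.eventually_ge_atTop (N0 : ℝ)] with X hX N hN
  apply hN0
  exact_mod_cast hX.trans hN

theorem blkN {θ : ℝ} (hθ0 : 0 < θ) (hθ1 : θ ≤ 1) (h : SIg θ) (hLSQ : S_LSQ) (U : ℕ) (ε : ℝ) (hε : 0 < ε) :
    ∃ E1 : ℕ, ∀ E : ℕ, E1 ≤ E → ∀ᶠ X : ℕ in atTop, ∀ N : ℕ, (X : ℝ) ^ (θ / 2 + ε) ≤ N → (N : ℝ) ^ 2 ≤ X →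
    ∃ Bad : Finset ℤ, (Bad.card : ℝ) ≤ X / Real.log X ^ U ∧ ∀ a ∈ Icc (-(X : ℤ)) X, a ∉ Bad → ∀ y : ℕ, y ≤ N →
      |pv (q2 1 0 a) y - SS ⌊Real.log (HX X) ^ E⌋₊ (q2 1 0 a) * lF (q2 1 0 a) y| ≤ N / Real.log X ^ U ∧
      |pv (q2 (-1) 0 (-a)) y - SS ⌊Real.log (HX X) ^ E⌋₊ (q2 (-1) 0 (-a)) * lF (q2 (-1) 0 (-a)) y| ≤
        N / Real.log X ^ U := by
  classical
  obtain ⟨E₀, h1⟩ := alm hθ0 hθ1 h hLSQ 0 (U + 1) (U + 3) ε hε
  refine ⟨E₀ + 1, fun E hE => ?_⟩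
  have hc : 0 < θ / 2 + ε := by positivity
  filter_upwards [h1 E, evt_all (pv_close (E + 1) (U + 1)) _ hc, evt_all (pv_close_neg (E + 1) (U + 1)) _ hc,
    evt_log_ge (2 ^ (E + 1)), evt_log_ge 4, evt_log_ge ((2 / θ) ^ (E + 1)), evt_log_ge ((2 / θ) ^ (U + 1)),
    eventually_ge_atTop 16]
    with X halm hpv hpvn hLE hL4 hLθ hLθU hX16 N hN hNX
  have hX4 : 4 ≤ X := by omega
  set L := Real.log X with hLdef
  have hL0 : 0 < L := by linarith
  have hL1 : 1 ≤ L := by linarith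
  have hp : ∀ n : ℕ, 0 < L ^ n := fun n => by positivity
  have hp1 : ∀ n : ℕ, 1 ≤ L ^ n := fun n => one_le_pow₀ hL1
  have hX0 : (0 : ℝ) < X := by exact_mod_cast (by omega : 0 < X)
  have hX1 : (1 : ℝ) ≤ X := by exact_mod_cast (by omega : 1 ≤ X)
  obtain ⟨hM1, hM2⟩ := HX_log X hX4
  set M := Real.log (HX X) with hM
  have hM0 : 0 < M := by linarith
  set z := ⌊M ^ E⌋₊ with hz
  have hzhi : (z : ℝ) ≤ L ^ E := (Nat.floor_le (by positivity)).trans (pow_le_pow_left₀ hM0.le hM2 _)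
  have hzlo : L ^ E₀ ≤ z := by
    have h2 : M ^ E < z + 1 := Nat.lt_floor_add_one _
    have h3 : 2 * L ^ E₀ ≤ M ^ E := by
      calc 2 * L ^ E₀ ≤ (L / 2) ^ E := by
            rw [div_pow, le_div_iff₀ (by positivity)]
            calc 2 * L ^ E₀ * 2 ^ E = 2 ^ (E + 1) * L ^ E₀ := by ring
              _ ≤ L * L ^ E₀ := by gcongr
              _ = L ^ (E₀ + 1) := by ring
              _ ≤ L ^ E := pow_le_pow_right₀ hL1 hE
        _ ≤ M ^ E := pow_le_pow_left₀ (by positivity) hM1 _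
    have := hp1 E₀
    linarith
  have hz1 : 1 ≤ z := by exact_mod_cast (hp1 _).trans hzlo
  -- the size of `N`
  have hXc1 : 1 ≤ (X : ℝ) ^ (θ / 2 + ε) := Real.one_le_rpow hX1 hc.le
  have hN0 : (0 : ℝ) < N := by linarith
  have hN1 : (1 : ℝ) ≤ N := by linarith
  have hNXr : (N : ℝ) ≤ X := by nlinarith
  have hlN1 : θ / 2 * L ≤ Real.log N := by
    have h2 := Real.log_le_log (by positivity) hN
    rw [Real.log_rpow hX0] at h2
    nlinarith
  have hlN2 : Real.log N ≤ L := Real.log_le_log hN0 hNXr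
  have hlN0 : 0 < Real.log N := lt_of_lt_of_le (by positivity) hlN1
  have hLlN : L ≤ 2 / θ * Real.log N := by
    calc L = 2 / θ * (θ / 2 * L) := by field_simp
      _ ≤ _ := by gcongr
  have hzN : (z : ℝ) ≤ Real.log N ^ (E + 1) := by
    have h2 : L ^ (E + 1) ≤ (2 / θ) ^ (E + 1) * Real.log N ^ (E + 1) := by
      rw [← mul_pow]
      exact pow_le_pow_left₀ hL0.le hLlN _
    have h3 : L * L ^ E ≤ L * Real.log N ^ (E + 1) := by
      calc L * L ^ E = L ^ (E + 1) := by ring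
        _ ≤ (2 / θ) ^ (E + 1) * Real.log N ^ (E + 1) := h2
        _ ≤ L * Real.log N ^ (E + 1) := by gcongr
    exact hzhi.trans (le_of_mul_le_mul_left h3 hL0)
  have hfin : (N : ℝ) / Real.log N ^ (U + 1) ≤ N / L ^ U := by
    apply div_le_div_of_nonneg_left hN0.le (hp _)
    have h2 : L ^ (U + 1) ≤ (2 / θ) ^ (U + 1) * Real.log N ^ (U + 1) := by
      rw [← mul_pow]
      exact pow_le_pow_left₀ hL0.le hLlN _
    have h3 : L * L ^ U ≤ L * Real.log N ^ (U + 1) := by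
      calc L * L ^ U = L ^ (U + 1) := by ring
        _ ≤ (2 / θ) ^ (U + 1) * Real.log N ^ (U + 1) := h2
        _ ≤ L * Real.log N ^ (U + 1) := by gcongr
    exact le_of_mul_le_mul_left h3 hL0
  have hhyp : (N : ℝ) / L ^ (U + 3) ≤ N / Real.log N ^ (U + 1 + 2) :=
    div_le_div_of_nonneg_left hN0.le (by positivity) (pow_le_pow_left₀ hlN0.le hlN2 _)
  have hvalp : ∀ n ∈ Icc (1 : ℤ) N, |fq 1 0 n| ≤ 2 * X := by
    intro n hn
    rw [mem_Icc] at hn
    have h2 : n ^ 2 ≤ (N : ℤ) ^ 2 := pow_le_pow_left₀ (by omega) hn.2 2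
    have h3 : (N : ℤ) ^ 2 ≤ X := by exact_mod_cast hNX
    unfold fq
    rw [abs_le]
    constructor <;> nlinarith [sq_nonneg n]
  have hvaln : ∀ n ∈ Icc (1 : ℤ) N, |fq (-1) 0 n| ≤ 2 * X := by
    intro n hn
    rw [mem_Icc] at hn
    have h2 : n ^ 2 ≤ (N : ℤ) ^ 2 := pow_le_pow_left₀ (by omega) hn.2 2
    have h3 : (N : ℤ) ^ 2 ≤ X := by exact_mod_cast hNX
    unfold fq
    rw [abs_le]
    constructor <;> nlinarith [sq_nonneg n]
  obtain ⟨Bp, hBp, hgp⟩ := halm z hzlo hzhi 1 0 N (by norm_num) (by simp) hN hNX hvalp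
  obtain ⟨Bn, hBn, hgn⟩ := halm z hzlo hzhi (-1) 0 N (by norm_num) (by simp) hN hNX hvaln
  refine ⟨Bp ∪ Bn.image (fun c => -c), ?_, fun a ha haB y hy => ⟨?_, ?_⟩⟩
  · have h3 : ((Bp ∪ Bn.image (fun c => -c)).card : ℝ) ≤ Bp.card + Bn.card := by
      have h4 := card_union_le Bp (Bn.image (fun c : ℤ => -c))
      have h5 := card_image_le (s := Bn) (f := fun c : ℤ => -c)
      exact_mod_cast h4.trans (by omega)
    refine h3.trans ((add_le_add hBp hBn).trans ?_)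
    rw [← add_div, div_le_div_iff₀ (hp _) (hp _)]
    have h6 : 2 * L ^ U ≤ L ^ (U + 1) := by
      calc 2 * L ^ U ≤ L * L ^ U := by gcongr; linarith
        _ = L ^ (U + 1) := by ring
    nlinarith
  · rw [mem_union, not_or] at haB
    have h2 := hpv N hN 1 0 a z le_rfl (by simp; positivity) hz1 hzN (by simp) (fun y' hy' => by
      refine le_trans (le_of_eq ?_) ((hgp a ha haB.1 y' hy').trans hhyp)
      rw [← sum_conv (fun n => gI z (a + fq 1 0 n))]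
      congr 1
      refine sum_congr rfl fun n _ => ?_
      congr 1
      unfold qf fq
      push_cast
      ring) y hy
    have e : q2 (((1 : ℕ) : ℤ)) 0 a = q2 1 0 a := by norm_num
    rw [e] at h2
    exact h2.trans hfin
  · rw [mem_union, not_or] at haB
    have haI := mem_Icc.1 ha
    have hna : -a ∉ Bn := by
      intro hcon
      apply haB.2
      rw [mem_image]
      exact ⟨-a, hcon, by ring⟩
    have h2 := hpvn N hN 1 0 (-a) z le_rfl (by simp; positivity) hz1 hzN (by simp) (fun y' hy' => by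
      refine le_trans (le_of_eq ?_) ((hgn (-a) (by rw [mem_Icc]; omega) hna y' hy').trans hhyp)
      rw [← sum_conv (fun n => gI z (-a + fq (-1) 0 n))]
      congr 1
      refine sum_congr rfl fun n _ => ?_
      congr 1
      unfold qf fq
      push_cast
      ring) y hy
    have e : q2 (-((1 : ℕ) : ℤ)) (-0) (-a) = q2 (-1) 0 (-a) := by norm_num
    rw [e] at h2
    exact h2.trans hfin

end Pool.Agent.H43.SL
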