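import Pool.Agent.H43.SL.Win

/-!
The second moment of the sums over the values of a quadratic polynomial.
-/

set_option autoImplicit false

namespace Pool.Agent.H43.SL

open Finset
open Pool.Agent.helper24_UT (NN)

/-- the values `α n² + β n` -/
def fq (α β n : ℤ) : ℤ := α * n ^ 2 + β * n

/-- pairs with a given difference -/
lemma fiber_sum (y : ℕ) (k : ℤ) (hk : k.natAbs < y) (G : ℤ × ℤ → ℝ) :
    ∑ p ∈ (Icc (1 : ℤ) y ×ˢ Icc (1 : ℤ) y).filter (fun p => p.2 - p.1 = k), G p =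
      ∑ j ∈ range (y - k.natAbs), G (max 1 (1 - k) + j, max 1 (1 - k) + j + k) := by
  symm
  refine Finset.sum_nbij' (fun j : ℕ => (max 1 (1 - k) + j, max 1 (1 - k) + j + k))
    (fun p : ℤ × ℤ => (p.1 - max 1 (1 - k)).toNat) ?_ ?_ ?_ ?_ ?_
  · intro j hj
    rw [mem_range] at hj
    simp only [mem_filter, mem_product, mem_Icc]
    refine ⟨⟨⟨?_, ?_⟩, ?_, ?_⟩, ?_⟩ <;> omega
  · rintro ⟨n, n'⟩ hp
    simp only [mem_filter, mem_product, mem_Icc] at hp
    simp only [mem_range]
    omega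
  · intro j _
    simp
  · rintro ⟨n, n'⟩ hp
    simp only [mem_filter, mem_product, mem_Icc] at hp
    simp only [Prod.mk.injEq]
    omega
  · intro j _
    rfl

/-- the energy of a sum over a progression of either sign -/
lemma E2_prog (D : ℤ → ℝ) (g t : ℤ) (L : ℕ) :
    E2 (fun m => ∑ j ∈ range L, D (m + (t + g * j))) = E2 (Sq D g.natAbs L) := by
  rcases le_total 0 g with hg | hg
  · have e : (fun m => ∑ j ∈ range L, D (m + (t + g * j))) = fun m => Sq D g.natAbs L (m + t) := by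
      funext m
      unfold Sq
      refine sum_congr rfl fun j _ => ?_
      rw [Int.natAbs_of_nonneg hg]
      congr 1
      ring
    rw [e, E2_shift]
  · have e : (fun m => ∑ j ∈ range L, D (m + (t + g * j))) = fun m => Sq D g.natAbs L (m + (t + g * ((L : ℤ) - 1))) := by
      funext m
      unfold Sq
      rw [← sum_range_reflect]
      refine sum_congr rfl fun j hj => ?_
      rw [mem_range] at hj
      have h1 : ((g.natAbs : ℕ) : ℤ) = -g := by omega
      have h2 : ((L - 1 - j : ℕ) : ℤ) = (L : ℤ) - 1 - j := by omega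
      rw [h1, h2]
      congr 1
      ring
    rw [e, E2_shift]

/-- **the second moment** -/
theorem corr {D : ℤ → ℝ} (h : Fs D) (α β : ℤ) (y : ℕ) :
    ∑' c : ℤ, (∑ n ∈ Icc (1 : ℤ) y, D (c + fq α β n)) ^ 2 ≤
      Real.sqrt (E2 D) * ∑ k ∈ Ioo (-(y : ℤ)) y, Real.sqrt (E2 (Sq D (2 * α * k).natAbs (y - k.natAbs))) := by
  set I := Icc (1 : ℤ) y with hI
  have h1 : ∀ c : ℤ, (∑ n ∈ I, D (c + fq α β n)) ^ 2 =
      ∑ p ∈ I ×ˢ I, D (c + fq α β p.1) * D (c + fq α β p.2) := by
    intro c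
    rw [sq, sum_mul_sum, ← sum_product']
  have h2 : ∀ c : ℤ, (∑ n ∈ I, D (c + fq α β n)) ^ 2 = ∑ k ∈ Ioo (-(y : ℤ)) y,
      ∑ j ∈ range (y - k.natAbs), D (c + fq α β (max 1 (1 - k) + j)) * D (c + fq α β (max 1 (1 - k) + j + k)) := by
    intro c
    rw [h1, ← Finset.sum_fiberwise_of_maps_to (s := I ×ˢ I) (t := Ioo (-(y : ℤ)) y) (g := fun p => p.2 - p.1)]
    · refine sum_congr rfl fun k hk => ?_
      rw [mem_Ioo] at hk
      exact fiber_sum y k (by omega) (fun p => D (c + fq α β p.1) * D (c + fq α β p.2))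
    · rintro ⟨n, n'⟩ hp
      simp only [hI, mem_product, mem_Icc] at hp
      simp only [mem_Ioo]
      omega
  simp_rw [h2]
  have hfs : ∀ a b : ℤ, Fs (fun c => D (c + a) * D (c + b)) := fun a b => (h.shift a).mul _
  rw [Summable.tsum_finsetSum (fun k _ => (Fs.sum _ (fun (j : ℕ) c => D (c + fq α β (max 1 (1 - k) + j)) *
    D (c + fq α β (max 1 (1 - k) + j + k))) fun j _ => hfs _ _).summable), mul_sum]
  refine sum_le_sum fun k hk => ?_
  rw [Summable.tsum_finsetSum (fun j _ => (hfs _ _).summable)]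
  have h3 : ∀ j ∈ range (y - k.natAbs), ∑' c : ℤ, D (c + fq α β (max 1 (1 - k) + j)) *
      D (c + fq α β (max 1 (1 - k) + j + k)) =
      ∑' m : ℤ, D m * D (m + ((2 * α * k * max 1 (1 - k) + α * k ^ 2 + β * k) + (2 * α * k) * j)) := by
    intro j _
    rw [← (Equiv.addRight (fq α β (max 1 (1 - k) + j))).tsum_eq
      (fun m => D m * D (m + ((2 * α * k * max 1 (1 - k) + α * k ^ 2 + β * k) + (2 * α * k) * j)))]
    refine tsum_congr fun c => ?_
    rw [Equiv.coe_addRight]
    congr 2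
    unfold fq
    ring
  rw [sum_congr rfl h3, ← Summable.tsum_finsetSum (fun j _ => (h.mul _).summable)]
  simp_rw [← mul_sum]
  refine (le_abs_self _).trans ((cs h ?_).trans ?_)
  · exact Fs.sum _ (fun (j : ℕ) m => D (m + ((2 * α * k * max 1 (1 - k) + α * k ^ 2 + β * k) + (2 * α * k) * j)))
      fun j _ => h.shift _
  · rw [E2_prog]

end Pool.Agent.H43.SL
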