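import Pool.Agent.H43.SL.Alm
import Pool.Agent.H43.G.R_pool_sql_team_seeded_f72693b1.W81.R1A.Shift

/-!
The constants for almost all `a`.
-/

set_option autoImplicit false

namespace Pool.Agent.H43.SL

open Finset Filter Polynomial
open Pool.Agent.H442R2.EHI (evt_log_pow evt_log_ge)
open Pool.Agent.H300R2.BH (rho SS pv lF)
open Pool.Agent.H300R2.EC
open Pool.Agent.W80.EC
open Pool.Agent.W81.R1A (PC PQ LS PC_eq LS_eq prod_eq not_sq)
open Pool.Agent.W81.R1N (const_partZ)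

/-- the size parameter -/
def HX (X : ℕ) : ℕ := Nat.sqrt X + 1

lemma HX_sq (X : ℕ) : X < HX X ^ 2 := by
  unfold HX
  rw [sq]
  exact Nat.lt_succ_sqrt X

lemma HX_le (X : ℕ) (hX : 4 ≤ X) : HX X ≤ X := by
  unfold HX
  have h1 : Nat.sqrt X * Nat.sqrt X ≤ X := Nat.sqrt_le X
  by_contra hcon
  push Not at hcon
  have h2 : X ≤ Nat.sqrt X := by omega
  nlinarith

lemma HX_sq_le (X : ℕ) (hX : 4 ≤ X) : HX X ^ 2 ≤ 4 * X := by
  unfold HX
  have h1 : Nat.sqrt X * Nat.sqrt X ≤ X := Nat.sqrt_le X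
  have h2 : 1 ≤ Nat.sqrt X := by
    rw [Nat.le_sqrt]
    omega
  nlinarith

lemma HX_tendsto : Tendsto HX atTop atTop := by
  rw [tendsto_atTop_atTop]
  intro b
  refine ⟨b ^ 2, fun X hX => ?_⟩
  unfold HX
  have h1 : b ≤ Nat.sqrt X := by
    rw [Nat.le_sqrt, ← sq]
    exact hX
  omega

lemma HX_log (X : ℕ) (hX : 4 ≤ X) : Real.log X / 2 ≤ Real.log (HX X) ∧ Real.log (HX X) ≤ Real.log X := by
  have hX0 : (0 : ℝ) < X := by exact_mod_cast (by omega : 0 < X)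
  have h1 : (X : ℝ) ≤ (HX X : ℝ) ^ 2 := by exact_mod_cast (HX_sq X).le
  have hH0 : (0 : ℝ) < HX X := by
    have : 0 < HX X := Nat.succ_pos _
    exact_mod_cast this
  constructor
  · have h2 := Real.log_le_log hX0 h1
    rw [Real.log_pow] at h2
    push_cast at h2
    linarith
  · apply Real.log_le_log hH0
    exact_mod_cast HX_le X hX

lemma ep_pos : ep (((1 : ℕ) : ℤ)) 0 = 1 := by unfold ep; rw [if_neg]; decide

lemma ep_neg : ep (-((1 : ℕ) : ℤ)) (-0) = 1 := by unfold ep; rw [if_neg]; decide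

lemma Gf_pos : Gf (((1 : ℕ) : ℤ)) 0 = 1 := by
  unfold Gf
  have : Int.gcd (((1 : ℕ) : ℤ)) 0 = 1 := by decide
  rw [this, Nat.primeFactors_one, filter_empty, prod_empty]

lemma Gf_neg : Gf (-((1 : ℕ) : ℤ)) (-0) = 1 := by
  unfold Gf
  have : Int.gcd (-((1 : ℕ) : ℤ)) (-0) = 1 := by decide
  rw [this, Nat.primeFactors_one, filter_empty, prod_empty]

open Classical in
/-- **the constants** -/
theorem cst (U E : ℕ) (hE : 320 * (4 * (U + 4) + 1) ≤ E) (hE3 : U + 10 ≤ E) : ∀ᶠ X : ℕ in atTop,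
    ∃ Bad : Finset ℤ, (Bad.card : ℝ) ≤ X / Real.log X ^ U ∧ ∀ a ∈ Icc (-(X : ℤ)) X, a ∉ Bad → ¬ IsSquare (-a) →
      ∃ h : ℝ, 0 < h ∧ Tendsto (fun N : ℕ => PQ a N) atTop (nhds h) ∧ 1 / (2 * Real.log X) ≤ h ∧
        |SS ⌊Real.log (HX X) ^ E⌋₊ (q2 1 0 a) - h| ≤ h / (4 * Real.log (HX X) ^ U) ∧
        |SS ⌊Real.log (HX X) ^ E⌋₊ (q2 (-1) 0 (-a)) - h| ≤ h / (4 * Real.log (HX X) ^ U) := by
  filter_upwards [HX_tendsto.eventually (const_partZ U E hE3), HX_tendsto.eventually (exc_card (U + 4) E hE),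
    evt_log_pow U (1 / 8) (by norm_num), evt_log_ge 1, eventually_ge_atTop (2 ^ 24)] with X hc hexc hpow hL1 hX24
  have hX4 : 4 ≤ X := le_trans (by norm_num) hX24
  set L := Real.log X with hLdef
  have hL0 : 0 < L := by linarith
  have hX0 : (0 : ℝ) < X := by exact_mod_cast (by omega : 0 < X)
  have hX1 : (1 : ℝ) ≤ X := by exact_mod_cast (by omega : 1 ≤ X)
  obtain ⟨hM1, hM2⟩ := HX_log X hX4
  set M := Real.log (HX X) with hM
  have hM0 : 0 < M := by linarith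
  refine ⟨(Icc (-(X : ℤ)) X).filter (fun a => -4 * a ∈ Exc (U + 4) E (HX X)), ?_, ?_⟩
  · have h1 : ((Icc (-(X : ℤ)) X).filter (fun a => -4 * a ∈ Exc (U + 4) E (HX X))).card ≤ (Exc (U + 4) E (HX X)).card := by
      apply card_le_card_of_injOn (fun a => -4 * a)
      · intro a ha
        exact (mem_filter.1 ha).2
      · intro a _ b _ hab
        simp only at hab
        omega
    have h2 : ((HX X : ℕ) : ℝ) ≤ 2 * (X : ℝ) ^ (1 / 2 : ℝ) := by
      have h3 : ((HX X : ℕ) : ℝ) ^ 2 ≤ 4 * X := by exact_mod_cast HX_sq_le X hX4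
      rw [← Real.sqrt_eq_rpow]
      have h4 : (2 * Real.sqrt X) ^ 2 = 4 * X := by
        rw [mul_pow, Real.sq_sqrt hX0.le]; norm_num
      exact (abs_le_of_sq_le_sq' (by rw [h4]; exact h3) (by positivity)).2
    have h24 : (2 : ℝ) ^ (3 / 2 : ℝ) ≤ (X : ℝ) ^ (1 / 8 : ℝ) := by
      have h5 : ((2 : ℝ) ^ 24) ≤ X := by exact_mod_cast hX24
      calc (2 : ℝ) ^ (3 / 2 : ℝ) ≤ 2 ^ (3 : ℝ) := Real.rpow_le_rpow_of_exponent_le (by norm_num) (by norm_num)
        _ = ((2 : ℝ) ^ 24) ^ (1 / 8 : ℝ) := by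
            rw [← Real.rpow_natCast, ← Real.rpow_mul (by norm_num)]
            norm_num
        _ ≤ _ := Real.rpow_le_rpow (by positivity) h5 (by norm_num)
    rw [le_div_iff₀ (by positivity)]
    calc _ ≤ ((Exc (U + 4) E (HX X)).card : ℝ) * L ^ U := by
          have : (((Icc (-(X : ℤ)) X).filter (fun a => -4 * a ∈ Exc (U + 4) E (HX X))).card : ℝ) ≤
            (Exc (U + 4) E (HX X)).card := by exact_mod_cast h1
          gcongr
      _ ≤ (HX X : ℝ) ^ (3 / 2 : ℝ) * (X : ℝ) ^ (1 / 8 : ℝ) := by gcongr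
      _ ≤ (2 * (X : ℝ) ^ (1 / 2 : ℝ)) ^ (3 / 2 : ℝ) * (X : ℝ) ^ (1 / 8 : ℝ) := by gcongr
      _ = (2 : ℝ) ^ (3 / 2 : ℝ) * (X : ℝ) ^ (3 / 4 : ℝ) * (X : ℝ) ^ (1 / 8 : ℝ) := by
          rw [Real.mul_rpow (by norm_num) (by positivity), ← Real.rpow_mul hX0.le]
          norm_num
      _ ≤ (X : ℝ) ^ (1 / 8 : ℝ) * (X : ℝ) ^ (3 / 4 : ℝ) * (X : ℝ) ^ (1 / 8 : ℝ) := by gcongr
      _ = X := by
          rw [← Real.rpow_add hX0, ← Real.rpow_add hX0]
          norm_num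
  · intro a ha haB hsq
    have haX := mem_Icc.1 ha
    have hH1 : (1 : ℤ) ≤ HX X := by
      have : 1 ≤ HX X := Nat.succ_pos _
      exact_mod_cast this
    have hnexc : -4 * a ∉ Exc (U + 4) E (HX X) := by
      intro hcon
      exact haB (mem_filter.2 ⟨ha, hcon⟩)
    have ha0 : a ≠ 0 := by
      rintro rfl
      exact hsq ⟨0, by simp⟩
    have hD : -4 * a ∈ Dset (5 * HX X ^ 2) := by
      unfold Dset
      rw [mem_filter, mem_Icc]
      have h1 : (X : ℤ) < (HX X : ℤ) ^ 2 := by exact_mod_cast HX_sq X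
      push_cast
      refine ⟨⟨by omega, by omega⟩, by omega⟩
    obtain ⟨K, hK, hlim, hlow, hclose⟩ := hc (((1 : ℕ) : ℤ)) 0 a (by norm_num) (by simpa using hH1) (by simp)
      (not_sq hsq _ (by push_cast; ring)) (by rintro ⟨h3, _⟩; revert h3; decide)
      (by convert hD using 1; push_cast; ring) (by convert hnexc using 2; push_cast; ring)
    obtain ⟨K', hK', hlim', hlow', hclose'⟩ := hc (-((1 : ℕ) : ℤ)) (-0) (-a) (by norm_num) (by simpa using hH1) (by simp)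
      (not_sq hsq _ (by push_cast; ring)) (by rintro ⟨h3, _⟩; revert h3; decide)
      (by convert hD using 1; push_cast; ring) (by convert hnexc using 2; push_cast; ring)
    have el : ∀ N : ℕ, Pc (((1 : ℕ) : ℤ)) (0 ^ 2 - 4 * ((1 : ℕ) : ℤ) * a) N = PQ a N :=
      fun N => prod_eq _ a _ (Or.inl (by simp)) (by push_cast; ring) N
    have el' : ∀ N : ℕ, Pc (-((1 : ℕ) : ℤ)) ((-0) ^ 2 - 4 * (-((1 : ℕ) : ℤ)) * (-a)) N = PQ a N :=
      fun N => prod_eq _ a _ (Or.inr (by simp)) (by push_cast; ring) N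
    simp_rw [el] at hlim
    simp_rw [el'] at hlim'
    have hKK : K' = K := tendsto_nhds_unique hlim' hlim
    subst hKK
    rw [ep_pos, Gf_pos, one_mul, mul_one] at hlow hclose
    rw [ep_neg, Gf_neg, one_mul, mul_one] at hclose'
    refine ⟨K', hK', hlim, ?_, ?_, ?_⟩
    · refine le_trans ?_ hlow
      apply one_div_le_one_div_of_le (by positivity)
      linarith
    · have e : q2 (((1 : ℕ) : ℤ)) 0 a = q2 1 0 a := by norm_num
      rw [e] at hclose
      exact hclose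
    · have e : q2 (-((1 : ℕ) : ℤ)) (-0) (-a) = q2 (-1) 0 (-a) := by norm_num
      rw [e] at hclose'
      exact hclose'

end Pool.Agent.H43.SL
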