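import Pool.Agent.H43.G.R_pool_sql_team_seeded_620a6dc7.helper24_UT_.Lsq

/-!
Functions of finite support on the integers: energies, shifts, sums over progressions.
-/

set_option autoImplicit false

namespace Pool.Agent.H43.SL

open Finset

/-- finite support -/
def Fs (f : ℤ → ℝ) : Prop := (Function.support f).Finite

/-- the energy -/
noncomputable def E2 (f : ℤ → ℝ) : ℝ := ∑' m, f m ^ 2

lemma Fs.summable {f : ℤ → ℝ} (h : Fs f) : Summable f := summable_of_hasFiniteSupport h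

lemma Fs.mono {f g : ℤ → ℝ} (h : Fs f) (hfg : ∀ m, f m = 0 → g m = 0) : Fs g := by
  refine Set.Finite.subset h fun m hm => ?_
  rw [Function.mem_support] at hm ⊢
  exact fun h0 => hm (hfg m h0)

lemma Fs.sq {f : ℤ → ℝ} (h : Fs f) : Fs (fun m => f m ^ 2) :=
  h.mono fun m hm => by simp [hm]

lemma Fs.mul {f : ℤ → ℝ} (h : Fs f) (g : ℤ → ℝ) : Fs (fun m => f m * g m) :=
  h.mono fun m hm => by simp [hm]

lemma Fs.shift {f : ℤ → ℝ} (h : Fs f) (t : ℤ) : Fs (fun m => f (m + t)) := by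
  have : Function.support (fun m => f (m + t)) = (fun m : ℤ => m + t) ⁻¹' (Function.support f) := by
    ext m; simp
  unfold Fs
  rw [this]
  exact Set.Finite.preimage (add_left_injective t).injOn h

lemma Fs.add {f g : ℤ → ℝ} (hf : Fs f) (hg : Fs g) : Fs (fun m => f m + g m) := by
  refine Set.Finite.subset (hf.union hg) fun m hm => ?_
  rw [Function.mem_support] at hm
  by_contra hcon
  rw [Set.mem_union, not_or, Function.mem_support, Function.mem_support, not_not, not_not] at hcon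
  apply hm
  rw [hcon.1, hcon.2, add_zero]

lemma Fs.sum {ι : Type*} (s : Finset ι) (F : ι → ℤ → ℝ) (h : ∀ i ∈ s, Fs (F i)) :
    Fs (fun m => ∑ i ∈ s, F i m) := by
  classical
  induction s using Finset.induction_on with
  | empty => simp [Fs]
  | insert a s ha ih =>
    simp_rw [sum_insert ha]
    exact (h a (mem_insert_self _ _)).add (ih fun i hi => h i (mem_insert_of_mem hi))

lemma E2_nonneg (f : ℤ → ℝ) : 0 ≤ E2 f := tsum_nonneg fun _ => sq_nonneg _

lemma E2_shift (f : ℤ → ℝ) (t : ℤ) : E2 (fun m => f (m + t)) = E2 f :=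
  (Equiv.addRight t).tsum_eq (fun m => f m ^ 2)

lemma E2_mono {f g : ℤ → ℝ} (hf : Fs f) (hg : Fs g) (h : ∀ m, f m ^ 2 ≤ g m ^ 2) : E2 f ≤ E2 g :=
  Summable.tsum_le_tsum h hf.sq.summable hg.sq.summable

lemma E2_sum_le {ι : Type*} (s : Finset ι) (F : ι → ℤ → ℝ) (h : ∀ i ∈ s, Fs (F i)) :
    E2 (fun m => ∑ i ∈ s, F i m) ≤ s.card * ∑ i ∈ s, E2 (F i) := by
  unfold E2
  rw [← Summable.tsum_finsetSum (fun i hi => (h i hi).sq.summable), ← tsum_mul_left]
  refine Summable.tsum_le_tsum (fun m => sq_sum_le_card_mul_sum_sq) (Fs.sum s F h).sq.summable ?_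
  refine Summable.mul_left _ ?_
  exact (Fs.sum s (fun i m => F i m ^ 2) fun i hi => (h i hi).sq).summable

lemma E2_add_le {f g : ℤ → ℝ} (hf : Fs f) (hg : Fs g) :
    E2 (fun m => f m + g m) ≤ 2 * E2 f + 2 * E2 g := by
  unfold E2
  rw [← tsum_mul_left, ← tsum_mul_left, ← Summable.tsum_add (hf.sq.summable.mul_left _) (hg.sq.summable.mul_left _)]
  refine Summable.tsum_le_tsum (fun m => ?_) (hf.add hg).sq.summable
    ((hf.sq.summable.mul_left _).add (hg.sq.summable.mul_left _))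
  nlinarith [sq_nonneg (f m - g m)]

lemma cs {f g : ℤ → ℝ} (hf : Fs f) (hg : Fs g) :
    |∑' m, f m * g m| ≤ Real.sqrt (E2 f) * Real.sqrt (E2 g) := by
  obtain ⟨s, hs⟩ : ∃ s : Finset ℤ, (s : Set ℤ) = Function.support f := Set.Finite.exists_finset_coe hf
  have hmem : ∀ m, m ∉ s → f m = 0 := by
    intro m hm
    by_contra hcon
    apply hm
    rw [← Finset.mem_coe, hs]
    exact hcon
  have h1 : ∑' m, f m * g m = ∑ m ∈ s, f m * g m :=
    tsum_eq_sum fun m hm => by rw [hmem m hm, zero_mul]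
  have h2 : ∑ m ∈ s, f m ^ 2 ≤ E2 f := hf.sq.summable.sum_le_tsum s fun _ _ => sq_nonneg _
  have h3 : ∑ m ∈ s, g m ^ 2 ≤ E2 g := hg.sq.summable.sum_le_tsum s fun _ _ => sq_nonneg _
  rw [h1, ← Real.sqrt_mul (E2_nonneg f)]
  apply Real.abs_le_sqrt
  refine (Finset.sum_mul_sq_le_sq_mul_sq s f g).trans ?_
  exact mul_le_mul h2 h3 (sum_nonneg fun _ _ => sq_nonneg _) (E2_nonneg f)

/-- sums over progressions -/
noncomputable def Sq (D : ℤ → ℝ) (q L : ℕ) (m : ℤ) : ℝ := ∑ j ∈ range L, D (m + (q : ℤ) * j)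

lemma Sq_fs {D : ℤ → ℝ} (h : Fs D) (q L : ℕ) : Fs (Sq D q L) :=
  Fs.sum (range L) (fun j m => D (m + (q : ℤ) * j)) fun j _ => h.shift _

lemma Sq_add (D : ℤ → ℝ) (q a b : ℕ) (m : ℤ) :
    Sq D q (a + b) m = Sq D q a m + Sq D q b (m + (q : ℤ) * a) := by
  unfold Sq
  rw [sum_range_add]
  congr 1
  refine sum_congr rfl fun j _ => ?_
  congr 1
  push_cast
  ring

lemma Sq_mul (D : ℤ → ℝ) (q w t : ℕ) (m : ℤ) :
    Sq D q (w * t) m = ∑ i ∈ range t, Sq D q w (m + (q : ℤ) * (w * i)) := by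
  induction t with
  | zero => simp [Sq]
  | succ t ih =>
    rw [Nat.mul_succ, Sq_add, ih, sum_range_succ]
    push_cast
    rfl

lemma E2_Sq_triv {D : ℤ → ℝ} (h : Fs D) (q L : ℕ) : E2 (Sq D q L) ≤ (L : ℝ) ^ 2 * E2 D := by
  refine (E2_sum_le (range L) (fun j m => D (m + (q : ℤ) * j)) fun j _ => h.shift _).trans ?_
  simp_rw [E2_shift]
  rw [sum_const, card_range, nsmul_eq_mul]
  apply le_of_eq
  ring

lemma E2_Sq_le {D : ℤ → ℝ} (h : Fs D) (q L w : ℕ) (hw : 1 ≤ w) :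
    E2 (Sq D q L) ≤ 2 * ((L / w : ℕ) : ℝ) ^ 2 * E2 (Sq D q w) + 2 * (w : ℝ) ^ 2 * E2 D := by
  have h1 : Sq D q L = fun m => Sq D q (w * (L / w)) m + Sq D q (L % w) (m + (q : ℤ) * ((w * (L / w) : ℕ) : ℤ)) := by
    funext m
    conv_lhs => rw [← Nat.div_add_mod L w]
    exact Sq_add D q _ _ m
  rw [h1]
  refine (E2_add_le (Sq_fs h _ _) ((Sq_fs h q (L % w)).shift _)).trans ?_
  rw [E2_shift]
  have h2 : E2 (Sq D q (w * (L / w))) ≤ ((L / w : ℕ) : ℝ) ^ 2 * E2 (Sq D q w) := by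
    have e : Sq D q (w * (L / w)) = fun m => ∑ i ∈ range (L / w), Sq D q w (m + (q : ℤ) * (w * i)) := by
      funext m
      exact Sq_mul D q w _ m
    rw [e]
    refine (E2_sum_le (range (L / w)) (fun i m => Sq D q w (m + (q : ℤ) * (w * i)))
      fun i _ => (Sq_fs h q w).shift _).trans ?_
    simp_rw [E2_shift]
    rw [sum_const, card_range, nsmul_eq_mul]
    apply le_of_eq
    ring
  have h3 : E2 (Sq D q (L % w)) ≤ (w : ℝ) ^ 2 * E2 D := by
    refine (E2_Sq_triv h q _).trans ?_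
    have : ((L % w : ℕ) : ℝ) ≤ w := by exact_mod_cast (Nat.mod_lt L hw).le
    have := E2_nonneg D
    gcongr
  linarith

end Pool.Agent.H43.SL
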