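import Pool.Agent.H43.SL.BlkN

/-!
All lengths.
-/

set_option autoImplicit false

namespace Pool.Agent.H43.SL

open Finset Filter Polynomial
open Pool.Agent.helper24_UT (S_LSQ)
open Pool.Agent.H442R2.EHI (evt_log_pow evt_log_ge)
open Pool.Agent.H300R2.BH (rho SS pv lF)
open Pool.Agent.W80.EC
open Pool.Agent.W81.R1A (PC PQ LS PC_eq LS_eq shifts)

/-- lower bound for the sum of the `1 / log |n² + a|` -/
lemma LS_lower : ∀ᶠ X : ℕ in atTop, ∀ a ∈ Icc (-(X : ℤ)) X, ∀ y : ℕ, 12 ≤ y → y ≤ X →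
    (y : ℝ) / (4 * Real.log X) ≤ LS a y := by
  filter_upwards [evt_log_ge 4, eventually_ge_atTop 4] with X hL4 hX4 a ha y hy hyX
  set L := Real.log X with hL
  have hL0 : 0 < L := by linarith
  have hX0 : (0 : ℝ) < X := by exact_mod_cast (by omega : 0 < X)
  rw [mem_Icc] at ha
  set S := (Icc 1 y).filter (fun n : ℕ => 2 ≤ |(n : ℤ) ^ 2 + a|) with hS
  have hterm : ∀ n ∈ S, 1 / (3 * L) ≤ 1 / Real.log |(((n : ℤ) ^ 2 + a : ℤ) : ℝ)| := by
    intro n hn
    rw [hS, mem_filter, mem_Icc] at hn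
    obtain ⟨⟨h1, h2⟩, h3⟩ := hn
    have h4 : (2 : ℝ) ≤ |(((n : ℤ) ^ 2 + a : ℤ) : ℝ)| := by exact_mod_cast h3
    have h5 : |(((n : ℤ) ^ 2 + a : ℤ) : ℝ)| ≤ (X : ℝ) ^ 3 := by
      have h6 : |(n : ℤ) ^ 2 + a| ≤ (X : ℤ) ^ 3 := by
        have h7 : (n : ℤ) ≤ X := by exact_mod_cast h2.trans hyX
        have h8 : (n : ℤ) ^ 2 ≤ (X : ℤ) ^ 2 := pow_le_pow_left₀ (by positivity) h7 2
        have h9 : (4 : ℤ) ≤ X := by exact_mod_cast hX4
        rw [abs_le]
        constructor <;> nlinarith [sq_nonneg (n : ℤ), mul_pos (show (0 : ℤ) < X by omega) (show (0 : ℤ) < X by omega)]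
      exact_mod_cast h6
    have h6 : Real.log |(((n : ℤ) ^ 2 + a : ℤ) : ℝ)| ≤ 3 * L := by
      have := Real.log_le_log (by linarith) h5
      rw [Real.log_pow] at this
      exact_mod_cast this
    apply one_div_le_one_div_of_le _ h6
    exact Real.log_pos (by linarith)
  have hcard : (y : ℝ) - 3 ≤ S.card := by
    have h1 : ((Icc 1 y).filter (fun n : ℕ => ¬ (2 ≤ |(n : ℤ) ^ 2 + a|))).card ≤ 3 := by
      have h2 : ((Icc 1 y).filter (fun n : ℕ => ¬ (2 ≤ |(n : ℤ) ^ 2 + a|))).card ≤ (Icc (-1 : ℤ) 1).card := by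
        apply card_le_card_of_injOn (fun n : ℕ => (n : ℤ) ^ 2 + a)
        · intro n hn
          have h3 := (mem_filter.1 hn).2
          push Not at h3
          simp only [coe_Icc, Set.mem_Icc]
          rw [abs_lt] at h3
          constructor <;> linarith
        · intro n hn m hm hnm
          simp only at hnm
          have h4 : (n : ℤ) ^ 2 = (m : ℤ) ^ 2 := by linarith
          have h5 : n ^ 2 = m ^ 2 := by exact_mod_cast h4
          exact Nat.pow_left_injective (by norm_num) h5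
      simpa using h2
    have h2 := card_filter_add_card_filter_not (s := Icc 1 y) (fun n : ℕ => 2 ≤ |(n : ℤ) ^ 2 + a|)
    rw [Nat.card_Icc, Nat.add_sub_cancel] at h2
    have h3 : y ≤ S.card + 3 := by rw [hS]; omega
    have h4 : (y : ℝ) ≤ S.card + 3 := by exact_mod_cast h3
    linarith
  have h1 : (S.card : ℝ) * (1 / (3 * L)) ≤ LS a y := by
    unfold LS
    rw [← nsmul_eq_mul, ← sum_const]
    exact sum_le_sum hterm
  refine le_trans ?_ h1
  have hy12 : (12 : ℝ) ≤ y := by exact_mod_cast hy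
  calc (y : ℝ) / (4 * L) = (3 * y / 4) * (1 / (3 * L)) := by field_simp
    _ ≤ (S.card : ℝ) * (1 / (3 * L)) := by
        gcongr
        linarith

/-- the next power of two -/
lemma next_pow (y : ℕ) (hy : 1 ≤ y) : y ≤ 2 ^ Nat.clog 2 y ∧ 2 ^ Nat.clog 2 y ≤ 2 * y := by
  refine ⟨Nat.le_pow_clog (by norm_num) y, ?_⟩
  rcases Nat.lt_or_ge 1 y with h | h
  · have h1 := Nat.pow_pred_clog_lt_self (b := 2) (by norm_num) h
    have h2 : 0 < Nat.clog 2 y := Nat.clog_pos (by norm_num) h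
    have h3 : 2 ^ Nat.clog 2 y = 2 * 2 ^ (Nat.clog 2 y).pred := by
      rw [← pow_succ']
      congr 1
      exact (Nat.succ_pred_eq_of_pos h2).symm
    rw [h3]
    omega
  · have : y = 1 := by omega
    subst this
    simp

theorem fin {θ : ℝ} (hθ0 : 0 < θ) (hθ1 : θ ≤ 1) (h : SIg θ) (hLSQ : S_LSQ) (U : ℕ) (ε : ℝ) (hε : 0 < ε) :
    ∃ B : ℕ, ∀ᶠ X : ℕ in atTop, ∃ Bad : Finset ℤ, (Bad.card : ℝ) ≤ X / Real.log X ^ U ∧
      ∀ a ∈ Icc (-(X : ℤ)) X, a ∉ Bad → ¬ IsSquare (-a) →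
      ∃ h : ℝ, 0 < h ∧ Tendsto (fun N : ℕ => PQ a N) atTop (nhds h) ∧
        ∀ y : ℕ, (X : ℝ) ^ (θ / 2 + ε) ≤ y → y * Real.log X ^ B ≤ X →
          |PC a y - h * LS a y| ≤ h * LS a y / Real.log X ^ U := by
  classical
  obtain ⟨U', hU'⟩ : ∃ U', U' = U + 4 := ⟨_, rfl⟩
  obtain ⟨E1, hblk⟩ := blkN hθ0 hθ1 h hLSQ U' ε hε
  set E := max E1 (320 * (4 * (U' + 4) + 1)) + U' + 10 with hE
  have hE1 : E1 ≤ E := by rw [hE]; have := le_max_left E1 (320 * (4 * (U' + 4) + 1)); omega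
  have hE2 : 320 * (4 * (U' + 4) + 1) ≤ E := by
    rw [hE]; have := le_max_right E1 (320 * (4 * (U' + 4) + 1)); omega
  have hE3 : U' + 10 ≤ E := by rw [hE]; omega
  clear_value E
  obtain ⟨B1, hB1⟩ := shifts 1 U' 1 one_pos
  have hc : 0 < θ / 2 + ε := by positivity
  refine ⟨B1 + 1, ?_⟩
  filter_upwards [hblk E hE1, cst U' E hE2 hE3, evt_all hB1 (1 / 2) (by norm_num), LS_lower,
    evt_log_ge (2 ^ (U' + 10)), evt_log_ge 64, eventually_ge_atTop 16,
    evt_all (eventually_ge_atTop 12) _ hc, evt_all (evt_log_ge 16) (1 / 2) (by norm_num)]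
    with X hblkX hcst hsh hLS hLU hL64 hX16 h12 hl16
  set L := Real.log X with hLdef
  have hL0 : 0 < L := by linarith
  have hL1 : 1 ≤ L := by linarith
  have hp : ∀ n : ℕ, 0 < L ^ n := fun n => by positivity
  have hp1 : ∀ n : ℕ, 1 ≤ L ^ n := fun n => one_le_pow₀ hL1
  have hX4 : 4 ≤ X := by omega
  have hX0 : (0 : ℝ) < X := by exact_mod_cast (by omega : 0 < X)
  have hX1 : (1 : ℝ) ≤ X := by exact_mod_cast (by omega : 1 ≤ X)
  have hX16r : (16 : ℝ) ≤ X := by exact_mod_cast hX16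
  obtain ⟨hM1, hM2⟩ := HX_log X hX4
  have hM0 : 0 < Real.log (HX X) := by linarith
  obtain ⟨Bad0, hBad0, hg0⟩ := hcst
  -- the exceptional sets of the short dyadic lengths
  have hS : ∀ j : ℕ, ∃ Bad : Finset ℤ, (Bad.card : ℝ) ≤ X / L ^ U' ∧
      ((X : ℝ) ^ (θ / 2 + ε) ≤ ((2 ^ j : ℕ) : ℝ) → (((2 ^ j : ℕ) : ℝ)) ^ 2 ≤ X →
      ∀ a ∈ Icc (-(X : ℤ)) X, a ∉ Bad → ∀ y : ℕ, y ≤ 2 ^ j →
      |pv (q2 1 0 a) y - SS ⌊Real.log (HX X) ^ E⌋₊ (q2 1 0 a) * lF (q2 1 0 a) y| ≤ ((2 ^ j : ℕ) : ℝ) / L ^ U' ∧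
      |pv (q2 (-1) 0 (-a)) y - SS ⌊Real.log (HX X) ^ E⌋₊ (q2 (-1) 0 (-a)) * lF (q2 (-1) 0 (-a)) y| ≤
        ((2 ^ j : ℕ) : ℝ) / L ^ U') := by
    intro j
    by_cases h1 : (X : ℝ) ^ (θ / 2 + ε) ≤ ((2 ^ j : ℕ) : ℝ) ∧ (((2 ^ j : ℕ) : ℝ)) ^ 2 ≤ X
    · obtain ⟨Bad, h2, h3⟩ := hblkX (2 ^ j) h1.1 h1.2
      exact ⟨Bad, h2, fun _ _ => h3⟩
    · exact ⟨∅, by simp; positivity, fun h2 h3 => absurd ⟨h2, h3⟩ h1⟩
  choose BS hBS1 hBS2 using hS
  -- the exceptional sets of the long dyadic lengths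
  have hT : ∀ j : ℕ, ∃ Bad : Finset ℤ, (Bad.card : ℝ) ≤ (2 * X + 1 : ℕ) / (L / 2) ^ U' ∧
      ((X : ℝ) ^ (1 / 2 : ℝ) ≤ ((2 ^ j : ℕ) : ℝ) → ((2 ^ j : ℕ) : ℝ) * L ^ B1 ≤ X →
      ∀ a : ℤ, -(X : ℤ) - 1 < a → a ≤ -(X : ℤ) - 1 + (2 * X + 1 : ℕ) → a ∉ Bad → ¬ IsSquare (-a) →
        ∃ h : ℝ, Tendsto (fun N : ℕ => PQ a N) atTop (nhds h) ∧
          (∀ y : ℕ, y ≤ 2 ^ j → |PC a y - h * LS a y| ≤ h * (((2 ^ j : ℕ) : ℝ) / (L / 2) ^ U'))) := by
    intro j
    by_cases h1 : (X : ℝ) ^ (1 / 2 : ℝ) ≤ ((2 ^ j : ℕ) : ℝ) ∧ ((2 ^ j : ℕ) : ℝ) * L ^ B1 ≤ X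
    · have hxX : ((2 ^ j : ℕ) : ℝ) ≤ X := le_trans (by
        have := hp1 B1
        have h2 : (0 : ℝ) ≤ ((2 ^ j : ℕ) : ℝ) := Nat.cast_nonneg _
        nlinarith) h1.2
      have hx0 : (0 : ℝ) < ((2 ^ j : ℕ) : ℝ) := by positivity
      have hlx1 : L / 2 ≤ Real.log ((2 ^ j : ℕ) : ℝ) := by
        have h2 := Real.log_le_log (by positivity) h1.1
        rw [Real.log_rpow hX0] at h2
        linarith
      have hlx2 : Real.log ((2 ^ j : ℕ) : ℝ) ≤ L := Real.log_le_log hx0 hxX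
      have hlx0 : 0 < Real.log ((2 ^ j : ℕ) : ℝ) := by linarith
      have h16 := hl16 (2 ^ j) h1.1
      have hsq : (X : ℝ) ≤ (((2 ^ j : ℕ) : ℝ)) ^ 2 := by
        have h2 := pow_le_pow_left₀ (by positivity) h1.1 2
        rw [← Real.rpow_mul_natCast hX0.le] at h2
        norm_num at h2 ⊢
        exact h2
      obtain ⟨Bad, h2, h3⟩ := hsh (2 ^ j) h1.1 (-(X : ℤ) - 1) (2 * X + 1) (by
          push_cast
          rw [abs_of_nonpos (by linarith), pow_one]
          push_cast at hsq h16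
          nlinarith) (by
          refine le_trans ?_ (le_trans h1.2 ?_)
          · gcongr
          · push_cast; linarith) (by
          rw [pow_one]
          push_cast at hsq h16 ⊢
          nlinarith)
      refine ⟨Bad, h2.trans ?_, fun _ _ a ha1 ha2 haB hsq' => ?_⟩
      · gcongr
      · obtain ⟨h', h4, h5, h6, h7, _⟩ := h3 a ha1 ha2 haB hsq'
        refine ⟨h', h5, fun y hy => (h7 y hy).trans ?_⟩
        gcongr
    · exact ⟨∅, by simp; positivity, fun h2 h3 => absurd ⟨h2, h3⟩ h1⟩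
  choose BT hBT1 hBT2 using hT
  set J := Nat.clog 2 X + 2 with hJ
  have hJL : (J : ℝ) ≤ 4 * L := by
    have h1 : 2 ^ Nat.clog 2 X ≤ 2 * X := (next_pow X (by omega)).2
    have h2 : ((2 : ℝ)) ^ Nat.clog 2 X ≤ 2 * X := by exact_mod_cast h1
    have h3 := Real.log_le_log (by positivity) h2
    rw [Real.log_pow, Real.log_mul (by norm_num) hX0.ne'] at h3
    have h4 : Real.log 2 ≤ 1 := by have := Real.log_two_lt_d9; linarith
    have h5 : 1 / 2 ≤ Real.log 2 := by have := Real.log_two_gt_d9; linarith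
    rw [hJ]
    push_cast
    have h6 : (0 : ℝ) ≤ (Nat.clog 2 X : ℝ) := Nat.cast_nonneg _
    have h7 : (Nat.clog 2 X : ℝ) * (1 / 2) ≤ (Nat.clog 2 X : ℝ) * Real.log 2 := by gcongr
    linarith
  refine ⟨Bad0 ∪ ((range J).biUnion BS ∪ (range J).biUnion BT), ?_, ?_⟩
  · have h1 : ((Bad0 ∪ ((range J).biUnion BS ∪ (range J).biUnion BT)).card : ℝ) ≤
        Bad0.card + (∑ j ∈ range J, ((BS j).card : ℝ) + ∑ j ∈ range J, ((BT j).card : ℝ)) := by
      have h2 := card_union_le Bad0 ((range J).biUnion BS ∪ (range J).biUnion BT)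
      have h3 := card_union_le ((range J).biUnion BS) ((range J).biUnion BT)
      have h4 := card_biUnion_le (s := range J) (t := BS)
      have h5 := card_biUnion_le (s := range J) (t := BT)
      exact_mod_cast h2.trans (by omega)
    refine h1.trans ?_
    have h2 : ∑ j ∈ range J, ((BS j).card : ℝ) ≤ 4 * L * (X / L ^ U') := by
      calc ∑ j ∈ range J, ((BS j).card : ℝ) ≤ ∑ j ∈ range J, X / L ^ U' := sum_le_sum fun j _ => hBS1 j
        _ = J * (X / L ^ U') := by rw [sum_const, card_range, nsmul_eq_mul]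
        _ ≤ _ := by gcongr
    have h3 : ∑ j ∈ range J, ((BT j).card : ℝ) ≤ 4 * L * ((3 * 2 ^ U') * (X / L ^ U')) := by
      calc ∑ j ∈ range J, ((BT j).card : ℝ) ≤ ∑ j ∈ range J, (((2 * X + 1 : ℕ) : ℝ) / (L / 2) ^ U') :=
            sum_le_sum fun j _ => hBT1 j
        _ = J * (((2 * X + 1 : ℕ) : ℝ) / (L / 2) ^ U') := by rw [sum_const, card_range, nsmul_eq_mul]
        _ ≤ (4 * L) * ((3 * X) / (L / 2) ^ U') := by
            gcongr
            push_cast
            linarith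
        _ = _ := by
            rw [div_pow]
            field_simp
    have h4 : (1 : ℝ) ≤ 2 ^ U' := one_le_pow₀ (by norm_num)
    calc (Bad0.card : ℝ) + (∑ j ∈ range J, ((BS j).card : ℝ) + ∑ j ∈ range J, ((BT j).card : ℝ)) ≤
          X / L ^ U' + (4 * L * (X / L ^ U') + 4 * L * ((3 * 2 ^ U') * (X / L ^ U'))) := by
          gcongr
      _ ≤ (2 ^ U' * L) * (X / L ^ U') + ((4 * (2 ^ U' * L)) * (X / L ^ U') + 4 * L * ((3 * 2 ^ U') * (X / L ^ U'))) := by
          have h5 : (1 : ℝ) ≤ 2 ^ U' * L := by nlinarith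
          have h6 : L ≤ 2 ^ U' * L := by nlinarith
          have h7 : 0 ≤ (X : ℝ) / L ^ U' := by positivity
          gcongr
          nlinarith
      _ = (17 * 2 ^ U') * L * (X / L ^ U') := by ring
      _ ≤ L * L * (X / L ^ U') := by
          gcongr
          refine le_trans ?_ hLU
          rw [pow_add]
          nlinarith
      _ ≤ X / L ^ U := by
          rw [hU', mul_div_assoc', div_le_div_iff₀ (hp _) (hp _), pow_add]
          have h8 : L * L ≤ L ^ 4 := by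
            calc L * L = L ^ 2 := by ring
              _ ≤ L ^ 4 := pow_le_pow_right₀ hL1 (by norm_num)
          calc L * L * X * L ^ U = (L * L) * (X * L ^ U) := by ring
            _ ≤ L ^ 4 * (X * L ^ U) := by gcongr
            _ = _ := by ring
  · intro a ha haB hsq
    rw [mem_union, not_or, mem_union, not_or] at haB
    obtain ⟨ha0, haS, haT⟩ := haB
    obtain ⟨hh, hpos, hlim, hlow, hcp, hcn⟩ := hg0 a ha ha0 hsq
    refine ⟨hh, hpos, hlim, fun y hy1 hy2 => ?_⟩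
    have hy12 : 12 ≤ y := h12 y hy1
    have hyXr : (y : ℝ) ≤ X := by
      refine le_trans ?_ hy2
      have := hp1 (B1 + 1)
      have h2 : (0 : ℝ) ≤ y := Nat.cast_nonneg _
      nlinarith
    have hyX : y ≤ X := by exact_mod_cast hyXr
    have hy0 : (0 : ℝ) < y := by exact_mod_cast (by omega : 0 < y)
    have hLSy := hLS a ha y hy12 hyX
    have hLS0 : 0 < LS a y := lt_of_lt_of_le (by positivity) hLSy
    have hyLS : (y : ℝ) ≤ 4 * L * LS a y := by
      rw [div_le_iff₀ (by positivity)] at hLSy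
      linarith
    obtain ⟨hn1, hn2⟩ := next_pow y (by omega)
    set j := Nat.clog 2 y with hj
    have hjJ : j ∈ range J := by
      rw [mem_range, hJ, hj]
      have := Nat.clog_mono_right 2 hyX
      omega
    have hn1r : (y : ℝ) ≤ ((2 ^ j : ℕ) : ℝ) := by exact_mod_cast hn1
    have hn2r : ((2 ^ j : ℕ) : ℝ) ≤ 2 * y := by exact_mod_cast hn2
    by_cases hsmall : (((2 ^ j : ℕ) : ℝ)) ^ 2 ≤ X
    · have haj : a ∉ BS j := fun hcon => haS (mem_biUnion.2 ⟨j, hjJ, hcon⟩)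
      obtain ⟨k1, k2⟩ := hBS2 j (hy1.trans hn1r) hsmall a ha haj y hn1
      have e3 : PC a y - hh * LS a y = ((pv (q2 1 0 a) y - SS ⌊Real.log (HX X) ^ E⌋₊ (q2 1 0 a) * lF (q2 1 0 a) y) +
          (SS ⌊Real.log (HX X) ^ E⌋₊ (q2 1 0 a) - hh) * lF (q2 1 0 a) y) +
          ((pv (q2 (-1) 0 (-a)) y - SS ⌊Real.log (HX X) ^ E⌋₊ (q2 (-1) 0 (-a)) * lF (q2 (-1) 0 (-a)) y) +
          (SS ⌊Real.log (HX X) ^ E⌋₊ (q2 (-1) 0 (-a)) - hh) * lF (q2 (-1) 0 (-a)) y) := by
        rw [PC_eq, LS_eq]; ring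
      have hlp := (Pool.Agent.W81.R1.lF_le (q2 1 0 a) y).1
      have hln := (Pool.Agent.W81.R1.lF_le (q2 (-1) 0 (-a)) y).1
      have b1 : |(SS ⌊Real.log (HX X) ^ E⌋₊ (q2 1 0 a) - hh) * lF (q2 1 0 a) y| ≤
          hh / (4 * Real.log (HX X) ^ U') * lF (q2 1 0 a) y := by
        rw [abs_mul, abs_of_nonneg hlp]
        gcongr
      have b2 : |(SS ⌊Real.log (HX X) ^ E⌋₊ (q2 (-1) 0 (-a)) - hh) * lF (q2 (-1) 0 (-a)) y| ≤
          hh / (4 * Real.log (HX X) ^ U') * lF (q2 (-1) 0 (-a)) y := by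
        rw [abs_mul, abs_of_nonneg hln]
        gcongr
      have hlow' : 1 ≤ hh * (2 * L) := by
        rw [div_le_iff₀ (by positivity)] at hlow
        linarith
      have c1 : ((2 ^ j : ℕ) : ℝ) / L ^ U' ≤ hh * LS a y * (16 * L ^ 2 / L ^ U') := by
        calc ((2 ^ j : ℕ) : ℝ) / L ^ U' ≤ (2 * (4 * L * LS a y)) / L ^ U' := by
              gcongr
              linarith
          _ = 1 * (8 * L * LS a y) / L ^ U' := by ring
          _ ≤ (hh * (2 * L)) * (8 * L * LS a y) / L ^ U' := by gcongr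
          _ = _ := by ring
      have c2 : hh / (4 * Real.log (HX X) ^ U') * LS a y ≤ hh * LS a y * (2 ^ U' / L ^ U') := by
        have h1 : L ^ U' / 2 ^ U' ≤ Real.log (HX X) ^ U' := by
          rw [← div_pow]
          exact pow_le_pow_left₀ (by positivity) hM1 _
        calc hh / (4 * Real.log (HX X) ^ U') * LS a y ≤ hh / (1 * (L ^ U' / 2 ^ U')) * LS a y := by
              gcongr
              norm_num
          _ = _ := by
              rw [one_mul, div_div_eq_mul_div]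
              ring
      have hLSe : LS a y = lF (q2 1 0 a) y + lF (q2 (-1) 0 (-a)) y := LS_eq a y
      rw [e3]
      calc _ ≤ (((2 ^ j : ℕ) : ℝ) / L ^ U' + hh / (4 * Real.log (HX X) ^ U') * lF (q2 1 0 a) y) +
            (((2 ^ j : ℕ) : ℝ) / L ^ U' + hh / (4 * Real.log (HX X) ^ U') * lF (q2 (-1) 0 (-a)) y) :=
            (abs_add_le _ _).trans (add_le_add ((abs_add_le _ _).trans (add_le_add k1 b1))
              ((abs_add_le _ _).trans (add_le_add k2 b2)))
        _ = 2 * (((2 ^ j : ℕ) : ℝ) / L ^ U') + hh / (4 * Real.log (HX X) ^ U') * LS a y := by rw [hLSe]; ring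
        _ ≤ 2 * (hh * LS a y * (16 * L ^ 2 / L ^ U')) + hh * LS a y * (2 ^ U' / L ^ U') := by gcongr
        _ = hh * LS a y * ((32 * L ^ 2 + 2 ^ U') / L ^ U') := by ring
        _ ≤ hh * LS a y * (L ^ 4 / L ^ U') := by
            gcongr
            have h1 : (2 : ℝ) ^ U' ≤ L := le_trans (pow_le_pow_right₀ (by norm_num) (by omega)) hLU
            have h2 : L ≤ L ^ 2 := by nlinarith
            have h3 : 33 * L ^ 2 ≤ L ^ 2 * L ^ 2 := by
              have : 33 ≤ L ^ 2 := by nlinarith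
              gcongr
            calc 32 * L ^ 2 + 2 ^ U' ≤ 33 * L ^ 2 := by linarith
              _ ≤ L ^ 2 * L ^ 2 := h3
              _ = L ^ 4 := by ring
        _ = hh * LS a y / L ^ U := by
            rw [hU', pow_add]
            field_simp
    · push Not at hsmall
      have haj : a ∉ BT j := fun hcon => haT (mem_biUnion.2 ⟨j, hjJ, hcon⟩)
      have hbig : (X : ℝ) ^ (1 / 2 : ℝ) ≤ ((2 ^ j : ℕ) : ℝ) := by
        rw [← Real.sqrt_eq_rpow]
        exact (Real.sqrt_le_left (by positivity)).2 hsmall.le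
      have hup : ((2 ^ j : ℕ) : ℝ) * L ^ B1 ≤ X := by
        calc ((2 ^ j : ℕ) : ℝ) * L ^ B1 ≤ (2 * y) * L ^ B1 := by gcongr
          _ = y * (2 * L ^ B1) := by ring
          _ ≤ y * (L * L ^ B1) := by gcongr; linarith
          _ = y * L ^ (B1 + 1) := by ring
          _ ≤ X := hy2
      have haI := mem_Icc.1 ha
      obtain ⟨h', hlim', hall⟩ := hBT2 j hbig hup a (by omega) (by push_cast; omega) haj hsq
      have hhh : h' = hh := tendsto_nhds_unique hlim' hlim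
      subst hhh
      refine (hall y hn1).trans ?_
      calc h' * (((2 ^ j : ℕ) : ℝ) / (L / 2) ^ U') ≤ h' * ((2 * (4 * L * LS a y)) / (L / 2) ^ U') := by
            gcongr
            linarith
        _ = h' * LS a y * ((8 * 2 ^ U') * L / L ^ U') := by
            rw [div_pow]
            field_simp
            norm_num
        _ ≤ h' * LS a y * (L * L / L ^ U') := by
            gcongr
            refine le_trans ?_ hLU
            rw [pow_add]
            have : (1 : ℝ) ≤ 2 ^ U' := one_le_pow₀ (by norm_num)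
            nlinarith
        _ ≤ h' * LS a y * (L ^ 4 / L ^ U') := by
            gcongr
            calc L * L = L ^ 2 := by ring
              _ ≤ L ^ 4 := pow_le_pow_right₀ hL1 (by norm_num)
        _ = h' * LS a y / L ^ U := by
            rw [hU', pow_add]
            field_simp

end Pool.Agent.H43.SL
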