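import Pool.Agent.H43.SL.Gen

/-!
# Functions with small Dirichlet polynomials in mean square over the frequencies up to `Y ^ (3 / 4 - δ)`
-/

set_option autoImplicit false

namespace Pool.Agent.H43.SLF

open Pool.Agent.H43.SL

open Finset
open Pool.Agent.helper24_UT.II (tau tau_nonneg)
open Pool.Agent.H376R2.MR (ch er DP FK)

/-- arithmetic functions -/
abbrev AF := ArithmeticFunction ℝ

/-- small Dirichlet polynomials in mean square -/
def Fine (δ : ℝ) (F : ℕ → AF) : Prop := ∀ A B : ℕ, ∃ (K₂ Y₀ : ℕ), ∀ Y : ℕ, Y₀ ≤ Y → ∀ q r : ℕ, 1 ≤ q →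
  (q : ℝ) ≤ (Real.log Y) ^ B → r.Coprime q → ∀ K₁ : ℕ, (K₁ : ℝ) ≤ (Y : ℝ) ^ (3 / 4 - δ : ℝ) →
  ∑ k ∈ (FK K₁).filter (fun k : ℤ => (Real.log Y) ^ K₂ ≤ |(k : ℝ)|),
    ‖DP ((Ioc Y (3 * Y)).filter (fun n => n % q = r % q)) (fun n => ((F Y n : ℝ) : ℂ)) k‖ ^ 2 ≤
    (Y : ℝ) ^ 2 / (Real.log Y) ^ A

/-- bounded by powers of the number of divisors and of the logarithm -/
def Dom (F : ℕ → AF) : Prop := ∃ j Y₀ : ℕ, ∀ Y : ℕ, Y₀ ≤ Y → ∀ n : ℕ, 1 ≤ n → n ≤ 9 * Y →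
  |F Y n| ≤ (Real.log Y) ^ j * tau n ^ j

/-- small sums over classes in all short intervals beyond `U` -/
def Sav (δ : ℝ) (U : ℕ → ℕ) (a : ℕ → AF) : Prop := ∀ B H : ℕ, ∃ (K₂ Y₀ : ℕ), ∀ Y : ℕ, Y₀ ≤ Y → 1 ≤ U Y ∧
  ∀ q s : ℕ, 1 ≤ q → (q : ℝ) ≤ (Real.log Y) ^ B → s < q → s.Coprime q → ∀ k : ℤ, (Real.log Y) ^ K₂ ≤ |(k : ℝ)| →
    |(k : ℝ)| ≤ (Y : ℝ) ^ (3 / 4 - δ : ℝ) → ∀ N₁ N₂ : ℕ, U Y ≤ N₁ → N₁ ≤ N₂ → N₂ ≤ 3 * Y → N₂ ≤ 3 * N₁ →
      ‖DP ((Ioc N₁ N₂).filter (fun m => m % q = s)) (fun n => ((a Y n : ℝ) : ℂ)) k‖ ^ 2 *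
        (1 + 2 * |(k : ℝ)| * N₂ / Y) ≤ (N₂ : ℝ) ^ 2 / (Real.log Y) ^ H

lemma ev_logn (C : ℝ) : ∃ Y₀ : ℕ, ∀ Y : ℕ, Y₀ ≤ Y → C ≤ Real.log Y := by
  refine ⟨⌈Real.exp C⌉₊ + 1, fun Y hY => ?_⟩
  have h1 : Real.exp C ≤ Y := (Nat.le_ceil _).trans (by exact_mod_cast (by omega : ⌈Real.exp C⌉₊ ≤ Y))
  rw [Real.le_log_iff_exp_le ((Real.exp_pos C).trans_le h1)]
  exact h1

lemma DP_add (s : Finset ℕ) (f g : ℕ → ℂ) (k : ℤ) : DP s (fun n => f n + g n) k = DP s f k + DP s g k := by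
  unfold DP
  rw [← sum_add_distrib]
  exact sum_congr rfl fun n _ => by ring

lemma DP_smul (s : Finset ℕ) (c : ℂ) (f : ℕ → ℂ) (k : ℤ) : DP s (fun n => c * f n) k = c * DP s f k := by
  unfold DP
  rw [mul_sum]
  exact sum_congr rfl fun n _ => by ring

lemma sum_filter_mono {K₁ : ℕ} {x y : ℝ} (hxy : x ≤ y) (f : ℤ → ℝ) (hf : ∀ k, 0 ≤ f k) :
    ∑ k ∈ (FK K₁).filter (fun k : ℤ => y ≤ |(k : ℝ)|), f k ≤
      ∑ k ∈ (FK K₁).filter (fun k : ℤ => x ≤ |(k : ℝ)|), f k := by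
  apply sum_le_sum_of_subset_of_nonneg
  · intro k hk
    rw [mem_filter] at hk ⊢
    exact ⟨hk.1, hxy.trans hk.2⟩
  · intro k _ _
    exact hf k

theorem Fine.add {δ : ℝ} {F G : ℕ → AF} (hF : Fine δ F) (hG : Fine δ G) : Fine δ (fun Y => F Y + G Y) := by
  intro A B
  obtain ⟨K2, Y2, h2⟩ := hF (A + 1) B
  obtain ⟨K3, Y3, h3⟩ := hG (A + 1) B
  obtain ⟨Y4, h4⟩ := ev_logn 4
  refine ⟨max K2 K3, max (max Y2 Y3) Y4, ?_⟩
  intro Y hY q r hq hqB hr K₁ hK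
  have hL := h4 Y ((le_max_right _ _).trans hY)
  have e2 := h2 Y ((le_max_left _ _).trans ((le_max_left _ _).trans hY)) q r hq hqB hr K₁ hK
  have e3 := h3 Y ((le_max_right _ _).trans ((le_max_left _ _).trans hY)) q r hq hqB hr K₁ hK
  set s := (Ioc Y (3 * Y)).filter (fun n => n % q = r % q) with hs
  have m2 := sum_filter_mono (K₁ := K₁) (pow_le_pow_right₀ (by linarith : (1 : ℝ) ≤ Real.log Y) (le_max_left K2 K3))
    (fun k => ‖DP s (fun n => ((F Y n : ℝ) : ℂ)) k‖ ^ 2) (fun _ => by positivity)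
  have m3 := sum_filter_mono (K₁ := K₁) (pow_le_pow_right₀ (by linarith : (1 : ℝ) ≤ Real.log Y) (le_max_right K2 K3))
    (fun k => ‖DP s (fun n => ((G Y n : ℝ) : ℂ)) k‖ ^ 2) (fun _ => by positivity)
  calc ∑ k ∈ (FK K₁).filter (fun k : ℤ => (Real.log Y) ^ (max K2 K3) ≤ |(k : ℝ)|),
        ‖DP s (fun n => (((F Y + G Y) n : ℝ) : ℂ)) k‖ ^ 2
      ≤ ∑ k ∈ (FK K₁).filter (fun k : ℤ => (Real.log Y) ^ (max K2 K3) ≤ |(k : ℝ)|),
        (2 * ‖DP s (fun n => ((F Y n : ℝ) : ℂ)) k‖ ^ 2 + 2 * ‖DP s (fun n => ((G Y n : ℝ) : ℂ)) k‖ ^ 2) := by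
        refine sum_le_sum fun k _ => ?_
        have e1 : DP s (fun n => (((F Y + G Y) n : ℝ) : ℂ)) k =
            DP s (fun n => ((F Y n : ℝ) : ℂ)) k + DP s (fun n => ((G Y n : ℝ) : ℂ)) k := by
          rw [← DP_add]
          congr 1
          funext n
          rw [ArithmeticFunction.add_apply]
          push_cast
          ring
        rw [e1]
        have h1 := norm_add_le (DP s (fun n => ((F Y n : ℝ) : ℂ)) k) (DP s (fun n => ((G Y n : ℝ) : ℂ)) k)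
        have h2 := pow_le_pow_left₀ (norm_nonneg _) h1 2
        nlinarith [sq_nonneg (‖DP s (fun n => ((F Y n : ℝ) : ℂ)) k‖ - ‖DP s (fun n => ((G Y n : ℝ) : ℂ)) k‖)]
    _ ≤ 2 * ((Y : ℝ) ^ 2 / (Real.log Y) ^ (A + 1)) + 2 * ((Y : ℝ) ^ 2 / (Real.log Y) ^ (A + 1)) := by
        rw [sum_add_distrib, ← mul_sum, ← mul_sum]
        have := m2.trans e2
        have := m3.trans e3
        linarith
    _ ≤ (Y : ℝ) ^ 2 / (Real.log Y) ^ A := by
        have hpos : (0 : ℝ) < (Real.log Y) ^ A := by positivity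
        have hpos' : (0 : ℝ) < Real.log Y := by linarith
        rw [← mul_div_assoc, ← add_div, pow_succ (Real.log Y) A, div_le_div_iff₀ (by positivity) hpos]
        have h7 : 0 ≤ (Y : ℝ) ^ 2 * (Real.log Y) ^ A := by positivity
        nlinarith

theorem Fine.congr {δ : ℝ} {F G : ℕ → AF} (hF : Fine δ F) (Y₁ : ℕ)
    (h : ∀ Y, Y₁ ≤ Y → ∀ n, Y < n → n ≤ 3 * Y → G Y n = F Y n) : Fine δ G := by
  intro A B
  obtain ⟨K2, Y2, h2⟩ := hF A B
  refine ⟨K2, max Y2 Y₁, ?_⟩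
  intro Y hY q r hq hqB hr K₁ hK
  have e2 := h2 Y ((le_max_left _ _).trans hY) q r hq hqB hr K₁ hK
  refine le_trans (le_of_eq ?_) e2
  refine sum_congr rfl fun k _ => ?_
  congr 2
  unfold DP
  refine sum_congr rfl fun n hn => ?_
  rw [mem_filter, mem_Ioc] at hn
  simp only [h Y ((le_max_right _ _).trans hY) n hn.1.1 hn.1.2]

theorem Fine.smul {δ : ℝ} {F : ℕ → AF} (hF : Fine δ F) (c : ℝ) : Fine δ (fun Y => c • F Y) := by
  intro A B
  obtain ⟨K2, Y2, h2⟩ := hF (A + 1) B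
  obtain ⟨Y4, h4⟩ := ev_logn (max 1 (c ^ 2))
  refine ⟨K2, max Y2 Y4, ?_⟩
  intro Y hY q r hq hqB hr K₁ hK
  have hL := h4 Y ((le_max_right _ _).trans hY)
  have hL1 : 1 ≤ Real.log Y := (le_max_left _ _).trans hL
  have hLc : c ^ 2 ≤ Real.log Y := (le_max_right _ _).trans hL
  have e2 := h2 Y ((le_max_left _ _).trans hY) q r hq hqB hr K₁ hK
  set s := (Ioc Y (3 * Y)).filter (fun n => n % q = r % q) with hs
  have e1 : ∀ k, ‖DP s (fun n => (((c • F Y) n : ℝ) : ℂ)) k‖ ^ 2 = c ^ 2 * ‖DP s (fun n => ((F Y n : ℝ) : ℂ)) k‖ ^ 2 := by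
    intro k
    have : DP s (fun n => (((c • F Y) n : ℝ) : ℂ)) k = (c : ℂ) * DP s (fun n => ((F Y n : ℝ) : ℂ)) k := by
      rw [← DP_smul]
      congr 1
      funext n
      have : (c • F Y) n = c * F Y n := rfl
      rw [this]
      push_cast
      ring
    rw [this, norm_mul, mul_pow, Complex.norm_real, Real.norm_eq_abs, sq_abs]
  simp only [e1]
  rw [← mul_sum]
  calc c ^ 2 * _ ≤ Real.log Y * ((Y : ℝ) ^ 2 / (Real.log Y) ^ (A + 1)) := by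
        apply mul_le_mul hLc e2 (sum_nonneg fun _ _ => by positivity) (by linarith)
    _ = (Y : ℝ) ^ 2 / (Real.log Y) ^ A := by
        have : (0 : ℝ) < Real.log Y := by linarith
        rw [pow_succ (Real.log Y) A]
        field_simp

theorem Fine.zero {δ : ℝ} : Fine δ (fun _ => 0) := by
  intro A B
  obtain ⟨Y4, h4⟩ := ev_logn 1
  refine ⟨0, Y4, ?_⟩
  intro Y hY q r hq hqB hr K₁ hK
  have := h4 Y hY
  have e : ∀ k, DP ((Ioc Y (3 * Y)).filter (fun n => n % q = r % q)) (fun n => (((0 : AF) n : ℝ) : ℂ)) k = 0 := by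
    intro k
    unfold DP
    simp
  simp only [e]
  simp
  positivity

theorem Dom.add {F G : ℕ → AF} (hF : Dom F) (hG : Dom G) : Dom (fun Y => F Y + G Y) := by
  obtain ⟨j1, Y1, h1⟩ := hF
  obtain ⟨j2, Y2, h2⟩ := hG
  obtain ⟨Y4, h4⟩ := ev_logn 2
  refine ⟨max j1 j2 + 1, max (max Y1 Y2) Y4, fun Y hY n hn hnY => ?_⟩
  have hL := h4 Y ((le_max_right _ _).trans hY)
  have e1 := h1 Y ((le_max_left _ _).trans ((le_max_left _ _).trans hY)) n hn hnY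
  have e2 := h2 Y ((le_max_right _ _).trans ((le_max_left _ _).trans hY)) n hn hnY
  have ht := Gen.tau_ge_one hn
  rw [ArithmeticFunction.add_apply]
  have hj : ∀ j, j ≤ max j1 j2 → (Real.log Y) ^ j * tau n ^ j ≤ (Real.log Y) ^ (max j1 j2) * tau n ^ (max j1 j2) := by
    intro j hj
    exact mul_le_mul (pow_le_pow_right₀ (by linarith) hj) (pow_le_pow_right₀ ht hj) (by positivity) (by positivity)
  have e3 := hj j1 (le_max_left _ _)
  have e4 := hj j2 (le_max_right _ _)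
  calc |F Y n + G Y n| ≤ |F Y n| + |G Y n| := abs_add_le _ _
    _ ≤ 2 * ((Real.log Y) ^ (max j1 j2) * tau n ^ (max j1 j2)) := by linarith
    _ ≤ Real.log Y * tau n * ((Real.log Y) ^ (max j1 j2) * tau n ^ (max j1 j2)) := by
        apply mul_le_mul_of_nonneg_right _ (by positivity)
        nlinarith
    _ = _ := by ring

theorem Dom.mul {F G : ℕ → AF} (hF : Dom F) (hG : Dom G) : Dom (fun Y => F Y * G Y) := by
  obtain ⟨j1, Y1, h1⟩ := hF
  obtain ⟨j2, Y2, h2⟩ := hG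
  obtain ⟨Y4, h4⟩ := ev_logn 2
  set j := max j1 j2 with hj
  refine ⟨2 * j + 1, max (max Y1 Y2) Y4, fun Y hY n hn hnY => ?_⟩
  have hL := h4 Y ((le_max_right _ _).trans hY)
  have hL1 : 1 ≤ Real.log Y := by linarith
  have ht := Gen.tau_ge_one hn
  have up : ∀ (i : ℕ) (f : ℕ → ℝ), i ≤ j → (∀ m, 1 ≤ m → m ≤ 9 * Y → |f m| ≤ (Real.log Y) ^ i * tau m ^ i) →
      ∀ m, 1 ≤ m → m ≤ 9 * Y → ‖((f m : ℝ) : ℂ)‖ ≤ (Real.log Y) ^ j * tau m ^ j := by
    intro i f hi hf m hm hmY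
    rw [Complex.norm_real, Real.norm_eq_abs]
    refine (hf m hm hmY).trans ?_
    have := Gen.tau_ge_one hm
    exact mul_le_mul (pow_le_pow_right₀ hL1 hi) (pow_le_pow_right₀ this hi) (by positivity) (by positivity)
  have e := Gen.coefs (j := j) (G := (Real.log Y) ^ j) (by positivity) (fun m => ((F Y m : ℝ) : ℂ))
    (fun m => ((G Y m : ℝ) : ℂ)) n (9 * Y) hn hnY
    (up j1 _ (le_max_left _ _) (h1 Y ((le_max_left _ _).trans ((le_max_left _ _).trans hY))))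
    (up j2 _ (le_max_right _ _) (h2 Y ((le_max_right _ _).trans ((le_max_left _ _).trans hY))))
    n.divisorsAntidiagonal (fun p hp => (Nat.mem_divisorsAntidiagonal.1 hp).1)
  have e2 : |(F Y * G Y) n| = ‖∑ p ∈ n.divisorsAntidiagonal, ((F Y p.1 : ℝ) : ℂ) * ((G Y p.2 : ℝ) : ℂ)‖ := by
    rw [ArithmeticFunction.mul_apply, ← Real.norm_eq_abs, ← Complex.norm_real]
    congr 1
    push_cast
    rfl
  rw [e2]
  refine e.trans ?_
  apply mul_le_mul _ le_rfl (by positivity) (by positivity)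
  rw [← pow_mul]
  exact pow_le_pow_right₀ hL1 (by omega)

theorem Dom.of_le {F G : ℕ → AF} (hG : Dom G) (h : ∀ Y n, |F Y n| ≤ |G Y n|) : Dom F := by
  obtain ⟨j1, Y1, h1⟩ := hG
  exact ⟨j1, Y1, fun Y hY n hn hnY => (h Y n).trans (h1 Y hY n hn hnY)⟩

theorem Dom.pow {F : ℕ → AF} (hF : Dom F) (n : ℕ) : Dom (fun Y => F Y ^ n) := by
  induction n with
  | zero =>
    refine ⟨0, 0, fun Y _ m hm _ => ?_⟩
    simp only [pow_zero, mul_one]
    rw [ArithmeticFunction.one_apply]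
    split_ifs <;> simp
  | succ n ih =>
    have := ih.mul hF
    simpa [pow_succ] using this

/-- the number of dyadic ranges -/
lemma log2_le {K : ℕ} {Y : ℝ} (hK : 1 ≤ K) (hY : (K : ℝ) ≤ Y) : ((Nat.log 2 K + 1 : ℕ) : ℝ) ≤ 2 * Real.log Y + 1 := by
  have h1 : 2 ^ Nat.log 2 K ≤ K := Nat.pow_log_le_self 2 (by omega)
  have h2 : ((2 : ℝ) ^ Nat.log 2 K) ≤ Y := le_trans (by exact_mod_cast h1) hY
  have h3 := Real.log_le_log (by positivity) h2
  rw [Real.log_pow] at h3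
  have h4 := Real.log_two_gt_d9
  push_cast
  have h5 : (0 : ℝ) ≤ Nat.log 2 K := Nat.cast_nonneg _
  nlinarith

/-- **Products.** -/
theorem fine_mul {δ : ℝ} (hδ : 0 < δ) {U : ℕ → ℕ} {a b : ℕ → AF} (hs : Sav δ U a)
    (hU : ∀ Y, ∀ m ≤ U Y, a Y m = 0) (ha : Dom a) (hb : Dom b) : Fine δ (fun Y => a Y * b Y) := by
  intro A B
  obtain ⟨j1, Y1, h1⟩ := ha
  obtain ⟨j2, Y2, h2⟩ := hb
  set j := max j1 j2 with hj
  obtain ⟨H, Y3, h3⟩ := Gen.gen j (A + 2) B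
  obtain ⟨K₂, Y4, h4⟩ := hs B H
  obtain ⟨Y5, h5⟩ := ev_logn (max 4 (1 / δ))
  refine ⟨K₂, max (max Y1 Y2) (max (max Y3 Y4) (max Y5 16)), ?_⟩
  intro Y hY q r hq hqB hr K₁ hK
  have hYY1 : Y1 ≤ Y := (le_max_left _ _).trans ((le_max_left _ _).trans hY)
  have hYY2 : Y2 ≤ Y := (le_max_right _ _).trans ((le_max_left _ _).trans hY)
  have hYY3 : Y3 ≤ Y := (le_max_left _ _).trans ((le_max_left _ _).trans ((le_max_right _ _).trans hY))
  have hYY4 : Y4 ≤ Y := (le_max_right _ _).trans ((le_max_left _ _).trans ((le_max_right _ _).trans hY))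
  have hYY5 : Y5 ≤ Y := (le_max_left _ _).trans ((le_max_right _ _).trans ((le_max_right _ _).trans hY))
  have hY16 : 16 ≤ Y := (le_max_right _ _).trans ((le_max_right _ _).trans ((le_max_right _ _).trans hY))
  have hL := h5 Y hYY5
  have hL4 : 4 ≤ Real.log Y := (le_max_left _ _).trans hL
  have hL1 : 1 ≤ Real.log Y := by linarith
  have hY16R : (16 : ℝ) ≤ Y := by exact_mod_cast hY16
  have hY0 : (0 : ℝ) < Y := by linarith
  obtain ⟨hUY, h4⟩ := h4 Y hYY4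
  have up : ∀ (i : ℕ) (f : ℕ → ℝ), i ≤ j → (∀ m, 1 ≤ m → m ≤ 9 * Y → |f m| ≤ (Real.log Y) ^ i * tau m ^ i) →
      ∀ m, 1 ≤ m → m ≤ 9 * Y → ‖((f m : ℝ) : ℂ)‖ ≤ (Real.log Y) ^ j * tau m ^ j := by
    intro i f hi hf m hm hmY
    rw [Complex.norm_real, Real.norm_eq_abs]
    refine (hf m hm hmY).trans ?_
    have := Gen.tau_ge_one hm
    exact mul_le_mul (pow_le_pow_right₀ hL1 hi) (pow_le_pow_right₀ this hi) (by positivity) (by positivity)
  -- the frequencies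
  set S := (FK K₁).filter (fun k : ℤ => (Real.log Y) ^ K₂ ≤ |(k : ℝ)|) with hS
  have hkS : ∀ k ∈ S, 1 ≤ k.natAbs ∧ |(k : ℝ)| ≤ (Y : ℝ) ^ (3 / 4 - δ : ℝ) ∧ k.natAbs < K₁ := by
    intro k hk
    rw [hS, mem_filter, FK, mem_Ioo] at hk
    have h6 : (1 : ℝ) ≤ |(k : ℝ)| := le_trans (one_le_pow₀ hL1) hk.2
    have h7 : k ≠ 0 := by
      rintro rfl
      norm_num at h6
    have hk1 := hk.1.1
    have hk2 := hk.1.2
    have h8 : |(k : ℝ)| ≤ K₁ := by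
      rw [abs_le]
      constructor
      · exact_mod_cast hk.1.1.le
      · exact_mod_cast hk.1.2.le
    exact ⟨by omega, h8.trans hK, by omega⟩
  have hYpow : 2 * (Y : ℝ) ^ (3 / 4 - δ : ℝ) ≤ Y := by
    have h6 : (Y : ℝ) ^ (3 / 4 - δ : ℝ) ≤ (Y : ℝ) ^ (3 / 4 : ℝ) :=
      Real.rpow_le_rpow_of_exponent_le (by linarith) (by linarith)
    have h7 : (2 : ℝ) ≤ (Y : ℝ) ^ (1 / 4 : ℝ) := by
      have h8 : (16 : ℝ) ^ (1 / 4 : ℝ) ≤ (Y : ℝ) ^ (1 / 4 : ℝ) := Real.rpow_le_rpow (by norm_num) hY16R (by norm_num)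
      have h9 : (16 : ℝ) ^ (1 / 4 : ℝ) = 2 := by
        rw [show (16 : ℝ) = 2 ^ (4 : ℝ) by norm_num, ← Real.rpow_mul (by norm_num)]
        norm_num
      linarith
    calc 2 * (Y : ℝ) ^ (3 / 4 - δ : ℝ) ≤ (Y : ℝ) ^ (1 / 4 : ℝ) * (Y : ℝ) ^ (3 / 4 : ℝ) := by gcongr
      _ = Y := by rw [← Real.rpow_add hY0]; norm_num
  rcases Nat.eq_zero_or_pos K₁ with h0 | hK1
  · have : S = ∅ := by
      rw [hS, h0]
      unfold FK
      simp
    rw [this, sum_empty]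
    positivity
  have hcl : ∀ n, (((a Y * b Y) n : ℝ) : ℂ) = ∑ x ∈ n.divisorsAntidiagonal, ((a Y x.1 : ℝ) : ℂ) * ((b Y x.2 : ℝ) : ℂ) := by
    intro n
    rw [ArithmeticFunction.mul_apply]
    push_cast
    rfl
  simp only [hcl]
  rw [← sum_fiberwise_of_maps_to (s := S) (t := range (Nat.log 2 K₁ + 1)) (g := fun k => Nat.log 2 k.natAbs)]
  · have hterm : ∀ i ∈ range (Nat.log 2 K₁ + 1), ∑ k ∈ S.filter (fun k => Nat.log 2 k.natAbs = i),
        ‖DP ((Ioc Y (3 * Y)).filter (fun n => n % q = r % q))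
          (fun n => ∑ x ∈ n.divisorsAntidiagonal, ((a Y x.1 : ℝ) : ℂ) * ((b Y x.2 : ℝ) : ℂ)) k‖ ^ 2 ≤
        (Y : ℝ) ^ 2 / (Real.log Y) ^ (A + 2) := by
      intro i _
      rcases (S.filter (fun k => Nat.log 2 k.natAbs = i)).eq_empty_or_nonempty with he | hne
      · rw [he, sum_empty]
        positivity
      have hlow : ∀ k ∈ S.filter (fun k => Nat.log 2 k.natAbs = i), 2 ^ i ≤ k.natAbs ∧ k.natAbs < 2 ^ (i + 1) := by
        intro k hk
        rw [mem_filter] at hk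
        obtain ⟨h6, h7, h8⟩ := hkS k hk.1
        have h9 : k.natAbs ≠ 0 := by omega
        rw [← hk.2]
        exact ⟨Nat.pow_log_le_self 2 h9, Nat.lt_pow_succ_log_self (by norm_num) _⟩
      have hK2k : ∀ k ∈ S.filter (fun k => Nat.log 2 k.natAbs = i), ((2 ^ (i + 1) : ℕ) : ℝ) ≤ 2 * |(k : ℝ)| := by
        intro k hk
        have h6 := (hlow k hk).1
        have h7 : ((2 ^ (i + 1) : ℕ) : ℝ) ≤ ((2 * k.natAbs : ℕ) : ℝ) := by
          exact_mod_cast (by rw [pow_succ]; omega : 2 ^ (i + 1) ≤ 2 * k.natAbs)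
        refine h7.trans (le_of_eq ?_)
        push_cast
        rw [Nat.cast_natAbs, Int.cast_abs]
      obtain ⟨k0, hk0⟩ := hne
      refine h3 Y hYY3 q r hq hqB hr (2 ^ (i + 1)) Nat.one_le_two_pow ?_ _ ?_ (fun n => ((a Y n : ℝ) : ℂ))
        (fun n => ((b Y n : ℝ) : ℂ)) (U Y) hUY (fun m hm => by rw [hU Y m hm]; simp)
        (up j1 _ (le_max_left _ _) (h1 Y hYY1)) (up j2 _ (le_max_right _ _) (h2 Y hYY2)) ?_
      · refine (hK2k k0 hk0).trans ?_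
        have h6 := (hkS k0 (mem_filter.1 hk0).1).2.1
        linarith
      · intro k hk
        have h6 := (hlow k hk).2
        unfold FK
        rw [mem_Ioo]
        push_cast
        have h7 : |k| < 2 ^ (i + 1) := by
          rw [← Int.natCast_natAbs]
          exact_mod_cast h6
        exact abs_lt.1 h7
      · intro k hk s hs1 hs2 N₁ N₂ n1 n2 n3 n4
        have hkm := mem_filter.1 hk
        have hkS' := hkS k hkm.1
        have hkL : (Real.log Y) ^ K₂ ≤ |(k : ℝ)| := by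
          have := hkm.1
          rw [hS, mem_filter] at this
          exact this.2
        have h6 := h4 q s hq hqB hs1 hs2 k hkL hkS'.2.1 N₁ N₂ n1 n2 n3 n4
        refine le_trans ?_ h6
        have h7 := hK2k k hk
        gcongr
    refine (sum_le_sum hterm).trans ?_
    rw [sum_const, card_range, nsmul_eq_mul]
    have h6 := log2_le (K := K₁) (Y := Y) hK1 (hK.trans (by linarith [Real.rpow_nonneg hY0.le (3 / 4 - δ : ℝ)]))
    have hp : 0 < (Real.log Y) ^ A := by positivity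
    calc ((Nat.log 2 K₁ + 1 : ℕ) : ℝ) * ((Y : ℝ) ^ 2 / (Real.log Y) ^ (A + 2))
        ≤ (2 * Real.log Y + 1) * ((Y : ℝ) ^ 2 / (Real.log Y) ^ (A + 2)) := by gcongr
      _ ≤ (Real.log Y) ^ 2 * ((Y : ℝ) ^ 2 / (Real.log Y) ^ (A + 2)) := by
          gcongr
          nlinarith
      _ = (Y : ℝ) ^ 2 / (Real.log Y) ^ A := by
          rw [pow_add]
          field_simp
  · intro k hk
    obtain ⟨h6, h7, h8⟩ := hkS k hk
    rw [mem_range]
    have : Nat.log 2 k.natAbs ≤ Nat.log 2 K₁ := Nat.log_mono_right h8.le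
    omega

end Pool.Agent.H43.SLF
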