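import Pool.Agent.H43.SL.HB2

/-!
# Primes: the mean square of the Dirichlet polynomials up to the frequency `Y ^ (3 / 4 - δ)`
-/

set_option autoImplicit false

namespace Pool.Agent.H43.SLF

open Pool.Agent.H43.SL

open Finset Filter
open Pool.Agent.helper24_UT (S_T1 S_MAP)
open Pool.Agent.H376R2.MR (ch er DP FK)

lemma nsm (c : ℕ) (f : AF) (n : ℕ) : (c • f) n = c * f n := by
  induction c with
  | zero => simp
  | succ c ih =>
    rw [succ_nsmul, ArithmeticFunction.add_apply, ih]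
    push_cast
    ring

lemma sub_app (f g : AF) (n : ℕ) : (f - g) n = f n - g n := rfl

lemma smul_app (c : ℝ) (f : AF) (n : ℕ) : (c • f) n = c * f n := rfl

/-- **Primes in progressions, large frequencies up to `Y ^ (3 / 4 - δ)`.** -/
theorem fine_lam {δ : ℝ} (hδ : 0 < δ) (hδ1 : δ ≤ 1 / 20) (hT : S_T1) (hM : S_MAP) :
    Fine δ (fun _ => (ArithmeticFunction.vonMangoldt : AF)) := by
  have hm := (dom_ms).add (dom_mc (δ := δ))
  have hw := (dom_zs).add (dom_zx hδ hδ1)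
  have d1 : Dom (fun _ => (1 : AF)) := by
    have := Dom.const 1
    simpa using this
  have F1 : Fine δ (fun Y => (ms Y + mc δ Y) * lR) := by
    have a1 := (f_one hδ hδ1 hT hM (γ := ms) (fun Y b hb => ms_supp Y b (lt_of_le_of_lt (by
      rcases Nat.eq_zero_or_pos (E1 Y) with h | h
      · rw [h]; simp
      · exact Nat.le_self_pow (by norm_num) _) hb)) dom_ms).2
    have a2 := f_mc hδ hδ1 hT hM dom_log
    refine (a1.add a2).congr 0 fun Y _ n _ _ => ?_
    rw [add_mul]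
  have F2 := term hδ hδ1 hT hM 0 (by norm_num) (fun Y => (ms Y + mc δ Y) + ms Y) (fun _ => 1) (fun _ => (0 : ℕ)) 1
    (hm.add dom_ms) d1 (Dom.const 0) (fun Y => by ring) (fun Y => by unfold zx; ring)
    (fun Y => by push_cast; ring)
  have F3 := term hδ hδ1 hT hM 1 (by norm_num)
    (fun Y => (ms Y + mc δ Y) ^ 2 + (ms Y + mc δ Y) * ms Y + ms Y ^ 2)
    (fun Y => zR + (zs Y + zx δ Y)) (fun _ => 1) 2
    (((hm.pow 2).add (hm.mul dom_ms)).add (dom_ms.pow 2)) (dom_zeta.add hw) d1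
    (fun Y => by ring) (fun Y => by unfold zx; ring)
    (fun Y => by push_cast; ring)
  have F4 := term hδ hδ1 hT hM 2 (by norm_num)
    (fun Y => (ms Y + mc δ Y) ^ 3 + (ms Y + mc δ Y) ^ 2 * ms Y + (ms Y + mc δ Y) * ms Y ^ 2 + ms Y ^ 3)
    (fun Y => zR ^ 2 + zR * (zs Y + zx δ Y) + (zs Y + zx δ Y) ^ 2)
    (fun Y => ((3 : ℕ) : AF) * zs Y + zx δ Y) 3
    ((((hm.pow 3).add ((hm.pow 2).mul dom_ms)).add (hm.mul (dom_ms.pow 2))).add (dom_ms.pow 3))
    (((dom_zeta.pow 2).add (dom_zeta.mul hw)).add (hw.pow 2))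
    (((Dom.const 3).mul dom_zs).add (dom_zx hδ hδ1))
    (fun Y => by ring) (fun Y => by unfold zx; ring)
    (fun Y => by push_cast; ring)
  obtain ⟨Y₁, h1⟩ := cuts hδ hδ1
  refine ((((F1.smul 4).add (F2.smul (-6))).add (F3.smul 4)).add (F4.smul (-1))).congr Y₁ ?_
  intro Y hY n hn1 hn2
  obtain ⟨c1, c2, c3, c4, c5, c6⟩ := h1 Y hY
  have hmm : cut muR 0 (E2 δ Y) = ms Y + mc δ Y := by
    unfold ms mc
    exact cut_add muR (Nat.zero_le _) c1
  rw [hb (z := E2 δ Y) (hn2.trans c6), hmm]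
  simp only [ArithmeticFunction.add_apply, sub_app, nsm, smul_app]
  push_cast
  simp only [zero_add, pow_one]
  ring

end Pool.Agent.H43.SLF
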