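import Pool.Agent.H43.SL.Frl
import Pool.Agent.H43.G.R_pool_sql_team_seeded_620a6dc7.helper24_UT_.Fr2

/-!
# Primes in progressions: all frequencies up to `Y ^ (3 / 4 - δ)`
-/

set_option autoImplicit false

namespace Pool.Agent.H43.SLF

open Pool.Agent.H43.SL

open Finset Filter
open Pool.Agent.helper24_UT (S_T1 S_MAP pdev)
open Pool.Agent.helper24_UT.Fr2 (inv_sq_sum' FK_sum_le card_small DP_small D_eq)
open Pool.Agent.H376R2.MR (ch er DP FK)
open Pool.Agent.H373R2.T7 (lam_ap lamAP)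

/-- the deviation of the primes in a class: small Dirichlet polynomials in mean square -/
def FRs (δ : ℝ) : Prop := ∀ A B : ℕ, ∃ Y₀ : ℕ, ∀ Y : ℕ, Y₀ ≤ Y → ∀ q r : ℕ, 1 ≤ q →
  (q : ℝ) ≤ (Real.log Y) ^ B → r.Coprime q → ∀ K₁ : ℕ, (K₁ : ℝ) ≤ (Y : ℝ) ^ (3 / 4 - δ : ℝ) →
  ∑ k ∈ FK K₁, ‖DP (Ioc Y (3 * Y)) (pdev q r) k‖ ^ 2 ≤ (Y : ℝ) ^ 2 / (Real.log Y) ^ A

theorem frs {δ : ℝ} (hδ : 0 < δ) (hF : Fine δ (fun _ => (ArithmeticFunction.vonMangoldt : AF))) : FRs δ := by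
  intro A B
  obtain ⟨K₂, Y₁, h1⟩ := hF (A + 2) B
  set K := max K₂ (A + 4) with hK
  have hKK : K₂ ≤ K := le_max_left _ _
  have hKA : A + 4 ≤ K := le_max_right _ _
  obtain ⟨N0, hap⟩ := lam_ap B (2 * K + A + 4)
  obtain ⟨n2, hn2⟩ := ev_logn 1000
  refine ⟨max (max Y₁ N0) (max n2 4), fun Y hY q r hq hqL hr K₁ hK₁ => ?_⟩
  have hY1 : Y₁ ≤ Y := le_trans (le_trans (le_max_left _ _) (le_max_left _ _)) hY
  have hYN : N0 ≤ Y := le_trans (le_trans (le_max_right _ _) (le_max_left _ _)) hY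
  have hYn2 : n2 ≤ Y := le_trans (le_trans (le_max_left _ _) (le_max_right _ _)) hY
  have hY4 : 4 ≤ Y := le_trans (le_trans (le_max_right _ _) (le_max_right _ _)) hY
  have hYr : (4 : ℝ) ≤ Y := by exact_mod_cast hY4
  have hY0 : (0 : ℝ) < Y := by linarith
  have hY1r : (1 : ℝ) ≤ Y := by linarith
  have hL := hn2 Y hYn2
  have hS := h1 Y hY1 q r hq hqL hr K₁ hK₁
  have hKY : (K₁ : ℝ) ≤ Y := by
    refine hK₁.trans ?_
    calc (Y : ℝ) ^ (3 / 4 - δ : ℝ) ≤ (Y : ℝ) ^ (1 : ℝ) := Real.rpow_le_rpow_of_exponent_le hY1r (by linarith)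
      _ = Y := Real.rpow_one _
  set L := Real.log Y with hLd
  have hL0 : 0 < L := by linarith
  have hL1 : 1 ≤ L := by linarith
  set T := L ^ K with hT
  have hT1 : 1 ≤ T := one_le_pow₀ hL1
  have hT0 : 0 < T := by linarith
  have hφ : (1 : ℝ) ≤ (Nat.totient q : ℝ) := by exact_mod_cast Nat.totient_pos.2 hq
  have hφ0 : (0 : ℝ) < (Nat.totient q : ℝ) := by linarith
  set W := (Y : ℝ) ^ 2 / L ^ (A + 2) with hW
  have hW0 : 0 < W := by positivity
  rw [← Finset.sum_filter_add_sum_filter_not (FK K₁) (fun k : ℤ => T ≤ |(k : ℝ)|)]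
  -- large frequencies
  have hlarge : ∑ k ∈ (FK K₁).filter (fun k : ℤ => T ≤ |(k : ℝ)|), ‖DP (Ioc Y (3 * Y)) (pdev q r) k‖ ^ 2 ≤
      300000 * W := by
    set P : ℤ → ℂ := fun k => DP ((Ioc Y (3 * Y)).filter (fun n => n % q = r % q))
      (fun n => (ArithmeticFunction.vonMangoldt n : ℂ)) k with hP
    have hterm : ∀ k ∈ (FK K₁).filter (fun k : ℤ => T ≤ |(k : ℝ)|),
        ‖DP (Ioc Y (3 * Y)) (pdev q r) k‖ ^ 2 ≤
          2 * ‖P k‖ ^ 2 + 73728 * (Y : ℝ) ^ 2 *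
            (if T ≤ ((k.natAbs : ℕ) : ℝ) then 1 / ((k.natAbs : ℕ) : ℝ) ^ 2 else 0) := by
      intro k hk
      rw [mem_filter] at hk
      have hkT := hk.2
      have hk0 : 0 < |(k : ℝ)| := by linarith
      have hkne : k ≠ 0 := by
        rintro rfl
        simp at hk0
      have hnat : ((k.natAbs : ℕ) : ℝ) = |(k : ℝ)| := by
        rw [Nat.cast_natAbs, Int.cast_abs]
      rw [hnat, if_pos hkT]
      have hkK : |(k : ℝ)| ≤ K₁ := by
        have h2 := hk.1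
        unfold FK at h2
        rw [mem_Ioo] at h2
        have h3 : |k| < (K₁ : ℤ) := abs_lt.2 h2
        have h4 : |(k : ℝ)| < (K₁ : ℝ) := by exact_mod_cast h3
        exact h4.le
      have hdp : DP (Ioc Y (3 * Y)) (pdev q r) k = P k -
          (∑ n ∈ Ioc Y (3 * Y), ch k (Real.log n)) / (Nat.totient q : ℂ) := by
        have hPk : P k = ∑ n ∈ (Ioc Y (3 * Y)).filter (fun n => n % q = r % q),
            (ArithmeticFunction.vonMangoldt n : ℂ) * ch k (Real.log n) := rfl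
        rw [hPk]
        unfold DP pdev
        rw [sum_filter, sum_div, ← sum_sub_distrib]
        apply sum_congr rfl
        intro n _
        split_ifs <;> ring
      have hZ : ‖∑ n ∈ Ioc Y (3 * Y), ch k (Real.log n)‖ ≤ 192 * Y / |(k : ℝ)| := by
        have h2 := Smc.smc_kl (k := k) hkne (q := 1) (s := 0) (N₁ := Y) (N₂ := 3 * Y) (by norm_num) (by omega)
          (by omega) le_rfl (by push_cast; rw [mul_one]; exact hkK.trans hKY)
        have h3 : (Ioc Y (3 * Y)).filter (fun n => n % 1 = 0) = Ioc Y (3 * Y) :=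
          filter_true_of_mem fun n _ => Nat.mod_one n
        rw [h3] at h2
        refine h2.trans (le_of_eq ?_)
        push_cast
        ring
      have hZ' : ‖(∑ n ∈ Ioc Y (3 * Y), ch k (Real.log n)) / (Nat.totient q : ℂ)‖ ≤
          192 * Y / |(k : ℝ)| := by
        rw [norm_div]
        have : ‖(Nat.totient q : ℂ)‖ = (Nat.totient q : ℝ) := by simp
        rw [this]
        exact (div_le_self (norm_nonneg _) hφ).trans hZ
      rw [hdp]
      have h5 := norm_sub_le (P k) ((∑ n ∈ Ioc Y (3 * Y), ch k (Real.log n)) / (Nat.totient q : ℂ))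
      set z := ‖(∑ n ∈ Ioc Y (3 * Y), ch k (Real.log n)) / (Nat.totient q : ℂ)‖ with hz
      have hz0 : 0 ≤ z := norm_nonneg _
      have h6 : z ^ 2 ≤ 36864 * (Y : ℝ) ^ 2 * (1 / |(k : ℝ)| ^ 2) := by
        have h7 : z ^ 2 ≤ (192 * Y / |(k : ℝ)|) ^ 2 := pow_le_pow_left₀ hz0 hZ' 2
        have h10 : (192 * Y / |(k : ℝ)|) ^ 2 = 36864 * (Y : ℝ) ^ 2 * (1 / |(k : ℝ)| ^ 2) := by
          field_simp; ring
        linarith
      have h7 : ‖P k - (∑ n ∈ Ioc Y (3 * Y), ch k (Real.log n)) / (Nat.totient q : ℂ)‖ ^ 2 ≤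
          (‖P k‖ + z) ^ 2 := pow_le_pow_left₀ (norm_nonneg _) h5 2
      nlinarith [sq_nonneg (‖P k‖ - z)]
    refine (sum_le_sum hterm).trans ?_
    rw [sum_add_distrib, ← mul_sum, ← mul_sum]
    have hA1 : ∑ k ∈ (FK K₁).filter (fun k : ℤ => T ≤ |(k : ℝ)|), ‖P k‖ ^ 2 ≤ W := by
      refine le_trans ?_ hS
      apply sum_le_sum_of_subset_of_nonneg
      · intro k hk
        rw [mem_filter] at hk ⊢
        exact ⟨hk.1, (pow_le_pow_right₀ hL1 hKK).trans hk.2⟩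
      · intro _ _ _
        positivity
    have hA2 : ∑ k ∈ (FK K₁).filter (fun k : ℤ => T ≤ |(k : ℝ)|),
        (if T ≤ ((k.natAbs : ℕ) : ℝ) then 1 / ((k.natAbs : ℕ) : ℝ) ^ 2 else 0) ≤ 4 / T := by
      have hg : ∀ m : ℕ, 0 ≤ (if T ≤ (m : ℝ) then 1 / (m : ℝ) ^ 2 else 0) := by
        intro m
        split_ifs <;> positivity
      calc ∑ k ∈ (FK K₁).filter (fun k : ℤ => T ≤ |(k : ℝ)|),
          (if T ≤ ((k.natAbs : ℕ) : ℝ) then 1 / ((k.natAbs : ℕ) : ℝ) ^ 2 else 0)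
          ≤ ∑ k ∈ FK K₁, (if T ≤ ((k.natAbs : ℕ) : ℝ) then 1 / ((k.natAbs : ℕ) : ℝ) ^ 2 else 0) :=
            sum_le_sum_of_subset_of_nonneg (filter_subset _ _) (fun k _ _ => hg _)
        _ ≤ 2 * ∑ m ∈ range K₁, (if T ≤ (m : ℝ) then 1 / (m : ℝ) ^ 2 else 0) :=
            FK_sum_le K₁ (fun m => if T ≤ (m : ℝ) then 1 / (m : ℝ) ^ 2 else 0) hg
        _ ≤ 2 * (2 / T) := by
            have := inv_sq_sum' hT1 K₁
            linarith
        _ = 4 / T := by ring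
    have hA4 : 73728 * (Y : ℝ) ^ 2 * (4 / T) ≤ 294912 * W := by
      have h2 : L ^ (A + 2) ≤ T := pow_le_pow_right₀ hL1 (by omega)
      have h3 : (Y : ℝ) ^ 2 / T ≤ W := div_le_div_of_nonneg_left (by positivity) (by positivity) h2
      have e2 : 73728 * (Y : ℝ) ^ 2 * (4 / T) = 294912 * ((Y : ℝ) ^ 2 / T) := by ring
      rw [e2]
      linarith
    have hA5 := mul_le_mul_of_nonneg_left hA2 (show 0 ≤ 73728 * (Y : ℝ) ^ 2 by positivity)
    linarith
  -- small frequencies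
  have hsmall : ∑ k ∈ (FK K₁).filter (fun k : ℤ => ¬ T ≤ |(k : ℝ)|), ‖DP (Ioc Y (3 * Y)) (pdev q r) k‖ ^ 2 ≤
      1296 * W := by
    set U := 2 * K + A + 4 with hU
    set Bd := 6 * (Y : ℝ) / L ^ U with hBd
    have hBd0 : 0 ≤ Bd := by positivity
    have h3Y : N0 ≤ 3 * Y := by omega
    have hlog3 : L ≤ Real.log ((3 * Y : ℕ) : ℝ) := by
      apply Real.log_le_log hY0
      push_cast
      linarith
    have hq3 : (q : ℝ) ≤ Real.log ((3 * Y : ℕ) : ℝ) ^ B := hqL.trans (pow_le_pow_left₀ hL0.le hlog3 B)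
    have hE : ∀ y : ℕ, y ≤ 3 * Y → |lamAP y q r - y / (Nat.totient q : ℝ)| ≤ 3 * Y / L ^ U := by
      intro y hy
      have h2 := hap (3 * Y) h3Y q hq hq3 r y hy
      rw [if_pos hr] at h2
      have h3 : lamAP y q r = ∑ n ∈ (Icc 1 y).filter (fun n => n ≡ r [MOD q]), ArithmeticFunction.vonMangoldt n := rfl
      rw [h3]
      refine h2.trans ?_
      push_cast
      apply div_le_div_of_nonneg_left (by positivity) (by positivity)
      apply pow_le_pow_left₀ hL0.le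
      have := hlog3
      push_cast at this
      exact this
    have hD : ∀ m, Y ≤ m → m ≤ 3 * Y → ‖∑ n ∈ Ioc Y m, pdev q r n‖ ≤ Bd := by
      intro m hm hm'
      rw [D_eq q r Y m hm, Complex.norm_real, Real.norm_eq_abs]
      have h2 := hE m hm'
      have h3 := hE Y (by omega)
      refine (abs_sub _ _).trans ?_
      have e2 : Bd = 3 * Y / L ^ U + 3 * Y / L ^ U := by rw [hBd]; ring
      rw [e2]
      exact add_le_add h2 h3
    have hterm : ∀ k ∈ (FK K₁).filter (fun k : ℤ => ¬ T ≤ |(k : ℝ)|),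
        ‖DP (Ioc Y (3 * Y)) (pdev q r) k‖ ^ 2 ≤ (Bd * (3 * T)) ^ 2 := by
      intro k hk
      rw [mem_filter, not_le] at hk
      apply pow_le_pow_left₀ (norm_nonneg _)
      refine (DP_small (show 1 ≤ Y by omega) _ hBd0 hD k).trans ?_
      apply mul_le_mul_of_nonneg_left _ hBd0
      linarith [hk.2]
    refine (sum_le_sum hterm).trans ?_
    rw [sum_const, nsmul_eq_mul]
    calc (((FK K₁).filter (fun k : ℤ => ¬ T ≤ |(k : ℝ)|)).card : ℝ) * (Bd * (3 * T)) ^ 2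
        ≤ 4 * T * (Bd * (3 * T)) ^ 2 := mul_le_mul_of_nonneg_right (card_small hT1 K₁) (by positivity)
      _ = 1296 * ((Y : ℝ) ^ 2 * (L ^ (3 * K) / L ^ (2 * U))) := by
          rw [hBd, hT]
          field_simp
          ring
      _ ≤ 1296 * W := by
          apply mul_le_mul_of_nonneg_left _ (by norm_num)
          rw [hW, div_eq_mul_one_div ((Y : ℝ) ^ 2)]
          apply mul_le_mul_of_nonneg_left _ (by positivity)
          rw [div_le_div_iff₀ (by positivity) (by positivity), one_mul, ← pow_add]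
          exact pow_le_pow_right₀ hL1 (by omega)
  have hfin : 300000 * W + 1296 * W ≤ (Y : ℝ) ^ 2 / L ^ A := by
    rw [hW, pow_add]
    have h2 : (301296 : ℝ) ≤ L ^ 2 := by nlinarith
    calc 300000 * ((Y : ℝ) ^ 2 / (L ^ A * L ^ 2)) + 1296 * ((Y : ℝ) ^ 2 / (L ^ A * L ^ 2))
        = (301296 / L ^ 2) * ((Y : ℝ) ^ 2 / L ^ A) := by field_simp; ring
      _ ≤ 1 * ((Y : ℝ) ^ 2 / L ^ A) := by
          apply mul_le_mul_of_nonneg_right _ (by positivity)
          rw [div_le_one (by positivity)]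
          exact h2
      _ = _ := one_mul _
  linarith

end Pool.Agent.H43.SLF
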