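import Pool.Agent.H43.G.R_pool_sql_team_seeded_620a6dc7.helper24_UT_.II

/-!
# Bilinear sums with general coefficients, in mean square over the frequencies
-/

set_option autoImplicit false

namespace Pool.Agent.H43.SL.Gen

open Finset
open Pool.Agent.helper24_UT.II
open Pool.Agent.H376R2.MR (ch er DP FK)

lemma tau_ge_one {n : ℕ} (hn : 1 ≤ n) : 1 ≤ tau n := one_le_tau (by omega)

/-- the coefficients of the product -/
lemma coefs {j : ℕ} {G : ℝ} (hG : 0 ≤ G) (a b : ℕ → ℂ) (n X : ℕ) (hn : 1 ≤ n) (hnX : n ≤ X)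
    (ha : ∀ m, 1 ≤ m → m ≤ X → ‖a m‖ ≤ G * tau m ^ j) (hb : ∀ m, 1 ≤ m → m ≤ X → ‖b m‖ ≤ G * tau m ^ j)
    (P : Finset (ℕ × ℕ)) (hP : ∀ p ∈ P, p.1 * p.2 = n) :
    ‖∑ p ∈ P, a p.1 * b p.2‖ ≤ G ^ 2 * tau n ^ (2 * j + 1) := by
  have hn0 : n ≠ 0 := by omega
  have hsub : P ⊆ n.divisorsAntidiagonal := by
    intro p hp
    rw [Nat.mem_divisorsAntidiagonal]
    exact ⟨hP p hp, hn0⟩
  have ht := tau_nonneg n
  calc ‖∑ p ∈ P, a p.1 * b p.2‖ ≤ ∑ p ∈ P, ‖a p.1 * b p.2‖ := norm_sum_le _ _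
    _ ≤ ∑ p ∈ n.divisorsAntidiagonal, ‖a p.1 * b p.2‖ :=
        Finset.sum_le_sum_of_subset_of_nonneg hsub fun _ _ _ => norm_nonneg _
    _ ≤ ∑ p ∈ n.divisorsAntidiagonal, G ^ 2 * tau n ^ (2 * j) := by
        refine Finset.sum_le_sum fun p hp => ?_
        rw [Nat.mem_divisorsAntidiagonal] at hp
        have h1 : 1 ≤ p.1 := Nat.one_le_iff_ne_zero.2 (by rintro h; rw [h] at hp; omega)
        have h2 : 1 ≤ p.2 := Nat.one_le_iff_ne_zero.2 (by rintro h; rw [h] at hp; omega)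
        have h3 : p.1 ≤ n := by rw [← hp.1]; exact Nat.le_mul_of_pos_right _ h2
        have h4 : p.2 ≤ n := by rw [← hp.1]; exact Nat.le_mul_of_pos_left _ h1
        have h5 : tau p.1 ≤ tau n := tau_mono hn0 ⟨p.2, hp.1.symm⟩
        have h6 : tau p.2 ≤ tau n := tau_mono hn0 ⟨p.1, by rw [mul_comm]; exact hp.1.symm⟩
        rw [norm_mul]
        calc ‖a p.1‖ * ‖b p.2‖ ≤ (G * tau p.1 ^ j) * (G * tau p.2 ^ j) := by
              apply mul_le_mul (ha _ h1 (h3.trans hnX)) (hb _ h2 (h4.trans hnX)) (norm_nonneg _)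
              have := tau_nonneg p.1
              positivity
          _ ≤ (G * tau n ^ j) * (G * tau n ^ j) := by
              have := tau_nonneg p.1
              have := tau_nonneg p.2
              gcongr
          _ = G ^ 2 * tau n ^ (2 * j) := by ring
    _ = G ^ 2 * tau n ^ (2 * j + 1) := by
        rw [Finset.sum_const, nsmul_eq_mul]
        have : (n.divisorsAntidiagonal.card : ℝ) = tau n := by
          unfold tau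
          rw [Finset.card_eq_sum_ones, Finset.card_eq_sum_ones,
            Nat.sum_divisorsAntidiagonal (f := fun _ _ => (1 : ℕ))]
        rw [this]
        ring

/-- moments over a set by the higher moments -/
lemma tau_setk (k : ℕ) (T : Finset ℕ) (x : ℕ) (hx : 1 ≤ x) (hT : T ⊆ Icc 1 x) :
    ∑ n ∈ T, tau n ^ (2 * k) ≤ Real.sqrt (T.card * (x * (1 + Real.log x) ^ (2 ^ (4 * k)))) := by
  apply Real.le_sqrt_of_sq_le
  have h1 := sq_sum_le_card_mul_sum_sq (s := T) (f := fun n => tau n ^ (2 * k))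
  refine h1.trans ?_
  have h2 : ∑ n ∈ T, (tau n ^ (2 * k)) ^ 2 ≤ x * (1 + Real.log x) ^ (2 ^ (4 * k)) := by
    calc ∑ n ∈ T, (tau n ^ (2 * k)) ^ 2 = ∑ n ∈ T, tau n ^ (4 * k) := by
          refine Finset.sum_congr rfl fun n _ => ?_
          rw [← pow_mul]
          congr 1
          ring
      _ ≤ ∑ n ∈ Icc 1 x, tau n ^ (4 * k) := Finset.sum_le_sum_of_subset_of_nonneg hT fun n _ _ => by
          have := tau_nonneg n
          positivity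
      _ ≤ _ := tau_pow_sum (4 * k) x hx
  gcongr

/-- the energy of the error term -/
lemma errG {C : ℝ} (hC : 0 < C) (hmv : Mv C) (j : ℕ) (D ℓ E : ℝ) (Y K : ℕ) (hD : 2 ≤ D) (hK : 1 ≤ K) (hY : 1 ≤ Y)
    (hKY : (K : ℝ) ≤ Y) (hl : 3 ≤ ℓ) (hlog : Real.log (9 * Y) ≤ 2 * ℓ) (hE0 : 0 < E) (hE : E ^ 2 ≤ D) (a : ℕ → ℂ)
    (ha : ∀ n ∈ Sh D Y, ‖a n‖ ≤ 2 * ((ℓ ^ j) ^ 2 * tau n ^ (2 * j + 1))) :
    ∑ k ∈ FK K, ‖DP (Sh D Y) a k‖ ^ 2 ≤ 1080 * C * ℓ ^ (4 * j + 1 + 2 ^ (4 * (2 * j + 1))) * Y ^ 2 / E := by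
  have hD0 : 0 < D := by linarith
  have hY0 : (0 : ℝ) < Y := by exact_mod_cast hY
  have hY1 : (1 : ℝ) ≤ Y := by exact_mod_cast hY
  have hsub := Sh_sub hD Y
  have hl0 : 0 < ℓ := by linarith
  obtain ⟨P, hP⟩ : ∃ P : ℕ, P = 2 ^ (4 * (2 * j + 1)) := ⟨_, rfl⟩
  have hPe : ∃ P' : ℕ, P = 2 * P' := ⟨2 ^ (4 * (2 * j + 1) - 1), by
    rw [hP, ← pow_succ']
    congr 1⟩
  obtain ⟨P', hP'⟩ := hPe
  have h1 : ∑ n ∈ Sh D Y, tau n ^ (2 * (2 * j + 1)) ≤ 9 * ℓ ^ P * Y / E := by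
    refine (tau_setk (2 * j + 1) (Sh D Y) (9 * Y) (by omega) hsub).trans ?_
    apply Real.sqrt_le_iff.mpr
    refine ⟨by positivity, ?_⟩
    have h2 : (1 + Real.log ((9 * Y : ℕ) : ℝ)) ^ (2 ^ (4 * (2 * j + 1))) ≤ ℓ ^ (2 * P) := by
      rw [← hP, pow_mul]
      push_cast
      have : 0 ≤ Real.log (9 * (Y : ℝ)) := Real.log_nonneg (by linarith)
      apply pow_le_pow_left₀ (by positivity)
      nlinarith
    calc ((Sh D Y).card : ℝ) * (((9 * Y : ℕ) : ℝ) * (1 + Real.log ((9 * Y : ℕ) : ℝ)) ^ (2 ^ (4 * (2 * j + 1))))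
        ≤ (8 * Y / D) * (((9 * Y : ℕ) : ℝ) * ℓ ^ (2 * P)) := by
          have := card_Sh hD Y
          gcongr
      _ = 72 * ℓ ^ (2 * P) * Y ^ 2 / D := by
          push_cast
          ring
      _ ≤ 72 * ℓ ^ (2 * P) * Y ^ 2 / E ^ 2 := by gcongr
      _ ≤ 81 * ℓ ^ (2 * P) * Y ^ 2 / E ^ 2 := by gcongr; norm_num
      _ = (9 * ℓ ^ P * Y / E) ^ 2 := by rw [mul_comm 2 P, pow_mul]; ring
  have h3 : ∑ n ∈ Sh D Y, ‖a n‖ ^ 2 ≤ 4 * ℓ ^ (4 * j) * (9 * ℓ ^ P * Y / E) := by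
    calc ∑ n ∈ Sh D Y, ‖a n‖ ^ 2 ≤ ∑ n ∈ Sh D Y, 4 * ℓ ^ (4 * j) * tau n ^ (2 * (2 * j + 1)) := by
          refine Finset.sum_le_sum fun n hn => ?_
          have h7 := tau_nonneg n
          calc ‖a n‖ ^ 2 ≤ (2 * ((ℓ ^ j) ^ 2 * tau n ^ (2 * j + 1))) ^ 2 :=
                pow_le_pow_left₀ (norm_nonneg _) (ha n hn) 2
            _ = _ := by
                rw [mul_pow, mul_pow, ← pow_mul, ← pow_mul, ← pow_mul, mul_comm (2 * j + 1) 2,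
                  show j * (2 * 2) = 4 * j by ring]
                ring
      _ = 4 * ℓ ^ (4 * j) * ∑ n ∈ Sh D Y, tau n ^ (2 * (2 * j + 1)) := by rw [Finset.mul_sum]
      _ ≤ _ := by gcongr
  have h4 := energy hC hmv (Sh D Y) a (9 * Y) (9 * Y) _ K (by linarith) (by positivity) le_rfl (fun n hn => by
      have h4 := hsub hn
      rw [Finset.mem_Icc] at h4
      exact ⟨h4.1, by exact_mod_cast h4.2⟩) h3 hK
  refine h4.trans ?_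
  rw [← hP]
  calc C * (1 + Real.log (9 * Y)) * ((9 * Y + K) * (4 * ℓ ^ (4 * j) * (9 * ℓ ^ P * Y / E)))
      ≤ C * (3 * ℓ) * ((10 * Y) * (4 * ℓ ^ (4 * j) * (9 * ℓ ^ P * Y / E))) := by
        gcongr
        · linarith
        · linarith
    _ = 1080 * C * ℓ ^ (4 * j + 1 + P) * Y ^ 2 / E := by
        rw [pow_add, pow_add]
        ring

/-- the energy of one product -/
lemma cellG {C : ℝ} (hC : 0 < C) (hmv : Mv C) (j : ℕ) (a b : ℕ → ℂ) (D ℓ H : ℝ) (Y q s s' U i K : ℕ) (hD : 4 ≤ D)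
    (hK : 1 ≤ K) (hY : 1 ≤ Y) (hU : 1 ≤ U) (hl : 3 ≤ ℓ) (hlog : Real.log (3 * Y) ≤ 2 * ℓ) (hH : 0 < H)
    (KK : Finset ℤ) (hKK : KK ⊆ FK K) (hb : ∀ m, 1 ≤ m → m ≤ 9 * Y → ‖b m‖ ≤ ℓ ^ j * tau m ^ j)
    (hA : ∀ k ∈ KK, ∀ N₁ N₂ : ℕ, U ≤ N₁ → N₁ ≤ N₂ → N₂ ≤ 3 * Y → N₂ ≤ 3 * N₁ →
      ‖DP ((Ioc N₁ N₂).filter (fun m => m % q = s)) a k‖ ^ 2 * (1 + K * N₂ / Y) ≤ (N₂ : ℝ) ^ 2 / H) :
    ∑ k ∈ KK, (‖DP ((ce D U Y i).filter (fun m => m % q = s)) a k‖ *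
      ‖DP ((JJ D U 0 Y i).filter (fun m => m % q = s')) b k‖) ^ 2 ≤
      81 * C * ℓ ^ (2 * j + 1 + 2 * 2 ^ (2 * j)) * Y ^ 2 / H := by
  have hD0 : 0 < D := by linarith
  have hY1 : (1 : ℝ) ≤ Y := by exact_mod_cast hY
  have hY0 : (0 : ℝ) < Y := by linarith
  have hl0 : 0 < ℓ := by linarith
  have hU0 : (1 : ℝ) ≤ U := by exact_mod_cast hU
  have hMU : (U : ℝ) ≤ MM D U i := MM_ge hD0 U i
  have hMs : MM D U (i + 1) = MM D U i * Real.exp (1 / D) := MM_succ U i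
  set M := MM D U i with hM
  have hM1 : 1 ≤ M := by linarith
  have hM0 : 0 < M := by linarith
  have hexp : Real.exp (1 / D) ≤ 3 / 2 := by
    have h2 : 1 / D ≤ 1 / 4 := one_div_le_one_div_of_le (by norm_num) hD
    have := exp_le_two (by positivity : 0 ≤ 1 / D) (by linarith)
    linarith
  have hexp0 : 0 < Real.exp (1 / D) := Real.exp_pos _
  by_cases hcase : ⌊M⌋₊ < min ⌊MM D U (i + 1)⌋₊ (3 * Y)
  swap
  · have he : ce D U Y i = ∅ := by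
      unfold ce
      rw [← hM, Finset.Ioc_eq_empty (by omega)]
    rw [he]
    have : ∀ k, DP (Finset.filter (fun m => m % q = s) (∅ : Finset ℕ)) a k = 0 := by
      intro k; unfold DP; simp
    simp only [this, norm_zero, zero_mul]
    simp
    positivity
  set N₁ : ℕ := ⌊M⌋₊ with hN₁
  set N₂ : ℕ := min ⌊MM D U (i + 1)⌋₊ (3 * Y) with hN₂
  have hN1 : U ≤ N₁ := Nat.le_floor hMU
  have hN1M : (N₁ : ℝ) ≤ M := Nat.floor_le hM0.le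
  have hN1M' : M < N₁ + 1 := Nat.lt_floor_add_one M
  have hN2 : (N₂ : ℝ) ≤ 3 / 2 * M := by
    have h1 : (N₂ : ℝ) ≤ MM D U (i + 1) := by
      have h2 : 0 ≤ MM D U (i + 1) := (Nat.cast_nonneg U).trans (MM_ge hD0 U _)
      exact (Nat.cast_le.mpr (min_le_left _ _)).trans (Nat.floor_le h2)
    rw [hMs] at h1
    nlinarith
  have hMN2 : M ≤ N₂ := by
    have : N₁ + 1 ≤ N₂ := hcase
    have h2 : ((N₁ : ℝ) + 1) ≤ N₂ := by exact_mod_cast this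
    linarith
  have hN23 : N₂ ≤ 3 * N₁ := by
    have h1 : (1 : ℝ) ≤ N₁ := by exact_mod_cast hU.trans hN1
    have h2 : (N₂ : ℝ) < 3 * N₁ + 1 := by linarith
    have h3 : (N₂ : ℝ) < ((3 * N₁ + 1 : ℕ) : ℝ) := by push_cast; linarith
    have h4 : N₂ < 3 * N₁ + 1 := by exact_mod_cast h3
    omega
  have hN2Y : N₂ ≤ 3 * Y := min_le_right _ _
  have hce : ce D U Y i = Ioc N₁ N₂ := rfl
  rw [hce]
  set N₂' : ℕ := min ⌊3 * (Y : ℝ) / M⌋₊ (3 * Y) with hN₂'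
  have hN2M' : (N₂' : ℝ) ≤ 3 * Y / M :=
    (Nat.cast_le.mpr (min_le_left _ _)).trans (Nat.floor_le (by positivity))
  have hN2Y' : (N₂' : ℝ) ≤ 3 * Y := by
    have : N₂' ≤ 3 * Y := min_le_right _ _
    exact_mod_cast this
  have h3Y : (1 : ℝ) ≤ 3 * Y := by linarith
  have hlog0 : 0 ≤ Real.log (3 * Y) := Real.log_nonneg h3Y
  have hlog1 : 1 + Real.log (3 * Y) ≤ 3 * ℓ := by linarith
  set fA : ℤ → ℝ := fun k => ‖DP ((Ioc N₁ N₂).filter (fun m => m % q = s)) a k‖ with hfA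
  set fB : ℤ → ℝ := fun k => ‖DP ((JJ D U 0 Y i).filter (fun m => m % q = s')) b k‖ with hfB
  have hfA0 : ∀ k, 0 ≤ fA k := fun k => norm_nonneg _
  have hfB0 : ∀ k, 0 ≤ fB k := fun k => norm_nonneg _
  change ∑ k ∈ KK, (fA k * fB k) ^ 2 ≤ _
  obtain ⟨P, hP⟩ : ∃ P : ℕ, P = 2 ^ (2 * j) := ⟨_, rfl⟩
  have hEn : ∑ k ∈ FK K, fB k ^ 2 ≤ C * (1 + Real.log (3 * Y)) *
      ((3 * Y / M + K) * (ℓ ^ (2 * j) * (3 * Y / M * ℓ ^ (2 * P)))) := by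
    refine energy hC hmv _ _ (3 * Y) (3 * Y / M) _ K h3Y (by positivity) (div_le_self (by positivity) hM1) ?_ ?_ hK
    · intro n hn
      rw [Finset.mem_filter, JJ, Finset.mem_Ioc] at hn
      refine ⟨by omega, ?_⟩
      exact (Nat.cast_le.mpr hn.1.2).trans hN2M'
    · have hsub : (JJ D U 0 Y i).filter (fun m => m % q = s') ⊆ Icc 1 N₂' := by
        intro n hn
        rw [Finset.mem_filter, JJ, Finset.mem_Ioc] at hn
        rw [Finset.mem_Icc]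
        exact ⟨by omega, hn.1.2⟩
      rcases Nat.eq_zero_or_pos N₂' with h0 | h0
      · rw [h0, Finset.Icc_eq_empty (by norm_num), Finset.subset_empty] at hsub
        rw [hsub, Finset.sum_empty]
        positivity
      calc ∑ n ∈ (JJ D U 0 Y i).filter (fun m => m % q = s'), ‖b n‖ ^ 2
          ≤ ∑ n ∈ Icc 1 N₂', ‖b n‖ ^ 2 :=
            Finset.sum_le_sum_of_subset_of_nonneg hsub fun _ _ _ => by positivity
        _ ≤ ∑ n ∈ Icc 1 N₂', ℓ ^ (2 * j) * tau n ^ (2 * j) := by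
            refine Finset.sum_le_sum fun n hn => ?_
            rw [Finset.mem_Icc] at hn
            have h5 : n ≤ 9 * Y := by
              have : N₂' ≤ 3 * Y := min_le_right _ _
              omega
            have h7 := tau_nonneg n
            calc ‖b n‖ ^ 2 ≤ (ℓ ^ j * tau n ^ j) ^ 2 := pow_le_pow_left₀ (norm_nonneg _) (hb n hn.1 h5) 2
              _ = ℓ ^ (2 * j) * tau n ^ (2 * j) := by
                  rw [mul_pow, ← pow_mul, ← pow_mul, mul_comm j 2]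
        _ = ℓ ^ (2 * j) * ∑ n ∈ Icc 1 N₂', tau n ^ (2 * j) := by rw [Finset.mul_sum]
        _ ≤ ℓ ^ (2 * j) * (N₂' * (1 + Real.log N₂') ^ (2 ^ (2 * j))) := by
            gcongr
            exact tau_pow_sum (2 * j) N₂' h0
        _ ≤ ℓ ^ (2 * j) * (3 * Y / M * ℓ ^ (2 * P)) := by
            rw [← hP]
            have h1 : Real.log N₂' ≤ Real.log (3 * Y) := Real.log_le_log (by exact_mod_cast h0) hN2Y'
            have h2 : 0 ≤ Real.log N₂' := Real.log_nonneg (by exact_mod_cast h0)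
            have h3 : (1 + Real.log N₂') ^ P ≤ ℓ ^ (2 * P) := by
              rw [pow_mul]
              apply pow_le_pow_left₀ (by positivity)
              nlinarith
            gcongr
  have hKN : 0 < 1 + (K : ℝ) * N₂ / Y := by positivity
  have hfA2 : ∀ k ∈ KK, fA k ^ 2 ≤ (N₂ : ℝ) ^ 2 / H / (1 + K * N₂ / Y) := by
    intro k hk
    rw [le_div_iff₀ hKN]
    exact hA k hk N₁ N₂ hN1 hcase.le hN2Y hN23
  have hMK : 3 * (Y : ℝ) / M + K ≤ 3 * (Y / M) * (1 + K * N₂ / Y) := by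
    have e1 : 3 * ((Y : ℝ) / M) * (1 + K * N₂ / Y) = 3 * Y / M + 3 * K * (N₂ / M) := by
      field_simp
    rw [e1]
    have h2 : 1 ≤ (N₂ : ℝ) / M := by rw [le_div_iff₀ hM0]; linarith
    have h3 : (0 : ℝ) ≤ K := Nat.cast_nonneg K
    nlinarith
  calc ∑ k ∈ KK, (fA k * fB k) ^ 2 ≤ ∑ k ∈ KK, (N₂ : ℝ) ^ 2 / H / (1 + K * N₂ / Y) * fB k ^ 2 := by
        refine Finset.sum_le_sum fun k hk => ?_
        rw [mul_pow]
        exact mul_le_mul_of_nonneg_right (hfA2 k hk) (by positivity)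
    _ = (N₂ : ℝ) ^ 2 / H / (1 + K * N₂ / Y) * ∑ k ∈ KK, fB k ^ 2 := by rw [Finset.mul_sum]
    _ ≤ (N₂ : ℝ) ^ 2 / H / (1 + K * N₂ / Y) * ∑ k ∈ FK K, fB k ^ 2 := by
        gcongr
    _ ≤ (N₂ : ℝ) ^ 2 / H / (1 + K * N₂ / Y) * (C * (1 + Real.log (3 * Y)) *
      ((3 * Y / M + K) * (ℓ ^ (2 * j) * (3 * Y / M * ℓ ^ (2 * P))))) := by
        gcongr
    _ ≤ (N₂ : ℝ) ^ 2 / H / (1 + K * N₂ / Y) * (C * (3 * ℓ) *
      ((3 * (Y / M) * (1 + K * N₂ / Y)) * (ℓ ^ (2 * j) * (3 * Y / M * ℓ ^ (2 * P))))) := by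
        gcongr
    _ = 27 * C * ℓ ^ (2 * j + 1 + 2 * P) * Y ^ 2 / H * (N₂ / M) ^ 2 := by
        have := hKN.ne'
        rw [pow_add, pow_add]
        field_simp
        ring
    _ ≤ 27 * C * ℓ ^ (2 * j + 1 + 2 * P) * Y ^ 2 / H * (3 / 2) ^ 2 := by
        have h2 : (N₂ : ℝ) / M ≤ 3 / 2 := by rw [div_le_iff₀ hM0]; linarith
        gcongr
    _ ≤ 81 * C * ℓ ^ (2 * j + 1 + 2 * 2 ^ (2 * j)) * Y ^ 2 / H := by
        rw [← hP]
        have : 0 ≤ C * ℓ ^ (2 * j + 1 + 2 * P) * Y ^ 2 / H := by positivity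
        have e1 : 27 * C * ℓ ^ (2 * j + 1 + 2 * P) * Y ^ 2 / H * (3 / 2) ^ 2 =
          (243 / 4) * (C * ℓ ^ (2 * j + 1 + 2 * P) * Y ^ 2 / H) := by ring
        have e2 : 81 * C * ℓ ^ (2 * j + 1 + 2 * P) * Y ^ 2 / H =
          81 * (C * ℓ ^ (2 * j + 1 + 2 * P) * Y ^ 2 / H) := by ring
        rw [e1, e2]
        linarith

theorem coreG {C : ℝ} (hC : 0 < C) (hmv : Mv C) (j : ℕ) (a b : ℕ → ℂ) (D ℓ E H : ℝ) (Y q r U K : ℕ) (hD : 4 ≤ D)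
    (hK : 1 ≤ K) (hY : 1 ≤ Y) (hKY : (K : ℝ) ≤ Y) (hU : 1 ≤ U) (hq : 1 ≤ q) (hrq : r.Coprime q)
    (hl : 3 ≤ ℓ) (hlog : Real.log (9 * Y) ≤ 2 * ℓ) (hH : 0 < H) (hE0 : 0 < E) (hE : E ^ 2 ≤ D)
    (KK : Finset ℤ) (hKK : KK ⊆ FK K) (haU : ∀ m ≤ U, a m = 0)
    (ha : ∀ m, 1 ≤ m → m ≤ 9 * Y → ‖a m‖ ≤ ℓ ^ j * tau m ^ j)
    (hb : ∀ m, 1 ≤ m → m ≤ 9 * Y → ‖b m‖ ≤ ℓ ^ j * tau m ^ j)
    (hA : ∀ k ∈ KK, ∀ s : ℕ, s < q → s.Coprime q → ∀ N₁ N₂ : ℕ, U ≤ N₁ → N₁ ≤ N₂ → N₂ ≤ 3 * Y → N₂ ≤ 3 * N₁ →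
      ‖DP ((Ioc N₁ N₂).filter (fun m => m % q = s)) a k‖ ^ 2 * (1 + K * N₂ / Y) ≤ (N₂ : ℝ) ^ 2 / H) :
    ∑ k ∈ KK, ‖DP ((Ioc Y (3 * Y)).filter (fun n => n % q = r % q))
      (fun n => ∑ x ∈ n.divisorsAntidiagonal, a x.1 * b x.2) k‖ ^ 2 ≤
    2 * (1080 * C * ℓ ^ (4 * j + 1 + 2 ^ (4 * (2 * j + 1))) * Y ^ 2 / E) +
      2 * (((⌈D * Real.log ((3 * Y : ℕ) : ℝ)⌉₊ : ℝ) * q ^ 2) ^ 2 *
        (81 * C * ℓ ^ (2 * j + 1 + 2 * 2 ^ (2 * j)) * Y ^ 2 / H)) := by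
  have hD0 : 0 < D := by linarith
  have hD2 : 2 ≤ D := by linarith
  have hY1 : (1 : ℝ) ≤ Y := by exact_mod_cast hY
  have hY0 : (0 : ℝ) < Y := by linarith
  have hl0 : 0 < ℓ := by linarith
  have hlog3 : Real.log (3 * Y) ≤ 2 * ℓ := by
    refine (Real.log_le_log (by positivity) ?_).trans hlog
    linarith
  -- abbreviations
  set J := range ⌈D * Real.log ((3 * Y : ℕ) : ℝ)⌉₊ ×ˢ Qs q r with hJ
  set c : ℕ → ℂ := fun n => ∑ x ∈ n.divisorsAntidiagonal, a x.1 * b x.2 with hc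
  set c1 : ℕ → ℂ := fun n => ∑ p ∈ (T1 U 0 Y q r \ T2 D U 0 Y q r).filter (fun p => p.1 * p.2 = n),
    a p.1 * b p.2 with hc1
  set c2 : ℕ → ℂ := fun n => ∑ p ∈ (T2 D U 0 Y q r \ T1 U 0 Y q r).filter (fun p => p.1 * p.2 = n),
    a p.1 * b p.2 with hc2
  set fA : ℕ × (ℕ × ℕ) → ℤ → ℂ := fun j k => DP ((ce D U Y j.1).filter (fun m => m % q = j.2.1)) a k with hfA
  set fB : ℕ × (ℕ × ℕ) → ℤ → ℂ := fun j k => DP ((JJ D U 0 Y j.1).filter (fun m => m % q = j.2.2)) b k with hfB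
  have hT1 : ∀ p ∈ T1 U 0 Y q r, p.1 ≠ 0 ∧ p.2 ≠ 0 := by
    intro p hp
    simp only [T1, Finset.mem_filter, Finset.mem_product, Finset.mem_Ioc] at hp
    omega
  have hT2 : ∀ p ∈ T2 D U 0 Y q r, p.1 ≠ 0 ∧ p.2 ≠ 0 := by
    intro p hp
    simp only [T2, Finset.mem_filter, Finset.mem_product, Finset.mem_Ioc] at hp
    omega
  -- the main identity
  have hmain : ∀ k : ℤ, DP ((Ioc Y (3 * Y)).filter (fun n => n % q = r % q)) c k =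
      DP (Sh D Y) (fun n => c1 n - c2 n) k + ∑ j ∈ J, fA j k * fB j k := by
    intro k
    set F : ℕ × ℕ → ℂ := fun p => (a p.1 * ch k (Real.log p.1)) * (b p.2 * ch k (Real.log p.2)) with hF
    have h1 : DP ((Ioc Y (3 * Y)).filter (fun n => n % q = r % q)) c k = ∑ p ∈ T1 U 0 Y q r, F p := by
      rw [hF, collect ((Ioc Y (3 * Y)).filter (fun n => n % q = r % q)) (T1 U 0 Y q r) a b k hT1]
      · unfold DP
        refine Finset.sum_congr rfl fun n hn => ?_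
        congr 1
        rw [hc]
        symm
        apply Finset.sum_subset_zero_on_sdiff
        · intro p hp
          simp only [Finset.mem_filter, Finset.mem_Ioc] at hn
          simp only [T1, Finset.mem_filter, Finset.mem_product, Finset.mem_Ioc] at hp
          rw [Nat.mem_divisorsAntidiagonal]
          exact ⟨hp.2, by omega⟩
        · intro p hp
          simp only [Finset.mem_filter, Finset.mem_Ioc] at hn
          simp only [T1, Finset.mem_filter, Finset.mem_product, Finset.mem_Ioc, Nat.mem_divisorsAntidiagonal,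
            Finset.mem_sdiff] at hp
          obtain ⟨⟨h2, h3⟩, h4⟩ := hp
          have hp2 : 0 < p.2 := Nat.pos_of_ne_zero (by rintro h; rw [h] at h2; omega)
          have hp1 : 0 < p.1 := Nat.pos_of_ne_zero (by rintro h; rw [h] at h2; omega)
          have h6 : p.1 ≤ n := by rw [← h2]; exact Nat.le_mul_of_pos_right _ (by omega)
          have h7 : p.2 ≤ n := by rw [← h2]; exact Nat.le_mul_of_pos_left _ (by omega)
          by_cases hpU : p.1 ≤ U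
          · rw [haU _ hpU, zero_mul]
          · exfalso
            apply h4
            rw [h2]
            exact ⟨⟨⟨⟨by omega, by omega⟩, hp2, by omega⟩, ⟨hn.1.1, hn.1.2⟩, hn.2⟩, rfl⟩
        · intro p hp
          rfl
      · intro p hp
        simp only [T1, Finset.mem_filter, Finset.mem_product, Finset.mem_Ioc] at hp
        simp only [Finset.mem_filter, Finset.mem_Ioc]
        exact ⟨hp.2.1, hp.2.2⟩
    have h2 : ∑ p ∈ T2 D U 0 Y q r, F p = ∑ j ∈ J, fA j k * fB j k := by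
      rw [hF]
      exact decomp hD0 hU hq (fun m => a m * ch k (Real.log m)) (fun l => b l * ch k (Real.log l))
    have h3 : ∑ p ∈ T1 U 0 Y q r \ T2 D U 0 Y q r, F p = DP (Sh D Y) c1 k := by
      rw [hF, collect (Sh D Y) _ a b k (fun p hp => hT1 p (Finset.mem_sdiff.mp hp).1)
        (fun p hp => sd1 hD0 hU hp)]
    have h4 : ∑ p ∈ T2 D U 0 Y q r \ T1 U 0 Y q r, F p = DP (Sh D Y) c2 k := by
      rw [hF, collect (Sh D Y) _ a b k (fun p hp => hT2 p (Finset.mem_sdiff.mp hp).1)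
        (fun p hp => sd2 hD0 hU hp)]
    have h5 := Finset.sum_sdiff_sub_sum_sdiff (s₁ := T1 U 0 Y q r) (s₂ := T2 D U 0 Y q r) (f := F)
    have h6 : DP (Sh D Y) (fun n => c1 n - c2 n) k = DP (Sh D Y) c1 k - DP (Sh D Y) c2 k := by
      unfold DP
      rw [← Finset.sum_sub_distrib]
      refine Finset.sum_congr rfl fun n _ => ?_
      ring
    rw [h1, h6, ← h2, ← h3, ← h4]
    linear_combination h5
  -- the error term
  have herr : ∑ k ∈ KK, ‖DP (Sh D Y) (fun n => c1 n - c2 n) k‖ ^ 2 ≤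
      1080 * C * ℓ ^ (4 * j + 1 + 2 ^ (4 * (2 * j + 1))) * Y ^ 2 / E := by
    refine le_trans (Finset.sum_le_sum_of_subset_of_nonneg hKK fun _ _ _ => by positivity) ?_
    refine errG hC hmv j D ℓ E Y K hD2 hK hY hKY hl hlog hE0 hE _ ?_
    intro n hn
    have hn1 := Finset.mem_Icc.mp (Sh_sub hD2 Y hn)
    refine (norm_sub_le _ _).trans ?_
    have h1 := coefs (j := j) (G := ℓ ^ j) (by positivity) a b n (9 * Y) hn1.1 hn1.2 ha hb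
      ((T1 U 0 Y q r \ T2 D U 0 Y q r).filter (fun p => p.1 * p.2 = n))
      (fun p hp => (Finset.mem_filter.mp hp).2)
    have h2 := coefs (j := j) (G := ℓ ^ j) (by positivity) a b n (9 * Y) hn1.1 hn1.2 ha hb
      ((T2 D U 0 Y q r \ T1 U 0 Y q r).filter (fun p => p.1 * p.2 = n))
      (fun p hp => (Finset.mem_filter.mp hp).2)
    have h3 : ‖c1 n‖ ≤ (ℓ ^ j) ^ 2 * tau n ^ (2 * j + 1) := h1
    have h4 : ‖c2 n‖ ≤ (ℓ ^ j) ^ 2 * tau n ^ (2 * j + 1) := h2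
    linarith
  -- the products
  have hprod : ∀ i ∈ J, ∑ k ∈ KK, (‖fA i k‖ * ‖fB i k‖) ^ 2 ≤
      81 * C * ℓ ^ (2 * j + 1 + 2 * 2 ^ (2 * j)) * Y ^ 2 / H := by
    intro i hi
    simp only [hJ, Finset.mem_product, Finset.mem_range, Qs, Finset.mem_filter] at hi
    obtain ⟨hj1, ⟨hj2, hj3⟩, hj4⟩ := hi
    have hco : (i.2.1 * i.2.2).Coprime q := by
      have h1 : Nat.gcd (i.2.1 * i.2.2) q = Nat.gcd r q := by
        rw [Nat.gcd_comm, Nat.gcd_rec, hj4, ← Nat.gcd_rec, Nat.gcd_comm]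
      rw [Nat.Coprime, h1]
      exact hrq
    have hco1 : i.2.1.Coprime q := Nat.Coprime.coprime_mul_right hco
    exact cellG hC hmv j a b D ℓ H Y q i.2.1 i.2.2 U i.1 K hD hK hY hU hl hlog3 hH KK hKK hb
      (fun k hk N₁ N₂ => hA k hk _ hj2 hco1 N₁ N₂)
  have hsum : ∑ k ∈ KK, ‖∑ j ∈ J, fA j k * fB j k‖ ^ 2 ≤
      (J.card : ℝ) ^ 2 * (81 * C * ℓ ^ (2 * j + 1 + 2 * 2 ^ (2 * j)) * Y ^ 2 / H) := by
    calc ∑ k ∈ KK, ‖∑ j ∈ J, fA j k * fB j k‖ ^ 2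
        ≤ ∑ k ∈ KK, (J.card : ℝ) * ∑ j ∈ J, (‖fA j k‖ * ‖fB j k‖) ^ 2 := by
          refine Finset.sum_le_sum fun k _ => ?_
          have h1 : ‖∑ j ∈ J, fA j k * fB j k‖ ≤ ∑ j ∈ J, ‖fA j k‖ * ‖fB j k‖ := by
            refine (norm_sum_le _ _).trans (le_of_eq ?_)
            refine Finset.sum_congr rfl fun j _ => norm_mul _ _
          exact (pow_le_pow_left₀ (norm_nonneg _) h1 2).trans sq_sum_le_card_mul_sum_sq
      _ = (J.card : ℝ) * ∑ j ∈ J, ∑ k ∈ KK, (‖fA j k‖ * ‖fB j k‖) ^ 2 := by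
          rw [← Finset.mul_sum, Finset.sum_comm]
      _ ≤ (J.card : ℝ) * ∑ i ∈ J, (81 * C * ℓ ^ (2 * j + 1 + 2 * 2 ^ (2 * j)) * Y ^ 2 / H) := by
          refine mul_le_mul_of_nonneg_left (Finset.sum_le_sum hprod) (Nat.cast_nonneg _)
      _ = _ := by rw [Finset.sum_const, nsmul_eq_mul]; ring
  have hcard : (J.card : ℝ) ≤ (⌈D * Real.log ((3 * Y : ℕ) : ℝ)⌉₊ : ℝ) * q ^ 2 := by
    rw [hJ, Finset.card_product, Finset.card_range, Nat.cast_mul]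
    exact mul_le_mul_of_nonneg_left (card_Qs q r) (Nat.cast_nonneg _)
  calc ∑ k ∈ KK, ‖DP ((Ioc Y (3 * Y)).filter (fun n => n % q = r % q)) c k‖ ^ 2
      ≤ ∑ k ∈ KK, (2 * ‖DP (Sh D Y) (fun n => c1 n - c2 n) k‖ ^ 2 + 2 * ‖∑ j ∈ J, fA j k * fB j k‖ ^ 2) := by
        refine Finset.sum_le_sum fun k _ => ?_
        rw [hmain k]
        have h1 := norm_add_le (DP (Sh D Y) (fun n => c1 n - c2 n) k) (∑ j ∈ J, fA j k * fB j k)
        have h2 := pow_le_pow_left₀ (norm_nonneg _) h1 2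
        nlinarith [sq_nonneg (‖DP (Sh D Y) (fun n => c1 n - c2 n) k‖ - ‖∑ j ∈ J, fA j k * fB j k‖)]
    _ = 2 * ∑ k ∈ KK, ‖DP (Sh D Y) (fun n => c1 n - c2 n) k‖ ^ 2 +
        2 * ∑ k ∈ KK, ‖∑ j ∈ J, fA j k * fB j k‖ ^ 2 := by
        rw [Finset.sum_add_distrib, Finset.mul_sum, Finset.mul_sum]
    _ ≤ _ := by
        have h1 : (J.card : ℝ) ^ 2 * (81 * C * ℓ ^ (2 * j + 1 + 2 * 2 ^ (2 * j)) * Y ^ 2 / H) ≤
            ((⌈D * Real.log ((3 * Y : ℕ) : ℝ)⌉₊ : ℝ) * q ^ 2) ^ 2 *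
              (81 * C * ℓ ^ (2 * j + 1 + 2 * 2 ^ (2 * j)) * Y ^ 2 / H) := by
          gcongr
        linarith

/-- numbers -/
lemma numG (C ℓ Y : ℝ) (I q A B c e1 e2 K : ℕ) (hC : 1 ≤ C) (hl : 10 ≤ ℓ) (hlC : 4000 * C ≤ ℓ) (hY : 0 ≤ Y)
    (hc : c = A + e1 + 1) (hK : K = A + 4 * c + 4 * B + 3 + e2) (hI : (I : ℝ) ≤ 3 * ℓ ^ (2 * c + 1)) (hq : (q : ℝ) ≤ ℓ ^ B) :
    2 * (1080 * C * ℓ ^ e1 * Y ^ 2 / ℓ ^ c) +
      2 * (((I : ℝ) * q ^ 2) ^ 2 * (81 * C * ℓ ^ e2 * Y ^ 2 / ℓ ^ K)) ≤ Y ^ 2 / ℓ ^ A := by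
  have hl0 : 0 < ℓ := by linarith
  have hl1 : 1 ≤ ℓ := by linarith
  have h1 : 2 * (1080 * C * ℓ ^ e1 * Y ^ 2 / ℓ ^ c) = 2160 * C / ℓ * (Y ^ 2 / ℓ ^ A) := by
    rw [hc, pow_add, pow_add]
    field_simp
    ring
  have h2 : ((I : ℝ) * q ^ 2) ^ 2 ≤ 9 * ℓ ^ (4 * c + 4 * B + 2) := by
    calc ((I : ℝ) * q ^ 2) ^ 2 ≤ (3 * ℓ ^ (2 * c + 1) * (ℓ ^ B) ^ 2) ^ 2 := by gcongr
      _ = 9 * ℓ ^ (4 * c + 4 * B + 2) := by
          rw [mul_pow, mul_pow, ← pow_mul, ← pow_mul, ← pow_mul, mul_assoc, ← pow_add]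
          norm_num
          ring
  have h3 : 2 * (((I : ℝ) * q ^ 2) ^ 2 * (81 * C * ℓ ^ e2 * Y ^ 2 / ℓ ^ K)) ≤ 1458 * C / ℓ * (Y ^ 2 / ℓ ^ A) := by
    calc 2 * (((I : ℝ) * q ^ 2) ^ 2 * (81 * C * ℓ ^ e2 * Y ^ 2 / ℓ ^ K))
        ≤ 2 * ((9 * ℓ ^ (4 * c + 4 * B + 2)) * (81 * C * ℓ ^ e2 * Y ^ 2 / ℓ ^ K)) := by gcongr
      _ = 1458 * C / ℓ * (Y ^ 2 / ℓ ^ A) := by
          have e3 : ℓ ^ K = ℓ ^ (4 * c + 4 * B + 2) * ℓ ^ e2 * (ℓ * ℓ ^ A) := by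
            rw [hK, ← pow_succ', ← pow_add, ← pow_add]
            congr 1
            ring
          rw [e3]
          field_simp
          ring
  have h4 : (2160 * C / ℓ + 1458 * C / ℓ) ≤ 1 := by
    rw [← add_div, div_le_one hl0]
    linarith
  have h5 : 0 ≤ Y ^ 2 / ℓ ^ A := by positivity
  rw [h1]
  nlinarith

/-- **Bilinear sums with general coefficients.** -/
theorem gen (j A B : ℕ) : ∃ (H Y₀ : ℕ), ∀ Y : ℕ, Y₀ ≤ Y → ∀ q r : ℕ, 1 ≤ q → (q : ℝ) ≤ (Real.log Y) ^ B →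
    r.Coprime q → ∀ K : ℕ, 1 ≤ K → (K : ℝ) ≤ Y → ∀ KK : Finset ℤ, KK ⊆ FK K → ∀ (a b : ℕ → ℂ) (U : ℕ), 1 ≤ U →
    (∀ m ≤ U, a m = 0) → (∀ m, 1 ≤ m → m ≤ 9 * Y → ‖a m‖ ≤ (Real.log Y) ^ j * tau m ^ j) →
    (∀ m, 1 ≤ m → m ≤ 9 * Y → ‖b m‖ ≤ (Real.log Y) ^ j * tau m ^ j) →
    (∀ k ∈ KK, ∀ s : ℕ, s < q → s.Coprime q → ∀ N₁ N₂ : ℕ, U ≤ N₁ → N₁ ≤ N₂ → N₂ ≤ 3 * Y → N₂ ≤ 3 * N₁ →
      ‖DP ((Ioc N₁ N₂).filter (fun m => m % q = s)) a k‖ ^ 2 * (1 + K * N₂ / Y) ≤ (N₂ : ℝ) ^ 2 / (Real.log Y) ^ H) →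
    ∑ k ∈ KK, ‖DP ((Ioc Y (3 * Y)).filter (fun n => n % q = r % q))
      (fun n => ∑ x ∈ n.divisorsAntidiagonal, a x.1 * b x.2) k‖ ^ 2 ≤ (Y : ℝ) ^ 2 / (Real.log Y) ^ A := by
  obtain ⟨C₀, hC₀, hmv₀⟩ := Pool.Agent.H376R2.MR.mv
  obtain ⟨C, hC, hC1⟩ : ∃ C : ℝ, C = max C₀ 1 ∧ 1 ≤ C := ⟨_, rfl, le_max_right _ _⟩
  have hmv : Mv C := by
    intro s a N₁ N₂ K h1 h2 h3 h4
    refine (hmv₀ s a N₁ N₂ K h1 h2 h3 h4).trans ?_
    have h5 : 0 ≤ Real.log (N₂ / N₁) := Real.log_nonneg (by rw [le_div_iff₀ (by linarith)]; linarith)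
    have h6 : 0 ≤ ∑ n ∈ s, ‖a n‖ ^ 2 * ((n : ℝ) + K) := sum_nonneg fun _ _ => by positivity
    have h7 : C₀ ≤ C := by rw [hC]; exact le_max_left _ _
    gcongr
  have hC0 : 0 < C := by linarith
  obtain ⟨e1, he1⟩ : ∃ e1 : ℕ, e1 = 4 * j + 1 + 2 ^ (4 * (2 * j + 1)) := ⟨_, rfl⟩
  obtain ⟨e2, he2⟩ : ∃ e2 : ℕ, e2 = 2 * j + 1 + 2 * 2 ^ (2 * j) := ⟨_, rfl⟩
  obtain ⟨c, hc⟩ : ∃ c : ℕ, c = A + e1 + 1 := ⟨_, rfl⟩
  obtain ⟨K', hK'⟩ : ∃ K : ℕ, K = A + 4 * c + 4 * B + 3 + e2 := ⟨_, rfl⟩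
  refine ⟨K', ⌈Real.exp (max 10 (4000 * C))⌉₊, ?_⟩
  intro Y hY q r hq hqB hrq K hK hKY KK hKK a b U hU haU ha hb hA
  have hY1 : Real.exp (max 10 (4000 * C)) ≤ Y := (Nat.le_ceil _).trans (Nat.cast_le.mpr hY)
  have hY0 : (0 : ℝ) < Y := (Real.exp_pos _).trans_le hY1
  have hl' : max 10 (4000 * C) ≤ Real.log Y := by
    rw [Real.le_log_iff_exp_le hY0]
    exact hY1
  set ℓ := Real.log Y with hℓ
  have hl10 : 10 ≤ ℓ := (le_max_left _ _).trans hl'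
  have hlC : 4000 * C ≤ ℓ := (le_max_right _ _).trans hl'
  have hYn : 1 ≤ Y := by exact_mod_cast hY0
  have hl0 : 0 < ℓ := by linarith
  have hc1 : 1 ≤ c := by omega
  have hcore := coreG hC0 hmv j a b (ℓ ^ (2 * c)) ℓ (ℓ ^ c) (ℓ ^ K') Y q r U K (by
      calc (4 : ℝ) ≤ ℓ := by linarith
        _ ≤ ℓ ^ (2 * c) := le_self_pow₀ (by linarith) (by omega)) hK hYn hKY hU hq hrq
      (by linarith) (by
        rw [Real.log_mul (by norm_num) hY0.ne', ← hℓ]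
        have := Real.log_le_sub_one_of_pos (show (0 : ℝ) < 9 by norm_num)
        linarith) (by positivity) (by positivity) (by rw [← pow_mul, mul_comm])
      KK hKK haU ha hb hA
  refine hcore.trans ?_
  rw [← he1, ← he2]
  refine numG C ℓ Y _ q A B c e1 e2 K' hC1 hl10 hlC hY0.le hc hK' ?_ hqB
  have h1 : Real.log ((3 * Y : ℕ) : ℝ) ≤ 2 * ℓ := by
    push_cast
    rw [Real.log_mul (by norm_num) hY0.ne', ← hℓ]
    have := Real.log_le_sub_one_of_pos (show (0 : ℝ) < 3 by norm_num)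
    linarith
  have h2 : 0 ≤ Real.log ((3 * Y : ℕ) : ℝ) := Real.log_natCast_nonneg _
  have h3 : (1 : ℝ) ≤ ℓ ^ (2 * c) := one_le_pow₀ (by linarith)
  have h4 := (Nat.ceil_lt_add_one (show 0 ≤ ℓ ^ (2 * c) * Real.log ((3 * Y : ℕ) : ℝ) by positivity)).le
  refine h4.trans ?_
  rw [pow_succ]
  nlinarith

end Pool.Agent.H43.SL.Gen
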