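import Pool.Agent.H43.SL.TypeI

/-!
# The Heath-Brown identity
-/

set_option autoImplicit false

namespace Pool.Agent.H43.SLF

open Pool.Agent.H43.SL

open Finset Filter
open Pool.Agent.helper24_UT (S_T1 S_MAP)
open Pool.Agent.helper24_UT.II (tau tau_nonneg tau_sum)
open Pool.Agent.H376R2.MR (ch er DP FK)

/-- restriction to `(lo, ∞)` -/
noncomputable def gtc (f : AF) (lo : ℕ) : AF := ⟨fun n => if lo < n then f n else 0, by simp⟩

lemma gtc_apply (f : AF) (lo n : ℕ) : gtc f lo n = if lo < n then f n else 0 := rfl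

lemma abs_gtc_le (f : AF) (lo n : ℕ) : |gtc f lo n| ≤ |f n| := by
  rw [gtc_apply]
  split_ifs
  · exact le_rfl
  · rw [abs_zero]; exact abs_nonneg _

lemma cut_add (f : AF) {a b c : ℕ} (hab : a ≤ b) (hbc : b ≤ c) : cut f a c = cut f a b + cut f b c := by
  ext n
  rw [ArithmeticFunction.add_apply, cut_apply, cut_apply, cut_apply]
  by_cases h1 : a < n ∧ n ≤ b
  · rw [if_pos h1, if_pos ⟨h1.1, by omega⟩, if_neg (by omega), add_zero]
  · by_cases h2 : b < n ∧ n ≤ c
    · rw [if_neg h1, if_pos h2, if_pos ⟨by omega, h2.2⟩, zero_add]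
    · rw [if_neg h1, if_neg h2, if_neg (by omega), add_zero]

lemma split_four (f : AF) {a b c : ℕ} (hab : a ≤ b) (hbc : b ≤ c) :
    f = cut f 0 a + cut f a b + cut f b c + gtc f c := by
  ext n
  simp only [ArithmeticFunction.add_apply, cut_apply, gtc_apply]
  rcases Nat.eq_zero_or_pos n with rfl | hn
  · simp
  by_cases h1 : n ≤ a
  · rw [if_pos ⟨hn, h1⟩, if_neg (by omega), if_neg (by omega), if_neg (by omega)]
    ring
  by_cases h2 : n ≤ b
  · rw [if_neg (by omega), if_pos (by omega), if_neg (by omega), if_neg (by omega)]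
    ring
  by_cases h3 : n ≤ c
  · rw [if_neg (by omega), if_neg (by omega), if_pos (by omega), if_neg (by omega)]
    ring
  · rw [if_neg (by omega), if_neg (by omega), if_neg (by omega), if_pos (by omega)]
    ring

/-- supports of products -/
lemma supp_mul {f g : AF} {a b : ℕ} (hf : ∀ n, a < n → f n = 0) (hg : ∀ n, b < n → g n = 0) :
    ∀ n, a * b < n → (f * g) n = 0 := by
  intro n hn
  rw [ArithmeticFunction.mul_apply]
  refine sum_eq_zero fun x hx => ?_
  rw [Nat.mem_divisorsAntidiagonal] at hx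
  by_cases h1 : a < x.1
  · rw [hf _ h1, zero_mul]
  · by_cases h2 : b < x.2
    · rw [hg _ h2, mul_zero]
    · exfalso
      have := Nat.mul_le_mul (not_lt.1 h1) (not_lt.1 h2)
      omega

lemma supp_one {f : AF} : ∀ n, 1 < n → (1 : AF) n = 0 := by
  intro n hn
  rw [ArithmeticFunction.one_apply_ne (by omega)]

lemma supp_pow {f : AF} {a : ℕ} (hf : ∀ n, a < n → f n = 0) (j : ℕ) : ∀ n, a ^ j < n → (f ^ j) n = 0 := by
  induction j with
  | zero =>
    intro n hn
    rw [pow_zero] at hn ⊢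
    rw [ArithmeticFunction.one_apply_ne (by omega)]
  | succ j ih =>
    rw [pow_succ, pow_succ]
    exact supp_mul ih hf

/-- products of functions which vanish up to `a`, `b` -/
lemma van_mul {f g : AF} {a b : ℕ} (hf : ∀ n, n ≤ a → f n = 0) (hg : ∀ n, n ≤ b → g n = 0) :
    ∀ n, n < (a + 1) * (b + 1) → (f * g) n = 0 := by
  intro n hn
  rw [ArithmeticFunction.mul_apply]
  refine sum_eq_zero fun x hx => ?_
  rw [Nat.mem_divisorsAntidiagonal] at hx
  by_cases h1 : x.1 ≤ a
  · rw [hf _ h1, zero_mul]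
  · by_cases h2 : x.2 ≤ b
    · rw [hg _ h2, mul_zero]
    · exfalso
      have := Nat.mul_le_mul (show a + 1 ≤ x.1 by omega) (show b + 1 ≤ x.2 by omega)
      omega

lemma van_any {f g : AF} {a : ℕ} (hf : ∀ n, n ≤ a → f n = 0) : ∀ n, n ≤ a → (f * g) n = 0 := by
  intro n hn
  rw [ArithmeticFunction.mul_apply]
  refine sum_eq_zero fun x hx => ?_
  rw [Nat.mem_divisorsAntidiagonal] at hx
  have hx2 : 0 < x.2 := Nat.pos_of_ne_zero (by rintro h; rw [h] at hx; omega)
  have : x.1 ≤ n := by rw [← hx.1]; exact Nat.le_mul_of_pos_right _ hx2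
  rw [hf _ (this.trans hn), zero_mul]

/-- **The Heath-Brown identity** of order four -/
theorem hb {z n : ℕ} (hn : n ≤ z ^ 4) : ArithmeticFunction.vonMangoldt n =
    (4 • (cut muR 0 z * lR) - 6 • (cut muR 0 z ^ 2 * zR * lR) + 4 • (cut muR 0 z ^ 3 * zR ^ 2 * lR) -
      cut muR 0 z ^ 4 * zR ^ 3 * lR : AF) n := by
  set m := cut muR 0 z with hm
  set u : AF := 1 - zR * m with hu
  have hu0 : ∀ n, n ≤ z → u n = 0 := by
    intro n hn
    rcases Nat.eq_zero_or_pos n with rfl | hpos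
    · simp
    have h1 : (zR * m) n = (zR * muR) n := by
      rw [ArithmeticFunction.mul_apply, ArithmeticFunction.mul_apply]
      refine sum_congr rfl fun x hx => ?_
      rw [Nat.mem_divisorsAntidiagonal] at hx
      have hx1 : 0 < x.1 := Nat.pos_of_ne_zero (by rintro h; rw [h] at hx; omega)
      have hx2 : 0 < x.2 := Nat.pos_of_ne_zero (by rintro h; rw [h] at hx; omega)
      have : x.2 ≤ n := by rw [← hx.1]; exact Nat.le_mul_of_pos_left _ hx1
      rw [hm, cut_apply, if_pos ⟨hx2, this.trans hn⟩]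
    have h2 : zR * muR = 1 := ArithmeticFunction.coe_zeta_mul_coe_moebius
    rw [hu]
    have h3 : (1 - zR * m) n = (1 : AF) n - (zR * m) n := rfl
    rw [h3, h1, h2, sub_self]
  have hu2 : ∀ n, n < (z + 1) * (z + 1) → (u * u) n = 0 := van_mul hu0 hu0
  have hu4 : ∀ n, n ≤ z ^ 4 → (u * u * (u * u)) n = 0 := by
    intro n hn
    have h1 : ∀ n, n ≤ (z + 1) * (z + 1) - 1 → (u * u) n = 0 := by
      intro n hn
      apply hu2
      have : 0 < (z + 1) * (z + 1) := by positivity
      omega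
    refine van_mul h1 h1 n ?_
    have h2 : (z + 1) * (z + 1) - 1 + 1 = (z + 1) * (z + 1) := Nat.sub_add_cancel (by nlinarith)
    rw [h2]
    calc n ≤ z ^ 4 := hn
      _ < (z + 1) ^ 4 := Nat.pow_lt_pow_left (by omega) (by norm_num)
      _ = _ := by ring
  have hL : (ArithmeticFunction.vonMangoldt : AF) * zR = lR := ArithmeticFunction.vonMangoldt_mul_zeta
  have hid : (ArithmeticFunction.vonMangoldt : AF) = u * u * (u * u) * ArithmeticFunction.vonMangoldt +
      (4 • (m * lR) - 6 • (m ^ 2 * zR * lR) + 4 • (m ^ 3 * zR ^ 2 * lR) - m ^ 4 * zR ^ 3 * lR) := by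
    rw [← hL, hu]
    simp only [nsmul_eq_mul]
    push_cast
    ring
  have h4 : (u * u * (u * u) * ArithmeticFunction.vonMangoldt) n = 0 := van_any hu4 n hn
  conv_lhs => rw [hid]
  rw [ArithmeticFunction.add_apply, h4, zero_add]

/-! ### basic functions -/

lemma dom_zeta : Dom (fun _ => zR) := by
  refine ⟨0, 0, fun Y _ n hn _ => ?_⟩
  rw [zR_apply (by omega)]
  simp

lemma dom_mu : Dom (fun _ => muR) := by
  refine ⟨0, 0, fun Y _ n hn _ => ?_⟩
  rw [muR_apply, ← Int.cast_abs]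
  simp only [pow_zero, mul_one]
  exact_mod_cast ArithmeticFunction.abs_moebius_le_one

lemma dom_log : Dom (fun _ => lR) := by
  obtain ⟨Y₀, h0⟩ := basics 4
  refine ⟨2, Y₀, fun Y hY n hn hnY => ?_⟩
  obtain ⟨g1, g2, g3, g4, g5⟩ := h0 Y hY
  rw [lR_apply, abs_of_nonneg (Real.log_natCast_nonneg n)]
  have h1 := log_nat_le (N := n) g2 g3 hnY
  have h2 := Gen.tau_ge_one hn
  have h3 : (1 : ℝ) ≤ tau n ^ 2 := one_le_pow₀ h2
  have h4 : Real.log n ≤ Real.log Y ^ 2 := by nlinarith
  calc Real.log n ≤ Real.log Y ^ 2 * 1 := by linarith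
    _ ≤ _ := by gcongr

lemma Dom.cut {f : AF} (hf : Dom (fun _ => f)) (lo hi : ℕ → ℕ) : Dom (fun Y => Pool.Agent.H43.SLF.cut f (lo Y) (hi Y)) :=
  hf.of_le fun Y n => abs_cut_le f (lo Y) (hi Y) n

lemma Dom.gtc {f : AF} (hf : Dom (fun _ => f)) (lo : ℕ → ℕ) : Dom (fun Y => Pool.Agent.H43.SLF.gtc f (lo Y)) :=
  hf.of_le fun Y n => abs_gtc_le f (lo Y) n

lemma Dom.const (c : ℕ) : Dom (fun _ => (c : AF)) := by
  induction c with
  | zero =>
    refine ⟨0, 0, fun Y _ n _ _ => ?_⟩
    simp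
  | succ c ih =>
    have h1 : Dom (fun _ => (1 : AF)) := by
      refine ⟨0, 0, fun Y _ m hm _ => ?_⟩
      rw [ArithmeticFunction.one_apply]
      split_ifs <;> simp
    have := ih.add h1
    simpa using this

end Pool.Agent.H43.SLF
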