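import Pool.Agent.H43.SL.HB

/-!
# The mean square of the Dirichlet polynomials of the primes up to the frequency `Y ^ (3 / 4 - δ)`
-/

set_option autoImplicit false

namespace Pool.Agent.H43.SLF

open Pool.Agent.H43.SL

open Finset Filter
open Pool.Agent.helper24_UT (S_T1 S_MAP)
open Pool.Agent.helper24_UT.II (tau tau_nonneg tau_sum)
open Pool.Agent.H376R2.MR (ch er DP FK)

lemma alg (mm ms mc z zs zx zc zL l ls lx lc lL P Q R c : AF) (j : ℕ) (hP : mm ^ (j + 2) = mc * P + ms ^ (j + 2))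
    (hQ : z ^ (j + 1) = (zc + zL) * Q + (zs + zx) ^ (j + 1))
    (hR : (zs + zx) ^ (j + 1) = zs ^ (j + 1) + c * (zs ^ j * zx) + zx ^ 2 * R)
    (hz : z = zs + zx + zc + zL) (hl : l = ls + lx + lc + lL) :
    mm ^ (j + 2) * z ^ (j + 1) * l = mc * (P * z ^ (j + 1) * l) +
      zc * (ms ^ (j + 2) * Q * l + -(c * ms ^ (j + 2) * zs ^ j * ls)) +
      zL * (ms ^ (j + 2) * Q * l + -(c * ms ^ (j + 2) * zs ^ j * ls)) +
      lc * (c * ms ^ (j + 2) * zs ^ j * zx) + lL * (c * ms ^ (j + 2) * zs ^ j * zx) +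
      (ms ^ (j + 2) * zs ^ (j + 1)) * l + (c * ms ^ (j + 2) * zs ^ j * ls) * z +
      (zx ^ 2 * (ms ^ (j + 2) * R * l) + (zx * lx) * (c * ms ^ (j + 2) * zs ^ j) +
        -((c * ms ^ (j + 2) * zs ^ j * ls) * zs)) := by
  linear_combination (z ^ (j + 1) * l) * hP + (ms ^ (j + 2) * l) * hQ + (ms ^ (j + 2) * l) * hR +
    (c * ms ^ (j + 2) * zs ^ j * zx) * hl - (c * ms ^ (j + 2) * zs ^ j * ls) * hz

theorem Dom.neg {F : ℕ → AF} (hF : Dom F) : Dom (fun Y => -F Y) := by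
  obtain ⟨j, Y₀, h⟩ := hF
  refine ⟨j, Y₀, fun Y hY n h1 h2 => ?_⟩
  have : (-F Y) n = -(F Y n) := rfl
  rw [this, abs_neg]
  exact h Y hY n h1 h2

theorem Dom.ev {F G : ℕ → AF} (hF : Dom F) (Y₁ : ℕ) (h : ∀ Y, Y₁ ≤ Y → G Y = F Y) : Dom G := by
  obtain ⟨j, Y₀, h0⟩ := hF
  refine ⟨j, max Y₀ Y₁, fun Y hY n h1 h2 => ?_⟩
  rw [h Y ((le_max_right _ _).trans hY)]
  exact h0 Y ((le_max_left _ _).trans hY) n h1 h2

/-- the order of the cut points -/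
lemma cuts {δ : ℝ} (hδ : 0 < δ) (hδ1 : δ ≤ 1 / 20) : ∃ Y₀ : ℕ, ∀ Y : ℕ, Y₀ ≤ Y → E1 Y ≤ E2 δ Y ∧ E2 δ Y ≤ E3 Y ∧
    (((E1 Y ^ 7 : ℕ) : ℝ) ≤ (Y : ℝ) ^ (1 / 8 : ℝ)) ∧ E1 Y ^ 8 ≤ Y ∧ 1 ≤ E1 Y ∧ 3 * Y ≤ E2 δ Y ^ 4 := by
  obtain ⟨Y₁, h1⟩ := basics 4
  obtain ⟨Y₂, h2⟩ := rpow_ev (δ / 2) (by positivity) 3 0
  obtain ⟨Y₃, h3⟩ := rpow_ev (3 / 80) (by norm_num) 256 0
  refine ⟨max Y₁ (max Y₂ Y₃), fun Y hY => ?_⟩
  obtain ⟨g1, g2, g3, g4, g5⟩ := h1 Y ((le_max_left _ _).trans hY)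
  have c2 := h2 Y ((le_max_left _ _).trans ((le_max_right _ _).trans hY))
  have c3 := h3 Y ((le_max_right _ _).trans ((le_max_right _ _).trans hY))
  rw [pow_zero, mul_one] at c2 c3
  have hY1 : (1 : ℝ) ≤ Y := by exact_mod_cast g4
  have e1a : (1 : ℝ) ≤ (Y : ℝ) ^ (1 / 80 : ℝ) := Real.one_le_rpow hY1 (by norm_num)
  have e1b : (E1 Y : ℝ) ≤ 2 * (Y : ℝ) ^ (1 / 80 : ℝ) := by
    have := (Nat.ceil_lt_add_one (show 0 ≤ (Y : ℝ) ^ (1 / 80 : ℝ) by positivity)).le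
    unfold E1
    linarith
  have e2a : (1 : ℝ) ≤ (Y : ℝ) ^ (1 / 4 + δ / 2 : ℝ) := Real.one_le_rpow hY1 (by positivity)
  have e2b : (E2 δ Y : ℝ) ≤ 2 * (Y : ℝ) ^ (1 / 4 + δ / 2 : ℝ) := by
    have := (Nat.ceil_lt_add_one (show 0 ≤ (Y : ℝ) ^ (1 / 4 + δ / 2 : ℝ) by positivity)).le
    unfold E2
    linarith
  refine ⟨?_, ?_, ?_, ?_, E1_pos g4, ?_⟩
  · unfold E1 E2
    exact Nat.ceil_le_ceil (Real.rpow_le_rpow_of_exponent_le hY1 (by linarith))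
  · unfold E3
    rw [Nat.le_sqrt']
    have h4 : (E2 δ Y : ℝ) ^ 2 ≤ Y := by
      calc (E2 δ Y : ℝ) ^ 2 ≤ (2 * (Y : ℝ) ^ (1 / 4 + δ / 2 : ℝ)) ^ 2 := by gcongr
        _ = 4 * (Y : ℝ) ^ (1 / 2 + δ : ℝ) := by
            rw [mul_pow, ← Real.rpow_natCast ((Y : ℝ) ^ (1 / 4 + δ / 2 : ℝ)), ← Real.rpow_mul g3.le]
            norm_num
            congr 1
            ring
        _ ≤ (Y : ℝ) ^ (3 / 80 : ℝ) * (Y : ℝ) ^ (1 / 2 + δ : ℝ) := by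
            gcongr
            linarith
        _ = (Y : ℝ) ^ (3 / 80 + (1 / 2 + δ) : ℝ) := by rw [← Real.rpow_add g3]
        _ ≤ (Y : ℝ) ^ (1 : ℝ) := Real.rpow_le_rpow_of_exponent_le hY1 (by linarith)
        _ = Y := Real.rpow_one _
    have h5 : E2 δ Y ^ 2 ≤ Y := by exact_mod_cast h4
    omega
  · push_cast
    calc (E1 Y : ℝ) ^ 7 ≤ (2 * (Y : ℝ) ^ (1 / 80 : ℝ)) ^ 7 := by gcongr
      _ = 128 * (Y : ℝ) ^ (7 / 80 : ℝ) := by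
          rw [mul_pow, ← Real.rpow_natCast ((Y : ℝ) ^ (1 / 80 : ℝ)), ← Real.rpow_mul g3.le]
          norm_num
      _ ≤ (Y : ℝ) ^ (3 / 80 : ℝ) * (Y : ℝ) ^ (7 / 80 : ℝ) := by
          gcongr
          linarith
      _ = (Y : ℝ) ^ (1 / 8 : ℝ) := by rw [← Real.rpow_add g3]; norm_num
  · have h4 : (E1 Y : ℝ) ^ 8 ≤ Y := by
      calc (E1 Y : ℝ) ^ 8 ≤ (2 * (Y : ℝ) ^ (1 / 80 : ℝ)) ^ 8 := by gcongr
        _ = 256 * (Y : ℝ) ^ (8 / 80 : ℝ) := by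
            rw [mul_pow, ← Real.rpow_natCast ((Y : ℝ) ^ (1 / 80 : ℝ)), ← Real.rpow_mul g3.le]
            norm_num
        _ ≤ (Y : ℝ) ^ (3 / 80 : ℝ) * (Y : ℝ) ^ (8 / 80 : ℝ) := by gcongr
        _ = (Y : ℝ) ^ (11 / 80 : ℝ) := by rw [← Real.rpow_add g3]; norm_num
        _ ≤ (Y : ℝ) ^ (1 : ℝ) := Real.rpow_le_rpow_of_exponent_le hY1 (by norm_num)
        _ = Y := Real.rpow_one _
    exact_mod_cast h4
  · have e2c : (Y : ℝ) ^ (1 / 4 + δ / 2 : ℝ) ≤ E2 δ Y := Nat.le_ceil _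
    have h4 : (3 * Y : ℝ) ≤ (E2 δ Y : ℝ) ^ 4 := by
      calc (3 * Y : ℝ) ≤ (Y : ℝ) ^ (δ / 2) * Y := by gcongr
        _ ≤ (Y : ℝ) ^ (2 * δ) * Y := by
            apply mul_le_mul_of_nonneg_right _ g3.le
            exact Real.rpow_le_rpow_of_exponent_le hY1 (by linarith)
        _ = ((Y : ℝ) ^ (1 / 4 + δ / 2 : ℝ)) ^ 4 := by
            rw [← Real.rpow_natCast, ← Real.rpow_mul g3.le]
            have : (1 / 4 + δ / 2) * ((4 : ℕ) : ℝ) = 2 * δ + 1 := by push_cast; ring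
            rw [this, Real.rpow_add g3, Real.rpow_one]
        _ ≤ (E2 δ Y : ℝ) ^ 4 := by gcongr
    exact_mod_cast h4

section
variable (δ : ℝ)

noncomputable def ms (Y : ℕ) : AF := cut muR 0 (E1 Y)
noncomputable def mc (Y : ℕ) : AF := cut muR (E1 Y) (E2 δ Y)
noncomputable def zs (Y : ℕ) : AF := cut zR 0 (E1 Y)
noncomputable def zc (Y : ℕ) : AF := cut zR (E1 Y) (E2 δ Y)
noncomputable def zL (Y : ℕ) : AF := cut zR (E2 δ Y) (E3 Y)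
noncomputable def zx (Y : ℕ) : AF := zR - zs Y - zc δ Y - zL δ Y
noncomputable def ls (Y : ℕ) : AF := cut lR 0 (E1 Y)
noncomputable def lc (Y : ℕ) : AF := cut lR (E1 Y) (E2 δ Y)
noncomputable def lL (Y : ℕ) : AF := cut lR (E2 δ Y) (E3 Y)
noncomputable def lx (Y : ℕ) : AF := lR - ls Y - lc δ Y - lL δ Y

end

lemma ms_supp (Y : ℕ) : ∀ n, E1 Y < n → ms Y n = 0 := fun n hn => by
  unfold ms; rw [cut_apply, if_neg (by omega)]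

lemma zs_supp (Y : ℕ) : ∀ n, E1 Y < n → zs Y n = 0 := fun n hn => by
  unfold zs; rw [cut_apply, if_neg (by omega)]

lemma ls_supp (Y : ℕ) : ∀ n, E1 Y < n → ls Y n = 0 := fun n hn => by
  unfold ls; rw [cut_apply, if_neg (by omega)]

lemma zx_eq {δ : ℝ} (hδ : 0 < δ) (hδ1 : δ ≤ 1 / 20) : ∃ Y₀ : ℕ, ∀ Y : ℕ, Y₀ ≤ Y →
    zx δ Y = gtc zR (E3 Y) ∧ lx δ Y = gtc lR (E3 Y) := by
  obtain ⟨Y₀, h⟩ := cuts hδ hδ1
  refine ⟨Y₀, fun Y hY => ?_⟩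
  obtain ⟨h1, h2, _⟩ := h Y hY
  constructor
  · have := split_four zR h1 h2
    unfold zx zs zc zL
    linear_combination this
  · have := split_four lR h1 h2
    unfold lx ls lc lL
    linear_combination this

section
variable {δ : ℝ}

lemma dom_ms : Dom ms := dom_mu.cut (fun _ => 0) E1
lemma dom_mc : Dom (mc δ) := dom_mu.cut E1 (E2 δ)
lemma dom_zs : Dom zs := dom_zeta.cut (fun _ => 0) E1
lemma dom_zc : Dom (zc δ) := dom_zeta.cut E1 (E2 δ)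
lemma dom_zL : Dom (zL δ) := dom_zeta.cut (E2 δ) E3
lemma dom_ls : Dom ls := dom_log.cut (fun _ => 0) E1
lemma dom_lc : Dom (lc δ) := dom_log.cut E1 (E2 δ)
lemma dom_lL : Dom (lL δ) := dom_log.cut (E2 δ) E3

lemma dom_zx (hδ : 0 < δ) (hδ1 : δ ≤ 1 / 20) : Dom (zx δ) := by
  obtain ⟨Y₀, h⟩ := zx_eq hδ hδ1
  exact (dom_zeta.gtc E3).ev Y₀ fun Y hY => (h Y hY).1

variable (hδ : 0 < δ) (hδ1 : δ ≤ 1 / 20) (hT : S_T1) (hM : S_MAP)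
include hδ hδ1 hT hM

lemma f_mc {b : ℕ → AF} (hb : Dom b) : Fine δ (fun Y => mc δ Y * b Y) :=
  fine_mul hδ (sav_mid hδ hδ1 (pt_mu hM)) (fun Y m hm => by
    unfold mc
    rw [cut_apply, if_neg (by omega)]) dom_mc hb

lemma f_zc {b : ℕ → AF} (hb : Dom b) : Fine δ (fun Y => zc δ Y * b Y) :=
  fine_mul hδ (sav_mid hδ hδ1 (pt_zeta hT)) (fun Y m hm => by
    unfold zc
    rw [cut_apply, if_neg (by omega)]) dom_zc hb

lemma f_lc {b : ℕ → AF} (hb : Dom b) : Fine δ (fun Y => lc δ Y * b Y) :=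
  fine_mul hδ (sav_mid hδ hδ1 (pt_log hT)) (fun Y m hm => by
    unfold lc
    rw [cut_apply, if_neg (by omega)]) dom_lc hb

lemma f_zL {b : ℕ → AF} (hb : Dom b) : Fine δ (fun Y => zL δ Y * b Y) :=
  fine_mul hδ (sav_large hδ hδ1 hf_zeta) (fun Y m hm => by
    unfold zL
    rw [cut_apply, if_neg (by omega)]) dom_zL hb

lemma f_lL {b : ℕ → AF} (hb : Dom b) : Fine δ (fun Y => lL δ Y * b Y) :=
  fine_mul hδ (sav_large hδ hδ1 hf_log) (fun Y m hm => by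
    unfold lL
    rw [cut_apply, if_neg (by omega)]) dom_lL hb

lemma f_one {γ : ℕ → AF} (hγ : ∀ Y b, E1 Y ^ 7 < b → γ Y b = 0) (hdom : Dom γ) :
    Fine δ (fun Y => γ Y * zR) ∧ Fine δ (fun Y => γ Y * lR) := by
  obtain ⟨Y₀, h⟩ := cuts hδ hδ1
  have hD : ∃ Y₀ : ℕ, ∀ Y : ℕ, Y₀ ≤ Y → (((E1 Y ^ 7 : ℕ)) : ℝ) ≤ (Y : ℝ) ^ (1 / 8 : ℝ) :=
    ⟨Y₀, fun Y hY => (h Y hY).2.2.1⟩
  exact ⟨fine_one hδ (fun Y => E1 Y ^ 7) hD hγ hdom (i := 0) (fun m hm => by rw [zR_apply hm, pow_zero]) hf_zeta,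
    fine_one hδ (fun Y => E1 Y ^ 7) hD hγ hdom (i := 1) (fun m hm => by rw [lR_apply, pow_one]) hf_log⟩

/-- one term of the identity -/
lemma term (j : ℕ) (hj : j ≤ 2) (P Q R : ℕ → AF) (c : ℕ) (hPd : Dom P) (hQd : Dom Q) (hRd : Dom R)
    (hP : ∀ Y, (ms Y + mc δ Y) ^ (j + 2) = mc δ Y * P Y + ms Y ^ (j + 2))
    (hQ : ∀ Y, zR ^ (j + 1) = (zc δ Y + zL δ Y) * Q Y + (zs Y + zx δ Y) ^ (j + 1))
    (hR : ∀ Y, (zs Y + zx δ Y) ^ (j + 1) = zs Y ^ (j + 1) + (c : AF) * (zs Y ^ j * zx δ Y) + zx δ Y ^ 2 * R Y) :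
    Fine δ (fun Y => (ms Y + mc δ Y) ^ (j + 2) * zR ^ (j + 1) * lR) := by
  have hmsp := (dom_ms.pow (j + 2))
  have hγ : Dom (fun Y => (c : AF) * ms Y ^ (j + 2) * zs Y ^ j * ls Y) :=
    (((Dom.const c).mul hmsp).mul (dom_zs.pow j)).mul dom_ls
  have hB : Dom (fun Y => ms Y ^ (j + 2) * Q Y * lR + -((c : AF) * ms Y ^ (j + 2) * zs Y ^ j * ls Y)) :=
    ((hmsp.mul hQd).mul dom_log).add hγ.neg
  have hG : Dom (fun Y => (c : AF) * ms Y ^ (j + 2) * zs Y ^ j * zx δ Y) :=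
    (((Dom.const c).mul hmsp).mul (dom_zs.pow j)).mul (dom_zx hδ hδ1)
  have s1 : ∀ Y n, E1 Y ^ (2 * j + 3) < n → (ms Y ^ (j + 2) * zs Y ^ (j + 1)) n = 0 := by
    intro Y
    have := supp_mul (supp_pow (ms_supp Y) (j + 2)) (supp_pow (zs_supp Y) (j + 1))
    rwa [← pow_add, show j + 2 + (j + 1) = 2 * j + 3 by ring] at this
  have sc : ∀ n, 1 < n → ((c : AF)) n = 0 := by
    intro n hn
    clear hR hγ hB hG
    induction c with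
    | zero => simp
    | succ c ih =>
      rw [Nat.cast_succ, ArithmeticFunction.add_apply, ih, ArithmeticFunction.one_apply_ne (by omega), add_zero]
  have s2 : ∀ Y n, E1 Y ^ (2 * j + 3) < n → ((c : AF) * ms Y ^ (j + 2) * zs Y ^ j * ls Y) n = 0 := by
    intro Y
    have := supp_mul (supp_mul (supp_mul sc (supp_pow (ms_supp Y) (j + 2))) (supp_pow (zs_supp Y) j)) (ls_supp Y)
    rwa [one_mul, ← pow_add, ← pow_succ, show j + 2 + j + 1 = 2 * j + 3 by ring] at this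
  have hE1 : ∀ Y, E1 Y ^ (2 * j + 3) ≤ E1 Y ^ 7 ∨ E1 Y = 0 := by
    intro Y
    rcases Nat.eq_zero_or_pos (E1 Y) with h | h
    · exact Or.inr h
    · exact Or.inl (Nat.pow_le_pow_right h (by omega))
  have hE1' : ∀ Y, E1 Y ^ (2 * j + 3) ≤ E1 Y ^ 7 := by
    intro Y
    rcases hE1 Y with h | h
    · exact h
    · rw [h]; simp
  have t1 := f_mc hδ hδ1 hT hM (b := fun Y => P Y * zR ^ (j + 1) * lR) ((hPd.mul (dom_zeta.pow (j + 1))).mul dom_log)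
  have t2 := f_zc hδ hδ1 hT hM hB
  have t3 := f_zL hδ hδ1 hT hM hB
  have t4 := f_lc hδ hδ1 hT hM hG
  have t5 := f_lL hδ hδ1 hT hM hG
  have t6 := (f_one hδ hδ1 hT hM (γ := fun Y => ms Y ^ (j + 2) * zs Y ^ (j + 1))
    (fun Y b hb => s1 Y b ((hE1' Y).trans_lt hb)) (hmsp.mul (dom_zs.pow (j + 1)))).2
  have t7 := (f_one hδ hδ1 hT hM (γ := fun Y => (c : AF) * ms Y ^ (j + 2) * zs Y ^ j * ls Y)
    (fun Y b hb => s2 Y b ((hE1' Y).trans_lt hb)) hγ).1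
  obtain ⟨Y₁, h1⟩ := cuts hδ hδ1
  obtain ⟨Y₂, h2⟩ := zx_eq hδ hδ1
  refine ((((((t1.add t2).add t3).add t4).add t5).add t6).add t7).congr (max Y₁ Y₂) ?_
  intro Y hY n hn1 hn2
  obtain ⟨c1, c2, c3, c4, c5, c6⟩ := h1 Y ((le_max_left _ _).trans hY)
  obtain ⟨ezx, elx⟩ := h2 Y ((le_max_right _ _).trans hY)
  rw [alg (ms Y + mc δ Y) (ms Y) (mc δ Y) zR (zs Y) (zx δ Y) (zc δ Y) (zL δ Y) lR (ls Y) (lx δ Y) (lc δ Y) (lL δ Y)
    (P Y) (Q Y) (R Y) (c : AF) j (hP Y) (hQ Y) (hR Y) (by unfold zx; ring) (by unfold lx; ring)]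
  rw [ArithmeticFunction.add_apply]
  have hzx0 : ∀ n, n ≤ E3 Y → zx δ Y n = 0 := by
    intro n hn
    rw [ezx, gtc_apply, if_neg (by omega)]
  have hlx0 : ∀ n, n ≤ E3 Y → lx δ Y n = 0 := by
    intro n hn
    rw [elx, gtc_apply, if_neg (by omega)]
  have h3Y : 3 * Y < (E3 Y + 1) * (E3 Y + 1) := Nat.lt_succ_sqrt (3 * Y)
  have v1 : (zx δ Y ^ 2 * (ms Y ^ (j + 2) * R Y * lR)) n = 0 := by
    refine van_any (a := 3 * Y) (fun m hm => ?_) n hn2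
    rw [sq]
    exact van_mul hzx0 hzx0 m (by omega)
  have v2 : (zx δ Y * lx δ Y * ((c : AF) * ms Y ^ (j + 2) * zs Y ^ j)) n = 0 := by
    refine van_any (a := 3 * Y) (fun m hm => ?_) n hn2
    exact van_mul hzx0 hlx0 m (by omega)
  have v3 : ((c : AF) * ms Y ^ (j + 2) * zs Y ^ j * ls Y * zs Y) n = 0 := by
    refine supp_mul (s2 Y) (zs_supp Y) n ?_
    rw [← pow_succ]
    calc E1 Y ^ (2 * j + 3 + 1) ≤ E1 Y ^ 8 := Nat.pow_le_pow_right c5 (by omega)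
      _ ≤ Y := c4
      _ < n := hn1
  have v4 : (zx δ Y ^ 2 * (ms Y ^ (j + 2) * R Y * lR) + zx δ Y * lx δ Y * ((c : AF) * ms Y ^ (j + 2) * zs Y ^ j) +
      -((c : AF) * ms Y ^ (j + 2) * zs Y ^ j * ls Y * zs Y)) n = 0 := by
    rw [ArithmeticFunction.add_apply, ArithmeticFunction.add_apply, v1, v2]
    have : (-((c : AF) * ms Y ^ (j + 2) * zs Y ^ j * ls Y * zs Y)) n =
      -(((c : AF) * ms Y ^ (j + 2) * zs Y ^ j * ls Y * zs Y) n) := rfl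
    rw [this, v3]
    simp
  rw [v4, add_zero]

end

end Pool.Agent.H43.SLF
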