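import Pool.Agent.H43.SL.Inp
import Pool.Agent.H43.SL.Arith

/-!
The second moment over the constant terms.
-/

set_option autoImplicit false

namespace Pool.Agent.H43.SL

open Finset Filter
open Pool.Agent.helper24_UT (NN Ed S_LSQ)
open Pool.Agent.H442R2.EHI (evt_log_pow evt_log_ge)
open Pool.Agent.H373R2.T7 (lamI lamzI lamz)
open Pool.Agent.W81.R1 (gt gI theta_lam gt_abs)

/-- the truncated function -/
noncomputable def Dt (z Z : ℕ) (m : ℤ) : ℝ := if -(Z : ℤ) ≤ m ∧ m ≤ Z then gI z m else 0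

lemma Dt_supp (z Z : ℕ) : ∀ m, Dt z Z m ≠ 0 → -(Z : ℤ) ≤ m ∧ m ≤ Z := by
  intro m hm
  unfold Dt at hm
  by_contra hcon
  rw [if_neg hcon] at hm
  exact hm rfl

lemma Dt_neg (z Z : ℕ) (m : ℤ) (hm : m ≤ 0) : Dt z Z m = 0 := by
  unfold Dt gI
  split_ifs with h1 h2
  · omega
  · rfl
  · rfl

lemma card_window (u : ℤ) (W : ℕ) : ((Ioc u (u + W)).card : ℝ) = W := by
  rw [Int.card_Ioc]
  have : (u + W - u).toNat = W := by omega
  rw [this]

/-- all windows -/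
lemma windows_le (z Z W q : ℕ) (P : ℝ) (hq : 1 ≤ q) (hW : 1 ≤ W) (hb : ∀ m, |Dt z Z m| ≤ P) :
    ∑' u : ℤ, NN (Dt z Z) u W q ≤ ∑ u ∈ range Z, NN (gI z) (u : ℤ) W q + 2 * W * (W * P) ^ 2 := by
  rw [tsum_NN_eq (Dt_supp z Z)]
  have hNN0 : ∀ (f : ℤ → ℝ) (u : ℤ), 0 ≤ NN f u W q := fun f u => by unfold NN; positivity
  have htriv : ∀ u : ℤ, NN (Dt z Z) u W q ≤ (W * P) ^ 2 := by
    intro u
    refine (NN_triv _ u W q hq).trans ?_
    apply pow_le_pow_left₀ (sum_nonneg fun _ _ => abs_nonneg _)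
    calc ∑ m ∈ Ioc u (u + W), |Dt z Z m| ≤ ∑ m ∈ Ioc u (u + W), P := sum_le_sum fun m _ => hb m
      _ = W * P := by rw [sum_const, nsmul_eq_mul, card_window]
  set S := Ico (-(W : ℤ)) 0 ∪ Ioc ((Z : ℤ) - W) Z with hS
  have hScard : (S.card : ℝ) ≤ 2 * W := by
    have h1 := card_union_le (Ico (-(W : ℤ)) 0) (Ioc ((Z : ℤ) - W) Z)
    rw [Int.card_Ico, Int.card_Ioc] at h1
    have h2 : S.card ≤ 2 * W := by rw [hS]; omega
    exact_mod_cast h2
  have hpt : ∀ u ∈ Icc (-(Z : ℤ) - W) Z, NN (Dt z Z) u W q ≤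
      (if u ∈ S then (W * P) ^ 2 else 0) + (if u ∈ Ico (0 : ℤ) Z then NN (gI z) u W q else 0) := by
    intro u hu
    rw [mem_Icc] at hu
    have ha : 0 ≤ (if u ∈ S then (W * P) ^ 2 else 0) := by split_ifs <;> positivity
    have hb' : 0 ≤ (if u ∈ Ico (0 : ℤ) Z then NN (gI z) u W q else 0) := by
      split_ifs
      · exact hNN0 _ _
      · exact le_rfl
    by_cases h1 : u ∈ S
    · rw [if_pos h1]
      have := htriv u
      linarith
    · rw [if_neg h1, zero_add]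
      rw [hS, mem_union, mem_Ico, mem_Ioc, not_or] at h1
      by_cases h2 : u < 0
      · have h3 : u < -(W : ℤ) := by omega
        have h4 : NN (Dt z Z) u W q = 0 := by
          unfold NN
          refine sum_eq_zero fun r _ => ?_
          rw [sum_eq_zero, zero_pow (by norm_num)]
          intro m hm
          rw [mem_filter, mem_Ioc] at hm
          exact Dt_neg z Z m (by omega)
        rw [h4]
        exact hb'
      · rw [if_pos (by rw [mem_Ico]; omega)]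
        apply le_of_eq
        unfold NN
        refine sum_congr rfl fun r _ => ?_
        congr 1
        refine sum_congr rfl fun m hm => ?_
        rw [mem_filter, mem_Ioc] at hm
        unfold Dt
        rw [if_pos (by omega)]
  refine (sum_le_sum hpt).trans ?_
  rw [sum_add_distrib, add_comm]
  refine add_le_add ?_ ?_
  · rw [← sum_filter]
    have h1 : (Icc (-(Z : ℤ) - W) Z).filter (fun u => u ∈ Ico (0 : ℤ) Z) = (range Z).image (fun u : ℕ => (u : ℤ)) := by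
      ext u
      rw [mem_filter, mem_Icc, mem_Ico, mem_image]
      constructor
      · rintro ⟨h2, h3⟩
        exact ⟨u.toNat, by rw [mem_range]; omega, by omega⟩
      · rintro ⟨v, hv, rfl⟩
        rw [mem_range] at hv
        omega
    rw [h1, sum_image (fun a _ b _ hab => by exact_mod_cast hab)]
  · rw [← sum_filter, sum_const, nsmul_eq_mul]
    have h1 : (((Icc (-(Z : ℤ) - W) Z).filter (fun u => u ∈ S)).card : ℝ) ≤ 2 * W := by
      refine le_trans ?_ hScard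
      exact_mod_cast card_le_card (fun u hu => (mem_filter.1 hu).2)
    have h2 : 0 ≤ (W * P) ^ 2 := by positivity
    nlinarith

/-- **the second moment over the constant terms** -/
theorem mom2 {θ : ℝ} (hθ0 : 0 < θ) (hθ1 : θ ≤ 1) (h : SIg θ) (hLSQ : S_LSQ) (C0 U : ℕ) (ε : ℝ) (hε : 0 < ε) :
    ∃ E₀ : ℕ, ∀ E₁ : ℕ, ∀ᶠ X : ℕ in atTop, ∀ z : ℕ, Real.log X ^ E₀ ≤ z → (z : ℝ) ≤ Real.log X ^ E₁ →
    ∀ (α β : ℤ) (y : ℕ), α ≠ 0 → (α.natAbs : ℝ) ≤ Real.log X ^ C0 → (X : ℝ) ^ (θ / 2 + ε) ≤ y →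
    (y : ℝ) ^ 2 ≤ X → (∀ n ∈ Icc (1 : ℤ) y, |fq α β n| ≤ 2 * X) →
    ∑ c ∈ Icc (-(X : ℤ)) X, (∑ n ∈ Icc (1 : ℤ) y, gI z (c + fq α β n)) ^ 2 ≤
      X * (y : ℝ) ^ 2 / Real.log X ^ U := by
  obtain ⟨C, hC1, hC⟩ := hLSQ
  obtain ⟨V, hV⟩ : ∃ V, V = 2 * U + 6 := ⟨_, rfl⟩
  obtain ⟨A1, hA1⟩ : ∃ A1, A1 = C0 + 4 + V := ⟨_, rfl⟩
  obtain ⟨M, hM⟩ : ∃ M, M = C0 + A1 + 2 + V := ⟨_, rfl⟩
  obtain ⟨B2, hB2⟩ : ∃ B2, B2 = U + 5 := ⟨_, rfl⟩
  obtain ⟨B1, hB1⟩ : ∃ B1, B1 = B2 + M + 3 := ⟨_, rfl⟩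
  obtain ⟨E₀', h1⟩ := h (M + 1) (A1 + 1)
  refine ⟨E₀' + 1, fun E₁ => ?_⟩
  obtain ⟨X₀, h2⟩ := h1 E₁
  obtain ⟨N₀, hN₀⟩ := gt_abs E₁
  filter_upwards [eventually_ge_atTop X₀, eventually_ge_atTop N₀, evt_log_ge 2048, evt_log_ge C, evt_log_ge (2 ^ E₀'),
    evt_log_pow (B1 + C0 + A1 + 2) ε hε, eventually_ge_atTop 8]
    with X hX0 hXN hL hLC hLE hpow hX8 z hz1 hz2 α β y hα hαL hy hyX hval
  set L := Real.log X with hLdef
  have hL0 : 0 < L := by linarith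
  have hL1 : 1 ≤ L := by linarith
  have hp : ∀ n : ℕ, 0 < L ^ n := fun n => by positivity
  have hp1 : ∀ n : ℕ, 1 ≤ L ^ n := fun n => one_le_pow₀ hL1
  have hX8r : (8 : ℝ) ≤ X := by exact_mod_cast hX8
  have hXp : (0 : ℝ) < X := by linarith
  have hX1 : (1 : ℝ) ≤ X := by linarith
  -- the size of `y`
  have hyX1 : (y : ℝ) ≤ X := by
    have : (0 : ℝ) ≤ y := Nat.cast_nonneg _
    by_contra hcon
    push Not at hcon
    nlinarith
  have hyε : (X : ℝ) ^ ε ≤ y := by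
    refine le_trans ?_ hy
    exact Real.rpow_le_rpow_of_exponent_le hX1 (by linarith)
  have hybig : L ^ (B1 + C0 + A1 + 2) ≤ y := hpow.trans hyε
  have hy0 : (0 : ℝ) < y := lt_of_lt_of_le (hp _) hybig
  have hy1 : 1 ≤ y := by exact_mod_cast (hp1 _).trans hybig
  -- three times X
  have hlogZ : Real.log ((3 * X : ℕ) : ℝ) ≤ 2 * L := by
    push_cast
    rw [Real.log_mul (by norm_num) (by positivity)]
    have h3 : Real.log 3 ≤ L := Real.log_le_log (by norm_num) (by linarith)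
    linarith
  have hlogZ' : L ≤ Real.log ((3 * X : ℕ) : ℝ) := by
    apply Real.log_le_log hXp
    push_cast
    linarith
  have hlogZ0 : 0 ≤ Real.log ((3 * X : ℕ) : ℝ) := by linarith
  set P := 2 * L with hP
  have hP0 : 0 ≤ P := by positivity
  have hz1' : 1 ≤ z := by exact_mod_cast (hp1 _).trans hz1
  have hb : ∀ m, |Dt z (3 * X) m| ≤ P := by
    intro m
    unfold Dt gI
    split_ifs with ha hb'
    · refine le_trans (hN₀ (3 * X) (by omega) z hz1' (hz2.trans (pow_le_pow_left₀ hL0.le hlogZ' _)) m.toNat (by omega)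
        (by omega)) hlogZ
    · rw [abs_zero]; exact hP0
    · rw [abs_zero]; exact hP0
  -- parameters
  set K₀ := ⌊(y : ℝ) / L ^ B2⌋₊ with hK0
  set W := ⌊(y : ℝ) ^ 2 / L ^ B1⌋₊ with hW
  set D₀ := ⌈L ^ A1⌉₊ with hD0
  have hyB2 : 2 ≤ (y : ℝ) / L ^ B2 := by
    rw [le_div_iff₀ (hp _)]
    calc 2 * L ^ B2 ≤ L * L ^ B2 := by gcongr; linarith
      _ = L ^ (B2 + 1) := by ring
      _ ≤ L ^ (B1 + C0 + A1 + 2) := pow_le_pow_right₀ hL1 (by omega)
      _ ≤ y := hybig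
  have hKle : (K₀ : ℝ) ≤ y / L ^ B2 := Nat.floor_le (by positivity)
  have hKge : (y : ℝ) / (2 * L ^ B2) ≤ K₀ := by
    have h3 : (y : ℝ) / L ^ B2 < K₀ + 1 := Nat.lt_floor_add_one _
    have h4 : (y : ℝ) / (2 * L ^ B2) = y / L ^ B2 / 2 := by rw [div_div, mul_comm]
    rw [h4]; linarith
  have hK1 : 1 ≤ K₀ := Nat.le_floor (by push_cast; linarith)
  have hyB1 : 2 ≤ (y : ℝ) ^ 2 / L ^ B1 := by
    rw [le_div_iff₀ (hp _)]
    calc 2 * L ^ B1 ≤ L * L ^ B1 := by gcongr; linarith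
      _ = L ^ (B1 + 1) := by ring
      _ ≤ L ^ (B1 + C0 + A1 + 2) := pow_le_pow_right₀ hL1 (by omega)
      _ ≤ y := hybig
      _ ≤ (y : ℝ) ^ 2 := by
          have : (1 : ℝ) ≤ y := by exact_mod_cast hy1
          nlinarith
  have hWle : (W : ℝ) ≤ y ^ 2 / L ^ B1 := Nat.floor_le (by positivity)
  have hWge : (y : ℝ) ^ 2 / (2 * L ^ B1) ≤ W := by
    have h3 : (y : ℝ) ^ 2 / L ^ B1 < W + 1 := Nat.lt_floor_add_one _
    have h4 : (y : ℝ) ^ 2 / (2 * L ^ B1) = y ^ 2 / L ^ B1 / 2 := by rw [div_div, mul_comm]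
    rw [h4]; linarith
  have hW1 : 1 ≤ W := Nat.le_floor (by push_cast; linarith)
  have hW0 : (0 : ℝ) < W := by exact_mod_cast hW1
  have hDge : L ^ A1 ≤ D₀ := Nat.le_ceil _
  have hDle : (D₀ : ℝ) ≤ 2 * L ^ A1 := by
    have h3 : (D₀ : ℝ) < L ^ A1 + 1 := Nat.ceil_lt_add_one (hp _).le
    have := hp1 A1
    linarith
  have hD1 : 1 ≤ D₀ := by exact_mod_cast (hp1 A1).trans hDge
  have hWX : (W : ℝ) ≤ X / L ^ B1 := hWle.trans (by gcongr)
  have hWX1 : (W : ℝ) ≤ X := hWX.trans (div_le_self hXp.le (hp1 _))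
  have hT : ((2 * α.natAbs * y : ℕ) : ℝ) ≤ 2 * L ^ C0 * y := by
    rw [Nat.cast_mul, Nat.cast_mul, Nat.cast_ofNat]
    gcongr
  have hTW : ((2 * α.natAbs * y : ℕ) : ℝ) ≤ W / L ^ A1 := by
    refine hT.trans ?_
    rw [le_div_iff₀ (hp _)]
    refine le_trans ?_ hWge
    rw [le_div_iff₀ (by positivity)]
    calc 2 * L ^ C0 * y * L ^ A1 * (2 * L ^ B1) = y * (4 * L ^ (B1 + C0 + A1)) := by ring
      _ ≤ y * (L * L ^ (B1 + C0 + A1)) := by gcongr; linarith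
      _ = y * L ^ (B1 + C0 + A1 + 1) := by ring
      _ ≤ y * y := by
          gcongr
          exact (pow_le_pow_right₀ hL1 (by omega)).trans hybig
      _ = _ := by ring
  have hTW' : 2 * α.natAbs * y ≤ W := by
    have h3 : ((2 * α.natAbs * y : ℕ) : ℝ) ≤ W := hTW.trans (div_le_self hW0.le (hp1 _))
    exact_mod_cast h3
  -- the windows
  have hwin : ∀ d ∈ Icc 1 D₀, ∑' u : ℤ, NN (Dt z (3 * X)) u W d ≤ W ^ 2 * X * (11 / L ^ (M + 1)) := by
    intro d hd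
    rw [mem_Icc] at hd
    refine (windows_le z (3 * X) W d P hd.1 hW1 hb).trans ?_
    have hdD : (d : ℝ) ≤ D₀ := by exact_mod_cast hd.2
    have h3 := h2 (3 * X) (by omega) z ?_ ?_ d hd.1 ?_ W ?_ ?_
    · have h4 : ((3 * X : ℕ) : ℝ) * (W : ℝ) ^ 2 / Real.log ((3 * X : ℕ) : ℝ) ^ (M + 1) ≤
          W ^ 2 * X * (3 / L ^ (M + 1)) := by
        calc ((3 * X : ℕ) : ℝ) * (W : ℝ) ^ 2 / Real.log ((3 * X : ℕ) : ℝ) ^ (M + 1) ≤
              ((3 * X : ℕ) : ℝ) * (W : ℝ) ^ 2 / L ^ (M + 1) := by gcongr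
          _ = _ := by push_cast; ring
      have h5 : 2 * (W : ℝ) * (W * P) ^ 2 ≤ W ^ 2 * X * (8 / L ^ (M + 1)) := by
        rw [hP]
        calc 2 * (W : ℝ) * (W * (2 * L)) ^ 2 = W ^ 2 * (8 * L ^ 2) * W := by ring
          _ ≤ W ^ 2 * (8 * L ^ 2) * (X / L ^ B1) := by gcongr
          _ = W ^ 2 * X * (8 * (L ^ 2 / L ^ B1)) := by ring
          _ ≤ W ^ 2 * X * (8 / L ^ (M + 1)) := by
              gcongr
              rw [div_eq_mul_inv 8]
              gcongr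
              rw [div_le_iff₀ (hp _), inv_mul_eq_div, le_div_iff₀ (hp _), ← pow_add]
              exact pow_le_pow_right₀ hL1 (by omega)
      calc _ ≤ W ^ 2 * X * (3 / L ^ (M + 1)) + W ^ 2 * X * (8 / L ^ (M + 1)) := add_le_add (h3.trans h4) h5
        _ = _ := by ring
    · -- z large
      calc Real.log ((3 * X : ℕ) : ℝ) ^ E₀' ≤ (2 * L) ^ E₀' := pow_le_pow_left₀ hlogZ0 hlogZ _
        _ = 2 ^ E₀' * L ^ E₀' := by rw [mul_pow]
        _ ≤ L * L ^ E₀' := by gcongr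
        _ = L ^ (E₀' + 1) := by ring
        _ ≤ z := hz1
    · exact hz2.trans (pow_le_pow_left₀ hL0.le hlogZ' _)
    · calc (d : ℝ) ≤ 2 * L ^ A1 := hdD.trans hDle
        _ ≤ L * L ^ A1 := by gcongr; linarith
        _ = L ^ (A1 + 1) := by ring
        _ ≤ _ := pow_le_pow_left₀ hL0.le hlogZ' _
    · refine le_trans ?_ hWge
      rw [le_div_iff₀ (by positivity)]
      push_cast
      rw [Real.mul_rpow (by norm_num) hXp.le]
      have h4 : (3 : ℝ) ^ θ ≤ 3 := by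
        calc (3 : ℝ) ^ θ ≤ 3 ^ (1 : ℝ) := Real.rpow_le_rpow_of_exponent_le (by norm_num) hθ1
          _ = 3 := Real.rpow_one _
      have h5 : (X : ℝ) ^ θ * ((X : ℝ) ^ ε) ^ 2 ≤ (y : ℝ) ^ 2 := by
        have h6 : ((X : ℝ) ^ (θ / 2 + ε)) ^ 2 ≤ (y : ℝ) ^ 2 := pow_le_pow_left₀ (by positivity) hy 2
        refine le_trans (le_of_eq ?_) h6
        rw [Real.rpow_add hXp, mul_pow, ← Real.rpow_mul_natCast hXp.le (θ / 2)]
        congr 2
        push_cast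
        ring
      calc (3 : ℝ) ^ θ * (X : ℝ) ^ θ * (2 * L ^ B1) ≤ 3 * (X : ℝ) ^ θ * (2 * L ^ B1) := by gcongr
        _ = (X : ℝ) ^ θ * (6 * L ^ B1) := by ring
        _ ≤ (X : ℝ) ^ θ * (L * L ^ B1) := by gcongr; linarith
        _ = (X : ℝ) ^ θ * L ^ (B1 + 1) := by ring
        _ ≤ (X : ℝ) ^ θ * ((X : ℝ) ^ ε) ^ 2 := by
            gcongr
            calc L ^ (B1 + 1) ≤ L ^ (B1 + C0 + A1 + 2) := pow_le_pow_right₀ hL1 (by omega)
              _ ≤ (X : ℝ) ^ ε := hpow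
              _ ≤ ((X : ℝ) ^ ε) ^ 2 := by
                  have := Real.one_le_rpow hX1 hε.le
                  nlinarith
        _ ≤ _ := h5
    · have : (W : ℝ) ≤ ((3 * X : ℕ) : ℝ) := by push_cast; linarith
      exact_mod_cast this
  have hS1 : ∑ d ∈ Icc 1 D₀, ∑' u : ℤ, NN (Dt z (3 * X)) u W d ≤ (W : ℝ) ^ 2 * X * L ^ (A1 + 1) / L ^ M := by
    calc ∑ d ∈ Icc 1 D₀, ∑' u : ℤ, NN (Dt z (3 * X)) u W d ≤ ∑ d ∈ Icc 1 D₀, (W : ℝ) ^ 2 * X * (11 / L ^ (M + 1)) :=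
          sum_le_sum hwin
      _ = D₀ * ((W : ℝ) ^ 2 * X * (11 / L ^ (M + 1))) := by
          rw [sum_const, Nat.card_Icc, nsmul_eq_mul, Nat.add_sub_cancel]
      _ ≤ (2 * L ^ A1) * ((W : ℝ) ^ 2 * X * (11 / L ^ (M + 1))) := by gcongr
      _ = (W : ℝ) ^ 2 * X * (22 * L ^ A1) / L ^ (M + 1) := by ring
      _ ≤ (W : ℝ) ^ 2 * X * (L * L ^ A1) / L ^ (M + 1) := by
          gcongr
          linarith
      _ ≤ (W : ℝ) ^ 2 * X * L ^ (A1 + 1) / L ^ M := by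
          rw [show L * L ^ A1 = L ^ (A1 + 1) by ring]
          apply div_le_div_of_nonneg_left (by positivity) (hp _)
          exact pow_le_pow_right₀ hL1 (by omega)
  have hE2 : E2 (Dt z (3 * X)) ≤ X * L ^ 3 := by
    refine (E2_le (Dt_supp z (3 * X)) P hb).trans ?_
    rw [hP]
    push_cast
    calc (2 * (3 * (X : ℝ)) + 1) * (2 * L) ^ 2 ≤ (7 * X) * (2 * L) ^ 2 := by gcongr; linarith
      _ = X * (28 * L ^ 2) := by ring
      _ ≤ X * (L * L ^ 2) := by gcongr; linarith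
      _ = X * L ^ 3 := by ring
  have hfs := fs_of_bound (Dt_supp z (3 * X))
  have key := moment hC (Dt_supp z (3 * X)) P hP0 hb α β hα y W D₀ K₀ hD1 hK1 hTW'
  have key2 := arith L X y W K₀ D₀ ((2 * α.natAbs * y : ℕ) : ℝ) (E2 (Dt z (3 * X)))
    (∑ d ∈ Icc 1 D₀, ∑' u : ℤ, NN (Dt z (3 * X)) u W d) C (2 * ((3 * X : ℕ) : ℝ) + W + 1) P (2 * K₀ + 1)
    C0 U A1 B1 B2 M V hV hA1 hM hB2 (by omega) hL hXp hy0 hW0 (by exact_mod_cast hK1) (by positivity)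
    (Nat.cast_nonneg _) (E2_nonneg _) hE2 hKle hKge hWle hDge hT hTW hS1 (by linarith) hLC
    (by push_cast; linarith) (by rw [hP]; apply le_of_eq; ring) rfl
  refine le_trans ?_ (key.trans key2)
  have hcongr : ∀ c ∈ Icc (-(X : ℤ)) X, (∑ n ∈ Icc (1 : ℤ) y, gI z (c + fq α β n)) ^ 2 =
      (∑ n ∈ Icc (1 : ℤ) y, Dt z (3 * X) (c + fq α β n)) ^ 2 := by
    intro c hc
    rw [mem_Icc] at hc
    congr 1
    refine sum_congr rfl fun n hn => ?_
    have := hval n hn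
    rw [abs_le] at this
    unfold Dt
    rw [if_pos]
    push_cast
    constructor <;> omega
  rw [sum_congr rfl hcongr]
  apply Summable.sum_le_tsum
  · intro c _
    exact sq_nonneg _
  · exact (Fs.sum _ (fun n c => Dt z (3 * X) (c + fq α β n)) fun n _ => hfs.shift _).sq.summable

end Pool.Agent.H43.SL
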