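import Pool.Agent.H43.SL.Corr

/-!
The second moment and the large sieve.
-/

set_option autoImplicit false

namespace Pool.Agent.H43.SL

open Finset
open Pool.Agent.helper24_UT (NN S_LSQ)

/-- outside of the support -/
lemma NN_zero {D : ℤ → ℝ} {Z : ℕ} (hZ : ∀ m, D m ≠ 0 → -(Z : ℤ) ≤ m ∧ m ≤ Z) (W q : ℕ) (u : ℤ)
    (hu : u ∉ Icc (-(Z : ℤ) - W) Z) : NN D u W q = 0 := by
  unfold NN
  refine sum_eq_zero fun r _ => ?_
  rw [sum_eq_zero, zero_pow (by norm_num)]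
  intro m hm
  rw [mem_filter, mem_Ioc] at hm
  by_contra hcon
  have h1 := hZ m hcon
  apply hu
  rw [mem_Icc]
  constructor <;> omega

lemma tsum_NN_eq {D : ℤ → ℝ} {Z : ℕ} (hZ : ∀ m, D m ≠ 0 → -(Z : ℤ) ≤ m ∧ m ≤ Z) (W q : ℕ) :
    ∑' u : ℤ, NN D u W q = ∑ u ∈ Icc (-(Z : ℤ) - W) Z, NN D u W q :=
  tsum_eq_sum fun u hu => NN_zero hZ W q u hu

lemma fs_of_bound {D : ℤ → ℝ} {Z : ℕ} (hZ : ∀ m, D m ≠ 0 → -(Z : ℤ) ≤ m ∧ m ≤ Z) : Fs D := by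
  refine Set.Finite.subset (Icc (-(Z : ℤ)) Z).finite_toSet fun m hm => ?_
  rw [Finset.mem_coe, mem_Icc]
  exact hZ m hm

lemma E2_le {D : ℤ → ℝ} {Z : ℕ} (hZ : ∀ m, D m ≠ 0 → -(Z : ℤ) ≤ m ∧ m ≤ Z) (P : ℝ)
    (hb : ∀ m, |D m| ≤ P) : E2 D ≤ (2 * Z + 1) * P ^ 2 := by
  unfold E2
  rw [tsum_eq_sum (s := Icc (-(Z : ℤ)) Z)]
  · calc ∑ m ∈ Icc (-(Z : ℤ)) Z, D m ^ 2 ≤ ∑ m ∈ Icc (-(Z : ℤ)) Z, P ^ 2 := by
          refine sum_le_sum fun m _ => ?_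
          rw [← sq_abs]
          exact pow_le_pow_left₀ (abs_nonneg _) (hb m) 2
      _ = (2 * Z + 1) * P ^ 2 := by
          rw [sum_const, Int.card_Icc, nsmul_eq_mul]
          congr 1
          have : ((Z : ℤ) + 1 - -(Z : ℤ)).toNat = 2 * Z + 1 := by omega
          rw [this]
          push_cast
          ring
  · intro m hm
    by_contra hcon
    apply hm
    rw [mem_Icc]
    exact hZ m fun h0 => hcon (by rw [h0]; norm_num)

/-- the large sieve for all windows -/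
lemma lsq_all {C : ℝ} (hC : ∀ (a : ℤ → ℝ) (u : ℤ) (T W D₀ : ℕ) (P : ℝ), 1 ≤ D₀ → 0 ≤ P → (∀ m, |a m| ≤ P) →
    ∑ q ∈ Icc 1 T, (q : ℝ) * NN a u W q ≤
      T * ∑ d ∈ Icc 1 D₀, NN a u W d + C * (T * W * P ^ 2 * ((W : ℝ) / D₀ + T)))
    {D : ℤ → ℝ} {Z : ℕ} (hZ : ∀ m, D m ≠ 0 → -(Z : ℤ) ≤ m ∧ m ≤ Z) (P : ℝ) (hP : 0 ≤ P)
    (hb : ∀ m, |D m| ≤ P) (T W D₀ : ℕ) (hD : 1 ≤ D₀) :
    ∑ q ∈ Icc 1 T, (q : ℝ) * ∑' u : ℤ, NN D u W q ≤
      T * ∑ d ∈ Icc 1 D₀, ∑' u : ℤ, NN D u W d +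
        (2 * Z + W + 1) * (C * (T * W * P ^ 2 * ((W : ℝ) / D₀ + T))) := by
  have e1 : ∀ q : ℕ, ∑' u : ℤ, NN D u W q = ∑ u ∈ Icc (-(Z : ℤ) - W) Z, NN D u W q :=
    fun q => tsum_NN_eq hZ W q
  simp_rw [e1, mul_sum]
  rw [sum_comm, sum_comm (s := Icc 1 D₀)]
  calc ∑ u ∈ Icc (-(Z : ℤ) - W) Z, ∑ q ∈ Icc 1 T, (q : ℝ) * NN D u W q ≤
        ∑ u ∈ Icc (-(Z : ℤ) - W) Z, (T * ∑ d ∈ Icc 1 D₀, NN D u W d +
          C * (T * W * P ^ 2 * ((W : ℝ) / D₀ + T))) := sum_le_sum fun u _ => hC D u T W D₀ P hD hP hb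
    _ = _ := by
        rw [sum_add_distrib, sum_const, Int.card_Icc, nsmul_eq_mul]
        congr 1
        · refine sum_congr rfl fun u _ => ?_
          rw [mul_sum]
        · congr 1
          have : ((Z : ℤ) + 1 - (-(Z : ℤ) - W)).toNat = 2 * Z + W + 1 := by omega
          rw [this]
          push_cast
          ring

/-- **the second moment, bounded by the windows** -/
theorem moment {C : ℝ} (hC : ∀ (a : ℤ → ℝ) (u : ℤ) (T W D₀ : ℕ) (P : ℝ), 1 ≤ D₀ → 0 ≤ P →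
      (∀ m, |a m| ≤ P) →
    ∑ q ∈ Icc 1 T, (q : ℝ) * NN a u W q ≤
      T * ∑ d ∈ Icc 1 D₀, NN a u W d + C * (T * W * P ^ 2 * ((W : ℝ) / D₀ + T)))
    {D : ℤ → ℝ} {Z : ℕ} (hZ : ∀ m, D m ≠ 0 → -(Z : ℤ) ≤ m ∧ m ≤ Z) (P : ℝ) (hP : 0 ≤ P)
    (hb : ∀ m, |D m| ≤ P) (α β : ℤ) (hα : α ≠ 0) (y W D₀ K₀ : ℕ) (hD : 1 ≤ D₀) (hK : 1 ≤ K₀)
    (hyW : 2 * α.natAbs * y ≤ W) :
    ∑' c : ℤ, (∑ n ∈ Icc (1 : ℤ) y, D (c + fq α β n)) ^ 2 ≤
      (2 * K₀ + 1) * y * E2 D + Real.sqrt (E2 D * (4 * y * (16 * (y : ℝ) ^ 2 / (W : ℝ) ^ 2 *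
        ((2 * α.natAbs * y : ℕ) * ∑ d ∈ Icc 1 D₀, ∑' u : ℤ, NN D u W d +
        (2 * Z + W + 1) * (C * ((2 * α.natAbs * y : ℕ) * W * P ^ 2 * ((W : ℝ) / D₀ + (2 * α.natAbs * y : ℕ))))) +
        8 * y * ((W : ℝ) / K₀) ^ 2 * E2 D))) := by
  have hfs := fs_of_bound hZ
  have hE0 := E2_nonneg D
  set T := 2 * α.natAbs * y with hT
  set Q := ∑ q ∈ Icc 1 T, (q : ℝ) * ∑' u : ℤ, NN D u W q with hQ
  have hQle := lsq_all hC hZ P hP hb T W D₀ hD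
  rw [← hQ] at hQle
  have hNN0 : ∀ q : ℕ, 0 ≤ ∑' u : ℤ, NN D u W q := fun q =>
    tsum_nonneg fun u => by unfold NN; positivity
  have hQ0 : 0 ≤ Q := sum_nonneg fun q _ => mul_nonneg (Nat.cast_nonneg _) (hNN0 q)
  have hα1 : 1 ≤ α.natAbs := by omega
  -- the terms
  set f : ℤ → ℝ := fun k => E2 (Sq D (2 * α * k).natAbs (y - k.natAbs)) with hf
  have hf0 : ∀ k, 0 ≤ f k := fun k => E2_nonneg _
  have hsmall : ∀ k, Real.sqrt (f k) ≤ y * Real.sqrt (E2 D) := by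
    intro k
    have h1 : f k ≤ (y : ℝ) ^ 2 * E2 D := by
      refine (E2_Sq_triv hfs _ _).trans ?_
      have : ((y - k.natAbs : ℕ) : ℝ) ≤ y := by exact_mod_cast Nat.sub_le _ _
      gcongr
    calc Real.sqrt (f k) ≤ Real.sqrt ((y : ℝ) ^ 2 * E2 D) := Real.sqrt_le_sqrt h1
      _ = y * Real.sqrt (E2 D) := by rw [Real.sqrt_mul (by positivity), Real.sqrt_sq (Nat.cast_nonneg _)]
  -- large `k`
  have hlarge : ∑ k ∈ (Ioo (-(y : ℤ)) y).filter (fun k => K₀ < k.natAbs), f k ≤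
      2 * (16 * (y : ℝ) ^ 2 / (W : ℝ) ^ 2 * Q + 8 * y * ((W : ℝ) / K₀) ^ 2 * E2 D) := by
    have h1 : ∀ k ∈ (Ioo (-(y : ℤ)) y).filter (fun k => K₀ < k.natAbs), f k ≤
        16 * (y : ℝ) ^ 2 / (W : ℝ) ^ 2 * (((2 * α.natAbs * k.natAbs : ℕ) : ℝ) * ∑' u : ℤ, NN D u W (2 * α.natAbs * k.natAbs)) +
          8 * ((W : ℝ) / K₀) ^ 2 * E2 D := by
      intro k hk
      rw [mem_filter, mem_Ioo] at hk
      have hq : (2 * α * k).natAbs = 2 * α.natAbs * k.natAbs := by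
        rw [Int.natAbs_mul, Int.natAbs_mul]; rfl
      have hk1 : 1 ≤ k.natAbs := by omega
      have hq1 : 1 ≤ 2 * α.natAbs * k.natAbs := by
        have := Nat.mul_le_mul hα1 hk1
        nlinarith
      have hqW : 2 * α.natAbs * k.natAbs ≤ W := by
        refine le_trans ?_ hyW
        exact Nat.mul_le_mul_left _ (by omega)
      simp only [hf]
      rw [hq]
      refine (prog_le hfs W _ (y - k.natAbs) hq1 hqW).trans (add_le_add ?_ ?_)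
      · have h2 : ((y - k.natAbs : ℕ) : ℝ) ≤ y := by exact_mod_cast Nat.sub_le _ _
        have h3 := hNN0 (2 * α.natAbs * k.natAbs)
        gcongr
      · have h2 : (K₀ : ℝ) ≤ ((2 * α.natAbs * k.natAbs : ℕ) : ℝ) := by
          have : K₀ ≤ 2 * α.natAbs * k.natAbs := by
            have h4 : 1 * k.natAbs ≤ 2 * α.natAbs * k.natAbs := Nat.mul_le_mul_right _ (by omega)
            omega
          exact_mod_cast this
        have h3 : (0 : ℝ) < K₀ := by exact_mod_cast hK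
        gcongr
    have h2 : ∀ g : ℕ → ℝ, (∀ n, 0 ≤ g n) →
        ∑ k ∈ (Ioo (-(y : ℤ)) y).filter (fun k => K₀ < k.natAbs), g k.natAbs ≤ 2 * ∑ n ∈ Ico 1 y, g n := by
      intro g hg
      have h3 : (Ioo (-(y : ℤ)) y).filter (fun k => K₀ < k.natAbs) ⊆
          (Ico 1 y).image (fun n : ℕ => (n : ℤ)) ∪ (Ico 1 y).image (fun n : ℕ => -(n : ℤ)) := by
        intro k hk
        rw [mem_filter, mem_Ioo] at hk
        rw [mem_union, mem_image, mem_image]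
        rcases le_total 0 k with h | h
        · left; exact ⟨k.natAbs, by rw [mem_Ico]; omega, by omega⟩
        · right; exact ⟨k.natAbs, by rw [mem_Ico]; omega, by omega⟩
      calc ∑ k ∈ (Ioo (-(y : ℤ)) y).filter (fun k => K₀ < k.natAbs), g k.natAbs ≤
            ∑ k ∈ (Ico 1 y).image (fun n : ℕ => (n : ℤ)) ∪ (Ico 1 y).image (fun n : ℕ => -(n : ℤ)), g k.natAbs :=
            sum_le_sum_of_subset_of_nonneg h3 fun _ _ _ => hg _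
        _ ≤ ∑ k ∈ (Ico 1 y).image (fun n : ℕ => (n : ℤ)), g k.natAbs +
            ∑ k ∈ (Ico 1 y).image (fun n : ℕ => -(n : ℤ)), g k.natAbs := by
            rw [← sum_union_inter]
            have : 0 ≤ ∑ k ∈ (Ico 1 y).image (fun n : ℕ => (n : ℤ)) ∩ (Ico 1 y).image (fun n : ℕ => -(n : ℤ)),
              g k.natAbs := sum_nonneg fun _ _ => hg _
            linarith
        _ = 2 * ∑ n ∈ Ico 1 y, g n := by
            rw [sum_image (fun a _ b _ hab => by simpa using hab), sum_image (fun a _ b _ hab => by simpa using hab)]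
            have e1 : ∀ n : ℕ, ((n : ℤ)).natAbs = n := fun n => by omega
            have e2 : ∀ n : ℕ, (-(n : ℤ)).natAbs = n := fun n => by omega
            simp only [e1, e2]
            ring
    have h3 : ∑ n ∈ Ico 1 y, (((2 * α.natAbs * n : ℕ) : ℝ) * ∑' u : ℤ, NN D u W (2 * α.natAbs * n)) ≤ Q := by
      have hinj : ∀ a ∈ Ico 1 y, ∀ b ∈ Ico 1 y, 2 * α.natAbs * a = 2 * α.natAbs * b → a = b := by
        intro a _ b _ hab
        exact Nat.eq_of_mul_eq_mul_left (by omega) hab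
      rw [hQ, ← sum_image (f := fun q : ℕ => (q : ℝ) * ∑' u : ℤ, NN D u W q) (g := fun n => 2 * α.natAbs * n) hinj]
      refine sum_le_sum_of_subset_of_nonneg ?_ fun q _ _ => mul_nonneg (Nat.cast_nonneg _) (hNN0 q)
      intro q hq
      rw [mem_image] at hq
      obtain ⟨n, hn, rfl⟩ := hq
      rw [mem_Ico] at hn
      rw [mem_Icc, hT]
      constructor
      · have := Nat.mul_le_mul hα1 hn.1
        nlinarith
      · exact Nat.mul_le_mul_left _ (by omega)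
    calc ∑ k ∈ (Ioo (-(y : ℤ)) y).filter (fun k => K₀ < k.natAbs), f k ≤
          ∑ k ∈ (Ioo (-(y : ℤ)) y).filter (fun k => K₀ < k.natAbs),
          (fun n : ℕ => 16 * (y : ℝ) ^ 2 / (W : ℝ) ^ 2 * (((2 * α.natAbs * n : ℕ) : ℝ) * ∑' u : ℤ, NN D u W (2 * α.natAbs * n)) +
          8 * ((W : ℝ) / K₀) ^ 2 * E2 D) k.natAbs := sum_le_sum h1
      _ ≤ 2 * ∑ n ∈ Ico 1 y, (16 * (y : ℝ) ^ 2 / (W : ℝ) ^ 2 * (((2 * α.natAbs * n : ℕ) : ℝ) * ∑' u : ℤ, NN D u W (2 * α.natAbs * n)) +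
          8 * ((W : ℝ) / K₀) ^ 2 * E2 D) := by
          refine h2 (fun n : ℕ => 16 * (y : ℝ) ^ 2 / (W : ℝ) ^ 2 * (((2 * α.natAbs * n : ℕ) : ℝ) *
            ∑' u : ℤ, NN D u W (2 * α.natAbs * n)) + 8 * ((W : ℝ) / K₀) ^ 2 * E2 D) fun n => ?_
          have := hNN0 (2 * α.natAbs * n)
          positivity
      _ = 2 * (16 * (y : ℝ) ^ 2 / (W : ℝ) ^ 2 * ∑ n ∈ Ico 1 y, (((2 * α.natAbs * n : ℕ) : ℝ) * ∑' u : ℤ, NN D u W (2 * α.natAbs * n)) +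
          (y - 1 : ℕ) * (8 * ((W : ℝ) / K₀) ^ 2 * E2 D)) := by
          rw [sum_add_distrib, ← mul_sum, sum_const, Nat.card_Ico, nsmul_eq_mul]
      _ ≤ 2 * (16 * (y : ℝ) ^ 2 / (W : ℝ) ^ 2 * Q + y * (8 * ((W : ℝ) / K₀) ^ 2 * E2 D)) := by
          have h4 : ((y - 1 : ℕ) : ℝ) ≤ y := by exact_mod_cast Nat.sub_le _ _
          gcongr
      _ = _ := by ring
  have hcardI : ((Ioo (-(y : ℤ)) y).card : ℝ) ≤ 2 * y := by
    rw [Int.card_Ioo]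
    have : ((y : ℤ) - -(y : ℤ) - 1).toNat ≤ 2 * y := by omega
    exact_mod_cast this
  have hsum : ∑ k ∈ Ioo (-(y : ℤ)) y, Real.sqrt (f k) ≤ (2 * K₀ + 1) * (y * Real.sqrt (E2 D)) +
      Real.sqrt (2 * y * (2 * (16 * (y : ℝ) ^ 2 / (W : ℝ) ^ 2 * Q + 8 * y * ((W : ℝ) / K₀) ^ 2 * E2 D))) := by
    rw [← sum_filter_add_sum_filter_not _ (fun k : ℤ => ¬ (K₀ < k.natAbs))]
    simp only [not_not]
    refine add_le_add ?_ ?_
    · have h1 : (((Ioo (-(y : ℤ)) y).filter (fun k => ¬ (K₀ < k.natAbs))).card : ℝ) ≤ 2 * K₀ + 1 := by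
        have h2 : (Ioo (-(y : ℤ)) y).filter (fun k => ¬ (K₀ < k.natAbs)) ⊆ Icc (-(K₀ : ℤ)) K₀ := by
          intro k hk
          rw [mem_filter] at hk
          rw [mem_Icc]
          omega
        have h3 := card_le_card h2
        rw [Int.card_Icc] at h3
        have h4 : ((K₀ : ℤ) + 1 - -(K₀ : ℤ)).toNat = 2 * K₀ + 1 := by omega
        rw [h4] at h3
        exact_mod_cast h3
      calc _ ≤ ∑ k ∈ (Ioo (-(y : ℤ)) y).filter (fun k => ¬ (K₀ < k.natAbs)), (y * Real.sqrt (E2 D)) :=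
            sum_le_sum fun k _ => hsmall k
        _ = (((Ioo (-(y : ℤ)) y).filter (fun k => ¬ (K₀ < k.natAbs))).card : ℝ) * (y * Real.sqrt (E2 D)) := by
            rw [sum_const, nsmul_eq_mul]
        _ ≤ _ := by gcongr
    · apply Real.le_sqrt_of_sq_le
      refine (sq_sum_le_card_mul_sum_sq).trans ?_
      have h1 : ∀ k, Real.sqrt (f k) ^ 2 = f k := fun k => Real.sq_sqrt (hf0 k)
      simp_rw [h1]
      have h2 : (((Ioo (-(y : ℤ)) y).filter (fun k => K₀ < k.natAbs)).card : ℝ) ≤ 2 * y :=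
        le_trans (by exact_mod_cast card_filter_le _ _) hcardI
      have h3 : 0 ≤ ∑ k ∈ (Ioo (-(y : ℤ)) y).filter (fun k => K₀ < k.natAbs), f k := sum_nonneg fun k _ => hf0 k
      gcongr
  refine (corr hfs α β y).trans ?_
  have hs2 : Real.sqrt (E2 D) * Real.sqrt (E2 D) = E2 D := Real.mul_self_sqrt hE0
  calc Real.sqrt (E2 D) * ∑ k ∈ Ioo (-(y : ℤ)) y, Real.sqrt (f k) ≤ Real.sqrt (E2 D) *
        ((2 * K₀ + 1) * (y * Real.sqrt (E2 D)) +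
      Real.sqrt (2 * y * (2 * (16 * (y : ℝ) ^ 2 / (W : ℝ) ^ 2 * Q + 8 * y * ((W : ℝ) / K₀) ^ 2 * E2 D)))) := by
        gcongr
    _ = (2 * K₀ + 1) * y * (Real.sqrt (E2 D) * Real.sqrt (E2 D)) + Real.sqrt (E2 D) *
      Real.sqrt (2 * y * (2 * (16 * (y : ℝ) ^ 2 / (W : ℝ) ^ 2 * Q + 8 * y * ((W : ℝ) / K₀) ^ 2 * E2 D))) := by ring
    _ ≤ _ := by
        rw [hs2, ← Real.sqrt_mul hE0]
        gcongr (2 * (K₀ : ℝ) + 1) * y * E2 D + Real.sqrt ?_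
        have : 2 * (y : ℝ) * (2 * (16 * (y : ℝ) ^ 2 / (W : ℝ) ^ 2 * Q + 8 * y * ((W : ℝ) / K₀) ^ 2 * E2 D)) =
          4 * y * (16 * (y : ℝ) ^ 2 / (W : ℝ) ^ 2 * Q + 8 * y * ((W : ℝ) / K₀) ^ 2 * E2 D) := by ring
        rw [this]
        gcongr

end Pool.Agent.H43.SL
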