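import Pool.Agent.H43.SL.Fine
import Pool.Agent.H43.SL.Smc
import Pool.Agent.H43.G.R_pool_sql_team_seeded_620a6dc7.helper24_UT_.Stm4

/-!
# Savings for the pieces of the Heath-Brown identity
-/

set_option autoImplicit false

namespace Pool.Agent.H43.SLF

open Pool.Agent.H43.SL

open Finset Filter
open Pool.Agent.helper24_UT (S_T1 S_MAP tw)
open Pool.Agent.helper24_UT.II (tau tau_nonneg supb)
open Pool.Agent.H376R2.MR (ch er DP FK)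

/-- cut points -/
noncomputable def E1 (Y : ℕ) : ℕ := ⌈(Y : ℝ) ^ (1 / 80 : ℝ)⌉₊

/-- cut points -/
noncomputable def E2 (δ : ℝ) (Y : ℕ) : ℕ := ⌈(Y : ℝ) ^ (1 / 4 + δ / 2 : ℝ)⌉₊

/-- cut points -/
def E3 (Y : ℕ) : ℕ := Nat.sqrt (3 * Y)

/-- restriction to `(lo, hi]` -/
noncomputable def cut (f : AF) (lo hi : ℕ) : AF := ⟨fun n => if lo < n ∧ n ≤ hi then f n else 0, by simp⟩

lemma cut_apply (f : AF) (lo hi n : ℕ) : cut f lo hi n = if lo < n ∧ n ≤ hi then f n else 0 := rfl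

lemma abs_cut_le (f : AF) (lo hi n : ℕ) : |cut f lo hi n| ≤ |f n| := by
  rw [cut_apply]
  split_ifs
  · exact le_rfl
  · rw [abs_zero]; exact abs_nonneg _

lemma DP_cut (f : AF) {lo hi N₁ N₂ : ℕ} (q s : ℕ) (k : ℤ) (h : lo ≤ N₁) :
    DP ((Ioc N₁ N₂).filter (fun m => m % q = s)) (fun n => ((cut f lo hi n : ℝ) : ℂ)) k =
      DP ((Ioc N₁ (min N₂ hi)).filter (fun m => m % q = s)) (fun n => ((f n : ℝ) : ℂ)) k := by
  unfold DP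
  have hsub : (Ioc N₁ (min N₂ hi)).filter (fun m => m % q = s) ⊆ (Ioc N₁ N₂).filter (fun m => m % q = s) := by
    intro n hn
    simp only [mem_filter, mem_Ioc, le_min_iff] at hn ⊢
    exact ⟨⟨hn.1.1, hn.1.2.1⟩, hn.2⟩
  rw [← sum_subset hsub]
  · refine sum_congr rfl fun n hn => ?_
    simp only [mem_filter, mem_Ioc, le_min_iff] at hn
    beta_reduce
    rw [cut_apply, if_pos ⟨by omega, hn.1.2.2⟩]
  · intro n hn hn2
    simp only [mem_filter, mem_Ioc, le_min_iff, not_and] at hn hn2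
    beta_reduce
    rw [cut_apply, if_neg]
    · simp
    · rintro ⟨h1, h2⟩
      exact hn2 ⟨hn.1.1, hn.1.2, h2⟩ hn.2

/-- pointwise bounds beyond `E1` -/
def Pt (f : AF) : Prop := ∀ B K : ℕ, ∃ K₂ Y₀ : ℕ, ∀ Y : ℕ, Y₀ ≤ Y → ∀ q s : ℕ, 1 ≤ q → (q : ℝ) ≤ (Real.log Y) ^ B →
  s < q → s.Coprime q → ∀ k : ℤ, (Real.log Y) ^ K₂ ≤ |(k : ℝ)| → |(k : ℝ)| ≤ Y → ∀ N₁ N₂ : ℕ, E1 Y ≤ N₁ → N₁ ≤ N₂ →
    N₂ ≤ 3 * Y → ‖DP ((Ioc N₁ N₂).filter (fun m => m % q = s)) (fun n => ((f n : ℝ) : ℂ)) k‖ ≤ N₂ / (Real.log Y) ^ K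

/-- the Moebius function -/
noncomputable def muR : AF := (ArithmeticFunction.moebius : ArithmeticFunction ℝ)

/-- the function one -/
noncomputable def zR : AF := (ArithmeticFunction.zeta : ArithmeticFunction ℝ)

lemma zR_apply {n : ℕ} (hn : n ≠ 0) : zR n = 1 := by
  unfold zR
  rw [ArithmeticFunction.natCoe_apply, ArithmeticFunction.zeta_apply_ne hn]
  simp

lemma muR_apply (n : ℕ) : muR n = ((ArithmeticFunction.moebius n : ℤ) : ℝ) := rfl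

lemma two_div {ℓ : ℝ} (hl : 1 ≤ ℓ) (K : ℕ) (N : ℕ) : 2 * (N : ℝ) / (2 * ℓ) ^ (K + 1) ≤ N / ℓ ^ K := by
  have h0 : 0 < ℓ := by linarith
  rw [div_le_div_iff₀ (by positivity) (by positivity), pow_succ, mul_pow]
  have h1 : (1 : ℝ) ≤ 2 ^ K := one_le_pow₀ (by norm_num)
  have h2 : 2 * (N : ℝ) * ℓ ^ K ≤ 2 * (N : ℝ) * ℓ ^ K * (2 ^ K * ℓ) := by
    apply le_mul_of_one_le_right (by positivity)
    nlinarith
  calc 2 * (N : ℝ) * ℓ ^ K ≤ 2 * (N : ℝ) * ℓ ^ K * (2 ^ K * ℓ) := h2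
    _ = _ := by ring

lemma exp_le_E1 {Y : ℕ} {ℓ x : ℝ} (hY : (0 : ℝ) < Y) (hℓ : ℓ = Real.log Y) (hx : x ≤ ℓ / 80) {N : ℕ} (hN : E1 Y ≤ N) :
    Real.exp x ≤ N := by
  have h1 : (Y : ℝ) ^ (1 / 80 : ℝ) ≤ N := (Nat.le_ceil _).trans (by exact_mod_cast hN)
  refine le_trans ?_ h1
  rw [Real.rpow_def_of_pos hY, ← hℓ]
  apply Real.exp_le_exp.2
  linarith

/-- common facts -/
lemma basics (C : ℝ) : ∃ Y₀ : ℕ, ∀ Y : ℕ, Y₀ ≤ Y → C ≤ Real.log Y ∧ 4 ≤ Real.log Y ∧ (0 : ℝ) < Y ∧ 1 ≤ Y ∧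
    ∀ N : ℕ, N ≤ 3 * Y → (N : ℝ) ≤ Real.exp (2 * Real.log Y) := by
  obtain ⟨Y₀, h⟩ := ev_logn (max C 4)
  refine ⟨Y₀, fun Y hY => ?_⟩
  have h1 := h Y hY
  have h4 : 4 ≤ Real.log Y := (le_max_right _ _).trans h1
  have hY0 : (0 : ℝ) < Y := by
    by_contra hc
    have : (Y : ℝ) = 0 := le_antisymm (not_lt.1 hc) (Nat.cast_nonneg _)
    rw [this, Real.log_zero] at h4
    linarith
  refine ⟨(le_max_left _ _).trans h1, h4, hY0, by exact_mod_cast hY0, fun N hN => ?_⟩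
  have h5 : (N : ℝ) ≤ 3 * Y := by exact_mod_cast hN
  rw [two_mul, Real.exp_add, Real.exp_log hY0]
  have h6 := Real.add_one_le_exp (Real.log Y)
  rw [Real.exp_log hY0] at h6
  nlinarith

lemma pt_mu (hM : S_MAP) : Pt muR := by
  intro B K
  obtain ⟨Ka, La, hLa, h⟩ := hM 200 B (K + 1)
  obtain ⟨Y₀, h0⟩ := basics La
  refine ⟨2 * Ka, Y₀, fun Y hY q s hq hqB hs hsq k hk1 hk2 N₁ N₂ n1 n2 n3 => ?_⟩
  obtain ⟨g1, g2, g3, g4, g5⟩ := h0 Y hY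
  set ℓ := Real.log Y with hℓ
  have hl0 : 0 < ℓ := by linarith
  have hH : 0 < (2 * ℓ) ^ (K + 1) := by positivity
  refine (supb (fun n => ((muR n : ℝ) : ℂ)) k q s (E1 Y) (3 * Y) ((2 * ℓ) ^ (K + 1)) hH ?_ N₁ N₂ n1 n3).trans
    (two_div (by linarith) K N₂)
  intro N hN1 hN2
  have h3 := h (2 * ℓ) (by linarith) q s hq (hqB.trans (pow_le_pow_left₀ hl0.le (by linarith) B)) hsq k ?_ ?_ N ?_
    (g5 N hN2)
  · rw [Nat.mod_eq_of_lt hs] at h3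
    refine le_trans (le_of_eq ?_) h3
    congr 1
  · refine le_trans ?_ hk1
    calc (2 * ℓ) ^ Ka ≤ (ℓ ^ 2) ^ Ka := by
          gcongr
          nlinarith
      _ = ℓ ^ (2 * Ka) := by rw [← pow_mul]
  · refine hk2.trans ?_
    have h5 : (Y : ℝ) = Real.exp ℓ := (Real.exp_log g3).symm
    rw [h5]
    apply Real.exp_le_exp.2
    push_cast
    linarith
  · refine exp_le_E1 g3 rfl ?_ hN1
    push_cast
    rw [div_le_div_iff₀ (by norm_num) (by norm_num)]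
    nlinarith

lemma pt_zeta (hT : S_T1) : Pt zR := by
  obtain ⟨η, hη0, hη1, hT⟩ := hT
  intro B K
  obtain ⟨Ka, La, hLa, h⟩ := hT 200 B (K + 1)
  obtain ⟨Y₀, h0⟩ := basics (max La ((160 : ℝ) ^ (1 / η)))
  refine ⟨2 * Ka, Y₀, fun Y hY q s hq hqB hs hsq k hk1 hk2 N₁ N₂ n1 n2 n3 => ?_⟩
  obtain ⟨g1, g2, g3, g4, g5⟩ := h0 Y hY
  have g1a := (le_max_left _ _).trans g1
  have g1b := (le_max_right _ _).trans g1
  set ℓ := Real.log Y with hℓ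
  have hl0 : 0 < ℓ := by linarith
  have hH : 0 < (2 * ℓ) ^ (K + 1) := by positivity
  refine (supb (fun n => ((zR n : ℝ) : ℂ)) k q s (E1 Y) (3 * Y) ((2 * ℓ) ^ (K + 1)) hH ?_ N₁ N₂ n1 n3).trans
    (two_div (by linarith) K N₂)
  intro N hN1 hN2
  have h3 := h (2 * ℓ) (by linarith) q s hq (hqB.trans (pow_le_pow_left₀ hl0.le (by linarith) B)) k ?_ ?_ N ?_
  · refine le_trans (le_of_eq ?_) h3
    congr 1
    refine sum_congr rfl fun n hn => ?_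
    rw [mem_filter, mem_Icc] at hn
    rw [zR_apply (by omega)]
    push_cast
    rw [one_mul]
  · refine le_trans ?_ hk1
    calc (2 * ℓ) ^ Ka ≤ (ℓ ^ 2) ^ Ka := by
          gcongr
          nlinarith
      _ = ℓ ^ (2 * Ka) := by rw [← pow_mul]
  · refine hk2.trans ?_
    have h5 : (Y : ℝ) = Real.exp ℓ := (Real.exp_log g3).symm
    rw [h5]
    apply Real.exp_le_exp.2
    push_cast
    linarith
  · refine exp_le_E1 g3 rfl ?_ hN1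
    have h5 : (160 : ℝ) ≤ (2 * ℓ) ^ η := by
      have h6 : ((160 : ℝ) ^ (1 / η)) ^ η ≤ (2 * ℓ) ^ η :=
        Real.rpow_le_rpow (by positivity) (by linarith) hη0.le
      rwa [← Real.rpow_mul (by norm_num), one_div, inv_mul_cancel₀ hη0.ne', Real.rpow_one] at h6
    have h6 : (2 * ℓ) ^ (1 - η) * (2 * ℓ) ^ η = 2 * ℓ := by
      rw [← Real.rpow_add (by linarith)]
      norm_num
    have h7 : 0 < (2 * ℓ) ^ (1 - η) := Real.rpow_pos_of_pos (by linarith) _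
    rw [le_div_iff₀ (by norm_num)]
    nlinarith

/-- the logarithm -/
noncomputable def lR : AF := ArithmeticFunction.log

lemma lR_apply (n : ℕ) : lR n = Real.log n := ArithmeticFunction.log_apply

lemma log_nat_le {Y N : ℕ} (h4 : 4 ≤ Real.log Y) (hY : (0 : ℝ) < Y) (hN : N ≤ 9 * Y) :
    Real.log N ≤ 2 * Real.log Y := by
  rcases Nat.eq_zero_or_pos N with h | h
  · rw [h]; simp; linarith
  have h1 : Real.log N ≤ Real.log (9 * Y) := by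
    apply Real.log_le_log (by exact_mod_cast h)
    exact_mod_cast hN
  rw [Real.log_mul (by norm_num) hY.ne'] at h1
  have h2 : Real.log 9 ≤ 4 := by
    have : Real.log 9 = 2 * Real.log 3 := by
      rw [show (9 : ℝ) = 3 ^ (2 : ℕ) by norm_num, Real.log_pow]; norm_num
    have h3 := Real.log_le_sub_one_of_pos (show (0 : ℝ) < 3 by norm_num)
    linarith
  linarith

lemma DP_log {N₁ N₂ q s : ℕ} (k : ℤ) :
    DP ((Ioc N₁ N₂).filter (fun m => m % q = s)) (fun n => ((lR n : ℝ) : ℂ)) k =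
      DP ((Ioc N₁ N₂).filter (fun m => m % q = s)) (fun n => ((zR n : ℝ) : ℂ) * (Real.log n : ℂ)) k := by
  unfold DP
  refine sum_congr rfl fun n hn => ?_
  rw [mem_filter, mem_Ioc] at hn
  beta_reduce
  rw [lR_apply, zR_apply (by omega)]
  push_cast
  ring

lemma E1_pos {Y : ℕ} (hY : 1 ≤ Y) : 1 ≤ E1 Y := by
  unfold E1
  apply Nat.one_le_ceil_iff.2
  have : (0 : ℝ) < Y := by exact_mod_cast hY
  positivity

lemma pt_log (hT : S_T1) : Pt lR := by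
  intro B K
  obtain ⟨K₂, Y₀, h⟩ := pt_zeta hT B (K + 2)
  obtain ⟨Y₁, h1⟩ := basics 4
  refine ⟨K₂, max Y₀ Y₁, fun Y hY q s hq hqB hs hsq k hk1 hk2 N₁ N₂ n1 n2 n3 => ?_⟩
  obtain ⟨g1, g2, g3, g4, g5⟩ := h1 Y ((le_max_right _ _).trans hY)
  have h2 := h Y ((le_max_left _ _).trans hY) q s hq hqB hs hsq k hk1 hk2
  set ℓ := Real.log Y with hℓ
  have hl0 : 0 < ℓ := by linarith
  rw [DP_log]
  have hN1 : 1 ≤ N₁ := (E1_pos g4).trans n1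
  refine (Smc.abel_class q s k (fun n => ((zR n : ℝ) : ℂ)) hN1 n2 (B := (N₂ : ℝ) / ℓ ^ (K + 2)) ?_).trans ?_
  · intro m hm1 hm2
    refine (h2 N₁ m n1 hm1 (hm2.trans n3)).trans ?_
    gcongr
  · have h3 := log_nat_le (N := N₂) g2 g3 (by omega)
    calc 2 * Real.log N₂ * ((N₂ : ℝ) / ℓ ^ (K + 2)) ≤ 2 * (2 * ℓ) * ((N₂ : ℝ) / ℓ ^ (K + 2)) := by gcongr
      _ = 4 / ℓ * (N₂ / ℓ ^ K) := by rw [pow_add]; field_simp; ring
      _ ≤ 1 * (N₂ / ℓ ^ K) := by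
          gcongr
          rw [div_le_one hl0]
          exact g2
      _ = _ := one_mul _

lemma rpow_ev (c : ℝ) (hc : 0 < c) (C : ℝ) (H : ℕ) : ∃ Y₀ : ℕ, ∀ Y : ℕ, Y₀ ≤ Y → C * (Real.log Y) ^ H ≤ (Y : ℝ) ^ c := by
  have h1 := isLittleO_log_rpow_rpow_atTop (s := c) (H : ℝ) hc
  have h2 := h1.def (show (0 : ℝ) < 1 / (|C| + 1) by positivity)
  have h3 := (tendsto_natCast_atTop_atTop (R := ℝ)).eventually (h2.and (eventually_ge_atTop 1))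
  obtain ⟨Y₀, h4⟩ := eventually_atTop.1 h3
  refine ⟨Y₀, fun Y hY => ?_⟩
  obtain ⟨h5, h6⟩ := h4 Y hY
  have hlog : 0 ≤ Real.log Y := Real.log_nonneg h6
  rw [Real.rpow_natCast, Real.norm_of_nonneg (by positivity), Real.norm_of_nonneg (by positivity)] at h5
  have h7 : (|C| + 1) * (Real.log Y) ^ H ≤ (Y : ℝ) ^ c := by
    rw [one_div, inv_mul_eq_div, le_div_iff₀ (by positivity)] at h5
    linarith
  have h8 : C * (Real.log Y) ^ H ≤ (|C| + 1) * (Real.log Y) ^ H := by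
    gcongr
    have := le_abs_self C
    linarith
  exact h8.trans h7

/-- middle pieces -/
lemma sav_mid {δ : ℝ} (hδ : 0 < δ) (hδ1 : δ ≤ 1 / 20) {f : AF} (hf : Pt f) :
    Sav δ E1 (fun Y => cut f (E1 Y) (E2 δ Y)) := by
  intro B H
  obtain ⟨K₂, Y₀, h⟩ := hf B (H + 1)
  obtain ⟨Y₁, h1⟩ := basics 4
  obtain ⟨Y₂, h2⟩ := rpow_ev (δ / 2) (by positivity) 12 0
  refine ⟨K₂, max (max Y₀ Y₁) Y₂, fun Y hY => ?_⟩
  obtain ⟨g1, g2, g3, g4, g5⟩ := h1 Y ((le_max_right _ _).trans ((le_max_left _ _).trans hY))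
  have h3 := h Y ((le_max_left _ _).trans ((le_max_left _ _).trans hY))
  have h12 := h2 Y ((le_max_right _ _).trans hY)
  rw [pow_zero, mul_one] at h12
  refine ⟨E1_pos g4, fun q s hq hqB hs hsq k hk1 hk2 N₁ N₂ n1 n2 n3 n4 => ?_⟩
  set ℓ := Real.log Y with hℓ
  have hl0 : 0 < ℓ := by linarith
  have hY1 : (1 : ℝ) ≤ Y := by exact_mod_cast g4
  have hk3 : |(k : ℝ)| ≤ Y := by
    refine hk2.trans ?_
    calc (Y : ℝ) ^ (3 / 4 - δ : ℝ) ≤ (Y : ℝ) ^ (1 : ℝ) := Real.rpow_le_rpow_of_exponent_le hY1 (by linarith)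
      _ = Y := Real.rpow_one _
  rw [DP_cut f q s k n1]
  rcases Nat.lt_or_ge (min N₂ (E2 δ Y)) N₁ with hlt | hge
  · rw [Ioc_eq_empty (by omega)]
    unfold DP
    simp
    positivity
  have hE2 : N₁ ≤ E2 δ Y := hge.trans (min_le_right _ _)
  have h4 := h3 q s hq hqB hs hsq k hk1 hk3 N₁ _ n1 hge ((min_le_left _ _).trans n3)
  have h5 : ((min N₂ (E2 δ Y) : ℕ) : ℝ) ≤ N₂ := by exact_mod_cast min_le_left _ _
  have h6 : ‖DP ((Ioc N₁ (min N₂ (E2 δ Y))).filter (fun m => m % q = s)) (fun n => ((f n : ℝ) : ℂ)) k‖ ≤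
      N₂ / ℓ ^ (H + 1) := h4.trans (by gcongr)
  have h7 : (E2 δ Y : ℝ) ≤ 2 * (Y : ℝ) ^ (1 / 4 + δ / 2 : ℝ) := by
    have h8 : (1 : ℝ) ≤ (Y : ℝ) ^ (1 / 4 + δ / 2 : ℝ) := Real.one_le_rpow hY1 (by positivity)
    have h9 := (Nat.ceil_lt_add_one (show 0 ≤ (Y : ℝ) ^ (1 / 4 + δ / 2 : ℝ) by positivity)).le
    unfold E2
    linarith
  have h8 : (N₂ : ℝ) ≤ 6 * (Y : ℝ) ^ (1 / 4 + δ / 2 : ℝ) := by
    have h9 : (N₂ : ℝ) ≤ 3 * E2 δ Y := by exact_mod_cast n4.trans (Nat.mul_le_mul_left 3 hE2)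
    linarith
  have h9 : 2 * |(k : ℝ)| * N₂ / Y ≤ 1 := by
    rw [div_le_one g3]
    calc 2 * |(k : ℝ)| * N₂ ≤ 2 * (Y : ℝ) ^ (3 / 4 - δ : ℝ) * (6 * (Y : ℝ) ^ (1 / 4 + δ / 2 : ℝ)) := by gcongr
      _ = 12 * ((Y : ℝ) ^ (3 / 4 - δ : ℝ) * (Y : ℝ) ^ (1 / 4 + δ / 2 : ℝ)) := by ring
      _ = 12 * (Y : ℝ) ^ (1 - δ / 2 : ℝ) := by rw [← Real.rpow_add g3]; ring_nf
      _ ≤ (Y : ℝ) ^ (δ / 2) * (Y : ℝ) ^ (1 - δ / 2 : ℝ) := by gcongr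
      _ = Y := by rw [← Real.rpow_add g3]; ring_nf; exact Real.rpow_one _
  calc ‖DP ((Ioc N₁ (min N₂ (E2 δ Y))).filter (fun m => m % q = s)) (fun n => ((f n : ℝ) : ℂ)) k‖ ^ 2 *
        (1 + 2 * |(k : ℝ)| * N₂ / Y) ≤ (N₂ / ℓ ^ (H + 1)) ^ 2 * 2 := by
        apply mul_le_mul (pow_le_pow_left₀ (norm_nonneg _) h6 2) (by linarith) (by positivity) (by positivity)
    _ = (N₂ : ℝ) ^ 2 / ℓ ^ H * (2 / (ℓ ^ 2 * ℓ ^ H)) := by
        rw [div_pow, ← pow_mul]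
        have : ℓ ^ ((H + 1) * 2) = ℓ ^ H * (ℓ ^ 2 * ℓ ^ H) := by ring
        rw [this]
        field_simp
    _ ≤ (N₂ : ℝ) ^ 2 / ℓ ^ H * 1 := by
        gcongr
        rw [div_le_one (by positivity)]
        have h10 : 1 ≤ ℓ ^ H := one_le_pow₀ (by linarith)
        nlinarith
    _ = _ := mul_one _

lemma norm_DP_one {σ : ℝ} {k : ℤ} (hk : k ≠ 0) (hσ : 1 ≤ σ) (hσk : σ ^ 3 = |(k : ℝ)|) {q s N₁ N₂ : ℕ}
    (hs : s < q) (hq : q ≤ N₁) (h12 : N₁ ≤ N₂) (h3 : N₂ ≤ 3 * N₁) :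
    ‖DP ((Ioc N₁ N₂).filter (fun m => m % q = s)) (fun n => ((zR n : ℝ) : ℂ)) k‖ ≤
      200 * Real.sqrt (N₂ * σ + (N₂ : ℝ) ^ 2 / σ) := by
  have h := Smc.smc_w hk hσ hσk hs hq h12 h3
  have hσ0 : 0 < σ := by linarith
  have e1 : DP ((Ioc N₁ N₂).filter (fun m => m % q = s)) (fun n => ((zR n : ℝ) : ℂ)) k =
      ∑ n ∈ (Ioc N₁ N₂).filter (fun n => n % q = s), ch k (Real.log n) := by
    unfold DP
    refine sum_congr rfl fun n hn => ?_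
    rw [mem_filter, mem_Ioc] at hn
    beta_reduce
    rw [zR_apply (by omega)]
    push_cast
    rw [one_mul]
  rw [e1]
  apply le_of_sq_le_sq _ (by positivity)
  rw [mul_pow, Real.sq_sqrt (by positivity)]
  refine h.trans (le_of_eq ?_)
  ring

/-- large pieces -/
lemma sav_large {δ : ℝ} (hδ : 0 < δ) (hδ1 : δ ≤ 1 / 20) {f : AF}
    (hf : ∀ Y : ℕ, 4 ≤ Real.log Y → (0 : ℝ) < Y → ∀ (q s N₁ N₂ : ℕ) (k : ℤ) (X : ℝ), 1 ≤ N₁ → N₁ ≤ N₂ → N₂ ≤ 9 * Y →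
      (∀ m, N₁ ≤ m → m ≤ N₂ → ‖DP ((Ioc N₁ m).filter (fun m => m % q = s)) (fun n => ((zR n : ℝ) : ℂ)) k‖ ≤ X) →
      ‖DP ((Ioc N₁ N₂).filter (fun m => m % q = s)) (fun n => ((f n : ℝ) : ℂ)) k‖ ≤ 4 * Real.log Y * X) :
    Sav δ (E2 δ) (fun Y => cut f (E2 δ Y) (E3 Y)) := by
  intro B H
  obtain ⟨Y₁, h1⟩ := basics 1280000
  obtain ⟨Y₂, h2⟩ := rpow_ev (δ / 2) (by positivity) 19200000 (H + 2)
  obtain ⟨Y₃, h3⟩ := rpow_ev (1 / 4) (by positivity) 1 B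
  refine ⟨3 * (H + 3), max (max Y₁ Y₂) Y₃, fun Y hY => ?_⟩
  obtain ⟨g1, g2, g3, g4, g5⟩ := h1 Y ((le_max_left _ _).trans ((le_max_left _ _).trans hY))
  have hT := h2 Y ((le_max_right _ _).trans ((le_max_left _ _).trans hY))
  have hqY := h3 Y ((le_max_right _ _).trans hY)
  rw [one_mul] at hqY
  set ℓ := Real.log Y with hℓ
  have hl0 : 0 < ℓ := by linarith
  have hl1 : 1 ≤ ℓ := by linarith
  have hY1 : (1 : ℝ) ≤ Y := by exact_mod_cast g4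
  have hE2 : (Y : ℝ) ^ (1 / 4 + δ / 2 : ℝ) ≤ E2 δ Y := Nat.le_ceil _
  have hE21 : 1 ≤ E2 δ Y := by
    have : (0 : ℝ) < E2 δ Y := lt_of_lt_of_le (by positivity) hE2
    exact_mod_cast this
  refine ⟨hE21, fun q s hq hqB hs hsq k hk1 hk2 N₁ N₂ n1 n2 n3 n4 => ?_⟩
  rw [DP_cut f q s k n1]
  rcases Nat.lt_or_ge (min N₂ (E3 Y)) N₁ with hlt | hge
  · rw [Ioc_eq_empty (by omega)]
    unfold DP
    simp
    positivity
  have hN1E : N₁ ≤ E3 Y := hge.trans (min_le_right _ _)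
  have hE3 : ((E3 Y : ℕ) : ℝ) ≤ 2 * (Y : ℝ) ^ (1 / 2 : ℝ) := by
    have h4 : (E3 Y : ℕ) ^ 2 ≤ 3 * Y := by unfold E3; exact Nat.sqrt_le' _
    have h5 : ((E3 Y : ℕ) : ℝ) ^ 2 ≤ 3 * Y := by exact_mod_cast h4
    rw [← Real.sqrt_eq_rpow]
    have h6 := Real.sq_sqrt g3.le
    nlinarith [Real.sqrt_nonneg (Y : ℝ)]
  have hN1low : (Y : ℝ) ^ (1 / 4 + δ / 2 : ℝ) ≤ N₁ := hE2.trans (by exact_mod_cast n1)
  have hN2low : (Y : ℝ) ^ (1 / 4 + δ / 2 : ℝ) ≤ N₂ := hN1low.trans (by exact_mod_cast n2)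
  have hqN : q ≤ N₁ := by
    have h4 : (q : ℝ) ≤ N₁ := by
      refine (hqB.trans hqY).trans (le_trans ?_ hN1low)
      exact Real.rpow_le_rpow_of_exponent_le hY1 (by linarith)
    exact_mod_cast h4
  have hN2up : (N₂ : ℝ) ≤ 6 * (Y : ℝ) ^ (1 / 2 : ℝ) := by
    have h9 : (N₂ : ℝ) ≤ 3 * E3 Y := by exact_mod_cast n4.trans (Nat.mul_le_mul_left 3 hN1E)
    linarith
  have hN20 : (0 : ℝ) < N₂ := lt_of_lt_of_le (by positivity) hN2low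
  -- the frequency
  have hk1' : 1 ≤ |(k : ℝ)| := le_trans (one_le_pow₀ hl1) hk1
  have hk0 : k ≠ 0 := by
    rintro rfl
    norm_num at hk1'
  set σ : ℝ := |(k : ℝ)| ^ (1 / 3 : ℝ) with hσ
  have hσk : σ ^ 3 = |(k : ℝ)| := by
    rw [hσ, ← Real.rpow_natCast, ← Real.rpow_mul (abs_nonneg _)]
    norm_num
  have hσ1 : 1 ≤ σ := Real.one_le_rpow hk1' (by norm_num)
  have hσ0 : 0 < σ := by linarith
  have hσlow : ℓ ^ (H + 3) ≤ σ := by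
    have h4 : ((ℓ ^ (H + 3)) ^ 3) ≤ σ ^ 3 := by
      rw [hσk, ← pow_mul, mul_comm]
      exact hk1
    exact le_of_pow_le_pow_left₀ (by norm_num) hσ0.le h4
  have hσup : σ ≤ (Y : ℝ) ^ (1 / 4 - δ / 3 : ℝ) := by
    have h4 : σ ≤ ((Y : ℝ) ^ (3 / 4 - δ : ℝ)) ^ (1 / 3 : ℝ) :=
      Real.rpow_le_rpow (abs_nonneg _) hk2 (by norm_num)
    rw [← Real.rpow_mul g3.le] at h4
    refine h4.trans (le_of_eq ?_)
    congr 1
    ring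
  have hbd : ‖DP ((Ioc N₁ (min N₂ (E3 Y))).filter (fun m => m % q = s)) (fun n => ((f n : ℝ) : ℂ)) k‖ ≤
      4 * ℓ * (200 * Real.sqrt (N₂ * σ + (N₂ : ℝ) ^ 2 / σ)) := by
    refine hf Y g2 g3 q s N₁ _ k _ (by omega) hge ((min_le_left _ _).trans (n3.trans (by omega))) ?_
    intro m hm1 hm2
    have hm3 : m ≤ N₂ := hm2.trans (min_le_left _ _)
    refine (norm_DP_one hk0 hσ1 hσk hs hqN hm1 (hm3.trans n4)).trans ?_
    have : (m : ℝ) ≤ N₂ := by exact_mod_cast hm3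
    gcongr
  have hsq : ‖DP ((Ioc N₁ (min N₂ (E3 Y))).filter (fun m => m % q = s)) (fun n => ((f n : ℝ) : ℂ)) k‖ ^ 2 ≤
      640000 * ℓ ^ 2 * (N₂ * σ + (N₂ : ℝ) ^ 2 / σ) := by
    refine (pow_le_pow_left₀ (norm_nonneg _) hbd 2).trans (le_of_eq ?_)
    rw [mul_pow, mul_pow, mul_pow, Real.sq_sqrt (by positivity)]
    ring
  set T := (Y : ℝ) ^ (δ / 2) with hTd
  have hT0 : 0 < T := by positivity
  have c1 : σ / N₂ ≤ 1 / T := by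
    rw [div_le_div_iff₀ hN20 hT0, one_mul]
    refine le_trans ?_ hN2low
    calc σ * T ≤ (Y : ℝ) ^ (1 / 4 - δ / 3 : ℝ) * (Y : ℝ) ^ (δ / 2) := by gcongr
      _ = (Y : ℝ) ^ (1 / 4 + δ / 6 : ℝ) := by rw [← Real.rpow_add g3]; ring_nf
      _ ≤ (Y : ℝ) ^ (1 / 4 + δ / 2 : ℝ) := Real.rpow_le_rpow_of_exponent_le hY1 (by linarith)
  have c2 : σ ^ 4 / Y ≤ 1 / T := by
    rw [div_le_div_iff₀ g3 hT0, one_mul]
    calc σ ^ 4 * T ≤ ((Y : ℝ) ^ (1 / 4 - δ / 3 : ℝ)) ^ 4 * (Y : ℝ) ^ (δ / 2) := by gcongr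
      _ = (Y : ℝ) ^ (1 - 5 * δ / 6 : ℝ) := by
          rw [← Real.rpow_natCast, ← Real.rpow_mul g3.le, ← Real.rpow_add g3]
          congr 1
          push_cast
          ring
      _ ≤ (Y : ℝ) ^ (1 : ℝ) := Real.rpow_le_rpow_of_exponent_le hY1 (by linarith)
      _ = Y := Real.rpow_one _
  have c3 : σ ^ 2 * N₂ / Y ≤ 6 / T := by
    rw [div_le_div_iff₀ g3 hT0]
    calc σ ^ 2 * N₂ * T ≤ ((Y : ℝ) ^ (1 / 4 - δ / 3 : ℝ)) ^ 2 * (6 * (Y : ℝ) ^ (1 / 2 : ℝ)) * (Y : ℝ) ^ (δ / 2) := by gcongr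
      _ = 6 * (((Y : ℝ) ^ (1 / 4 - δ / 3 : ℝ)) ^ 2 * (Y : ℝ) ^ (1 / 2 : ℝ) * (Y : ℝ) ^ (δ / 2)) := by ring
      _ = 6 * (Y : ℝ) ^ (1 - δ / 6 : ℝ) := by
          rw [← Real.rpow_natCast, ← Real.rpow_mul g3.le, ← Real.rpow_add g3, ← Real.rpow_add g3]
          congr 2
          push_cast
          ring
      _ ≤ 6 * (Y : ℝ) ^ (1 : ℝ) := by
          exact mul_le_mul_of_nonneg_left (Real.rpow_le_rpow_of_exponent_le hY1 (by linarith)) (by norm_num)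
      _ = 6 * Y := by rw [Real.rpow_one]
  have c4 : 1 / σ ≤ 1 / ℓ ^ (H + 3) := one_div_le_one_div_of_le (by positivity) hσlow
  have hmain : 640000 * ℓ ^ (H + 2) * (σ / N₂ + 1 / σ + 2 * (σ ^ 4 / Y) + 2 * (σ ^ 2 * N₂ / Y)) ≤ 1 := by
    have h5 : σ / N₂ + 1 / σ + 2 * (σ ^ 4 / Y) + 2 * (σ ^ 2 * N₂ / Y) ≤ 15 / T + 1 / ℓ ^ (H + 3) := by
      have : 15 / T = 1 / T + 2 * (1 / T) + 2 * (6 / T) := by ring
      rw [this]
      linarith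
    have h6 : 640000 * ℓ ^ (H + 2) * (15 / T) ≤ 1 / 2 := by
      rw [mul_div_assoc', div_le_div_iff₀ hT0 (by norm_num)]
      linarith
    have h7 : 640000 * ℓ ^ (H + 2) * (1 / ℓ ^ (H + 3)) ≤ 1 / 2 := by
      have : ℓ ^ (H + 3) = ℓ ^ (H + 2) * ℓ := by ring
      rw [this, mul_one_div, div_le_div_iff₀ (by positivity) (by norm_num)]
      have : 0 < ℓ ^ (H + 2) := by positivity
      nlinarith
    have h8 : 0 < 640000 * ℓ ^ (H + 2) := by positivity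
    nlinarith
  calc ‖DP ((Ioc N₁ (min N₂ (E3 Y))).filter (fun m => m % q = s)) (fun n => ((f n : ℝ) : ℂ)) k‖ ^ 2 *
        (1 + 2 * |(k : ℝ)| * N₂ / Y) ≤ 640000 * ℓ ^ 2 * (N₂ * σ + (N₂ : ℝ) ^ 2 / σ) * (1 + 2 * σ ^ 3 * N₂ / Y) := by
        rw [← hσk]
        gcongr
    _ = (N₂ : ℝ) ^ 2 / ℓ ^ H * (640000 * ℓ ^ (H + 2) * (σ / N₂ + 1 / σ + 2 * (σ ^ 4 / Y) + 2 * (σ ^ 2 * N₂ / Y))) := by
        rw [pow_add]
        field_simp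
        ring
    _ ≤ (N₂ : ℝ) ^ 2 / ℓ ^ H * 1 := by gcongr
    _ = _ := mul_one _

lemma hf_zeta : ∀ Y : ℕ, 4 ≤ Real.log Y → (0 : ℝ) < Y → ∀ (q s N₁ N₂ : ℕ) (k : ℤ) (X : ℝ), 1 ≤ N₁ → N₁ ≤ N₂ → N₂ ≤ 9 * Y →
      (∀ m, N₁ ≤ m → m ≤ N₂ → ‖DP ((Ioc N₁ m).filter (fun m => m % q = s)) (fun n => ((zR n : ℝ) : ℂ)) k‖ ≤ X) →
      ‖DP ((Ioc N₁ N₂).filter (fun m => m % q = s)) (fun n => ((zR n : ℝ) : ℂ)) k‖ ≤ 4 * Real.log Y * X := by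
  intro Y h4 hY q s N₁ N₂ k X n1 n2 n3 h
  have h5 := h N₂ n2 le_rfl
  have h6 : 0 ≤ X := (norm_nonneg _).trans h5
  nlinarith

lemma hf_log : ∀ Y : ℕ, 4 ≤ Real.log Y → (0 : ℝ) < Y → ∀ (q s N₁ N₂ : ℕ) (k : ℤ) (X : ℝ), 1 ≤ N₁ → N₁ ≤ N₂ → N₂ ≤ 9 * Y →
      (∀ m, N₁ ≤ m → m ≤ N₂ → ‖DP ((Ioc N₁ m).filter (fun m => m % q = s)) (fun n => ((zR n : ℝ) : ℂ)) k‖ ≤ X) →
      ‖DP ((Ioc N₁ N₂).filter (fun m => m % q = s)) (fun n => ((lR n : ℝ) : ℂ)) k‖ ≤ 4 * Real.log Y * X := by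
  intro Y h4 hY q s N₁ N₂ k X n1 n2 n3 h
  rw [DP_log]
  refine (Smc.abel_class q s k (fun n => ((zR n : ℝ) : ℂ)) n1 n2 h).trans ?_
  have h5 := h N₂ n2 le_rfl
  have h6 : 0 ≤ X := (norm_nonneg _).trans h5
  have h7 := log_nat_le h4 hY n3
  nlinarith

end Pool.Agent.H43.SLF
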