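import Pool.Agent.H43.SL.Sav
import Pool.Agent.H43.G.R_pool_sql_team_seeded_620a6dc7.helper24_UT_.TI2
import Pool.Agent.H43.G.R_pool_sql_team_seeded_620a6dc7.helper24_UT_.Fr2

/-!
# Linear sums
-/

set_option autoImplicit false

namespace Pool.Agent.H43.SLF

open Pool.Agent.H43.SL

open Finset Filter
open Pool.Agent.helper24_UT.II (tau tau_nonneg tau_sum)
open Pool.Agent.H376R2.MR (ch er DP FK)

lemma DP_split3 {N₁ N₂ M q s : ℕ} (k : ℤ) (a : ℕ → ℂ) (h1 : N₁ ≤ M) (h2 : M ≤ N₂) :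
    DP ((Ioc N₁ N₂).filter (fun m => m % q = s)) a k = DP ((Ioc N₁ M).filter (fun m => m % q = s)) a k +
      DP ((Ioc M N₂).filter (fun m => m % q = s)) a k := by
  unfold DP
  rw [← Ioc_union_Ioc_eq_Ioc h1 h2, filter_union, sum_union]
  rw [disjoint_left]
  intro n hn hn2
  rw [mem_filter, mem_Ioc] at hn hn2
  omega

lemma DP_one_kl {k : ℤ} (hk : k ≠ 0) {q s N₁ N₂ : ℕ} (hs : s < q) (hq : q ≤ N₁) (h12 : N₁ ≤ N₂)
    (h3 : N₂ ≤ 9 * N₁) (hkN : |(k : ℝ)| * q ≤ N₁) :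
    ‖DP ((Ioc N₁ N₂).filter (fun m => m % q = s)) (fun n => ((zR n : ℝ) : ℂ)) k‖ ≤ 128 * N₂ / |(k : ℝ)| := by
  have e1 : ∀ N₁ N₂ : ℕ, DP ((Ioc N₁ N₂).filter (fun m => m % q = s)) (fun n => ((zR n : ℝ) : ℂ)) k =
      ∑ n ∈ (Ioc N₁ N₂).filter (fun n => n % q = s), ch k (Real.log n) := by
    intro N₁ N₂
    unfold DP
    refine sum_congr rfl fun n hn => ?_
    rw [mem_filter, mem_Ioc] at hn
    beta_reduce
    rw [zR_apply (by omega)]
    push_cast
    rw [one_mul]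
  have hk0 : 0 < |(k : ℝ)| := abs_pos.2 (by exact_mod_cast hk)
  rcases le_total N₂ (3 * N₁) with h | h
  · rw [e1]
    refine (Smc.smc_kl hk hs hq h12 h hkN).trans ?_
    gcongr
    norm_num
  · rw [DP_split3 k _ (show N₁ ≤ 3 * N₁ by omega) h, e1, e1]
    refine (norm_add_le _ _).trans ?_
    have h4 := Smc.smc_kl hk hs hq (show N₁ ≤ 3 * N₁ by omega) le_rfl hkN
    have h5 := Smc.smc_kl hk hs (show q ≤ 3 * N₁ by omega) h (by omega) (by
      refine hkN.trans ?_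
      push_cast
      have : (0 : ℝ) ≤ N₁ := Nat.cast_nonneg _
      linarith)
    have h6 : 64 * ((3 * N₁ : ℕ) : ℝ) / |(k : ℝ)| ≤ 64 * N₂ / |(k : ℝ)| := by
      have : ((3 * N₁ : ℕ) : ℝ) ≤ N₂ := by exact_mod_cast h
      gcongr
    have h7 : 128 * (N₂ : ℝ) / |(k : ℝ)| = 64 * N₂ / |(k : ℝ)| + 64 * N₂ / |(k : ℝ)| := by ring
    rw [h7]
    linarith

/-- the arithmetic of products with a function of small support -/
lemma mul_eq_sum (γ f : AF) (D n : ℕ) (hγ : ∀ b, D < b → γ b = 0) (g : ℕ → ℝ) (hg : ∀ m, m ≠ 0 → f m = g m) :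
    (γ * f) n = ∑ b ∈ n.divisors.filter (fun b => b ≤ D), γ b * g (n / b) := by
  rw [ArithmeticFunction.mul_apply, Nat.sum_divisorsAntidiagonal (fun a b => γ a * f b), sum_filter]
  refine sum_congr rfl fun b hb => ?_
  split_ifs with h
  · rw [hg]
    rw [Nat.mem_divisors] at hb
    have := Nat.pos_of_dvd_of_pos hb.1 (Nat.pos_of_ne_zero hb.2)
    exact (Nat.div_pos (Nat.le_of_dvd (Nat.pos_of_ne_zero hb.2) hb.1) this).ne'
  · rw [hγ b (by omega), zero_mul]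

/-- **Linear sums.** -/
theorem fine_one {δ : ℝ} (hδ : 0 < δ) {γ : ℕ → AF} (D : ℕ → ℕ)
    (hD : ∃ Y₀ : ℕ, ∀ Y : ℕ, Y₀ ≤ Y → (D Y : ℝ) ≤ (Y : ℝ) ^ (1 / 8 : ℝ)) (hγ : ∀ Y b, D Y < b → γ Y b = 0)
    (hdom : Dom γ) {f : AF} {i : ℕ} (hfi : ∀ m : ℕ, m ≠ 0 → f m = (Real.log m) ^ i)
    (hf : ∀ Y : ℕ, 4 ≤ Real.log Y → (0 : ℝ) < Y → ∀ (q s N₁ N₂ : ℕ) (k : ℤ) (X : ℝ), 1 ≤ N₁ → N₁ ≤ N₂ → N₂ ≤ 9 * Y →
      (∀ m, N₁ ≤ m → m ≤ N₂ → ‖DP ((Ioc N₁ m).filter (fun m => m % q = s)) (fun n => ((zR n : ℝ) : ℂ)) k‖ ≤ X) →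
      ‖DP ((Ioc N₁ N₂).filter (fun m => m % q = s)) (fun n => ((f n : ℝ) : ℂ)) k‖ ≤ 4 * Real.log Y * X) :
    Fine δ (fun Y => γ Y * f) := by
  intro A B
  obtain ⟨j, Y1, hdom⟩ := hdom
  obtain ⟨Y2, hD⟩ := hD
  obtain ⟨Y3, h3⟩ := basics (4 * 1536 ^ 2)
  obtain ⟨Y4, h4⟩ := rpow_ev (1 / 8) (by positivity) 2 B
  obtain ⟨E, hE⟩ : ∃ E : ℕ, E = B + j + 1 + 2 ^ j := ⟨_, rfl⟩
  refine ⟨2 * E + A + 1, max (max Y1 Y2) (max Y3 Y4), ?_⟩
  intro Y hY q r hq hqB hr K₁ hK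
  have hYY1 : Y1 ≤ Y := (le_max_left _ _).trans ((le_max_left _ _).trans hY)
  have hYY2 : Y2 ≤ Y := (le_max_right _ _).trans ((le_max_left _ _).trans hY)
  obtain ⟨g1, g2, g3, g4, g5⟩ := h3 Y ((le_max_left _ _).trans ((le_max_right _ _).trans hY))
  have hqY := h4 Y ((le_max_right _ _).trans ((le_max_right _ _).trans hY))
  have hDY := hD Y hYY2
  have hdomY := hdom Y hYY1
  set ℓ := Real.log Y with hℓ
  have hl0 : 0 < ℓ := by linarith
  have hl1 : 1 ≤ ℓ := by linarith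
  have hY1 : (1 : ℝ) ≤ Y := by exact_mod_cast g4
  have hqR : (1 : ℝ) ≤ q := by exact_mod_cast hq
  -- pointwise bound
  have hpt : ∀ k : ℤ, k ≠ 0 → |(k : ℝ)| ≤ (Y : ℝ) ^ (3 / 4 : ℝ) →
      ‖DP ((Ioc Y (3 * Y)).filter (fun n => n % q = r % q)) (fun n => (((γ Y * f) n : ℝ) : ℂ)) k‖ ≤
        1536 * ℓ ^ E * Y / |(k : ℝ)| := by
    intro k hk hkY
    have hk0 : 0 < |(k : ℝ)| := abs_pos.2 (by exact_mod_cast hk)
    have e1 : (fun n => (((γ Y * f) n : ℝ) : ℂ)) = fun n => ∑ b ∈ n.divisors.filter (fun b => b ≤ D Y),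
        ((γ Y b : ℝ) : ℂ) * (((Real.log ((n / b : ℕ) : ℝ)) ^ i : ℝ) : ℂ) := by
      funext n
      rw [mul_eq_sum (γ Y) f (D Y) n (hγ Y) (fun m => (Real.log m) ^ i) hfi]
      push_cast
      rfl
    rw [e1, Pool.Agent.helper24_UT.TI2.dp_eq]
    refine (norm_sum_le _ _).trans ?_
    have hb : ∀ b ∈ Icc 1 (D Y), ‖((γ Y b : ℝ) : ℂ) * ch k (Real.log b) *
        ∑ c ∈ (Ioc (Y / b) (3 * Y / b)).filter (fun c => (b * c) % q = r % q),
          Pool.Agent.helper24_UT.TI2.FF k i c‖ ≤ 1536 * ℓ ^ (B + j + 1) * Y / |(k : ℝ)| * (tau b ^ j / b) := by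
      intro b hb
      obtain ⟨hb1, hb2⟩ := mem_Icc.1 hb
      have hbR : (1 : ℝ) ≤ b := by exact_mod_cast hb1
      have hbD : (b : ℝ) ≤ (Y : ℝ) ^ (1 / 8 : ℝ) := le_trans (by exact_mod_cast hb2) hDY
      have hbY : b ≤ Y := by
        have h5 : (b : ℝ) ≤ (Y : ℝ) ^ (1 : ℝ) := hbD.trans (Real.rpow_le_rpow_of_exponent_le hY1 (by norm_num))
        rw [Real.rpow_one] at h5
        exact_mod_cast h5
      rw [norm_mul, norm_mul, Smc.norm_ch, mul_one, Complex.norm_real, Real.norm_eq_abs]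
      have hg := hdomY b hb1 (by omega)
      -- the inner sum
      set N₁ := Y / b with hN₁
      set N₂ := 3 * Y / b with hN₂
      have hbpos : 0 < b := by omega
      have h12 : N₁ ≤ N₂ := Nat.div_le_div_right (by omega)
      have hN1pos : 1 ≤ N₁ := (Nat.one_le_div_iff hbpos).2 hbY
      have h39 : N₂ ≤ 9 * N₁ := by
        have h5 : N₂ < 3 * N₁ + 3 := by
          rw [hN₂, Nat.div_lt_iff_lt_mul hbpos]
          have := Nat.lt_mul_div_succ Y hbpos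
          rw [← hN₁] at this
          nlinarith
        omega
      have hN2Y : N₂ ≤ 9 * Y := (Nat.div_le_self _ _).trans (by omega)
      have hN2R : (N₂ : ℝ) ≤ 3 * Y / b := by
        have := Nat.cast_div_le (α := ℝ) (m := 3 * Y) (n := b)
        push_cast at this
        exact this
      have hN1R : (Y : ℝ) ^ (7 / 8 : ℝ) / 2 ≤ N₁ := by
        have h5 : (Y : ℝ) / b < N₁ + 1 := by
          rw [div_lt_iff₀ (by linarith)]
          have := Nat.lt_mul_div_succ Y hbpos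
          rw [← hN₁] at this
          have h6 : (Y : ℝ) < ((b * (N₁ + 1) : ℕ) : ℝ) := by exact_mod_cast this
          push_cast at h6
          linarith
        have h6 : (Y : ℝ) ^ (7 / 8 : ℝ) ≤ Y / b := by
          rw [le_div_iff₀ (by linarith)]
          calc (Y : ℝ) ^ (7 / 8 : ℝ) * b ≤ (Y : ℝ) ^ (7 / 8 : ℝ) * (Y : ℝ) ^ (1 / 8 : ℝ) := by gcongr
            _ = Y := by rw [← Real.rpow_add g3]; norm_num
        have h7 : (1 : ℝ) ≤ N₁ := by exact_mod_cast hN1pos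
        linarith
      have hkq : |(k : ℝ)| * q ≤ N₁ := by
        refine le_trans ?_ hN1R
        rw [le_div_iff₀ (by norm_num)]
        calc |(k : ℝ)| * q * 2 ≤ (Y : ℝ) ^ (3 / 4 : ℝ) * ℓ ^ B * 2 := by gcongr
          _ = (Y : ℝ) ^ (3 / 4 : ℝ) * (2 * ℓ ^ B) := by ring
          _ ≤ (Y : ℝ) ^ (3 / 4 : ℝ) * (Y : ℝ) ^ (1 / 8 : ℝ) := by gcongr
          _ = (Y : ℝ) ^ (7 / 8 : ℝ) := by rw [← Real.rpow_add g3]; norm_num
      have hqN : q ≤ N₁ := by
        have h5 : (q : ℝ) ≤ N₁ := by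
          refine le_trans ?_ hkq
          have h6 : 1 ≤ |(k : ℝ)| := by
            have : 1 ≤ |k| := Int.one_le_abs hk
            exact_mod_cast this
          nlinarith
        exact_mod_cast h5
      have hin : ‖∑ c ∈ (Ioc N₁ N₂).filter (fun c => (b * c) % q = r % q),
          Pool.Agent.helper24_UT.TI2.FF k i c‖ ≤ q * (4 * ℓ * (128 * (3 * Y / b) / |(k : ℝ)|)) := by
        rw [Pool.Agent.helper24_UT.TI2.class_split q r b _ _ hq]
        refine (norm_sum_le _ _).trans ?_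
        have h5 : ∀ s ∈ (range q).filter (fun s => (b * s) % q = r % q),
            ‖∑ c ∈ (Ioc N₁ N₂).filter (fun c => c % q = s), Pool.Agent.helper24_UT.TI2.FF k i c‖ ≤
            4 * ℓ * (128 * (3 * Y / b) / |(k : ℝ)|) := by
          intro s hs
          have hsq : s < q := mem_range.1 (mem_filter.1 hs).1
          have e2 : ∑ c ∈ (Ioc N₁ N₂).filter (fun c => c % q = s), Pool.Agent.helper24_UT.TI2.FF k i c =
              DP ((Ioc N₁ N₂).filter (fun m => m % q = s)) (fun n => ((f n : ℝ) : ℂ)) k := by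
            unfold DP
            refine sum_congr rfl fun c hc => ?_
            rw [mem_filter, mem_Ioc] at hc
            beta_reduce
            rw [hfi c (by omega)]
            rfl
          rw [e2]
          refine hf Y g2 g3 q s N₁ N₂ k _ hN1pos h12 hN2Y ?_
          intro m hm1 hm2
          refine (DP_one_kl hk hsq hqN hm1 (hm2.trans h39) hkq).trans ?_
          have h6 : (m : ℝ) ≤ 3 * Y / b := le_trans (by exact_mod_cast hm2) hN2R
          gcongr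
        refine (sum_le_card_nsmul _ _ _ h5).trans ?_
        rw [nsmul_eq_mul]
        refine mul_le_mul_of_nonneg_right ?_ (by positivity)
        have h6 : ((range q).filter (fun s => (b * s) % q = r % q)).card ≤ q := by
          calc _ ≤ (range q).card := card_filter_le _ _
            _ = q := card_range q
        exact_mod_cast h6
      have ht := tau_nonneg b
      calc |γ Y b| * ‖∑ c ∈ (Ioc N₁ N₂).filter (fun c => (b * c) % q = r % q),
            Pool.Agent.helper24_UT.TI2.FF k i c‖ ≤ (ℓ ^ j * tau b ^ j) * (q * (4 * ℓ * (128 * (3 * Y / b) / |(k : ℝ)|))) := by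
            apply mul_le_mul hg hin (norm_nonneg _) (by positivity)
        _ ≤ (ℓ ^ j * tau b ^ j) * (ℓ ^ B * (4 * ℓ * (128 * (3 * Y / b) / |(k : ℝ)|))) := by gcongr
        _ = 1536 * ℓ ^ (B + j + 1) * Y / |(k : ℝ)| * (tau b ^ j / b) := by
            rw [pow_add, pow_add]
            field_simp
            ring
    refine (sum_le_sum hb).trans ?_
    rw [← mul_sum]
    have h5 := tau_sum j (D Y)
    have h6 : (1 + Real.log (D Y)) ^ (2 ^ j) ≤ ℓ ^ (2 ^ j) := by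
      have h7 : Real.log (D Y) ≤ ℓ / 8 := by
        rcases Nat.eq_zero_or_pos (D Y) with h | h
        · rw [h]; simp; linarith
        have h8 := Real.log_le_log (by exact_mod_cast h) hDY
        rw [Real.log_rpow g3] at h8
        linarith
      have h8 : 0 ≤ Real.log (D Y) := Real.log_natCast_nonneg _
      apply pow_le_pow_left₀ (by positivity)
      linarith
    calc 1536 * ℓ ^ (B + j + 1) * Y / |(k : ℝ)| * ∑ b ∈ Icc 1 (D Y), tau b ^ j / b
        ≤ 1536 * ℓ ^ (B + j + 1) * Y / |(k : ℝ)| * ℓ ^ (2 ^ j) := by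
          gcongr
          exact h5.trans h6
      _ = 1536 * ℓ ^ E * Y / |(k : ℝ)| := by rw [hE, pow_add ℓ (B + j + 1)]; ring
  -- the sum over the frequencies
  set T := ℓ ^ (2 * E + A + 1) with hT
  have hT1 : 1 ≤ T := one_le_pow₀ hl1
  have hT0 : 0 < T := by linarith
  have hterm : ∀ k ∈ (FK K₁).filter (fun k : ℤ => T ≤ |(k : ℝ)|),
      ‖DP ((Ioc Y (3 * Y)).filter (fun n => n % q = r % q)) (fun n => (((γ Y * f) n : ℝ) : ℂ)) k‖ ^ 2 ≤
        (1536 * ℓ ^ E * Y) ^ 2 * (if T ≤ ((k.natAbs : ℕ) : ℝ) then 1 / ((k.natAbs : ℕ) : ℝ) ^ 2 else 0) := by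
    intro k hk
    rw [mem_filter] at hk
    have hkn : ((k.natAbs : ℕ) : ℝ) = |(k : ℝ)| := by rw [Nat.cast_natAbs, Int.cast_abs]
    have hk0 : k ≠ 0 := by
      rintro rfl
      have := hT1.trans hk.2
      norm_num at this
    have hkK : |(k : ℝ)| ≤ K₁ := by
      have h5 := hk.1
      rw [FK, mem_Ioo] at h5
      rw [abs_le]
      constructor
      · exact_mod_cast h5.1.le
      · exact_mod_cast h5.2.le
    have h5 := hpt k hk0 (hkK.trans (hK.trans (Real.rpow_le_rpow_of_exponent_le hY1 (by linarith))))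
    rw [hkn, if_pos hk.2]
    refine (pow_le_pow_left₀ (norm_nonneg _) h5 2).trans (le_of_eq ?_)
    rw [div_pow]
    ring
  refine (sum_le_sum hterm).trans ?_
  rw [← mul_sum]
  have h5 : ∑ k ∈ (FK K₁).filter (fun k : ℤ => T ≤ |(k : ℝ)|),
      (if T ≤ ((k.natAbs : ℕ) : ℝ) then 1 / ((k.natAbs : ℕ) : ℝ) ^ 2 else 0) ≤ 4 / T := by
    refine (sum_le_sum_of_subset_of_nonneg (filter_subset _ _) (fun k _ _ => by positivity)).trans ?_
    refine (Pool.Agent.helper24_UT.Fr2.FK_sum_le K₁ (fun m => if T ≤ (m : ℝ) then 1 / (m : ℝ) ^ 2 else 0)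
      (fun m => by positivity)).trans ?_
    have := Pool.Agent.helper24_UT.Fr2.inv_sq_sum' hT1 K₁
    have e3 : 4 / T = 2 * (2 / T) := by ring
    rw [e3]
    linarith
  calc (1536 * ℓ ^ E * Y) ^ 2 * _ ≤ (1536 * ℓ ^ E * Y) ^ 2 * (4 / T) := by gcongr
    _ = (4 * 1536 ^ 2 / ℓ) * ((Y : ℝ) ^ 2 / ℓ ^ A) := by
        rw [hT, pow_add, pow_add]
        field_simp
        ring
    _ ≤ 1 * ((Y : ℝ) ^ 2 / ℓ ^ A) := by
        gcongr
        rw [div_le_one hl0]
        exact g1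
    _ = _ := one_mul _

end Pool.Agent.H43.SLF
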