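import Pool.Agent.H43.G.R_seed8.H469R2.NK.KL
import Pool.Agent.H43.G.R_seed8.H469R2.NK.Vdc

/-!
# The second derivative test for sequences, and sums of `(n + θ) ^ (-i k)`
-/

set_option autoImplicit false

namespace Pool.Agent.H43.SL.Vdc

open Finset
open Pool.Agent.H469R2.NK (e norm_e e_add conj_e e_zero kusmin_landau_mono kusmin_landau_anti norm_sum_neg vdcH e_nat)

lemma norm_sum_e (x : ℕ → ℝ) (s : Finset ℕ) : ‖∑ n ∈ s, e (x n)‖ ≤ s.card := by
  refine (norm_sum_le _ _).trans ?_
  simp [norm_e]

lemma inc {d : ℕ → ℝ} {lam : ℝ} (n : ℕ) : ∀ m : ℕ, (∀ i, n ≤ i → i < n + m → lam ≤ d (i + 1) - d i) →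
    lam * m ≤ d (n + m) - d n := by
  intro m
  induction m with
  | zero => intro _; simp
  | succ m ih =>
    intro h
    have h1 := ih fun i hi hi2 => h i hi (by omega)
    have h2 := h (n + m) (by omega) (by omega)
    push_cast
    rw [← add_assoc]
    linarith

/-- one block -/
lemma blk (x : ℕ → ℝ) (L : ℕ) {lam δ : ℝ} (hlam : 0 < lam) (hδ : 0 < δ)
    (h0 : ∀ n < L, 0 ≤ x (n + 1) - x n) (h1 : ∀ n < L, x (n + 1) - x n ≤ 1)
    (hm : ∀ n, n + 1 < L → lam ≤ (x (n + 2) - x (n + 1)) - (x (n + 1) - x n)) :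
    ‖∑ n ∈ range L, e (x n)‖ ≤ 2 * (δ / lam + 1) + 2 / δ := by
  obtain ⟨d, hd⟩ : ∃ d : ℕ → ℝ, d = fun n => x (n + 1) - x n := ⟨_, rfl⟩
  have hd' : ∀ n, x (n + 1) - x n = d n := fun n => by rw [hd]
  simp only [hd'] at h0 h1
  have hm' : ∀ n, n + 1 < L → lam ≤ d (n + 1) - d n := fun n hn => by
    have := hm n hn
    rw [hd]
    simpa using this
  -- the first index with `d ≥ δ`
  have hmono : ∀ i j, i ≤ j → j < L → d i ≤ d j := by
    intro i j hij hj
    obtain ⟨m, rfl⟩ : ∃ m, j = i + m := ⟨j - i, by omega⟩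
    have := inc (d := d) (lam := lam) i m (fun t ht1 ht2 => hm' t (by omega))
    have h3 : 0 ≤ lam * m := by positivity
    linarith
  have hexa : ∃ n, L ≤ n ∨ δ ≤ d n := ⟨L, Or.inl le_rfl⟩
  have hexb : ∃ n, L ≤ n ∨ 1 - δ < d n := ⟨L, Or.inl le_rfl⟩
  classical
  set a := Nat.find hexa with ha
  set b := Nat.find hexb with hb
  have haL : a ≤ L := Nat.find_min' hexa (Or.inl le_rfl)
  have hbL : b ≤ L := Nat.find_min' hexb (Or.inl le_rfl)
  have ha1 : ∀ n < a, d n < δ := fun n hn => by
    have := Nat.find_min hexa hn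
    push Not at this
    exact this.2
  have hb1 : ∀ n < b, d n ≤ 1 - δ := fun n hn => by
    have := Nat.find_min hexb hn
    push Not at this
    exact this.2
  have ha2 : ∀ n, a ≤ n → n < L → δ ≤ d n := fun n hn hnL => by
    rcases Nat.find_spec hexa with h | h
    · exact absurd (lt_of_lt_of_le hnL h) (by omega)
    · exact h.trans (hmono a n hn hnL)
  have hb2 : ∀ n, b ≤ n → n < L → 1 - δ < d n := fun n hn hnL => by
    rcases Nat.find_spec hexb with h | h
    · exact absurd (lt_of_lt_of_le hnL h) (by omega)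
    · exact h.trans_le (hmono b n hn hnL)
  have hca : (a : ℝ) ≤ δ / lam + 1 := by
    rcases Nat.eq_zero_or_pos a with h | h
    · rw [h]; push_cast; positivity
    · have h2 := inc (d := d) (lam := lam) 0 (a - 1) (fun t ht1 ht2 => hm' t (by omega))
      rw [zero_add] at h2
      have h3 := ha1 (a - 1) (by omega)
      have h4 := h0 0 (by omega)
      have h5 : ((a - 1 : ℕ) : ℝ) = a - 1 := by push_cast [Nat.cast_sub h]; ring
      rw [h5] at h2
      have h6 : lam * (a - 1) ≤ δ := by linarith
      rw [← sub_le_iff_le_add, le_div_iff₀ hlam]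
      linarith
  have hcb : ((L - b : ℕ) : ℝ) ≤ δ / lam + 1 := by
    rcases Nat.eq_zero_or_pos (L - b) with h | h
    · rw [h]; push_cast; positivity
    · have h2 := inc (d := d) (lam := lam) b (L - b - 1) (fun t ht1 ht2 => hm' t (by omega))
      have h3 := hb2 b le_rfl (by omega)
      have h4 := h1 (b + (L - b - 1)) (by omega)
      have h5 : ((L - b - 1 : ℕ) : ℝ) = ((L - b : ℕ) : ℝ) - 1 := by push_cast [Nat.cast_sub h]; ring
      rw [h5] at h2
      have h6 : lam * (((L - b : ℕ) : ℝ) - 1) ≤ δ := by linarith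
      rw [← sub_le_iff_le_add, le_div_iff₀ hlam]
      linarith
  rcases le_total b a with hba | hab
  · -- no middle part
    have hsub : L ≤ a + (L - b) := by omega
    have h2 := norm_sum_e x (range L)
    rw [card_range] at h2
    have h3 : (L : ℝ) ≤ a + ((L - b : ℕ) : ℝ) := by exact_mod_cast hsub
    have : 0 ≤ 2 / δ := by positivity
    linarith
  · have hsplit : ∑ n ∈ range L, e (x n) = ∑ n ∈ range a, e (x n) +
        ∑ n ∈ range (b - a), e (x (a + n)) + ∑ n ∈ Ico b L, e (x n) := by
      have e1 : ∑ n ∈ range (b - a), e (x (a + n)) = ∑ n ∈ Ico a b, e (x n) := by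
        rw [sum_Ico_eq_sum_range]
      rw [e1, range_eq_Ico, range_eq_Ico, sum_Ico_consecutive _ (Nat.zero_le _) hab, sum_Ico_consecutive _ (Nat.zero_le _) hbL]
    rw [hsplit]
    have h2 := norm_sum_e x (range a)
    have h3 := norm_sum_e x (Ico b L)
    rw [card_range] at h2
    rw [Nat.card_Ico] at h3
    have h4 : ‖∑ n ∈ range (b - a), e (x (a + n))‖ ≤ 2 / δ := by
      refine kusmin_landau_mono (fun n => x (a + n)) (b - a) hδ ?_ ?_ ?_
      · intro n hn
        have := ha2 (a + n) (by omega) (by omega)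
        rw [hd] at this
        exact this
      · intro n hn
        have := hb1 (a + n) (by omega)
        rw [hd] at this
        exact this
      · intro n hn
        have := hm' (a + n) (by omega)
        rw [hd] at this
        simp only at this
        have h6 : x (a + (n + 1)) - x (a + n) ≤ x (a + (n + 2)) - x (a + (n + 1)) := by
          have e2 : a + (n + 1) = a + n + 1 := by ring
          have e3 : a + (n + 2) = a + n + 1 + 1 := by ring
          rw [e2, e3]
          linarith
        exact h6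
    calc ‖∑ n ∈ range a, e (x n) + ∑ n ∈ range (b - a), e (x (a + n)) + ∑ n ∈ Ico b L, e (x n)‖
        ≤ ‖∑ n ∈ range a, e (x n)‖ + ‖∑ n ∈ range (b - a), e (x (a + n))‖ + ‖∑ n ∈ Ico b L, e (x n)‖ :=
          norm_add₃_le
      _ ≤ _ := by linarith

lemma e_int (m : ℤ) : e m = 1 := by
  unfold e
  rw [Complex.exp_eq_one_iff]
  exact ⟨m, by push_cast; ring⟩

/-- several blocks -/
lemma blks {lam δ : ℝ} (hlam : 0 < lam) (hδ : 0 < δ) (m : ℤ) (j : ℕ) : ∀ (x : ℕ → ℝ) (L : ℕ),
    (∀ n < L, (m : ℝ) ≤ x (n + 1) - x n) → (∀ n < L, x (n + 1) - x n ≤ m + j) →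
    (∀ n, n + 1 < L → lam ≤ (x (n + 2) - x (n + 1)) - (x (n + 1) - x n)) →
    ‖∑ n ∈ range L, e (x n)‖ ≤ (j : ℝ) * (2 * (δ / lam + 1) + 2 / δ) + 2 * (δ / lam + 1) + 2 / δ := by
  induction j with
  | zero =>
    intro x L h0 h1 hm
    have h2 := blk (fun n => x n - m * n) L hlam hδ (fun n hn => by
      have := h0 n hn; push_cast; linarith) (fun n hn => by
      have := h1 n hn; push_cast at this ⊢; linarith) (fun n hn => by
      have := hm n hn; push_cast; linarith)
    have h3 : ∑ n ∈ range L, e (x n - m * n) = ∑ n ∈ range L, e (x n) := by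
      refine sum_congr rfl fun n _ => ?_
      have : e (x n) = e (x n - m * n) * e ((m * n : ℤ) : ℝ) := by
        rw [← e_add]; congr 1; push_cast; ring
      rw [this, e_int, mul_one]
    simp only [h3] at h2
    push_cast
    linarith
  | succ j ih =>
    intro x L h0 h1 hm
    have hex : ∃ n, L ≤ n ∨ (m : ℝ) + j < x (n + 1) - x n := ⟨L, Or.inl le_rfl⟩
    classical
    set L' := Nat.find hex with hL'
    have hL'L : L' ≤ L := Nat.find_min' hex (Or.inl le_rfl)
    have hlow : ∀ n < L', x (n + 1) - x n ≤ m + j := fun n hn => by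
      have := Nat.find_min hex hn
      push Not at this
      exact this.2
    have hmono : ∀ i j, i ≤ j → j < L → x (i + 1) - x i ≤ x (j + 1) - x j := by
      intro i t hij hj
      obtain ⟨r, rfl⟩ : ∃ r, t = i + r := ⟨t - i, by omega⟩
      have := inc (d := fun n => x (n + 1) - x n) (lam := lam) i r (fun t ht1 ht2 => by
        have := hm t (by omega)
        simpa using this)
      have h3 : 0 ≤ lam * r := by positivity
      linarith
    have hhigh : ∀ n, L' ≤ n → n < L → (m : ℝ) + j ≤ x (n + 1) - x n := fun n hn hnL => by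
      rcases Nat.find_spec hex with h | h
      · exact absurd (lt_of_lt_of_le hnL h) (by omega)
      · exact h.le.trans (hmono L' n hn hnL)
    have hI := ih x L' (fun n hn => h0 n (by omega)) hlow (fun n hn => hm n (by omega))
    -- the last block
    have hB := blk (fun n => x (L' + n) - (m + j : ℤ) * n) (L - L') hlam hδ (fun n hn => by
      have := hhigh (L' + n) (by omega) (by omega)
      have e1 : L' + (n + 1) = L' + n + 1 := by ring
      rw [e1]
      push_cast; linarith) (fun n hn => by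
      have := h1 (L' + n) (by omega)
      have e1 : L' + (n + 1) = L' + n + 1 := by ring
      rw [e1]
      push_cast at this ⊢; linarith) (fun n hn => by
      have := hm (L' + n) (by omega)
      have e1 : L' + (n + 1) = L' + n + 1 := by ring
      have e2 : L' + (n + 2) = L' + n + 2 := by ring
      rw [e1, e2]
      push_cast; linarith)
    have h3 : ∑ n ∈ range (L - L'), e (x (L' + n) - (m + j : ℤ) * n) = ∑ n ∈ Ico L' L, e (x n) := by
      rw [sum_Ico_eq_sum_range]
      refine sum_congr rfl fun n _ => ?_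
      have : e (x (L' + n)) = e (x (L' + n) - (m + j : ℤ) * n) * e (((m + j) * n : ℤ) : ℝ) := by
        rw [← e_add]; congr 1; push_cast; ring
      rw [this, e_int, mul_one]
    have hB' : ‖∑ n ∈ Ico L' L, e (x n)‖ ≤ 2 * (δ / lam + 1) + 2 / δ := by
      rw [← h3]; exact hB
    have hsplit : ∑ n ∈ range L, e (x n) = ∑ n ∈ range L', e (x n) + ∑ n ∈ Ico L' L, e (x n) := by
      rw [range_eq_Ico, range_eq_Ico, sum_Ico_consecutive _ (Nat.zero_le _) hL'L]
    rw [hsplit]
    refine (norm_add_le _ _).trans ?_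
    push_cast
    linarith

/-- **The second derivative test** for sequences: the second differences are between `lam` and `hi`. -/
theorem sdt (x : ℕ → ℝ) (L : ℕ) {lam hi : ℝ} (hlam : 0 < lam) (hle : lam ≤ hi)
    (hm : ∀ n, n + 1 < L → lam ≤ (x (n + 2) - x (n + 1)) - (x (n + 1) - x n))
    (hM : ∀ n, n + 1 < L → (x (n + 2) - x (n + 1)) - (x (n + 1) - x n) ≤ hi) :
    ‖∑ n ∈ range L, e (x n)‖ ≤ 6 * (hi * L + 3) / Real.sqrt lam := by
  have hs : 0 < Real.sqrt lam := Real.sqrt_pos.2 hlam
  have hss : Real.sqrt lam * Real.sqrt lam = lam := Real.mul_self_sqrt hlam.le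
  have hhi : 0 < hi := hlam.trans_le hle
  rcases Nat.eq_zero_or_pos L with rfl | hL
  · simp; positivity
  by_cases hbig : 1 / 4 < lam
  · have h1 := norm_sum_e x (range L)
    rw [card_range] at h1
    refine h1.trans ?_
    rw [le_div_iff₀ hs]
    have h2 : (0 : ℝ) ≤ L := Nat.cast_nonneg L
    have h3 : Real.sqrt lam ≤ 6 * hi := by
      have h4 : Real.sqrt lam ≤ 6 * lam := by
        have h5 : 1 / 2 ≤ Real.sqrt lam := by
          rw [show (1 / 2 : ℝ) = Real.sqrt (1 / 4) by
            rw [show (1 / 4 : ℝ) = (1 / 2) ^ 2 by norm_num, Real.sqrt_sq (by norm_num)]]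
          exact Real.sqrt_le_sqrt hbig.le
        nlinarith
      linarith
    nlinarith
  · push Not at hbig
    set m := ⌊x 1 - x 0⌋ with hmd
    set V := hi * L with hV
    have hV0 : 0 ≤ V := by positivity
    have h0 : ∀ n < L, (x 1 - x 0) ≤ x (n + 1) - x n := by
      intro n hn
      have := inc (d := fun n => x (n + 1) - x n) (lam := lam) 0 n (fun t ht1 ht2 => by
        have := hm t (by omega)
        simpa using this)
      simp only [zero_add] at this
      have h3 : 0 ≤ lam * n := by positivity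
      linarith
    have h1 : ∀ n < L, x (n + 1) - x n ≤ (x 1 - x 0) + V := by
      intro n hn
      have := inc (d := fun n => -(x (n + 1) - x n)) (lam := -hi) 0 n (fun t ht1 ht2 => by
        have := hM t (by omega)
        linarith)
      simp only [zero_add] at this
      have h3 : hi * n ≤ V := by
        rw [hV]
        have : (n : ℝ) ≤ L := by exact_mod_cast hn.le
        gcongr
      linarith
    have hfl := Int.floor_le (x 1 - x 0)
    have hfl2 := Int.lt_floor_add_one (x 1 - x 0)
    have hce := Nat.le_ceil V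
    have hce2 := (Nat.ceil_lt_add_one hV0).le
    have hb := blks hlam hs m (⌈V⌉₊ + 1) x L (fun n hn => hfl.trans (h0 n hn)) (fun n hn => by
      have := h1 n hn
      push_cast
      linarith) hm
    refine hb.trans ?_
    have e1 : Real.sqrt lam / lam = 1 / Real.sqrt lam := by
      rw [div_eq_div_iff hlam.ne' hs.ne', one_mul, hss]
    rw [e1]
    have h2 : (1 : ℝ) ≤ (1 / 2) / Real.sqrt lam := by
      rw [le_div_iff₀ hs, one_mul, show (1 / 2 : ℝ) = Real.sqrt (1 / 4) by
        rw [show (1 / 4 : ℝ) = (1 / 2) ^ 2 by norm_num, Real.sqrt_sq (by norm_num)]]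
      exact Real.sqrt_le_sqrt hbig
    have h3 : 2 * (1 / Real.sqrt lam + 1) + 2 / Real.sqrt lam ≤ 5 / Real.sqrt lam := by
      have e2 : 5 / Real.sqrt lam = 2 * (1 / Real.sqrt lam + (1 / 2) / Real.sqrt lam) + 2 / Real.sqrt lam := by
        field_simp; norm_num
      rw [e2]
      linarith
    have h4 : 0 < 1 / Real.sqrt lam := by positivity
    calc ((⌈V⌉₊ + 1 : ℕ) : ℝ) * (2 * (1 / Real.sqrt lam + 1) + 2 / Real.sqrt lam) +
          2 * (1 / Real.sqrt lam + 1) + 2 / Real.sqrt lam
        = ((⌈V⌉₊ : ℝ) + 2) * (2 * (1 / Real.sqrt lam + 1) + 2 / Real.sqrt lam) := by push_cast; ring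
      _ ≤ (V + 3) * (5 / Real.sqrt lam) := by
          apply mul_le_mul (by linarith) h3 (by positivity) (by linarith)
      _ ≤ 6 * (V + 3) / Real.sqrt lam := by
          rw [mul_div_assoc', div_le_div_iff_of_pos_right hs]
          nlinarith

end Pool.Agent.H43.SL.Vdc
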