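import Pool.Agent.H43.SL.Vdc

/-!
# Sums of `(u + n) ^ (-i t)`: the inequality of Kusmin and Landau and the third derivative test
-/

set_option autoImplicit false

namespace Pool.Agent.H43.SL.Wey

open Finset
open Pool.Agent.H469R2.NK (e norm_e e_add conj_e e_zero kusmin_landau_mono kusmin_landau_anti norm_sum_neg vdcH e_nat)
open Pool.Agent.H43.SL.Vdc

lemma log_step_low {v : ℝ} (hv : 0 < v) : 1 / (v + 1) ≤ Real.log (v + 1) - Real.log v := by
  have h := Real.one_sub_inv_le_log_of_pos (show 0 < (v + 1) / v by positivity)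
  rw [Real.log_div (by positivity) hv.ne'] at h
  refine le_trans (le_of_eq ?_) h
  rw [inv_div]
  field_simp
  ring

lemma log_step_high {v : ℝ} (hv : 0 < v) : Real.log (v + 1) - Real.log v ≤ 1 / v := by
  have h := Real.log_le_sub_one_of_pos (show 0 < (v + 1) / v by positivity)
  rw [Real.log_div (by positivity) hv.ne'] at h
  refine h.trans (le_of_eq ?_)
  field_simp
  ring

/-- Kusmin and Landau -/
theorem kl (t u : ℝ) (L : ℕ) (ht : 0 < t) (htu : t ≤ u) (hu : 1 ≤ u) (hL : (L : ℝ) ≤ 3 * u) :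
    ‖∑ n ∈ range L, e (t / (2 * Real.pi) * Real.log (u + n))‖ ≤ 64 * u / t := by
  have hpi := Real.pi_gt_three
  have hpi2 := Real.pi_lt_d2
  have hu0 : 0 < u := by linarith
  set θ : ℝ := t / (8 * Real.pi * u) with hθ
  have hθ0 : 0 < θ := by positivity
  have h := kusmin_landau_anti (fun n => t / (2 * Real.pi) * Real.log (u + n)) L hθ0 (by
    intro n hn
    have hnL : (n : ℝ) + 1 ≤ L := by exact_mod_cast hn
    have hv : 0 < u + n := by positivity
    have h1 := log_step_low hv
    push_cast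
    rw [← mul_sub, ← add_assoc, hθ]
    calc t / (8 * Real.pi * u) = t / (2 * Real.pi) * (1 / (4 * u)) := by field_simp; norm_num
      _ ≤ t / (2 * Real.pi) * (1 / (u + n + 1)) := by
          apply mul_le_mul_of_nonneg_left _ (by positivity)
          apply one_div_le_one_div_of_le (by positivity)
          linarith
      _ ≤ _ := by gcongr) (by
    intro n hn
    have hv : 0 < u + n := by positivity
    have h1 := log_step_high hv
    push_cast
    rw [← mul_sub, ← add_assoc]
    have h2 : t / (2 * Real.pi) * (Real.log (u + n + 1) - Real.log (u + n)) ≤ t / (2 * Real.pi) * (1 / u) := by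
      apply mul_le_mul_of_nonneg_left _ (by positivity)
      refine h1.trans ?_
      apply one_div_le_one_div_of_le hu0
      have : (0 : ℝ) ≤ n := Nat.cast_nonneg n
      linarith
    have h3 : t / (2 * Real.pi) * (1 / u) ≤ 1 / 6 := by
      rw [div_mul_div_comm, mul_one, div_le_div_iff₀ (by positivity) (by norm_num)]
      nlinarith
    have h4 : θ ≤ 1 / 24 := by
      rw [hθ, div_le_div_iff₀ (by positivity) (by norm_num)]
      nlinarith
    linarith) (by
    intro n hn
    have hv : 0 < u + n := by positivity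
    push_cast
    rw [← mul_sub, ← mul_sub, ← add_assoc, ← add_assoc]
    apply mul_le_mul_of_nonneg_left _ (by positivity)
    have h1 : Real.log (u + n + 2) + Real.log (u + n) ≤ Real.log (u + n + 1) + Real.log (u + n + 1) := by
      rw [← Real.log_mul (by positivity) (by positivity), ← Real.log_mul (by positivity) (by positivity)]
      apply Real.log_le_log (by positivity)
      nlinarith
    linarith)
  refine h.trans ?_
  rw [hθ, div_div_eq_mul_div, div_le_div_iff_of_pos_right ht]
  nlinarith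

/-- minus the second difference of the logarithm -/
noncomputable def G (v : ℝ) : ℝ := 2 * Real.log (v + 1) - Real.log v - Real.log (v + 2)

lemma G_step {v : ℝ} (hv : 0 < v) : G v - G (v + 1) = Real.log (1 + (2 * v + 3) / (v * (v + 2) ^ 3)) := by
  have h : 1 + (2 * v + 3) / (v * (v + 2) ^ 3) = ((v + 1) ^ 3 * (v + 3)) / (v * (v + 2) ^ 3) := by
    field_simp
    ring
  rw [h, Real.log_div (by positivity) (by positivity), Real.log_mul (by positivity) (by positivity),
    Real.log_mul (by positivity) (by positivity), Real.log_pow, Real.log_pow]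
  unfold G
  rw [show v + 1 + 1 = v + 2 by ring, show v + 1 + 2 = v + 3 by ring]
  push_cast
  ring

lemma G_step_low {v : ℝ} (hv : 0 < v) : 1 / (v + 1) ^ 3 ≤ G v - G (v + 1) := by
  rw [G_step hv]
  have h := Real.one_sub_inv_le_log_of_pos (show 0 < 1 + (2 * v + 3) / (v * (v + 2) ^ 3) by positivity)
  refine le_trans ?_ h
  have h1 : 1 - (1 + (2 * v + 3) / (v * (v + 2) ^ 3))⁻¹ = (2 * v + 3) / ((v + 1) ^ 3 * (v + 3)) := by
    have h : 1 + (2 * v + 3) / (v * (v + 2) ^ 3) = ((v + 1) ^ 3 * (v + 3)) / (v * (v + 2) ^ 3) := by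
      field_simp
      ring
    rw [h, inv_div]
    field_simp
    ring
  rw [h1, div_le_div_iff₀ (by positivity) (by positivity)]
  have : 0 < (v + 1) ^ 3 := by positivity
  nlinarith

lemma G_step_high {v : ℝ} (hv : 0 < v) : G v - G (v + 1) ≤ 2 / v ^ 3 := by
  rw [G_step hv]
  have h := Real.log_le_sub_one_of_pos (show 0 < 1 + (2 * v + 3) / (v * (v + 2) ^ 3) by positivity)
  refine h.trans ?_
  rw [add_sub_cancel_left, div_le_div_iff₀ (by positivity) (by positivity)]
  have h2 : (2 * v + 3) * v ^ 2 ≤ 2 * (v + 2) ^ 3 := by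
    have : 0 ≤ v ^ 2 := by positivity
    nlinarith
  calc (2 * v + 3) * v ^ 3 = v * ((2 * v + 3) * v ^ 2) := by ring
    _ ≤ v * (2 * (v + 2) ^ 3) := by gcongr
    _ = 2 * (v * (v + 2) ^ 3) := by ring

lemma G_low {v w : ℝ} (hv : 0 < v) : ∀ l : ℕ, v + l ≤ w → (l : ℝ) / w ^ 3 ≤ G v - G (v + l) := by
  intro l
  induction l with
  | zero => intro _; simp
  | succ l ih =>
    intro hw
    push_cast at hw ⊢
    have h1 := ih (by linarith)
    have hl : (0 : ℝ) ≤ l := Nat.cast_nonneg l
    have h2 := G_step_low (show 0 < v + l by positivity)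
    have h3 : 1 / w ^ 3 ≤ 1 / (v + l + 1) ^ 3 := by
      apply one_div_le_one_div_of_le (by positivity)
      apply pow_le_pow_left₀ (by positivity)
      linarith
    rw [← add_assoc, add_div]
    linarith

lemma G_high {v : ℝ} (hv : 0 < v) : ∀ l : ℕ, G v - G (v + l) ≤ 2 * l / v ^ 3 := by
  intro l
  induction l with
  | zero => simp
  | succ l ih =>
    push_cast
    have hl : (0 : ℝ) ≤ l := Nat.cast_nonneg l
    have h2 := G_step_high (show 0 < v + l by positivity)
    have h3 : 2 / (v + l) ^ 3 ≤ 2 / v ^ 3 := by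
      apply div_le_div_of_nonneg_left (by norm_num) (by positivity)
      apply pow_le_pow_left₀ hv.le
      linarith
    rw [← add_assoc]
    have e1 : 2 * ((l : ℝ) + 1) / v ^ 3 = 2 * l / v ^ 3 + 2 / v ^ 3 := by ring
    rw [e1]
    linarith

/-- the differenced sums -/
lemma Sl (t u : ℝ) (L l : ℕ) (ht : 0 < t) (hu : 1 ≤ u) (hL : (L : ℝ) ≤ 3 * u) (hl : 1 ≤ l) :
    ‖∑ n ∈ range (L - l), e (t / (2 * Real.pi) * (Real.log (u + (n + l : ℕ)) - Real.log (u + n)))‖ ≤
      6 * (t / (2 * Real.pi) * (2 * l / u ^ 3) * L + 3) / Real.sqrt (t / (2 * Real.pi) * (l / (4 * u) ^ 3)) := by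
  have hpi := Real.pi_pos
  have hu0 : 0 < u := by linarith
  have hl0 : (0 : ℝ) < l := by exact_mod_cast hl
  rcases Nat.lt_or_ge L l with h | hlL
  · rw [Nat.sub_eq_zero_of_le h.le]
    simp only [range_zero, sum_empty, norm_zero]
    positivity
  have hlL' : (l : ℝ) ≤ L := by exact_mod_cast hlL
  have h := sdt (fun n => t / (2 * Real.pi) * (Real.log (u + (n + l : ℕ)) - Real.log (u + n))) (L - l)
    (lam := t / (2 * Real.pi) * (l / (4 * u) ^ 3)) (hi := t / (2 * Real.pi) * (2 * l / u ^ 3)) (by positivity) (by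
      apply mul_le_mul_of_nonneg_left _ (by positivity)
      rw [div_le_div_iff₀ (by positivity) (by positivity)]
      have : 0 < u ^ 3 := by positivity
      nlinarith) (by
      intro n hn
      have hnL : ((n + 1 + l : ℕ) : ℝ) < L := by exact_mod_cast (by omega : n + 1 + l < L)
      push_cast at hnL
      have hv : 0 < u + n := by positivity
      have h1 := G_low (w := 4 * u) hv l (by linarith)
      have e1 : (t / (2 * Real.pi) * (Real.log (u + ((n + 2 + l : ℕ) : ℝ)) - Real.log (u + ((n + 2 : ℕ) : ℝ))) -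
          t / (2 * Real.pi) * (Real.log (u + ((n + 1 + l : ℕ) : ℝ)) - Real.log (u + ((n + 1 : ℕ) : ℝ)))) -
          (t / (2 * Real.pi) * (Real.log (u + ((n + 1 + l : ℕ) : ℝ)) - Real.log (u + ((n + 1 : ℕ) : ℝ))) -
          t / (2 * Real.pi) * (Real.log (u + ((n + l : ℕ) : ℝ)) - Real.log (u + n))) =
          t / (2 * Real.pi) * (G (u + n) - G (u + n + l)) := by
        unfold G
        have a1 : u + ((n + 2 + l : ℕ) : ℝ) = u + n + l + 2 := by push_cast; ring
        have a2 : u + ((n + 2 : ℕ) : ℝ) = u + n + 2 := by push_cast; ring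
        have a3 : u + ((n + 1 + l : ℕ) : ℝ) = u + n + l + 1 := by push_cast; ring
        have a4 : u + ((n + 1 : ℕ) : ℝ) = u + n + 1 := by push_cast; ring
        have a5 : u + ((n + l : ℕ) : ℝ) = u + n + l := by push_cast; ring
        rw [a1, a2, a3, a4, a5]
        ring
      rw [e1]
      gcongr) (by
      intro n hn
      have hv : 0 < u + n := by positivity
      have h1 := G_high hv l
      have e1 : (t / (2 * Real.pi) * (Real.log (u + ((n + 2 + l : ℕ) : ℝ)) - Real.log (u + ((n + 2 : ℕ) : ℝ))) -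
          t / (2 * Real.pi) * (Real.log (u + ((n + 1 + l : ℕ) : ℝ)) - Real.log (u + ((n + 1 : ℕ) : ℝ)))) -
          (t / (2 * Real.pi) * (Real.log (u + ((n + 1 + l : ℕ) : ℝ)) - Real.log (u + ((n + 1 : ℕ) : ℝ))) -
          t / (2 * Real.pi) * (Real.log (u + ((n + l : ℕ) : ℝ)) - Real.log (u + n))) =
          t / (2 * Real.pi) * (G (u + n) - G (u + n + l)) := by
        unfold G
        have a1 : u + ((n + 2 + l : ℕ) : ℝ) = u + n + l + 2 := by push_cast; ring
        have a2 : u + ((n + 2 : ℕ) : ℝ) = u + n + 2 := by push_cast; ring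
        have a3 : u + ((n + 1 + l : ℕ) : ℝ) = u + n + l + 1 := by push_cast; ring
        have a4 : u + ((n + 1 : ℕ) : ℝ) = u + n + 1 := by push_cast; ring
        have a5 : u + ((n + l : ℕ) : ℝ) = u + n + l := by push_cast; ring
        rw [a1, a2, a3, a4, a5]
        ring
      rw [e1]
      apply mul_le_mul_of_nonneg_left _ (by positivity)
      refine h1.trans ?_
      apply div_le_div_of_nonneg_left (by positivity) (by positivity)
      apply pow_le_pow_left₀ hu0.le
      have : (0 : ℝ) ≤ n := Nat.cast_nonneg n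
      linarith)
  refine h.trans ?_
  apply div_le_div_of_nonneg_right _ (Real.sqrt_nonneg _)
  have h5 : ((L - l : ℕ) : ℝ) ≤ L := by exact_mod_cast Nat.sub_le _ _
  gcongr

lemma inv_sqrt_sum' (H : ℕ) : ∑ l ∈ Ico 1 (H + 1), 1 / Real.sqrt l ≤ 2 * Real.sqrt H := by
  induction H with
  | zero => simp
  | succ n ih =>
    rw [sum_Ico_succ_top (by omega)]
    have hn0 : (0 : ℝ) ≤ n := Nat.cast_nonneg n
    have h3 : 0 < Real.sqrt ((n + 1 : ℕ) : ℝ) := Real.sqrt_pos.2 (by positivity)
    have h4 : Real.sqrt ((n + 1 : ℕ) : ℝ) ^ 2 = n + 1 := by rw [Real.sq_sqrt (by positivity)]; push_cast; ring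
    have h5 : Real.sqrt n ^ 2 = n := Real.sq_sqrt hn0
    have h7 : 1 / Real.sqrt ((n + 1 : ℕ) : ℝ) ≤ 2 * Real.sqrt ((n + 1 : ℕ) : ℝ) - 2 * Real.sqrt n := by
      rw [div_le_iff₀ h3]
      nlinarith [sq_nonneg (Real.sqrt ((n + 1 : ℕ) : ℝ) - Real.sqrt n)]
    linarith

lemma inv_sqrt_sum (H : ℕ) : ∑ l ∈ Ico 1 H, 1 / Real.sqrt l ≤ 2 * Real.sqrt H := by
  rcases Nat.eq_zero_or_pos H with rfl | hH
  · simp
  obtain ⟨n, rfl⟩ : ∃ n, H = n + 1 := ⟨H - 1, by omega⟩
  refine (inv_sqrt_sum' n).trans ?_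
  have : Real.sqrt n ≤ Real.sqrt ((n + 1 : ℕ) : ℝ) := Real.sqrt_le_sqrt (by push_cast; linarith)
  linarith

/-- **The third derivative test** for the logarithm. -/
theorem w3 (t u s : ℝ) (L : ℕ) (hs : 1 ≤ s) (hts : s ^ 3 = t) (hu : 1 ≤ u) (hL : (L : ℝ) ≤ 3 * u) :
    ‖∑ n ∈ range L, e (t / (2 * Real.pi) * Real.log (u + n))‖ ^ 2 ≤ 40000 * (u * s + u ^ 2 / s) := by
  have hpi := Real.pi_gt_d2
  have hpi2 := Real.pi_lt_d2
  have hu0 : 0 < u := by linarith
  have hs0 : 0 < s := by linarith
  have ht0 : 0 < t := by rw [← hts]; positivity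
  have hL0 : (0 : ℝ) ≤ L := Nat.cast_nonneg L
  by_cases hus : u < s
  · have h1 : ‖∑ n ∈ range L, e (t / (2 * Real.pi) * Real.log (u + n))‖ ≤ L := by
      have := norm_sum_e (fun n : ℕ => t / (2 * Real.pi) * Real.log (u + n)) (range L)
      rwa [card_range] at this
    calc ‖∑ n ∈ range L, e (t / (2 * Real.pi) * Real.log (u + n))‖ ^ 2 ≤ (L : ℝ) ^ 2 :=
          pow_le_pow_left₀ (norm_nonneg _) h1 2
      _ ≤ (3 * u) ^ 2 := pow_le_pow_left₀ hL0 hL 2
      _ = 9 * (u * u) := by ring
      _ ≤ 9 * (u * s) := by gcongr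
      _ ≤ 40000 * (u * s + u ^ 2 / s) := by
          have : 0 ≤ u ^ 2 / s := by positivity
          have : 0 ≤ u * s := by positivity
          linarith
  push Not at hus
  set H : ℕ := ⌈u / s⌉₊ with hH
  have hH1 : u / s ≤ H := Nat.le_ceil _
  have hus1 : 1 ≤ u / s := by rw [one_le_div hs0]; exact hus
  have hH2 : (H : ℝ) ≤ 2 * (u / s) := by
    have := (Nat.ceil_lt_add_one (show 0 ≤ u / s by positivity)).le
    linarith
  have hH0 : (0 : ℝ) < H := by linarith
  have hHu : (H : ℝ) ≤ 2 * u := by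
    refine hH2.trans ?_
    have : u / s ≤ u := div_le_self hu0.le hs
    linarith
  set z : ℕ → ℂ := fun n => e (t / (2 * Real.pi) * Real.log (u + n)) with hz
  have hv := vdcH z (fun n => (norm_e _).le) L H
  have hzz : ∀ l, ∑ n ∈ range (L - l), z (n + l) * (starRingEnd ℂ) (z n) =
      ∑ n ∈ range (L - l), e (t / (2 * Real.pi) * (Real.log (u + (n + l : ℕ)) - Real.log (u + n))) := by
    intro l
    refine sum_congr rfl fun n _ => ?_
    simp only [hz]
    rw [conj_e, ← e_add]
    congr 1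
    ring
  simp only [hzz] at hv
  -- the parameter
  set lam : ℝ := t / (2 * Real.pi) * (1 / (4 * u) ^ 3) with hlam
  have hlam0 : 0 < lam := by positivity
  have hsq0 : 0 < Real.sqrt lam := Real.sqrt_pos.2 hlam0
  have hbl : ∀ l ∈ Ico 1 H, ‖∑ n ∈ range (L - l), e (t / (2 * Real.pi) *
      (Real.log (u + (n + l : ℕ)) - Real.log (u + n)))‖ ≤
      768 * (L * (Real.sqrt lam * Real.sqrt H)) + 18 / Real.sqrt lam * (1 / Real.sqrt l) := by
    intro l hl
    rw [mem_Ico] at hl
    have hl0 : (0 : ℝ) < l := by exact_mod_cast (by omega : 0 < l)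
    have hlH : (l : ℝ) ≤ H := by exact_mod_cast hl.2.le
    have hsl : 0 < Real.sqrt l := Real.sqrt_pos.2 hl0
    refine (Sl t u L l ht0 hu hL hl.1).trans ?_
    have e1 : t / (2 * Real.pi) * (l / (4 * u) ^ 3) = lam * l := by rw [hlam]; ring
    have e2 : t / (2 * Real.pi) * (2 * l / u ^ 3) = 128 * (lam * l) := by
      rw [hlam]; field_simp; norm_num
    rw [e1, e2, Real.sqrt_mul hlam0.le]
    have e3 : 6 * (128 * (lam * l) * L + 3) / (Real.sqrt lam * Real.sqrt l) =
        768 * (L * (Real.sqrt lam * Real.sqrt l)) + 18 / Real.sqrt lam * (1 / Real.sqrt l) := by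
      have h1 : Real.sqrt lam ^ 2 = lam := Real.sq_sqrt hlam0.le
      have h2 : Real.sqrt l ^ 2 = l := Real.sq_sqrt hl0.le
      field_simp
      rw [h1, h2]
      ring
    rw [e3]
    have h4 : Real.sqrt l ≤ Real.sqrt H := Real.sqrt_le_sqrt hlH
    gcongr
  have hsum : ∑ l ∈ Ico 1 H, ‖∑ n ∈ range (L - l), e (t / (2 * Real.pi) *
      (Real.log (u + (n + l : ℕ)) - Real.log (u + n)))‖ ≤
      H * (768 * (L * (Real.sqrt lam * Real.sqrt H))) + 18 / Real.sqrt lam * (2 * Real.sqrt H) := by
    refine (sum_le_sum hbl).trans ?_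
    rw [sum_add_distrib, sum_const, Nat.card_Ico, nsmul_eq_mul, ← mul_sum]
    have h1 : ((H - 1 : ℕ) : ℝ) ≤ H := by exact_mod_cast Nat.sub_le _ _
    have h2 := inv_sqrt_sum H
    exact add_le_add (mul_le_mul_of_nonneg_right h1 (by positivity)) (mul_le_mul_of_nonneg_left h2 (by positivity))
  -- the square root of `lam H`
  have hA : Real.sqrt lam * Real.sqrt H ≤ s / (14 * u) := by
    rw [← Real.sqrt_mul hlam0.le, Real.sqrt_le_left (by positivity)]
    calc lam * H ≤ lam * (2 * (u / s)) := by gcongr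
      _ = s ^ 2 / (64 * Real.pi * u ^ 2) := by rw [hlam, ← hts]; field_simp; norm_num
      _ ≤ (s / (14 * u)) ^ 2 := by
          rw [div_pow]
          apply div_le_div_of_nonneg_left (by positivity) (by positivity)
          have : 0 < u ^ 2 := by positivity
          nlinarith
  have hB : s / (21 * u) ≤ Real.sqrt lam * Real.sqrt H := by
    rw [← Real.sqrt_mul hlam0.le]
    apply Real.le_sqrt_of_sq_le
    calc (s / (21 * u)) ^ 2 ≤ s ^ 2 / (128 * Real.pi * u ^ 2) := by
          rw [div_pow]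
          apply div_le_div_of_nonneg_left (by positivity) (by positivity)
          have : 0 < u ^ 2 := by positivity
          nlinarith
      _ = lam * (u / s) := by rw [hlam, ← hts]; field_simp; norm_num
      _ ≤ lam * H := by gcongr
  have hAB0 : 0 < Real.sqrt lam * Real.sqrt H := mul_pos hsq0 (Real.sqrt_pos.2 hH0)
  have hHs : Real.sqrt H * Real.sqrt H = H := Real.mul_self_sqrt hH0.le
  have hsH0 : 0 < Real.sqrt H := Real.sqrt_pos.2 hH0
  have h1 : 1 / (Real.sqrt lam * Real.sqrt H) ≤ 21 * u / s := by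
    rw [div_le_div_iff₀ hAB0 hs0]
    rw [div_le_iff₀ (by positivity)] at hB
    linarith
  have hfin : ‖∑ n ∈ range L, z n‖ ^ 2 ≤ (L + H) * (L / H + 1536 * (L * (Real.sqrt lam * Real.sqrt H)) +
      72 * (1 / (Real.sqrt lam * Real.sqrt H))) := by
    have h2 : (H : ℝ) * ‖∑ n ∈ range L, z n‖ ^ 2 ≤ H * ((L + H) * (L / H + 1536 * (L * (Real.sqrt lam * Real.sqrt H)) +
      72 * (1 / (Real.sqrt lam * Real.sqrt H)))) := by
      refine hv.trans ?_
      have e4 : (H : ℝ) * ((L + H) * (L / H + 1536 * (L * (Real.sqrt lam * Real.sqrt H)) +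
          72 * (1 / (Real.sqrt lam * Real.sqrt H)))) = (L + H) * (L + 2 * (H * (768 * (L * (Real.sqrt lam * Real.sqrt H))) +
          18 / Real.sqrt lam * (2 * Real.sqrt H))) := by
        have e5 : (H : ℝ) * (1 / (Real.sqrt lam * Real.sqrt H)) = Real.sqrt H / Real.sqrt lam := by
          calc (H : ℝ) * (1 / (Real.sqrt lam * Real.sqrt H)) =
                (Real.sqrt H * Real.sqrt H) * (1 / (Real.sqrt lam * Real.sqrt H)) := by rw [hHs]
            _ = Real.sqrt H / Real.sqrt lam := by field_simp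
        have e6 : (H : ℝ) * (L / H) = L := by field_simp
        calc (H : ℝ) * ((L + H) * (L / H + 1536 * (L * (Real.sqrt lam * Real.sqrt H)) +
            72 * (1 / (Real.sqrt lam * Real.sqrt H)))) = (L + H) * ((H * (L / H)) + 2 * (H * (768 * (L * (Real.sqrt lam * Real.sqrt H)))) +
            72 * (H * (1 / (Real.sqrt lam * Real.sqrt H)))) := by ring
          _ = _ := by rw [e5, e6]; ring
      rw [e4]
      gcongr
    exact le_of_mul_le_mul_left h2 hH0
  refine hfin.trans ?_
  have h3 : (L : ℝ) / H ≤ 3 * s := by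
    rw [div_le_iff₀ hH0]
    have : u ≤ H * s := by rwa [div_le_iff₀ hs0] at hH1
    nlinarith
  have h4 : (L : ℝ) * (Real.sqrt lam * Real.sqrt H) ≤ (3 * u) * (s / (14 * u)) := by gcongr
  have e5 : (3 * u) * (s / (14 * u)) = 3 / 14 * s := by field_simp
  rw [e5] at h4
  have h5 : (L : ℝ) + H ≤ 5 * u := by linarith
  calc ((L : ℝ) + H) * (L / H + 1536 * (L * (Real.sqrt lam * Real.sqrt H)) +
      72 * (1 / (Real.sqrt lam * Real.sqrt H)))
      ≤ (5 * u) * (3 * s + 1536 * (3 / 14 * s) + 72 * (21 * u / s)) := by gcongr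
    _ ≤ 40000 * (u * s + u ^ 2 / s) := by
        have e6 : (5 * u) * (3 * s + 1536 * (3 / 14 * s) + 72 * (21 * u / s)) =
          (15 + 5 * 1536 * 3 / 14) * (u * s) + 7560 * (u ^ 2 / s) := by
          field_simp; ring
        rw [e6]
        have : 0 ≤ u ^ 2 / s := by positivity
        have : 0 ≤ u * s := by positivity
        nlinarith

end Pool.Agent.H43.SL.Wey
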