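import Pool.Agent.H43.SL.Energy

/-!
Windows and progressions.
-/

set_option autoImplicit false

namespace Pool.Agent.H43.SL

open Finset
open Pool.Agent.helper24_UT (NN)

/-- one class in a window -/
lemma class_sum (D : ℤ → ℝ) (u : ℤ) (W q i : ℕ) (hi1 : 1 ≤ i) (hiq : i ≤ q) (hqW : q ≤ W) :
    ∑ m ∈ (Ioc u (u + W)).filter (fun m => m % (q : ℤ) = (u + i) % (q : ℤ)), D m =
      Sq D q ((W - i) / q + 1) (u + i) := by
  unfold Sq
  have hq : 0 < q := by omega
  have hqz : (0 : ℤ) < q := by exact_mod_cast hq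
  symm
  refine Finset.sum_nbij' (fun j : ℕ => u + i + (q : ℤ) * j) (fun m : ℤ => ((m - u - i) / q).toNat) ?_ ?_ ?_ ?_ ?_
  · intro j hj
    rw [mem_range] at hj
    have h1 : q * j ≤ W - i := by
      have h2 : j ≤ (W - i) / q := by omega
      calc q * j ≤ q * ((W - i) / q) := Nat.mul_le_mul_left _ h2
        _ ≤ W - i := Nat.mul_div_le _ _
    have h3 : ((q : ℤ) * j) ≤ W - i := by
      have : ((q * j : ℕ) : ℤ) ≤ ((W - i : ℕ) : ℤ) := by exact_mod_cast h1
      push_cast at this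
      omega
    have h4 : (0 : ℤ) ≤ (q : ℤ) * j := by positivity
    rw [mem_filter, mem_Ioc]
    refine ⟨⟨by omega, by omega⟩, ?_⟩
    rw [Int.add_mul_emod_self_left]
  · intro m hm
    rw [mem_filter, mem_Ioc] at hm
    obtain ⟨⟨h1, h2⟩, h3⟩ := hm
    have h4 : (q : ℤ) ∣ m - (u + i) := Int.ModEq.dvd h3.symm
    obtain ⟨k, hk⟩ := h4
    have hk0 : 0 ≤ k := by
      by_contra hneg
      have : k ≤ -1 := by omega
      have h5 : (q : ℤ) * k ≤ -q := by nlinarith
      omega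
    have e : (m - u - i) / (q : ℤ) = k := by
      rw [show m - u - (i : ℤ) = (q : ℤ) * k by linarith, Int.mul_ediv_cancel_left _ (by omega)]
    rw [mem_range, e]
    have h5 : q * k.toNat ≤ W - i := by
      have : (q : ℤ) * k ≤ W - i := by omega
      have h6 : ((q * k.toNat : ℕ) : ℤ) ≤ ((W - i : ℕ) : ℤ) := by
        push_cast
        rw [Int.toNat_of_nonneg hk0]
        omega
      exact_mod_cast h6
    have h6 : k.toNat ≤ (W - i) / q := (Nat.le_div_iff_mul_le hq).2 (by rw [mul_comm]; exact h5)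
    omega
  · intro j _
    have : (u + i + (q : ℤ) * j - u - i) = (q : ℤ) * j := by ring
    rw [this, Int.mul_ediv_cancel_left _ (by omega)]
    simp
  · intro m hm
    rw [mem_filter, mem_Ioc] at hm
    obtain ⟨⟨h1, h2⟩, h3⟩ := hm
    have h4 : (q : ℤ) ∣ m - (u + i) := Int.ModEq.dvd h3.symm
    obtain ⟨k, hk⟩ := h4
    have hk0 : 0 ≤ k := by
      by_contra hneg
      have : k ≤ -1 := by omega
      have h5 : (q : ℤ) * k ≤ -q := by nlinarith
      omega
    have e : (m - u - i) / (q : ℤ) = k := by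
      rw [show m - u - (i : ℤ) = (q : ℤ) * k by linarith, Int.mul_ediv_cancel_left _ (by omega)]
    rw [e, Int.toNat_of_nonneg hk0]
    linarith
  · intro j _
    rfl

/-- the sum over the residue classes in terms of progressions -/
lemma NN_eq_Sq (D : ℤ → ℝ) (u : ℤ) (W q : ℕ) (hq : 1 ≤ q) (hqW : q ≤ W) :
    NN D u W q = ∑ i ∈ Icc 1 q, (Sq D q ((W - i) / q + 1) (u + (i : ℕ))) ^ 2 := by
  have hqz : (0 : ℤ) < q := by exact_mod_cast hq
  have hq0 : (q : ℤ) ≠ 0 := hqz.ne'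
  unfold NN
  symm
  refine Finset.sum_bij (fun (i : ℕ) _ => ((u + i) % (q : ℤ)).toNat) ?_ ?_ ?_ ?_
  · intro i hi
    rw [mem_range]
    have h0 := Int.emod_nonneg (u + i) hq0
    have h1 := Int.emod_lt_of_pos (u + i) hqz
    omega
  · intro i hi j hj hij
    rw [mem_Icc] at hi hj
    have h0 := Int.emod_nonneg (u + i) hq0
    have h0' := Int.emod_nonneg (u + j) hq0
    have h1 : (u + i) % (q : ℤ) = (u + j) % (q : ℤ) := by
      have h2 : (((u + i) % (q : ℤ)).toNat : ℤ) = (((u + j) % (q : ℤ)).toNat : ℤ) := by exact_mod_cast hij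
      rwa [Int.toNat_of_nonneg h0, Int.toNat_of_nonneg h0'] at h2
    have h2 : (q : ℤ) ∣ (u + j) - (u + i) := Int.ModEq.dvd h1
    obtain ⟨k, hk⟩ := h2
    have h3 : (j : ℤ) - i = (q : ℤ) * k := by linarith
    have h4 : k = 0 := by
      by_contra hk0
      rcases lt_or_gt_of_ne hk0 with h | h
      · have : (q : ℤ) * k ≤ -q := by nlinarith
        omega
      · have : (q : ℤ) ≤ (q : ℤ) * k := by nlinarith
        omega
    rw [h4, mul_zero] at h3
    omega
  · intro r hr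
    rw [mem_range] at hr
    set t := ((r : ℤ) - u - 1) % (q : ℤ) with ht
    have h0 := Int.emod_nonneg ((r : ℤ) - u - 1) hq0
    have h1 := Int.emod_lt_of_pos ((r : ℤ) - u - 1) hqz
    refine ⟨t.toNat + 1, ?_, ?_⟩
    · rw [mem_Icc]; omega
    · have e : (((t.toNat + 1 : ℕ) : ℤ)) = t + 1 := by
        push_cast
        rw [Int.toNat_of_nonneg h0]
      have h2 : (u + (t + 1)) % (q : ℤ) = r := by
        have h3 : u + (t + 1) = r - (q : ℤ) * (((r : ℤ) - u - 1) / q) := by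
          have := Int.emod_add_mul_ediv ((r : ℤ) - u - 1) (q : ℤ)
          linarith
        rw [h3, Int.sub_mul_emod_self_left]
        exact Int.emod_eq_of_lt (by omega) (by omega)
      simp only [e, h2]
      simp
  · intro i hi
    rw [mem_Icc] at hi
    have h0 := Int.emod_nonneg (u + i) hq0
    rw [Int.toNat_of_nonneg h0, class_sum D u W q i hi.1 hi.2 hqW]

/-- the sum of `NN` over all windows -/
lemma tsum_NN {D : ℤ → ℝ} (h : Fs D) (W q : ℕ) (hq : 1 ≤ q) (hqW : q ≤ W) :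
    ∑' u : ℤ, NN D u W q = ∑ i ∈ Icc 1 q, E2 (Sq D q ((W - i) / q + 1)) := by
  have h1 : ∀ u : ℤ, NN D u W q = ∑ i ∈ Icc 1 q, (Sq D q ((W - i) / q + 1) (u + (i : ℕ))) ^ 2 :=
    fun u => NN_eq_Sq D u W q hq hqW
  simp_rw [h1]
  rw [Summable.tsum_finsetSum (fun i _ => ((Sq_fs h q ((W - i) / q + 1)).shift (i : ℕ)).sq.summable)]
  refine sum_congr rfl fun i _ => ?_
  exact E2_shift _ _

lemma NN_fs {D : ℤ → ℝ} (h : Fs D) (W q : ℕ) (hq : 1 ≤ q) (hqW : q ≤ W) : Fs (fun u => NN D u W q) := by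
  have h1 : (fun u : ℤ => NN D u W q) =
      fun u => ∑ i ∈ Icc 1 q, (Sq D q ((W - i) / q + 1) (u + (i : ℕ))) ^ 2 :=
    funext fun u => NN_eq_Sq D u W q hq hqW
  rw [h1]
  exact Fs.sum _ (fun i u => (Sq D q ((W - i) / q + 1) (u + (i : ℕ))) ^ 2)
    fun i _ => ((Sq_fs h q ((W - i) / q + 1)).shift (i : ℕ)).sq

/-- a progression as long as the window -/
lemma win {D : ℤ → ℝ} (h : Fs D) (W q : ℕ) (hq : 1 ≤ q) (hqW : q ≤ W) :
    ∃ w : ℕ, W / q ≤ w ∧ w ≤ W / q + 1 ∧ (q : ℝ) * E2 (Sq D q w) ≤ 2 * ∑' u : ℤ, NN D u W q := by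
  set S := ∑' u : ℤ, NN D u W q with hS
  have hSe := tsum_NN h W q hq hqW
  rw [← hS] at hSe
  set J : ℕ → ℕ := fun i => (W - i) / q + 1 with hJ
  have hJ2 : ∀ i ∈ Icc 1 q, J i = W / q ∨ J i = W / q + 1 := by
    intro i hi
    rw [mem_Icc] at hi
    simp only [hJ]
    have h1 : (W - i) / q ≤ W / q := Nat.div_le_div_right (by omega)
    have h2 : (W - q) / q ≤ (W - i) / q := Nat.div_le_div_right (by omega)
    have h3 : W / q = (W - q) / q + 1 := Nat.div_eq_sub_div hq hqW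
    omega
  have hterm : ∀ w : ℕ, (((Icc 1 q).filter (fun i => J i = w)).card : ℝ) * E2 (Sq D q w) ≤ S := by
    intro w
    rw [hSe]
    calc (((Icc 1 q).filter (fun i => J i = w)).card : ℝ) * E2 (Sq D q w) =
          ∑ i ∈ (Icc 1 q).filter (fun i => J i = w), E2 (Sq D q (J i)) := by
            rw [sum_congr rfl (g := fun _ => E2 (Sq D q w)), sum_const, nsmul_eq_mul]
            intro i hi
            rw [(mem_filter.1 hi).2]
      _ ≤ ∑ i ∈ Icc 1 q, E2 (Sq D q (J i)) :=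
          sum_le_sum_of_subset_of_nonneg (filter_subset _ _) fun _ _ _ => E2_nonneg _
  have hcard : q ≤ ((Icc 1 q).filter (fun i => J i = W / q)).card +
      ((Icc 1 q).filter (fun i => J i = W / q + 1)).card := by
    have h1 : Icc 1 q ⊆ (Icc 1 q).filter (fun i => J i = W / q) ∪ (Icc 1 q).filter (fun i => J i = W / q + 1) := by
      intro i hi
      rw [mem_union, mem_filter, mem_filter]
      rcases hJ2 i hi with h | h
      · exact Or.inl ⟨hi, h⟩
      · exact Or.inr ⟨hi, h⟩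
    have h2 := (card_le_card h1).trans (card_union_le _ _)
    rwa [Nat.card_Icc, Nat.add_sub_cancel] at h2
  have ht0 := hterm (W / q)
  have ht1 := hterm (W / q + 1)
  rcases le_total ((Icc 1 q).filter (fun i => J i = W / q)).card
      ((Icc 1 q).filter (fun i => J i = W / q + 1)).card with hc | hc
  · refine ⟨W / q + 1, Nat.le_succ _, le_rfl, ?_⟩
    have h1 : (q : ℝ) ≤ 2 * (((Icc 1 q).filter (fun i => J i = W / q + 1)).card : ℝ) := by
      exact_mod_cast (by omega : q ≤ 2 * ((Icc 1 q).filter (fun i => J i = W / q + 1)).card)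
    have := E2_nonneg (Sq D q (W / q + 1))
    calc (q : ℝ) * E2 (Sq D q (W / q + 1)) ≤
          (2 * (((Icc 1 q).filter (fun i => J i = W / q + 1)).card : ℝ)) * E2 (Sq D q (W / q + 1)) := by gcongr
      _ ≤ 2 * S := by linarith
  · refine ⟨W / q, le_rfl, Nat.le_succ _, ?_⟩
    have h1 : (q : ℝ) ≤ 2 * (((Icc 1 q).filter (fun i => J i = W / q)).card : ℝ) := by
      exact_mod_cast (by omega : q ≤ 2 * ((Icc 1 q).filter (fun i => J i = W / q)).card)
    have := E2_nonneg (Sq D q (W / q))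
    calc (q : ℝ) * E2 (Sq D q (W / q)) ≤
          (2 * (((Icc 1 q).filter (fun i => J i = W / q)).card : ℝ)) * E2 (Sq D q (W / q)) := by gcongr
      _ ≤ 2 * S := by linarith

/-- progressions of any length -/
lemma prog_le {D : ℤ → ℝ} (h : Fs D) (W q L : ℕ) (hq : 1 ≤ q) (hqW : q ≤ W) :
    E2 (Sq D q L) ≤ 16 * (L : ℝ) ^ 2 / (W : ℝ) ^ 2 * (q * ∑' u : ℤ, NN D u W q) +
      8 * ((W : ℝ) / q) ^ 2 * E2 D := by
  obtain ⟨w, hw1, hw2, hw3⟩ := win h W q hq hqW
  set S := ∑' u : ℤ, NN D u W q with hS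
  have hW0 : (0 : ℝ) < W := by exact_mod_cast (by omega : 0 < W)
  have hq0 : (0 : ℝ) < q := by exact_mod_cast hq
  have hWq : 1 ≤ W / q := (Nat.one_le_div_iff hq).2 hqW
  have hw0 : 1 ≤ w := hWq.trans hw1
  have hw0r : (0 : ℝ) < w := by exact_mod_cast hw0
  have hlow : (W : ℝ) ≤ 2 * q * w := by
    have h1 : W < q * (W / q + 1) := Nat.lt_mul_div_succ W hq
    have h2 : q * (W / q + 1) ≤ q * (2 * w) := Nat.mul_le_mul_left _ (by omega)
    have h3 : W ≤ 2 * q * w := by nlinarith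
    exact_mod_cast h3
  have hup : (w : ℝ) * q ≤ 2 * W := by
    have h1 : q * (W / q) ≤ W := Nat.mul_div_le _ _
    have h2 : w * q ≤ 2 * W := by nlinarith
    exact_mod_cast h2
  have hLw : ((L / w : ℕ) : ℝ) ≤ 2 * q * L / W := by
    refine Nat.cast_div_le.trans ?_
    rw [div_le_div_iff₀ hw0r hW0]
    have : (0 : ℝ) ≤ L := Nat.cast_nonneg _
    nlinarith
  have hS0 : 0 ≤ E2 (Sq D q w) := E2_nonneg _
  have hD0 : 0 ≤ E2 D := E2_nonneg _
  refine (E2_Sq_le h q L w hw0).trans (add_le_add ?_ ?_)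
  · have h1 : E2 (Sq D q w) ≤ 2 / q * S := by
      rw [div_mul_eq_mul_div, le_div_iff₀ hq0, mul_comm]
      exact hw3
    calc 2 * ((L / w : ℕ) : ℝ) ^ 2 * E2 (Sq D q w) ≤ 2 * (2 * q * L / W) ^ 2 * (2 / q * S) := by gcongr
      _ = 16 * (L : ℝ) ^ 2 / (W : ℝ) ^ 2 * (q * S) := by
          field_simp
          ring
  · have h1 : (w : ℝ) ≤ 2 * (W / q) := by
      rw [← mul_div_assoc, le_div_iff₀ hq0]
      exact hup
    calc 2 * (w : ℝ) ^ 2 * E2 D ≤ 2 * (2 * (W / q)) ^ 2 * E2 D := by gcongr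
      _ = _ := by ring

end Pool.Agent.H43.SL
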